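import Pool.Agent.Lib.H89G.Defs

/-! H89G, chunk A1 (S): the measure of `E` outside a translate. -/

open MeasureTheory Set Metric Filter Topology
open scoped ENNReal

namespace Pool.Agent.H89G

open Pool.Agent.H81St

variable {V : Type*} [NormedAddCommGroup V] [InnerProductSpace ℝ V] [FiniteDimensional ℝ V]
  [MeasurableSpace V] [BorelSpace V]

/-- `E \ (E + w)` is a subset of `E`. -/
theorem gap_le (E : Set V) (w : V) : gap E w ≤ volume E := measure_mono sdiff_subset

/-- `E \ (E + v + w) ⊆ (E \ (E + v)) ∪ ((E + v) \ (E + v + w))`, and the second set is the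
translate by `v` of `E \ (E + w)`, i.e. the preimage of `E \ {x | x - w ∈ E}` under
`x ↦ x - v` (`measure_preimage_sub_right` or `measure_preimage_add_right`; no measurability is
needed). -/
theorem gap_add_le (E : Set V) (v w : V) : gap E (v + w) ≤ gap E v + gap E w := by
  have h1 : E \ {x | x - (v + w) ∈ E} ⊆
      (E \ {x | x - v ∈ E}) ∪ ((fun x => x + (-v)) ⁻¹' (E \ {x | x - w ∈ E})) := by
    rintro x ⟨hx1, hx2⟩
    by_cases h : x - v ∈ E
    · right
      refine ⟨by simpa [sub_eq_add_neg] using h, ?_⟩
      intro h3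
      apply hx2
      show x - (v + w) ∈ E
      have h4 : (x + (-v)) - w ∈ E := h3
      have e : x - (v + w) = (x + (-v)) - w := by abel
      rw [e]
      exact h4
    · exact Or.inl ⟨hx1, h⟩
  calc gap E (v + w) ≤ volume ((E \ {x | x - v ∈ E}) ∪
        ((fun x => x + (-v)) ⁻¹' (E \ {x | x - w ∈ E}))) := measure_mono h1
    _ ≤ volume (E \ {x | x - v ∈ E}) +
        volume ((fun x => x + (-v)) ⁻¹' (E \ {x | x - w ∈ E})) := measure_union_le _ _
    _ = gap E v + gap E w := by rw [measure_preimage_add_right]; rfl

theorem a1_zero (E : Set V) : gap E 0 = 0 := by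
  unfold gap
  simp

/-- Induction on `k` with `gap_add_le`; `gap E 0 = volume ∅ = 0`. -/
theorem gap_nsmul_le (E : Set V) (w : V) (k : ℕ) : gap E ((k : ℝ) • w) ≤ k * gap E w := by
  induction k with
  | zero => simp [a1_zero]
  | succ k ih =>
    have e : ((k + 1 : ℕ) : ℝ) • w = (k : ℝ) • w + w := by
      push_cast
      rw [add_smul, one_smul]
    rw [e]
    refine (gap_add_le E _ _).trans ?_
    push_cast
    rw [add_mul, one_mul]
    exact add_le_add ih le_rfl

/-- `E \ (E - w)` has the volume of its translate `(E + w) \ E`, which is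
`|E + w| - |E ∩ (E + w)| = |E| - |E ∩ (E + w)| = |E \ (E + w)|`. -/
theorem gap_neg {E : Set V} (hE : MeasurableSet E) (hf : volume E ≠ ⊤) (w : V) :
    gap E (-w) = gap E w := by
  set T : Set V := (fun x => x + (-w)) ⁻¹' E with hT
  have hTm : MeasurableSet T := hE.preimage (measurable_add_const _)
  have hTv : volume T = volume E := measure_preimage_add_right volume (-w) E
  have h1 : gap E (-w) = volume (T \ E) := by
    have e : T \ E = (fun x => x + (-w)) ⁻¹' (E \ {x | x - (-w) ∈ E}) := by
      ext x
      simp [hT]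
    rw [e, measure_preimage_add_right]
    rfl
  have h2 : gap E w = volume (E \ T) := by
    have e : {x | x - w ∈ E} = T := by
      ext x
      simp [hT, sub_eq_add_neg]
    unfold gap
    rw [e]
  have hfT : volume T ≠ ⊤ := by rw [hTv]; exact hf
  have h3 : volume (T \ E) + volume (T ∩ E) = volume (E \ T) + volume (T ∩ E) := by
    rw [measure_sdiff_add_inter T hE, hTv, inter_comm, measure_sdiff_add_inter E hTm]
  have hfi : volume (T ∩ E) ≠ ⊤ := ne_top_of_le_ne_top hf (measure_mono inter_subset_right)
  rw [h1, h2]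
  exact (ENNReal.add_left_inj hfi).mp h3

end Pool.Agent.H89G
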