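import Pool.Agent.Lib.H89G.A1

/-! H89G, chunk A2 (S/M): the directional perimeter is a seminorm. The lemmas of A1 may be used. -/

open MeasureTheory Set Metric Filter Topology
open scoped ENNReal

namespace Pool.Agent.H89G

open Pool.Agent.H81St

variable {V : Type*} [NormedAddCommGroup V] [InnerProductSpace ℝ V] [FiniteDimensional ℝ V]
  [MeasurableSpace V] [BorelSpace V]

/-- For `t > 0` this is the definition of the supremum (multiply `gap / ofReal t ≤ dper` by
`ofReal t`, which is neither `0` nor `⊤`); for `t = 0` both sides are `0`, because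
`gap E 0 = volume ∅`. -/
theorem gap_le_dper (E : Set V) (v : V) {t : ℝ} (ht : 0 ≤ t) :
    gap E (t • v) ≤ ENNReal.ofReal t * dper E v := by
  rcases ht.eq_or_lt with h | h
  · rw [← h, zero_smul, a1_zero]
    exact zero_le
  · have h1 : gap E (t • v) / ENNReal.ofReal t ≤ dper E v :=
      le_iSup₂_of_le (f := fun (t : ℝ) (_ : 0 < t) => gap E (t • v) / ENNReal.ofReal t) t h le_rfl
    have h2 : ENNReal.ofReal t ≠ 0 := by simpa using h
    rw [mul_comm]
    exact (ENNReal.div_le_iff h2 ENNReal.ofReal_ne_top).mp h1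

/-- the converse criterion -/
theorem a2_le {E : Set V} {v : V} {C : ℝ≥0∞}
    (h : ∀ t : ℝ, 0 < t → gap E (t • v) ≤ ENNReal.ofReal t * C) : dper E v ≤ C := by
  refine iSup₂_le fun t ht => ?_
  have h2 : ENNReal.ofReal t ≠ 0 := by simpa using ht
  rw [ENNReal.div_le_iff h2 ENNReal.ofReal_ne_top, mul_comm]
  exact h t ht

/-- `gap E (t • (v + w)) ≤ gap E (t • v) + gap E (t • w) ≤ t (dper E v + dper E w)`; divide by
`t` and take the supremum. -/
theorem dper_add_le (E : Set V) (v w : V) : dper E (v + w) ≤ dper E v + dper E w := by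
  refine a2_le fun t ht => ?_
  rw [smul_add, mul_add]
  exact (gap_add_le E _ _).trans (add_le_add (gap_le_dper E v ht.le) (gap_le_dper E w ht.le))

/-- `gap E (t • -v) = gap E (t • v)` by `gap_neg`. -/
theorem dper_neg {E : Set V} (hE : MeasurableSet E) (hf : volume E ≠ ⊤) (v : V) :
    dper E (-v) = dper E v := by
  unfold dper
  simp only [smul_neg, gap_neg hE hf]

theorem a2_smul_le (E : Set V) {c : ℝ} (hc : 0 < c) (v : V) :
    dper E (c • v) ≤ ENNReal.ofReal c * dper E v := by
  refine a2_le fun t ht => ?_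
  rw [smul_smul, ← mul_assoc, ← ENNReal.ofReal_mul ht.le]
  exact gap_le_dper E v (mul_pos ht hc).le

theorem a2_smul_pos (E : Set V) {c : ℝ} (hc : 0 < c) (v : V) :
    dper E (c • v) = ENNReal.ofReal c * dper E v := by
  refine le_antisymm (a2_smul_le E hc v) ?_
  have h1 := a2_smul_le E (inv_pos.mpr hc) (c • v)
  rw [smul_smul, inv_mul_cancel₀ hc.ne', one_smul] at h1
  calc ENNReal.ofReal c * dper E v ≤ ENNReal.ofReal c * (ENNReal.ofReal c⁻¹ * dper E (c • v)) :=
        mul_le_mul_right h1 _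
    _ = dper E (c • v) := by
        rw [← mul_assoc, ← ENNReal.ofReal_mul hc.le, mul_inv_cancel₀ hc.ne', ENNReal.ofReal_one,
          one_mul]

/-- For `c = 0`: `gap E (t • 0) = 0`, both sides are `0`. For `c > 0` substitute
`t' = t c` in the supremum: `gap E (t • c • v) / t = c * (gap E (t' • v) / t')`; prove `≤` from
`gap_le_dper` (with `t c`) and `≥` by applying `≤` to `c⁻¹` and `c • v`. For `c < 0` use
`dper_neg`. -/
theorem dper_smul {E : Set V} (hE : MeasurableSet E) (hf : volume E ≠ ⊤) (c : ℝ) (v : V) :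
    dper E (c • v) = ENNReal.ofReal |c| * dper E v := by
  rcases lt_trichotomy c 0 with h | h | h
  · have e : c • v = -(|c| • v) := by
      rw [abs_of_neg h, neg_smul, neg_neg]
    rw [e, dper_neg hE hf, a2_smul_pos E (abs_pos.mpr h.ne)]
  · subst h
    rw [zero_smul, abs_zero, ENNReal.ofReal_zero, zero_mul]
    refine le_antisymm (a2_le fun t _ => ?_) zero_le
    rw [smul_zero, a1_zero]
    exact zero_le
  · rw [abs_of_pos h, a2_smul_pos E h]

/-- `dper E v = sup gap(t v)/t` is a limit for small `t`: if `gap E (t v) ≤ t (C + ε)` for all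
small `t` (for every `ε`), then `dper E v ≤ C`. Proof: let `ε > 0` and `δ` as in the
hypothesis, `t > 0` arbitrary; choose `k : ℕ`, `k > 0`, with `t / k < δ`. Then
`gap E (t • v) = gap E (k • ((t/k) • v)) ≤ k * gap E ((t/k) • v) ≤ k * (ofReal (t/k) * (C + ε))
= ofReal t * (C + ε)` (`gap_nsmul_le`), so `gap E (t • v) / ofReal t ≤ C + ofReal ε`. Take the
supremum over `t` and then `ε → 0` (`ENNReal.le_of_forall_pos_le_add`). -/
theorem dper_le_of_small {E : Set V} {v : V} {C : ℝ≥0∞}
    (h : ∀ ε : ℝ, 0 < ε → ∃ δ > 0, ∀ t ∈ Ioo (0 : ℝ) δ,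
      gap E (t • v) ≤ ENNReal.ofReal t * (C + ENNReal.ofReal ε)) : dper E v ≤ C := by
  refine ENNReal.le_of_forall_pos_le_add ?_
  intro ε hε _
  obtain ⟨δ, hδ, hh⟩ := h ε (by exact_mod_cast hε)
  have hε' : ENNReal.ofReal (ε : ℝ) = (ε : ℝ≥0∞) := ENNReal.ofReal_coe_nnreal
  rw [hε'] at hh
  refine a2_le fun t ht => ?_
  obtain ⟨k, hk⟩ := exists_nat_gt (t / δ)
  have hk0 : (0 : ℝ) < k := lt_of_le_of_lt (by positivity) hk
  have htk : t / k < δ := by
    rw [div_lt_iff₀ hk0]
    rw [div_lt_iff₀ hδ] at hk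
    linarith
  have e : t • v = (k : ℝ) • ((t / k) • v) := by
    rw [smul_smul, mul_div_cancel₀ t hk0.ne']
  rw [e]
  refine (gap_nsmul_le E _ k).trans ?_
  have h1 := hh (t / k) ⟨by positivity, htk⟩
  calc (k : ℝ≥0∞) * gap E ((t / k) • v) ≤ k * (ENNReal.ofReal (t / k) * (C + ε)) :=
        mul_le_mul_right h1 _
    _ = ENNReal.ofReal t * (C + ε) := by
        rw [← mul_assoc, ← ENNReal.ofReal_natCast, ← ENNReal.ofReal_mul hk0.le,
          mul_div_cancel₀ t hk0.ne']

end Pool.Agent.H89G
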