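import Pool.Agent.Lib.H89G.A2

/-! H89G, chunk A4 (M): isometries, balls. The lemmas of A1, A2 may be used. -/

open MeasureTheory Set Metric Filter Topology
open scoped ENNReal

namespace Pool.Agent.H89G

open Pool.Agent.H81St

variable {V : Type*} [NormedAddCommGroup V] [InnerProductSpace ℝ V] [FiniteDimensional ℝ V]
  [MeasurableSpace V] [BorelSpace V]

variable {V' : Type*} [NormedAddCommGroup V'] [InnerProductSpace ℝ V'] [FiniteDimensional ℝ V']
  [MeasurableSpace V'] [BorelSpace V']

theorem a4_gap_image (e : V ≃ₗᵢ[ℝ] V') (E : Set V) (v : V) : gap (e '' E) (e v) = gap E v := by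
  have h1 : (e ⁻¹' ((e '' E) \ {x | x - e v ∈ e '' E})) = E \ {x | x - v ∈ E} := by
    ext x
    have h2 : ∀ y : V, e y ∈ e '' E ↔ y ∈ E := fun y => by
      constructor
      · rintro ⟨z, hz, hzy⟩
        rwa [← e.injective hzy]
      · intro hy
        exact ⟨y, hy, rfl⟩
    simp only [mem_preimage, Set.mem_sdiff, Set.mem_ofPred_eq, ← map_sub, h2]
  have h3 : MeasurePreserving e volume volume := e.measurePreserving
  have h4 : MeasurableEmbedding e := e.toHomeomorph.measurableEmbedding
  have h5 := h3.measure_preimage_emb h4 ((e '' E) \ {x | x - e v ∈ e '' E})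
  rw [h1] at h5
  exact h5.symm

/-- `e '' E \ {x | x - t • e v ∈ e '' E}` is the preimage under `e.symm` (or the image under
`e`) of `E \ {x | x - t • v ∈ E}`, and `e` preserves the volume
(`LinearIsometryEquiv.measurePreserving`; use `e.toHomeomorph.toMeasurableEquiv` so that no
measurability of `E` is needed). Hence the terms of the two suprema are equal. -/
theorem dper_image (e : V ≃ₗᵢ[ℝ] V') (E : Set V) (v : V) : dper (e '' E) (e v) = dper E v := by
  unfold dper
  have h : ∀ t : ℝ, gap (e '' E) (t • e v) = gap E (t • v) := fun t => by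
    rw [← map_smul, a4_gap_image]
  simp only [h]

/-- If `‖v‖ = ‖w‖` there is a linear isometry `e` with `e v = w` (the reflection in
`(ℝ ∙ (v - w))ᗮ`, Mathlib `Submodule.reflection_sub`), and `e '' closedBall 0 ρ =
closedBall 0 ρ`. Use `dper_image`. -/
theorem dper_ball_eq (ρ : ℝ) {v w : V} (h : ‖v‖ = ‖w‖) :
    dper (closedBall (0 : V) ρ) v = dper (closedBall (0 : V) ρ) w := by
  set e : V ≃ₗᵢ[ℝ] V := (Submodule.span ℝ {v - w})ᗮ.reflection with he
  have h1 : e v = w := Submodule.reflection_sub h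
  have h2 : e '' closedBall (0 : V) ρ = closedBall (0 : V) ρ := by
    rw [e.image_closedBall, map_zero]
  have h3 := dper_image e (closedBall (0 : V) ρ) v
  rw [h2, h1] at h3
  exact h3.symm

theorem a4_gap_scale {c : ℝ} (hc : 0 < c) (ρ : ℝ) (v : V) :
    gap (closedBall (0 : V) (c * ρ)) v
      = ENNReal.ofReal (c ^ (Module.finrank ℝ V)) * gap (closedBall (0 : V) ρ) (c⁻¹ • v) := by
  have hb : ∀ x : V, x ∈ closedBall (0 : V) (c * ρ) ↔ c⁻¹ • x ∈ closedBall (0 : V) ρ := by
    intro x
    rw [mem_closedBall_zero_iff, mem_closedBall_zero_iff, norm_smul, norm_inv, Real.norm_eq_abs,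
      abs_of_pos hc, inv_mul_le_iff₀ hc]
  have h1 : (closedBall (0 : V) (c * ρ)) \ {x | x - v ∈ closedBall (0 : V) (c * ρ)} =
      (fun x => c⁻¹ • x) ⁻¹' ((closedBall (0 : V) ρ) \ {x | x - c⁻¹ • v ∈ closedBall (0 : V) ρ}) := by
    ext x
    simp only [mem_preimage, Set.mem_sdiff, Set.mem_ofPred_eq, hb, smul_sub]
  unfold gap
  rw [h1, Measure.addHaar_preimage_smul volume (inv_ne_zero hc.ne')]
  congr 2
  rw [inv_pow, inv_inv, abs_of_pos (by positivity)]

/-- `x ∈ closedBall 0 (c ρ)` iff `c⁻¹ x ∈ closedBall 0 ρ`; hence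
`closedBall 0 (c ρ) \ {x | x - t v ∈ closedBall 0 (c ρ)}` is the preimage of
`closedBall 0 ρ \ {x | x - (t / c) v ∈ closedBall 0 ρ}` under `x ↦ c⁻¹ • x`, and
`Measure.addHaar_preimage_smul` gives `gap (closedBall 0 (c ρ)) (t v) = c ^ n * gap (closedBall 0
ρ) ((t / c) v)` with `n = finrank`. Divide by `t = c * (t / c)` and take suprema (`t ↦ t / c` is
a bijection of the positive reals; prove two inequalities with `iSup₂_le`, `le_iSup₂_of_le`, and
`ENNReal.mul_iSup` or `gap_le_dper`). -/
theorem dper_ball_scale {c : ℝ} (hc : 0 < c) (ρ : ℝ) (v : V) :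
    dper (closedBall (0 : V) (c * ρ)) v
      = ENNReal.ofReal (c ^ (Module.finrank ℝ V) / c) * dper (closedBall (0 : V) ρ) v := by
  have key : ∀ (c : ℝ) (hc : 0 < c) (ρ : ℝ), dper (closedBall (0 : V) (c * ρ)) v
      ≤ ENNReal.ofReal (c ^ (Module.finrank ℝ V) / c) * dper (closedBall (0 : V) ρ) v := by
    intro c hc ρ
    refine a2_le fun t ht => ?_
    rw [a4_gap_scale hc, smul_smul]
    calc ENNReal.ofReal (c ^ (Module.finrank ℝ V)) * gap (closedBall (0 : V) ρ) ((c⁻¹ * t) • v)
        ≤ ENNReal.ofReal (c ^ (Module.finrank ℝ V)) *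
          (ENNReal.ofReal (c⁻¹ * t) * dper (closedBall (0 : V) ρ) v) :=
          mul_le_mul_right (gap_le_dper _ v (by positivity)) _
      _ = ENNReal.ofReal t * (ENNReal.ofReal (c ^ (Module.finrank ℝ V) / c) *
          dper (closedBall (0 : V) ρ) v) := by
          rw [← mul_assoc, ← mul_assoc, ← ENNReal.ofReal_mul (by positivity),
            ← ENNReal.ofReal_mul ht.le]
          congr 2
          field_simp
  refine le_antisymm (key c hc ρ) ?_
  have h1 := key c⁻¹ (inv_pos.mpr hc) (c * ρ)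
  rw [← mul_assoc, inv_mul_cancel₀ hc.ne', one_mul] at h1
  calc ENNReal.ofReal (c ^ (Module.finrank ℝ V) / c) * dper (closedBall (0 : V) ρ) v
      ≤ ENNReal.ofReal (c ^ (Module.finrank ℝ V) / c) *
        (ENNReal.ofReal ((c⁻¹) ^ (Module.finrank ℝ V) / c⁻¹) *
          dper (closedBall (0 : V) (c * ρ)) v) := mul_le_mul_right h1 _
    _ = dper (closedBall (0 : V) (c * ρ)) v := by
        rw [← mul_assoc, ← ENNReal.ofReal_mul (by positivity)]
        have e : c ^ (Module.finrank ℝ V) / c * ((c⁻¹) ^ (Module.finrank ℝ V) / c⁻¹) = 1 := by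
          rw [inv_pow]
          have := hc.ne'
          field_simp
        rw [e, ENNReal.ofReal_one, one_mul]

end Pool.Agent.H89G
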