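import Pool.Agent.Lib.H89G.Defs

/-! H89G, chunk B1a (M): a set of real numbers with bounded variation along a sequence of scales
has no long alternating sequence of density points. Pure real analysis. -/

open MeasureTheory Set Metric Filter Topology
open scoped ENNReal

namespace Pool.Agent.H89G

theorem b1a_F {D : Set ℝ} (hD : MeasurableSet D) (hf : volume D ≠ ⊤) {a b : ℝ} (hab : a ≤ b) :
    (volume (D ∩ Ioc a b)).toReal = (volume (D ∩ Iic b)).toReal - (volume (D ∩ Iic a)).toReal := by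
  have h1 : D ∩ Ioc a b = (D ∩ Iic b) \ (D ∩ Iic a) := by
    ext x
    simp only [mem_inter_iff, mem_Ioc, Set.mem_diff, mem_Iic, not_and, not_le]
    exact ⟨fun h => ⟨⟨h.1, h.2.2⟩, fun _ => h.2.1⟩, fun h => ⟨h.1.1, h.2 h.1.1, h.1.2⟩⟩
  have h2 : D ∩ Iic a ⊆ D ∩ Iic b := inter_subset_inter_right _ (Iic_subset_Iic.mpr hab)
  have f1 : volume (D ∩ Iic b) ≠ ⊤ := ((measure_mono inter_subset_left).trans_lt hf.lt_top).ne
  have f2 : volume (D ∩ Iic a) ≠ ⊤ := ((measure_mono inter_subset_left).trans_lt hf.lt_top).ne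
  rw [h1, measure_diff h2 (hD.inter measurableSet_Iic).nullMeasurableSet f2,
    ENNReal.toReal_sub_of_le (measure_mono h2) f1]

theorem b1a_sum {D : Set ℝ} (hD : MeasurableSet D) (hf : volume D ≠ ⊤) (n : ℕ) (y : ℕ → ℝ)
    (hy : ∀ j < n, y (j + 1) < y j) :
    ∑ j ∈ Finset.range n, (volume (D ∩ Ioc (y (j + 1)) (y j))).toReal ≤ (volume D).toReal := by
  have h1 : ∑ j ∈ Finset.range n, (volume (D ∩ Ioc (y (j + 1)) (y j))).toReal
      = ∑ j ∈ Finset.range n, ((volume (D ∩ Iic (y j))).toReal - (volume (D ∩ Iic (y (j + 1)))).toReal) :=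
    Finset.sum_congr rfl fun j hj => b1a_F hD hf (hy j (Finset.mem_range.mp hj)).le
  rw [h1, Finset.sum_range_sub' (fun j => (volume (D ∩ Iic (y j))).toReal) n]
  have h2 : (volume (D ∩ Iic (y 0))).toReal ≤ (volume D).toReal :=
    ENNReal.toReal_mono hf (measure_mono inter_subset_left)
  have h3 : 0 ≤ (volume (D ∩ Iic (y n))).toReal := ENNReal.toReal_nonneg
  linarith

theorem b1a_step {A : Set ℝ} (hA : MeasurableSet A) (hf : volume A ≠ ⊤) {τ : ℝ} (hτ : 0 < τ)
    {a b : ℝ} (hab : a ≤ b) :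
    |(volume (A ∩ Icc b (b + τ))).toReal - (volume (A ∩ Icc a (a + τ))).toReal|
      ≤ (volume (({x | x + τ ∈ A} \ A) ∩ Ioc a b)).toReal
        + (volume ((A \ {x | x + τ ∈ A}) ∩ Ioc a b)).toReal := by
  have hms : MeasurableSet {x : ℝ | x + τ ∈ A} := (measurable_add_const τ) hA
  have e1 : ∀ c : ℝ, (volume (A ∩ Icc c (c + τ))).toReal = (volume (A ∩ Ioc c (c + τ))).toReal := by
    intro c
    have : (A ∩ Icc c (c + τ) : Set ℝ) =ᵐ[volume] (A ∩ Ioc c (c + τ) : Set ℝ) :=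
      (ae_eq_refl A).inter Ioc_ae_eq_Icc.symm
    rw [measure_congr this]
  have e2 : volume ({x | x + τ ∈ A} ∩ Ioc a b) = volume (A ∩ Ioc (a + τ) (b + τ)) := by
    have : ({x | x + τ ∈ A} ∩ Ioc a b : Set ℝ) = (fun x => x + τ) ⁻¹' (A ∩ Ioc (a + τ) (b + τ)) := by
      ext x
      simp
    rw [this, measure_preimage_add_right]
  have hfI : ∀ {D : Set ℝ}, volume (D ∩ Ioc a b) ≠ ⊤ := fun {D} =>
    ((measure_mono inter_subset_right).trans_lt (by simp : volume (Ioc a b) < ⊤)).ne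
  have hle : ∀ P Q : Set ℝ, (volume (P ∩ Ioc a b)).toReal
      ≤ (volume ((P \ Q) ∩ Ioc a b)).toReal + (volume (Q ∩ Ioc a b)).toReal := by
    intro P Q
    rw [← ENNReal.toReal_add hfI hfI]
    refine ENNReal.toReal_mono (ENNReal.add_ne_top.mpr ⟨hfI, hfI⟩) ?_
    refine (measure_mono ?_).trans (measure_union_le _ _)
    intro x hx
    by_cases hq : x ∈ Q
    · exact Or.inr ⟨hq, hx.2⟩
    · exact Or.inl ⟨⟨hx.1, hq⟩, hx.2⟩
  rw [e1, e1, b1a_F hA hf (by linarith : b ≤ b + τ), b1a_F hA hf (by linarith : a ≤ a + τ)]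
  have h1 := b1a_F hA hf (by linarith : a + τ ≤ b + τ)
  have h2 := b1a_F hA hf hab
  rw [← e2] at h1
  have h3 := hle {x | x + τ ∈ A} A
  have h4 := hle A {x | x + τ ∈ A}
  have n1 : 0 ≤ (volume (({x | x + τ ∈ A} \ A) ∩ Ioc a b)).toReal := ENNReal.toReal_nonneg
  have n2 : 0 ≤ (volume ((A \ {x | x + τ ∈ A}) ∩ Ioc a b)).toReal := ENNReal.toReal_nonneg
  rw [abs_le]
  constructor <;> linarith

theorem b1a_trans {A : Set ℝ} (hA : MeasurableSet A) (hf : volume A ≠ ⊤) (τ : ℝ) :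
    volume ({x | x + τ ∈ A} \ A) = volume (A \ {r | r - τ ∈ A}) ∧
      volume (A \ {x | x + τ ∈ A}) = volume (A \ {r | r - τ ∈ A}) := by
  have hB : MeasurableSet {r : ℝ | r - τ ∈ A} := (measurable_sub_const τ) hA
  have hvB : volume {r : ℝ | r - τ ∈ A} = volume A := by
    have : ({r : ℝ | r - τ ∈ A} : Set ℝ) = (fun x => x + (-τ)) ⁻¹' A := by
      ext x
      simp [sub_eq_add_neg]
    rw [this, measure_preimage_add_right]
  constructor
  · have : ({x : ℝ | x + τ ∈ A} \ A : Set ℝ) = (fun x => x + τ) ⁻¹' (A \ {r | r - τ ∈ A}) := by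
      ext x
      simp
    rw [this, measure_preimage_add_right]
  · have h1 : (A \ {x : ℝ | x + τ ∈ A} : Set ℝ) = (fun x => x + τ) ⁻¹' ({r | r - τ ∈ A} \ A) := by
      ext x
      simp
    rw [h1, measure_preimage_add_right]
    have h2 := measure_diff_add_inter (μ := volume) A hB
    have h3 := measure_diff_add_inter (μ := volume) {r : ℝ | r - τ ∈ A} hA
    rw [hvB, ← h2, inter_comm] at h3
    have hfin : volume (A ∩ {r | r - τ ∈ A}) ≠ ⊤ :=
      ((measure_mono inter_subset_left).trans_lt hf.lt_top).ne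
    exact (ENNReal.add_left_inj hfin).mp h3

/-- PROOF. Put `d τ y = |A ∩ [y, y + τ]| / τ` and `1_A` the indicator. For `y' < y` and `τ > 0`
`d τ y - d τ y' = (1/τ) ∫ x in y'..y, (1_A (x + τ) - 1_A x)`
(both sides equal `(1/τ) (|A ∩ [y, y+τ]| - |A ∩ [y', y'+τ]|)`: write the integral of
`1_A (x + τ)` over `(y', y]` as `|A ∩ (y' + τ, y + τ]|` and use additivity of
`x ↦ |A ∩ (-∞, x]|`). The intervals `(y (j+1), y j)`, `j < n`, are pairwise disjoint, so
`∑_{j < n} |d τ (y j) - d τ (y (j+1))| ≤ (1/τ) ∫ x, |1_A (x + τ) - 1_A x|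
 = (1/τ) (|A \ (A - τ)| + |(A - τ) \ A|) = (2/τ) |A \ (A + τ)|`
(the last step: both sets are translates of, or have the same measure as, `A \ (A + τ)`, because
`|A|` is finite; cf. `gap_neg`).
By the hypotheses on densities there is `τ₀ > 0` such that for `0 < τ < τ₀` and all `j ≤ n`
`d τ (y j) ≥ 3/4` for `j` even and `≤ 1/4` for `j` odd (finitely many conditions). By
hypothesis `h` there is a `k` with `(1/2)^k < τ₀` and `|A \ (A + (1/2)^k)| ≤ C (1/2)^k`
(`Frequently` and `Eventually`). With `τ = (1/2)^k` the sum is `≥ n/2` and `≤ 2 C`.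
(`ENNReal.ofReal (C * (1/2)^k)`: if `C < 0` it is `0` and then the sum is `≤ 0`, so use
`max C 0`; the conclusion is stated with `max C 0`.) -/
theorem alt_bound {A : Set ℝ} (hA : MeasurableSet A) (hf : volume A ≠ ⊤) {C : ℝ}
    (h : ∃ᶠ k : ℕ in atTop,
      volume (A \ {r | r - (1 / 2 : ℝ) ^ k ∈ A}) ≤ ENNReal.ofReal (C * (1 / 2) ^ k))
    (n : ℕ) (y : ℕ → ℝ) (hy : ∀ j < n, y (j + 1) < y j)
    (h1 : ∀ j ≤ n, Even j →
      Tendsto (fun τ => (volume (A ∩ Icc (y j) (y j + τ))).toReal / τ) (𝓝[>] 0) (𝓝 1))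
    (h0 : ∀ j ≤ n, ¬ Even j →
      Tendsto (fun τ => (volume (A ∩ Icc (y j) (y j + τ))).toReal / τ) (𝓝[>] 0) (𝓝 0)) :
    (n : ℝ) ≤ 4 * max C 0 := by
  have hseq : Tendsto (fun k : ℕ => ((1 : ℝ) / 2) ^ k) atTop (𝓝[>] 0) := by
    refine tendsto_nhdsWithin_iff.mpr ⟨tendsto_pow_atTop_nhds_zero_of_lt_one (by norm_num) (by norm_num), ?_⟩
    exact Eventually.of_forall fun k => pow_pos (by norm_num : (0 : ℝ) < 1 / 2) k
  have hev : ∀ j ∈ Finset.range (n + 1), ∀ᶠ τ in 𝓝[>] (0 : ℝ),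
      (Even j → 3 / 4 ≤ (volume (A ∩ Icc (y j) (y j + τ))).toReal / τ) ∧
      (¬ Even j → (volume (A ∩ Icc (y j) (y j + τ))).toReal / τ ≤ 1 / 4) := by
    intro j hj
    have hj' : j ≤ n := by
      have := Finset.mem_range.mp hj
      omega
    by_cases he : Even j
    · filter_upwards [(h1 j hj' he).eventually (eventually_ge_nhds (by norm_num : (3 / 4 : ℝ) < 1))]
        with τ hτ
      exact ⟨fun _ => hτ, fun hn => absurd he hn⟩
    · filter_upwards [(h0 j hj' he).eventually (eventually_le_nhds (by norm_num : (0 : ℝ) < 1 / 4))]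
        with τ hτ
      exact ⟨fun hn => absurd hn he, fun _ => hτ⟩
  have hev2 := (Filter.eventually_all_finset _).mpr hev
  obtain ⟨k, hk1, hk2⟩ := (h.and_eventually (hseq.eventually hev2)).exists
  set τ : ℝ := (1 / 2) ^ k with hτdef
  have hτ : 0 < τ := pow_pos (by norm_num : (0 : ℝ) < 1 / 2) k
  obtain ⟨t1, t2⟩ := b1a_trans hA hf τ
  have hms : MeasurableSet {x : ℝ | x + τ ∈ A} := (measurable_add_const τ) hA
  have hg : (volume (A \ {r | r - τ ∈ A})).toReal ≤ max C 0 * τ := by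
    have h5 : volume (A \ {r | r - τ ∈ A}) ≤ ENNReal.ofReal (max C 0 * τ) :=
      hk1.trans (ENNReal.ofReal_le_ofReal (mul_le_mul_of_nonneg_right (le_max_left _ _) hτ.le))
    exact ENNReal.toReal_le_of_le_ofReal (mul_nonneg (le_max_right _ _) hτ.le) h5
  have hgf : volume (A \ {r | r - τ ∈ A}) ≠ ⊤ := ((measure_mono Set.diff_subset).trans_lt hf.lt_top).ne
  have hsum : ∑ j ∈ Finset.range n, (1 / 2 : ℝ) * τ
      ≤ ∑ j ∈ Finset.range n, ((volume (({x | x + τ ∈ A} \ A) ∩ Ioc (y (j + 1)) (y j))).toReal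
        + (volume ((A \ {x | x + τ ∈ A}) ∩ Ioc (y (j + 1)) (y j))).toReal) := by
    refine Finset.sum_le_sum fun j hj => ?_
    have hjn : j < n := Finset.mem_range.mp hj
    have hst := b1a_step hA hf hτ (hy j hjn).le
    refine le_trans ?_ hst
    obtain ⟨a1, a2⟩ := hk2 j (Finset.mem_range.mpr (by omega))
    obtain ⟨b1, b2⟩ := hk2 (j + 1) (Finset.mem_range.mpr (by omega))
    by_cases he : Even j
    · have ho : ¬ Even (j + 1) := by
        rw [Nat.even_add_one]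
        exact fun hh => hh he
      have c1 := (le_div_iff₀ hτ).mp (a1 he)
      have c2 := (div_le_iff₀ hτ).mp (b2 ho)
      refine le_trans ?_ (le_abs_self _)
      linarith
    · have ho : Even (j + 1) := Nat.even_add_one.mpr he
      have c1 := (div_le_iff₀ hτ).mp (a2 he)
      have c2 := (le_div_iff₀ hτ).mp (b1 ho)
      refine le_trans ?_ (neg_le_abs _)
      linarith
  rw [Finset.sum_add_distrib, Finset.sum_const, Finset.card_range, nsmul_eq_mul] at hsum
  have s1 := b1a_sum (hms.diff hA) (by rw [t1]; exact hgf) n y hy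
  have s2 := b1a_sum (hA.diff hms) (by rw [t2]; exact hgf) n y hy
  rw [t1] at s1
  rw [t2] at s2
  have hfin : (n : ℝ) * (1 / 2 * τ) ≤ 2 * (max C 0 * τ) := by linarith
  have h6 : (n : ℝ) * τ ≤ (4 * max C 0) * τ := by linarith
  exact le_of_mul_le_mul_right h6 hτ

end Pool.Agent.H89G
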