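import Pool.Agent.Lib.H89G.B1a

/-! H89G, chunk B1b (M): a set of bounded variation begins with an interval. Uses `alt_bound`. -/

open MeasureTheory Set Metric Filter Topology
open scoped ENNReal

namespace Pool.Agent.H89G

theorem b1b_density {A : Set ℝ} (hA : MeasurableSet A) : ∀ᵐ x : ℝ,
    Tendsto (fun τ => (volume (A ∩ Icc x (x + τ))).toReal / τ) (𝓝[>] 0)
      (𝓝 ((A.indicator (1 : ℝ → ℝ≥0∞) x).toReal)) := by
  filter_upwards [(IsUnifLocDoublingMeasure.vitaliFamily (volume : Measure ℝ)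
    1).ae_tendsto_measure_inter_div_of_measurableSet hA] with x hx
  have h1 : Tendsto (fun τ : ℝ => x + τ) (𝓝[>] 0) (𝓝[>] x) := by
    refine tendsto_nhdsWithin_iff.mpr ⟨?_, ?_⟩
    · have : Tendsto (fun τ : ℝ => x + τ) (𝓝 0) (𝓝 (x + 0)) :=
        (continuous_const.add continuous_id).tendsto 0
      rw [add_zero] at this
      exact this.mono_left nhdsWithin_le_nhds
    · filter_upwards [self_mem_nhdsWithin] with τ hτ
      have : (0 : ℝ) < τ := hτ
      exact (by linarith : x < x + τ)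
  have h2 := (hx.comp (Real.tendsto_Icc_vitaliFamily_right x)).comp h1
  have h3 : A.indicator (1 : ℝ → ℝ≥0∞) x ≠ ⊤ := by
    by_cases h : x ∈ A
    · rw [Set.indicator_of_mem h]; simp
    · rw [Set.indicator_of_notMem h]; simp
  have h4 := (ENNReal.tendsto_toReal h3).comp h2
  refine h4.congr' ?_
  filter_upwards [self_mem_nhdsWithin] with τ hτ
  have hτ' : (0 : ℝ) < τ := hτ
  simp only [Function.comp_apply]
  rw [ENNReal.toReal_div, Real.volume_Icc, add_sub_cancel_left, ENNReal.toReal_ofReal hτ'.le]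

/-- PROOF. Put `G x = |A ∩ (-∞, x]|` (finite, monotone, `G y - G x = |A ∩ (x, y]| ≤ y - x`, so
`G` is continuous) and `a = sSup {x | G x = 0}`: the set is nonempty (`A` is bounded), bounded
above (`|A| > 0`), so `G a = 0` by continuity and `G x > 0` for all `x > a`.
CLAIM: there is `δ > 0` with `|(a, a + δ) \ A| = 0`. Suppose not. Then for all `b > a` both
`|A ∩ (a, b)| > 0` (as `G b' > 0 = G a` for `a < b' < b`) and `|(a, b) \ A| > 0`.
Almost every point `y` of `A` satisfies `|A ∩ [y, y+τ]| / τ → 1` and almost every point of the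
complement satisfies `|A ∩ [y, y+τ]| / τ → 0` as `τ → 0+` (Lebesgue: Mathlib
`VitaliFamily.ae_tendsto_measure_inter_div_of_measurableSet` with `Real.vitaliFamily`/
`Real.tendsto_Icc_vitaliFamily_right`, see
`MeasureTheory/Integral/IntervalIntegral/LebesgueDifferentiationThm.lean`). So for every `b > a`
there are points `y ∈ (a, b)` of the first kind and points of the second kind. Choose recursively
`y 0 > y 1 > y 2 > … > a`, of the first kind for even and of the second kind for odd index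
(e.g. by `∃ y : ℕ → ℝ` from a dependent choice, or prove by induction on `n` the existence of
such a finite sequence in `(a, b)` with prescribed first kind). `alt_bound` gives
`n ≤ 4 max C 0` for every `n`: contradiction.
CONCLUSION for `τ ∈ (0, δ]`: up to null sets `(a, a + τ) ⊆ A`, and `A + τ` has no mass below
`a + τ`: `|(A + τ) ∩ (-∞, a + τ]| = G a = 0`. Hence
`|A \ (A + τ)| ≥ |(a, a + τ) ∩ A \ (A + τ)| = τ`. -/
theorem first_interval {A : Set ℝ} (hA : MeasurableSet A) (hb : Bornology.IsBounded A)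
    (h0 : volume A ≠ 0) {C : ℝ}
    (h : ∃ᶠ k : ℕ in atTop,
      volume (A \ {r | r - (1 / 2 : ℝ) ^ k ∈ A}) ≤ ENNReal.ofReal (C * (1 / 2) ^ k)) :
    ∃ δ > 0, ∀ τ ∈ Ioc (0 : ℝ) δ, ENNReal.ofReal τ ≤ volume (A \ {r | r - τ ∈ A}) := by
  obtain ⟨R, hR⟩ := hb.subset_closedBall (0 : ℝ)
  have hRA : ∀ x ∈ A, -R ≤ x ∧ x ≤ R := by
    intro x hx
    have h1 := hR hx
    rw [mem_closedBall_zero_iff, Real.norm_eq_abs, abs_le] at h1
    exact h1
  have hf : volume A ≠ ⊤ := hb.measure_lt_top.ne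
  set S : Set ℝ := {x | volume (A ∩ Iic x) = 0} with hS
  have hSne : S.Nonempty := by
    refine ⟨-R - 1, ?_⟩
    have : A ∩ Iic (-R - 1) = ∅ := by
      rw [Set.eq_empty_iff_forall_notMem]
      rintro x ⟨hx, hx2⟩
      have h1 := (hRA x hx).1
      have h2 : x ≤ -R - 1 := hx2
      linarith
    show volume (A ∩ Iic (-R - 1)) = 0
    rw [this, measure_empty]
  have hSbd : BddAbove S := by
    refine ⟨R, fun x hx => ?_⟩
    by_contra hlt
    push Not at hlt
    have h1 : A ∩ Iic x = A := by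
      rw [Set.inter_eq_left]
      intro z hz
      exact ((hRA z hz).2.trans hlt.le : z ≤ x)
    have h2 : volume (A ∩ Iic x) = 0 := hx
    rw [h1] at h2
    exact h0 h2
  set a : ℝ := sSup S with ha
  have hmono : ∀ x y : ℝ, x ≤ y → volume (A ∩ Iic y) = 0 → volume (A ∩ Iic x) = 0 := by
    intro x y hxy hy
    exact measure_mono_null (inter_subset_inter_right _ (Iic_subset_Iic.mpr hxy)) hy
  have hlt0 : ∀ x : ℝ, x < a → volume (A ∩ Iic x) = 0 := by
    intro x hx
    obtain ⟨y, hyS, hxy⟩ := exists_lt_of_lt_csSup hSne hx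
    exact hmono x y hxy.le hyS
  have hGa : volume (A ∩ Iic a) = 0 := by
    have h1 : A ∩ Iic a ⊆ (⋃ n : ℕ, A ∩ Iic (a - 1 / ((n : ℝ) + 1))) ∪ {a} := by
      rintro x ⟨hx, hxa⟩
      have hxa' : x ≤ a := hxa
      rcases hxa'.eq_or_lt with h | h
      · exact Or.inr h
      · left
        obtain ⟨n, hn⟩ := exists_nat_one_div_lt (by linarith : 0 < a - x)
        refine mem_iUnion.mpr ⟨n, hx, ?_⟩
        exact (by linarith : x ≤ a - 1 / ((n : ℝ) + 1))
    refine measure_mono_null h1 (measure_union_null (measure_iUnion_null fun n => hlt0 _ ?_) (by simp))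
    have : (0 : ℝ) < 1 / ((n : ℝ) + 1) := by positivity
    linarith
  have hgt : ∀ x : ℝ, a < x → volume (A ∩ Iic x) ≠ 0 := by
    intro x hx h
    exact absurd (le_csSup hSbd (show x ∈ S from h)) (not_le.mpr hx)
  have hpos : ∀ b : ℝ, a < b → volume (A ∩ Ioo a b) ≠ 0 := by
    intro b hab h
    refine hgt ((a + b) / 2) (by linarith) ?_
    refine measure_mono_null ?_ (measure_union_null hGa h)
    rintro x ⟨hx, hx2⟩
    have hx3 : x ≤ (a + b) / 2 := hx2
    by_cases hxa : x ≤ a
    · exact Or.inl ⟨hx, hxa⟩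
    · exact Or.inr ⟨hx, not_le.mp hxa, by linarith⟩
  -- the claim
  have hclaim : ∃ b > a, volume (Ioo a b \ A) = 0 := by
    by_contra hcon
    push Not at hcon
    have hden := b1b_density hA
    have hex1 : ∀ b : ℝ, a < b → ∃ y : ℝ, (a < y ∧ y < b) ∧
        Tendsto (fun τ => (volume (A ∩ Icc y (y + τ))).toReal / τ) (𝓝[>] 0) (𝓝 1) := by
      intro b hab
      by_contra hno
      push Not at hno
      refine hpos b hab (measure_mono_null ?_ (ae_iff.mp hden))
      rintro x ⟨hx, hx2⟩ hx3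
      rw [Set.indicator_of_mem hx] at hx3
      exact hno x hx2 (by simpa using hx3)
    have hex0 : ∀ b : ℝ, a < b → ∃ y : ℝ, (a < y ∧ y < b) ∧
        Tendsto (fun τ => (volume (A ∩ Icc y (y + τ))).toReal / τ) (𝓝[>] 0) (𝓝 0) := by
      intro b hab
      by_contra hno
      push Not at hno
      refine hcon b hab (measure_mono_null ?_ (ae_iff.mp hden))
      rintro x ⟨hx, hx2⟩ hx3
      rw [Set.indicator_of_notMem hx2] at hx3
      exact hno x hx (by simpa using hx3)
    choose f hf1 hf2 using hex1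
    choose g hg1 hg2 using hex0
    let nxt : ℕ → {x : ℝ // a < x} → {x : ℝ // a < x} := fun j x =>
      if Even j then ⟨f x.1 x.2, (hf1 x.1 x.2).1⟩ else ⟨g x.1 x.2, (hg1 x.1 x.2).1⟩
    let y : ℕ → {x : ℝ // a < x} := fun n => Nat.rec (nxt 0 ⟨a + 1, by linarith⟩) (fun j x => nxt (j + 1) x) n
    have hy1 : ∀ j, (y (j + 1)).1 < (y j).1 := by
      intro j
      show (nxt (j + 1) (y j)).1 < (y j).1
      by_cases he : Even (j + 1)
      · simp only [nxt, if_pos he]
        exact (hf1 _ _).2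
      · simp only [nxt, if_neg he]
        exact (hg1 _ _).2
    have hy2 : ∀ j, Even j → Tendsto
        (fun τ => (volume (A ∩ Icc (y j).1 ((y j).1 + τ))).toReal / τ) (𝓝[>] 0) (𝓝 1) := by
      intro j he
      cases j with
      | zero =>
        show Tendsto (fun τ => (volume (A ∩ Icc (nxt 0 ⟨a + 1, by linarith⟩).1
          ((nxt 0 ⟨a + 1, by linarith⟩).1 + τ))).toReal / τ) (𝓝[>] 0) (𝓝 1)
        simp only [nxt, if_pos he]
        exact hf2 _ _
      | succ j =>
        show Tendsto (fun τ => (volume (A ∩ Icc (nxt (j + 1) (y j)).1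
          ((nxt (j + 1) (y j)).1 + τ))).toReal / τ) (𝓝[>] 0) (𝓝 1)
        simp only [nxt, if_pos he]
        exact hf2 _ _
    have hy3 : ∀ j, ¬ Even j → Tendsto
        (fun τ => (volume (A ∩ Icc (y j).1 ((y j).1 + τ))).toReal / τ) (𝓝[>] 0) (𝓝 0) := by
      intro j he
      cases j with
      | zero => exact absurd (by simp : Even 0) he
      | succ j =>
        show Tendsto (fun τ => (volume (A ∩ Icc (nxt (j + 1) (y j)).1
          ((nxt (j + 1) (y j)).1 + τ))).toReal / τ) (𝓝[>] 0) (𝓝 0)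
        simp only [nxt, if_neg he]
        exact hg2 _ _
    obtain ⟨n, hn⟩ := exists_nat_gt (4 * max C 0)
    exact absurd (alt_bound hA hf h n (fun j => (y j).1) (fun j _ => hy1 j) (fun j _ he => hy2 j he)
      (fun j _ he => hy3 j he)) (not_le.mpr hn)
  obtain ⟨b, hab, hbn⟩ := hclaim
  refine ⟨b - a, by linarith, ?_⟩
  rintro τ ⟨hτ0, hτ1⟩
  have h1 : volume (Ioo a (a + τ)) = ENNReal.ofReal τ := by
    rw [Real.volume_Ioo, add_sub_cancel_left]
  have hsub : Ioo a (a + τ) ⊆ (A \ {r | r - τ ∈ A}) ∪ ((Ioo a b \ A) ∪ ({r | r - τ ∈ A} ∩ Iic (a + τ))) := by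
    intro x hx
    by_cases hxA : x ∈ A
    · by_cases hx2 : x - τ ∈ A
      · exact Or.inr (Or.inr ⟨hx2, hx.2.le⟩)
      · exact Or.inl ⟨hxA, hx2⟩
    · exact Or.inr (Or.inl ⟨⟨hx.1, by linarith [hx.2]⟩, hxA⟩)
  have h2 : volume ({r | r - τ ∈ A} ∩ Iic (a + τ)) = 0 := by
    have : ({r | r - τ ∈ A} ∩ Iic (a + τ) : Set ℝ) = (fun x => x + (-τ)) ⁻¹' (A ∩ Iic a) := by
      ext x
      simp [sub_eq_add_neg]
    rw [this, measure_preimage_add_right, hGa]
  rw [← h1]
  refine (measure_mono hsub).trans ((measure_union_le _ _).trans ?_)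
  rw [measure_union_null hbn h2, add_zero]

end Pool.Agent.H89G
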