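import Pool.Agent.Lib.H89G.Defs

/-! H89G, chunk B2 (S/M): the inequality on a pair of lines. Pure measure theory on the line. -/

open MeasureTheory Set Metric Filter Topology
open scoped ENNReal

namespace Pool.Agent.H89G

/-- PROOF. Write `α = |A|`, `β = |B|`, `r₊ = |A \ (B + s)|`, `r₋ = |A \ (B - s)|`,
`g = |A \ (A + 2s)|` (all finite; `{r | r - s ∈ B} = B + s` has measure `β`).
(1) `r₊ ≥ α - β`, `r₋ ≥ α - β`, `r₊, r₋ ≥ 0`.
(2) `r₊ + r₋ ≥ α - β + g`: put `B' = B + s`. Translation by `2s` gives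
`r₋ = |(A + 2s) \ B'|`. So `r₊ + r₋ = |A \ B'| + |(A + 2s) \ B'| ≥ |(A ∪ (A + 2s)) \ B'| ≥
|A ∪ (A + 2s)| - β = |A \ (A + 2s)| + |A + 2s| - β = g + α - β`.
If `α = 0` then `rs α β s = min 0 (…) = 0` and the claim is clear. Otherwise the last summand is
`m = max 0 (2s - g)`, and `2 rs α β s ≤ max 0 (max (2(α - β)) ((α - β) + 2s))`; the three cases
follow from `r₊ + r₋ + m ≥ 0`, `≥ 2 (α - β)`, and `≥ (α - β) + g + (2s - g)`. -/
theorem line_ineq {A B : Set ℝ} (hA : MeasurableSet A) (hB : MeasurableSet B)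
    (fA : volume A ≠ ⊤) (fB : volume B ≠ ⊤) {s : ℝ} (hs : 0 ≤ s) :
    2 * rs (volume A).toReal (volume B).toReal s
      ≤ (volume (A \ {r | r - s ∈ B})).toReal + (volume (A \ {r | r + s ∈ B})).toReal
        + (if (volume A).toReal = 0 then 0
            else max 0 (2 * s - (volume (A \ {r | r - 2 * s ∈ A})).toReal)) := by
  have hB1 : MeasurableSet {r : ℝ | r - s ∈ B} := (measurable_sub_const s) hB
  have hA2 : MeasurableSet {r : ℝ | r - 2 * s ∈ A} := (measurable_sub_const (2 * s)) hA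
  have vB1 : volume {r : ℝ | r - s ∈ B} = volume B := by
    have : ({r : ℝ | r - s ∈ B} : Set ℝ) = (fun x => x + (-s)) ⁻¹' B := by
      ext x
      simp [sub_eq_add_neg]
    rw [this, measure_preimage_add_right]
  have vB2 : volume {r : ℝ | r + s ∈ B} = volume B := by
    have : ({r : ℝ | r + s ∈ B} : Set ℝ) = (fun x => x + s) ⁻¹' B := rfl
    rw [this, measure_preimage_add_right]
  have vA2 : volume {r : ℝ | r - 2 * s ∈ A} = volume A := by
    have : ({r : ℝ | r - 2 * s ∈ A} : Set ℝ) = (fun x => x + (-(2 * s))) ⁻¹' A := by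
      ext x
      simp [sub_eq_add_neg]
    rw [this, measure_preimage_add_right]
  have hfd : ∀ Q : Set ℝ, volume (A \ Q) ≠ ⊤ := fun Q =>
    ((measure_mono Set.diff_subset).trans_lt fA.lt_top).ne
  have e1 : (volume A).toReal ≤ (volume (A \ {r | r - s ∈ B})).toReal + (volume B).toReal := by
    rw [← vB1, ← ENNReal.toReal_add (hfd _) (by rw [vB1]; exact fB)]
    refine ENNReal.toReal_mono (ENNReal.add_ne_top.mpr ⟨hfd _, by rw [vB1]; exact fB⟩) ?_
    refine (measure_mono ?_).trans (measure_union_le _ _)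
    intro x hx
    by_cases hq : x ∈ {r : ℝ | r - s ∈ B}
    · exact Or.inr hq
    · exact Or.inl ⟨hx, hq⟩
  have e2 : (volume A).toReal ≤ (volume (A \ {r | r + s ∈ B})).toReal + (volume B).toReal := by
    rw [← vB2, ← ENNReal.toReal_add (hfd _) (by rw [vB2]; exact fB)]
    refine ENNReal.toReal_mono (ENNReal.add_ne_top.mpr ⟨hfd _, by rw [vB2]; exact fB⟩) ?_
    refine (measure_mono ?_).trans (measure_union_le _ _)
    intro x hx
    by_cases hq : x ∈ {r : ℝ | r + s ∈ B}
    · exact Or.inr hq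
    · exact Or.inl ⟨hx, hq⟩
  have e3 : volume (A \ {r | r + s ∈ B}) = volume ({r : ℝ | r - 2 * s ∈ A} \ {r | r - s ∈ B}) := by
    have : (A \ {r | r + s ∈ B} : Set ℝ)
        = (fun x => x + 2 * s) ⁻¹' ({r : ℝ | r - 2 * s ∈ A} \ {r | r - s ∈ B}) := by
      ext x
      have h1 : x + 2 * s - s = x + s := by ring
      simp [h1]
    rw [this, measure_preimage_add_right]
  have e4 : (volume (A \ {r | r - 2 * s ∈ A})).toReal + (volume A).toReal
      ≤ (volume (A \ {r | r - s ∈ B})).toReal + (volume (A \ {r | r + s ∈ B})).toReal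
        + (volume B).toReal := by
    rw [e3]
    have f3 : volume ({r : ℝ | r - 2 * s ∈ A} \ {r | r - s ∈ B}) ≠ ⊤ := by rw [← e3]; exact hfd _
    rw [← ENNReal.toReal_add (hfd _) fA, ← ENNReal.toReal_add (hfd _) f3,
      ← ENNReal.toReal_add (ENNReal.add_ne_top.mpr ⟨hfd _, f3⟩) fB]
    refine ENNReal.toReal_mono (ENNReal.add_ne_top.mpr ⟨ENNReal.add_ne_top.mpr ⟨hfd _, f3⟩, fB⟩) ?_
    have h1 : volume (A \ {r | r - 2 * s ∈ A}) + volume A
        = volume ((A \ {r | r - 2 * s ∈ A}) ∪ {r : ℝ | r - 2 * s ∈ A}) := by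
      rw [measure_union disjoint_sdiff_left hA2, vA2]
    rw [h1]
    rw [← vB1]
    refine (measure_mono ?_).trans ((measure_union_le _ _).trans
      (add_le_add (measure_union_le (A \ {r | r - s ∈ B})
        ({r : ℝ | r - 2 * s ∈ A} \ {r | r - s ∈ B})) le_rfl))
    intro x hx
    by_cases hq : x ∈ {r : ℝ | r - s ∈ B}
    · exact Or.inr hq
    · rcases hx with hx | hx
      · exact Or.inl (Or.inl ⟨hx.1, hq⟩)
      · exact Or.inl (Or.inr ⟨hx, hq⟩)
  have n1 : 0 ≤ (volume (A \ {r | r - s ∈ B})).toReal := ENNReal.toReal_nonneg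
  have n2 : 0 ≤ (volume (A \ {r | r + s ∈ B})).toReal := ENNReal.toReal_nonneg
  generalize (volume (A \ {r | r - s ∈ B})).toReal = rp at *
  generalize (volume (A \ {r | r + s ∈ B})).toReal = rm at *
  generalize (volume (A \ {r | r - 2 * s ∈ A})).toReal = g at *
  generalize (volume A).toReal = α at *
  generalize (volume B).toReal = β at *
  unfold rs
  split_ifs with h0
  · rw [h0]
    have : min (0 : ℝ) (max 0 (max (0 - β) ((0 - β) / 2 + s))) ≤ 0 := min_le_left _ _
    linarith
  · have h2 : min α (max 0 (max (α - β) ((α - β) / 2 + s)))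
      ≤ max 0 (max (α - β) ((α - β) / 2 + s)) := min_le_right _ _
    have h3 : max 0 (max (α - β) ((α - β) / 2 + s)) ≤ (rp + rm + max 0 (2 * s - g)) / 2 := by
      have m1 : 0 ≤ max 0 (2 * s - g) := le_max_left _ _
      have m2 : 2 * s - g ≤ max 0 (2 * s - g) := le_max_right _ _
      refine max_le (by linarith) (max_le (by linarith) (by linarith))
    linarith

/-- PROOF. `{r | r - s ∈ Icc (-(β/2)) (β/2)} = Icc (s - β/2) (s + β/2)`. For `s ≥ 0`:
`Icc (-(α/2)) (α/2) \ Icc (s - β/2) (s + β/2)` has measure `α - |Icc ∩ Icc|` and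
`Icc ∩ Icc = Icc (max (-(α/2)) (s - β/2)) (min (α/2) (s + β/2))` has measure
`max 0 (min (α/2) (s + β/2) - max (-(α/2)) (s - β/2)) = max 0 (min α (min β ((α + β)/2 - s)))`
(case distinction; note `(α + β)/2 + s ≥ min α β`). So the value is
`α - max 0 (min α (min β ((α+β)/2 - s))) = min α (max 0 (max (α - β) ((α - β)/2 + s)))`.
For `s < 0` reflect (`r ↦ -r`, which preserves the volume) to get the case `-s`. -/
theorem rs_interval {α β : ℝ} (hα : 0 ≤ α) (hβ : 0 ≤ β) (s : ℝ) :
    volume (Icc (-(α / 2)) (α / 2) \ {r | r - s ∈ Icc (-(β / 2)) (β / 2)})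
      = ENNReal.ofReal (rs α β |s|) := by
  have hJ : ({r : ℝ | r - s ∈ Icc (-(β / 2)) (β / 2)} : Set ℝ) = Icc (s - β / 2) (s + β / 2) := by
    ext x
    simp only [mem_Icc, mem_setOf_eq]
    constructor <;> rintro ⟨h1, h2⟩ <;> constructor <;> linarith
  have hf : volume (Icc (-(α / 2)) (α / 2) ∩ Icc (s - β / 2) (s + β / 2)) ≠ ⊤ :=
    ((measure_mono inter_subset_left).trans_lt (by simp : volume (Icc (-(α / 2)) (α / 2)) < ⊤)).ne
  rw [hJ, ← Set.diff_self_inter, measure_diff inter_subset_left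
    (measurableSet_Icc.inter measurableSet_Icc).nullMeasurableSet hf, Set.Icc_inter_Icc,
    Real.volume_Icc, Real.volume_Icc]
  have h1 : α / 2 - -(α / 2) = α := by ring
  rw [h1]
  set t : ℝ := (α / 2) ⊓ (s + β / 2) - (-(α / 2)) ⊔ (s - β / 2) with ht
  have ht2 : t = min α (min β ((α + β) / 2 - |s|)) := by
    rw [ht]
    rcases abs_cases s with ⟨ha, hb⟩ | ⟨ha, hb⟩ <;> rw [ha] <;>
    rcases le_total (α / 2) (s + β / 2) with h2 | h2 <;>
    rcases le_total (-(α / 2)) (s - β / 2) with h3 | h3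
    all_goals first | rw [inf_eq_left.mpr h2] | rw [inf_eq_right.mpr h2]
    all_goals first | rw [sup_eq_right.mpr h3] | rw [sup_eq_left.mpr h3]
    all_goals
      symm
      first
      | (rw [min_eq_left (le_min (by linarith) (by linarith))]; linarith)
      | (rw [min_eq_left (by linarith : β ≤ _), min_eq_right (by linarith)]; linarith)
      | (rw [min_eq_right (by linarith : _ ≤ β), min_eq_right (by linarith)]; linarith)
  have hrs : rs α β |s| = α - max 0 t := by
    rw [ht2]
    unfold rs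
    have hs := abs_nonneg s
    generalize |s| = σ at *
    rcases le_total β ((α + β) / 2 - σ) with h2 | h2
    · rw [min_eq_left h2, max_eq_left (by linarith : (α - β) / 2 + σ ≤ α - β)]
      rcases le_total α β with h3 | h3
      · rw [min_eq_left h3, max_eq_right hα, max_eq_left (by linarith : α - β ≤ 0), min_eq_right hα]
        ring
      · rw [min_eq_right h3, max_eq_right hβ, max_eq_right (by linarith : 0 ≤ α - β),
          min_eq_right (by linarith)]
    · rw [min_eq_right h2, max_eq_right (by linarith : α - β ≤ (α - β) / 2 + σ)]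
      rcases le_total α ((α + β) / 2 - σ) with h3 | h3
      · rw [min_eq_left h3, max_eq_right hα, max_eq_left (by linarith : (α - β) / 2 + σ ≤ 0),
          min_eq_right hα]
        ring
      · rw [min_eq_right h3, max_eq_right (by linarith : 0 ≤ (α - β) / 2 + σ)]
        rcases le_total 0 ((α + β) / 2 - σ) with h4 | h4
        · rw [max_eq_right h4, min_eq_right (by linarith)]
          ring
        · rw [max_eq_left h4, min_eq_left (by linarith)]
          ring
  rw [hrs, ENNReal.ofReal_sub _ (le_max_left _ _)]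
  congr 1
  rcases le_total 0 t with h5 | h5
  · rw [max_eq_right h5]
  · rw [max_eq_left h5, ENNReal.ofReal_zero, ENNReal.ofReal_of_nonpos h5]

/-- `rs` is nonnegative, at most `α`, and for `β = 0` equal to `α` (as `0 ≤ α`, `0 ≤ s`:
`max (α - 0) (α/2 + s) ≥ α`), for `α = 0` equal to `0` (as `0 ≤ β`). -/
theorem rs_facts {α β s : ℝ} (hα : 0 ≤ α) (hβ : 0 ≤ β) (hs : 0 ≤ s) :
    0 ≤ rs α β s ∧ rs α β s ≤ α ∧ rs α 0 s = α ∧ rs 0 β s = 0 := by
  unfold rs
  refine ⟨le_min hα (le_max_left _ _), min_le_left _ _, ?_, ?_⟩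
  · refine min_eq_left ((?_ : α ≤ max (α - 0) ((α - 0) / 2 + s)).trans (le_max_right _ _))
    exact (by linarith : α ≤ α - 0).trans (le_max_left _ _)
  · exact min_eq_left (le_max_left _ _)

end Pool.Agent.H89G
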