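import Pool.Agent.Lib.H89G.Defs

/-! H89G, chunk C1 (M): Fubini along a direction. -/

open MeasureTheory Set Metric Filter Topology
open scoped ENNReal

namespace Pool.Agent.H89G

open Pool.Agent.H81St

variable {V : Type*} [NormedAddCommGroup V] [InnerProductSpace ℝ V] [FiniteDimensional ℝ V]
  [MeasurableSpace V] [BorelSpace V]

/-- PROOF. `K = (Submodule.span ℝ {u})ᗮ`. The map `(y, r) ↦ y + r u` is the composition of
`id × (r ↦ r u) : K × ℝ → K × Kᗮ` (or `K × span {u}`), where `r ↦ r u` is a linear isometry of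
`ℝ` onto `span {u}` (`LinearIsometryEquiv.toSpanUnitSingleton`), with the inverse of
`Submodule.orthogonalDecomposition` (Mathlib: `E ≃ₗᵢ WithLp 2 (K × Kᗮ)`), and
`WithLp.volume_preserving_toLp` (Mathlib, `MeasureTheory/Measure/Haar/InnerProductSpace.lean`),
`LinearIsometryEquiv.measurePreserving`, `MeasurePreserving.prod`. Use
`Submodule.span ℝ {u}` for the first factor and swap the factors if this is more convenient. -/
theorem measurePreserving_slice {u : V} (hu : ‖u‖ = 1) :
    MeasurePreserving
      (fun p : ↥(Submodule.span ℝ {u})ᗮ × ℝ => (p.1 : V) + p.2 • u)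
      (volume.prod volume) volume := by
  have m0 : MeasurePreserving (Prod.swap : ↥(Submodule.span ℝ {u})ᗮ × ℝ → ℝ × ↥(Submodule.span ℝ {u})ᗮ)
      (volume.prod volume) (volume.prod volume) := Measure.measurePreserving_swap
  have m1 : MeasurePreserving (Prod.map (LinearIsometryEquiv.toSpanUnitSingleton (𝕜 := ℝ) u hu)
      (id : ↥(Submodule.span ℝ {u})ᗮ → ↥(Submodule.span ℝ {u})ᗮ)) (volume.prod volume)
      (volume.prod volume) :=
    (LinearIsometryEquiv.measurePreserving
      (LinearIsometryEquiv.toSpanUnitSingleton (𝕜 := ℝ) u hu)).prod (MeasurePreserving.id volume)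
  have m2 := WithLp.volume_preserving_toLp ↥(Submodule.span ℝ {u}) ↥(Submodule.span ℝ {u})ᗮ
  have m3 := (Submodule.span ℝ {u}).orthogonalDecomposition.symm.measurePreserving
  have m4 := m3.comp (m2.comp (m1.comp m0))
  have he : (fun p : ↥(Submodule.span ℝ {u})ᗮ × ℝ => (p.1 : V) + p.2 • u)
      = (Submodule.span ℝ {u}).orthogonalDecomposition.symm ∘ (WithLp.toLp 2 ∘
        (Prod.map (LinearIsometryEquiv.toSpanUnitSingleton (𝕜 := ℝ) u hu)
      (id : ↥(Submodule.span ℝ {u})ᗮ → ↥(Submodule.span ℝ {u})ᗮ) ∘ Prod.swap)) := by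
    funext p
    simp [add_comm]
  rw [he]
  exact m4

/-- `vol_slice` is `measurePreserving_slice` and `Measure.prod_apply`. -/
theorem vol_slice {u : V} (hu : ‖u‖ = 1) {S : Set V} (hS : MeasurableSet S) :
    volume S = ∫⁻ y : ↥(Submodule.span ℝ {u})ᗮ, volume (sl S u (y : V)) := by
  have h := measurePreserving_slice hu
  rw [← h.measure_preimage hS.nullMeasurableSet, Measure.prod_apply (h.measurable hS)]
  rfl

/-- the sections of a measurable set are measurable, of a compact set compact (closed and
contained in `closedBall 0 (R + ‖y‖)` when the set is contained in `closedBall 0 R`) -/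
theorem measurableSet_sl {S : Set V} (hS : MeasurableSet S) (u y : V) :
    MeasurableSet (sl S u y) := by
  have hm : Measurable (fun r : ℝ => y + r • u) := by fun_prop
  exact hm hS

theorem isCompact_sl {u : V} (hu : ‖u‖ = 1) {S : Set V} (hS : IsCompact S) (y : V) :
    IsCompact (sl S u y) := by
  have hc : Continuous (fun r : ℝ => y + r • u) := by fun_prop
  obtain ⟨R, hR⟩ := hS.isBounded.exists_norm_le
  refine Metric.isCompact_of_isClosed_isBounded (hS.isClosed.preimage hc) ?_
  refine (Metric.isBounded_closedBall (x := (0 : ℝ)) (r := R + ‖y‖)).subset ?_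
  intro r hr
  rw [mem_closedBall_zero_iff]
  have h1 : ‖y + r • u‖ ≤ R := hR _ hr
  have h2 : ‖r‖ = ‖r • u‖ := by rw [norm_smul, hu, mul_one]
  have h3 : r • u = (y + r • u) - y := by abel
  rw [h2, h3]
  exact (norm_sub_le _ _).trans (by linarith)

/-- the measure of the sections is a measurable function (`measurable_measure_prodMk_left` with
the measurable set `{p | (p.1 : V) + p.2 • u ∈ S}`) -/
theorem measurable_vol_sl {S : Set V} (hS : MeasurableSet S) (u : V) :
    Measurable (fun y : ↥(Submodule.span ℝ {u})ᗮ => volume (sl S u (y : V))) := by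
  have hm : Measurable (fun p : ↥(Submodule.span ℝ {u})ᗮ × ℝ => (p.1 : V) + p.2 • u) := by fun_prop
  exact measurable_measure_prodMk_left (hm hS)

end Pool.Agent.H89G
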