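import Pool.Agent.Lib.H89G.C1

/-! H89G, chunk G1 (M): the Steiner symmetral of a compact set is compact and has the same
volume. Uses C1. -/

open MeasureTheory Set Metric Filter Topology
open scoped ENNReal

namespace Pool.Agent.H89G

open Pool.Agent.H81St

variable {V : Type*} [NormedAddCommGroup V] [InnerProductSpace ℝ V] [FiniteDimensional ℝ V]
  [MeasurableSpace V] [BorelSpace V]

/-- The projection to the hyperplane orthogonal to `u`. -/
noncomputable def g1_pi (u x : V) : V := x - (inner ℝ x u : ℝ) • u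

theorem g1_pi_cont (u : V) : Continuous (g1_pi u) := by
  unfold g1_pi
  fun_prop

theorem g1_inner_pi {u : V} (hu : ‖u‖ = 1) (x : V) : inner ℝ (g1_pi u x) u = 0 := by
  unfold g1_pi
  rw [inner_sub_left, inner_smul_left, real_inner_self_eq_norm_sq, hu]
  simp

theorem g1_inner_add {u : V} (hu : ‖u‖ = 1) (x : V) (s : ℝ) :
    inner ℝ (g1_pi u x + s • u) u = s := by
  rw [inner_add_left, g1_inner_pi hu, inner_smul_left, real_inner_self_eq_norm_sq, hu]
  simp

theorem g1_pi_add {u : V} (hu : ‖u‖ = 1) (x : V) (s : ℝ) :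
    g1_pi u (x + s • u) = g1_pi u x := by
  unfold g1_pi
  rw [inner_add_left, inner_smul_left, real_inner_self_eq_norm_sq, hu, add_smul]
  simp

theorem g1_norm {u : V} (hu : ‖u‖ = 1) (x : V) (s : ℝ) :
    ‖g1_pi u x + s • u‖ ^ 2 = ‖g1_pi u x‖ ^ 2 + s ^ 2 := by
  rw [norm_add_sq_real, inner_smul_right, g1_inner_pi hu, norm_smul, hu]
  simp

theorem g1_eq (u x : V) : x = g1_pi u x + (inner ℝ x u : ℝ) • u := by
  unfold g1_pi
  abel

theorem g1_ball {u : V} (hu : ‖u‖ = 1) {E : Set V} {R : ℝ}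
    (hE : E ⊆ closedBall 0 R) : steiner u E ⊆ closedBall 0 R := by
  rintro x ⟨⟨s0, hs0⟩, hx⟩
  rw [mem_closedBall_zero_iff]
  have hR0 : ‖x + s0 • u‖ ≤ R := by
    have := hE hs0
    rwa [mem_closedBall_zero_iff] at this
  have hR : 0 ≤ R := (norm_nonneg _).trans hR0
  have hsec : ∀ s : ℝ, g1_pi u x + s • u ∈ E → ‖g1_pi u x‖ ^ 2 + s ^ 2 ≤ R ^ 2 := by
    intro s hs
    rw [← g1_norm hu]
    have := hE hs
    rw [mem_closedBall_zero_iff] at this
    exact pow_le_pow_left₀ (norm_nonneg _) this 2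
  have h1 : ‖g1_pi u x‖ ^ 2 ≤ R ^ 2 := by
    have e : x + s0 • u = g1_pi u x + ((inner ℝ x u : ℝ) + s0) • u := by
      rw [add_smul, ← add_assoc, ← g1_eq]
    rw [e] at hs0
    have := hsec _ hs0
    nlinarith [sq_nonneg ((inner ℝ x u : ℝ) + s0)]
  set c : ℝ := Real.sqrt (R ^ 2 - ‖g1_pi u x‖ ^ 2) with hc
  have hc0 : 0 ≤ c := Real.sqrt_nonneg _
  have hc2 : c ^ 2 = R ^ 2 - ‖g1_pi u x‖ ^ 2 := Real.sq_sqrt (by linarith)
  have hsub : {s : ℝ | x - (inner ℝ x u : ℝ) • u + s • u ∈ E} ⊆ Icc (-c) c := by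
    intro s hs
    have h2 := hsec s hs
    exact abs_le.mp (abs_le_of_sq_le_sq (by linarith) hc0)
  have hv : (volume {s : ℝ | x - (inner ℝ x u : ℝ) • u + s • u ∈ E}).toReal ≤ 2 * c := by
    have h3 : volume {s : ℝ | x - (inner ℝ x u : ℝ) • u + s • u ∈ E} ≤ ENNReal.ofReal (2 * c) := by
      refine (measure_mono hsub).trans ?_
      rw [Real.volume_Icc]
      exact ENNReal.ofReal_le_ofReal (by linarith)
    exact ENNReal.toReal_le_of_le_ofReal (by linarith) h3
  have h4 : |(inner ℝ x u : ℝ)| ≤ c := by linarith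
  have h5 : (inner ℝ x u : ℝ) ^ 2 ≤ c ^ 2 := by
    rw [← sq_abs]
    exact pow_le_pow_left₀ (abs_nonneg _) h4 2
  have h6 : ‖x‖ ^ 2 = ‖g1_pi u x‖ ^ 2 + (inner ℝ x u : ℝ) ^ 2 := by
    rw [← g1_norm hu, ← g1_eq]
  exact abs_le_of_sq_le_sq' (by linarith) hR |>.2

theorem g1_usc {u : V} (hu : ‖u‖ = 1) {E : Set V} (hE : IsCompact E) {x0 : V} {c : ℝ≥0∞}
    (hc : volume {s : ℝ | x0 - (inner ℝ x0 u : ℝ) • u + s • u ∈ E} < c) :
    ∀ᶠ x in 𝓝 x0, volume {s : ℝ | x - (inner ℝ x u : ℝ) • u + s • u ∈ E} < c := by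
  obtain ⟨U, hU1, hU2, hU3⟩ := Set.exists_isOpen_lt_of_lt _ _ hc
  have hic : Continuous (fun x : V => (inner ℝ x u : ℝ)) := by fun_prop
  have hC : IsCompact (E ∩ {e | (inner ℝ e u : ℝ) ∈ Uᶜ}) :=
    hE.inter_right (hU2.isClosed_compl.preimage hic)
  have hO : IsOpen {x : V | g1_pi u x ∉ g1_pi u '' (E ∩ {e | (inner ℝ e u : ℝ) ∈ Uᶜ})} :=
    ((hC.image (g1_pi_cont u)).isClosed.isOpen_compl).preimage (g1_pi_cont u)
  have hmem : ∀ x : V, g1_pi u x ∉ g1_pi u '' (E ∩ {e | (inner ℝ e u : ℝ) ∈ Uᶜ}) ↔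
      {s : ℝ | x - (inner ℝ x u : ℝ) • u + s • u ∈ E} ⊆ U := by
    intro x
    constructor
    · intro h s hs
      by_contra hsU
      refine h ⟨g1_pi u x + s • u, ⟨hs, ?_⟩, ?_⟩
      · rw [mem_setOf_eq, g1_inner_add hu]
        exact hsU
      · rw [g1_pi_add hu]
        have h1 := g1_eq u (g1_pi u x)
        rw [g1_inner_pi hu, zero_smul, add_zero] at h1
        exact h1.symm
    · rintro h ⟨e, ⟨he, heU⟩, hpe⟩
      refine heU (h ?_)
      show g1_pi u x + (inner ℝ e u : ℝ) • u ∈ E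
      rw [← hpe, ← g1_eq]
      exact he
  filter_upwards [hO.mem_nhds ((hmem x0).mpr hU1)] with x hx
  exact (measure_mono ((hmem x).mp hx)).trans_lt hU3

theorem g1_compact_sec {u : V} (hu : ‖u‖ = 1) {E : Set V} (hE : IsCompact E) (x : V) :
    volume {s : ℝ | x - (inner ℝ x u : ℝ) • u + s • u ∈ E} ≠ ⊤ :=
  (isCompact_sl hu hE (x - (inner ℝ x u : ℝ) • u)).measure_lt_top.ne

theorem g1_closed {u : V} (hu : ‖u‖ = 1) {E : Set V} (hE : IsCompact E) :
    IsClosed (steiner u E) := by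
  have hic : Continuous (fun x : V => (inner ℝ x u : ℝ)) := by fun_prop
  have h1 : IsClosed {x : V | ∃ s : ℝ, x + s • u ∈ E} := by
    have : {x : V | ∃ s : ℝ, x + s • u ∈ E} = g1_pi u ⁻¹' (g1_pi u '' E) := by
      ext x
      constructor
      · rintro ⟨s, hs⟩
        exact ⟨x + s • u, hs, g1_pi_add hu x s⟩
      · rintro ⟨e, he, hpe⟩
        refine ⟨(inner ℝ e u : ℝ) - (inner ℝ x u : ℝ), ?_⟩
        have : x + ((inner ℝ e u : ℝ) - (inner ℝ x u : ℝ)) • u = e := by
          have h3 : g1_pi u x + (inner ℝ e u : ℝ) • u = e := by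
            rw [← hpe]
            exact (g1_eq u e).symm
          calc x + ((inner ℝ e u : ℝ) - (inner ℝ x u : ℝ)) • u
              = (x - (inner ℝ x u : ℝ) • u) + (inner ℝ e u : ℝ) • u := by
                rw [sub_smul]
                abel
            _ = e := h3
        rw [this]
        exact he
    rw [this]
    exact (hE.image (g1_pi_cont u)).isClosed.preimage (g1_pi_cont u)
  have h2 : IsClosed {x : V | |(inner ℝ x u : ℝ)| ≤
      (volume {s : ℝ | x - (inner ℝ x u : ℝ) • u + s • u ∈ E}).toReal / 2} := by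
    rw [← isOpen_compl_iff, isOpen_iff_mem_nhds]
    intro x0 hx0
    rw [mem_compl_iff, mem_setOf_eq, not_le] at hx0
    set L : ℝ := (volume {s : ℝ | x0 - (inner ℝ x0 u : ℝ) • u + s • u ∈ E}).toReal with hL
    have hL0 : 0 ≤ L := ENNReal.toReal_nonneg
    set m : ℝ := (L / 2 + |(inner ℝ x0 u : ℝ)|) / 2 with hm
    have hm1 : L / 2 < m := by rw [hm]; linarith
    have hm2 : m < |(inner ℝ x0 u : ℝ)| := by rw [hm]; linarith
    have hlt : volume {s : ℝ | x0 - (inner ℝ x0 u : ℝ) • u + s • u ∈ E} < ENNReal.ofReal (2 * m) := by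
      rw [← ENNReal.ofReal_toReal (g1_compact_sec hu hE x0)]
      exact (ENNReal.ofReal_lt_ofReal_iff (by linarith)).mpr (by linarith)
    have hev : ∀ᶠ x in 𝓝 x0, m < |(inner ℝ x u : ℝ)| :=
      (hic.abs.tendsto x0).eventually (lt_mem_nhds hm2)
    filter_upwards [g1_usc hu hE hlt, hev] with x hx hx2
    rw [mem_compl_iff, mem_setOf_eq, not_le]
    have := ENNReal.toReal_lt_of_lt_ofReal hx
    linarith
  exact h1.inter h2

theorem g1_sl {u : V} (hu : ‖u‖ = 1) (E : Set V) (y : ↥(Submodule.span ℝ {u})ᗮ) :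
    sl (steiner u E) u (y : V) = {r | (sl E u (y : V)).Nonempty ∧ |r| ≤ len E u (y : V) / 2} := by
  have hin : ∀ r : ℝ, inner ℝ ((y : V) + r • u) u = r := by
    intro r
    have h : inner ℝ (y : V) u = 0 :=
      (Submodule.mem_orthogonal_singleton_iff_inner_left).1 y.2
    rw [inner_add_left, h, inner_smul_left, real_inner_self_eq_norm_sq, hu]
    simp
  ext r
  have h1 : ∀ s : ℝ, (y : V) + r • u - r • u + s • u = (y : V) + s • u := by
    intro s
    abel
  have h2 : ∀ s : ℝ, (y : V) + r • u + s • u = (y : V) + (r + s) • u := by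
    intro s
    rw [add_smul]
    abel
  unfold sl steiner len
  simp only [mem_setOf_eq, hin, h1, h2]
  refine and_congr ⟨?_, ?_⟩ Iff.rfl
  · rintro ⟨s, hs⟩
    exact ⟨r + s, hs⟩
  · rintro ⟨s, hs⟩
    refine ⟨s - r, ?_⟩
    have h3 : r + (s - r) = s := by ring
    rw [h3]
    exact hs

/-- PROOF. `x ↦ len E u (x - ⟨x, u⟩ u)` is upper semicontinuous for compact `E`: let
`x_k → x`, `y_k = x_k - ⟨x_k, u⟩ u → y`, `A_k = sl E u y_k`, `A = sl E u y`; all `A_k` lie in a
fixed compact interval `I` (`E` is bounded) and `limsup 1_{A_k} ≤ 1_A` pointwise (`E` is closed: if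
`y_k + r u ∈ E` for infinitely many `k` then `y + r u ∈ E`), so `limsup |A_k| ≤ |A|` by the
reverse Fatou lemma (`limsup_lintegral_le` or `measure_limsup`-type lemma: `|limsup A_k| ≥ limsup |A_k|`
in a set of finite measure). Hence: if `x_k ∈ steiner u E` and `x_k → x`, then
`|⟨x, u⟩| ≤ len E u y / 2`; moreover the sections `A_k` are nonempty, choose `r_k ∈ A_k`, a
subsequence converges to some `r ∈ A`. So `steiner u E` is closed. It is bounded: if
`E ⊆ closedBall 0 R` and `x ∈ steiner u E`, then `y = x - ⟨x,u⟩ u` satisfies `‖y‖ ≤ R` (the point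
`y + r u ∈ E` has norm `≥ ‖y‖`), `len E u y ≤ 2R` (`sl E u y ⊆ [-R, R]`), so
`‖x‖ ≤ ‖y‖ + |⟨x,u⟩| ≤ 2R`. (A shorter way to closedness: the function `φ x = len` may be handled
by `measure` of closed sets `{(x, r) | …}`; any proof is fine.) -/
theorem isCompact_steiner {u : V} (hu : ‖u‖ = 1) {E : Set V} (hE : IsCompact E) :
    IsCompact (steiner u E) := by
  obtain ⟨R, hR⟩ := hE.isBounded.subset_closedBall (0 : V)
  exact (isCompact_closedBall (0 : V) R).of_isClosed_subset (g1_closed hu hE) (g1_ball hu hR)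

/-- If `E ⊆ closedBall 0 R` then `steiner u E ⊆ closedBall 0 R`: for `x = y + r u ∈ steiner u E`
the section `sl E u y` is contained in `[-c, c]`, `c = √(R² - ‖y‖²)`, so `|r| ≤ len/2 ≤ c`. -/
theorem steiner_subset_closedBall {u : V} (hu : ‖u‖ = 1) {E : Set V} {R : ℝ}
    (hE : E ⊆ closedBall 0 R) : steiner u E ⊆ closedBall 0 R :=
  g1_ball hu hE

/-- PROOF. `vol_slice` for both sets; the section of `steiner u E` by the line through `y ⊥ u`
is `[-len/2, len/2]` or empty (and then `len = 0`), so its measure is `volume (sl E u y)`, which is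
finite by compactness. -/
theorem volume_steiner {u : V} (hu : ‖u‖ = 1) {E : Set V} (hE : IsCompact E) :
    volume (steiner u E) = volume E := by
  rw [vol_slice hu (g1_closed hu hE).measurableSet, vol_slice hu hE.isClosed.measurableSet]
  refine lintegral_congr fun y => ?_
  rw [g1_sl hu]
  by_cases hP : (sl E u (y : V)).Nonempty
  · simp only [hP, true_and]
    have hI : ({r : ℝ | |r| ≤ len E u (y : V) / 2} : Set ℝ)
        = Icc (-(len E u (y : V) / 2)) (len E u (y : V) / 2) := by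
      ext x
      simp [abs_le]
    rw [hI, Real.volume_Icc]
    have h1 : len E u (y : V) / 2 - -(len E u (y : V) / 2) = len E u (y : V) := by ring
    rw [h1]
    exact ENNReal.ofReal_toReal (isCompact_sl hu hE _).measure_lt_top.ne
  · simp only [hP, false_and, setOf_false]
    rw [Set.not_nonempty_iff_eq_empty.mp hP]

/-- Induction with the previous lemmas. -/
theorem iter_facts {u : ℕ → V} (hu : ∀ i, ‖u i‖ = 1) {E : Set V} (hE : IsCompact E) (i : ℕ) :
    IsCompact (iter u E i) ∧ volume (iter u E i) = volume E := by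
  induction i with
  | zero => exact ⟨hE, rfl⟩
  | succ i ih =>
    exact ⟨isCompact_steiner (hu i) ih.1, (volume_steiner (hu i) ih.1).trans ih.2⟩

end Pool.Agent.H89G
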