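import Pool.Agent.Lib.H89G.C1
import Pool.Agent.Lib.H89G.B2
import Pool.Agent.Lib.H89G.G1

/-! H89G, chunk C2 (M): the measure of `E \ (E + w + s u)` by sections. Uses C1, B2, G1. -/

open MeasureTheory Set Metric Filter Topology
open scoped ENNReal

namespace Pool.Agent.H89G

open Pool.Agent.H81St

variable {V : Type*} [NormedAddCommGroup V] [InnerProductSpace ℝ V] [FiniteDimensional ℝ V]
  [MeasurableSpace V] [BorelSpace V]

/-- PROOF. `x = y + r u` lies in `E \ {x | x - (w + s u) ∈ E}` iff `r ∈ sl E u y` and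
`(y - w) + (r - s) u ∉ E`. Apply `vol_slice` to this measurable set. -/
theorem gap_slice {u : V} (hu : ‖u‖ = 1) {E : Set V} (hE : MeasurableSet E)
    (w : ↥(Submodule.span ℝ {u})ᗮ) (s : ℝ) :
    gap E ((w : V) + s • u)
      = ∫⁻ y : ↥(Submodule.span ℝ {u})ᗮ,
          volume (sl E u (y : V) \ {r | r - s ∈ sl E u ((y : V) - (w : V))}) := by
  have hm : MeasurableSet {x : V | x - ((w : V) + s • u) ∈ E} :=
    (measurable_sub_const ((w : V) + s • u)) hE
  unfold gap
  rw [vol_slice hu (hE.diff hm)]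
  refine lintegral_congr fun y => ?_
  congr 1
  ext r
  have h1 : (y : V) - (w : V) + (r - s) • u = (y : V) + r • u - ((w : V) + s • u) := by
    rw [sub_smul]
    abel
  simp only [sl, mem_setOf_eq, Set.mem_diff, h1]

theorem c2_inner {u : V} (hu : ‖u‖ = 1) (y : ↥(Submodule.span ℝ {u})ᗮ) (r : ℝ) :
    inner ℝ ((y : V) + r • u) u = r := by
  have h : inner ℝ (y : V) u = 0 :=
    (Submodule.mem_orthogonal_singleton_iff_inner_left).1 y.2
  rw [inner_add_left, h, inner_smul_left, real_inner_self_eq_norm_sq, hu]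
  simp

/-- PROOF. For `y ⊥ u`, `‖u‖ = 1` and `x = y + r u`: `⟨x, u⟩ = r`, `x - ⟨x, u⟩ u + s u = y + s u`
and `x + s u = y + (r + s) u`. So `x ∈ steiner u E` iff the section of `E` through `y` is
nonempty and `|r| ≤ len E u y / 2`. -/
theorem sl_steiner {u : V} (hu : ‖u‖ = 1) (E : Set V) (y : ↥(Submodule.span ℝ {u})ᗮ) :
    sl (steiner u E) u (y : V) = {r | (sl E u (y : V)).Nonempty ∧ |r| ≤ len E u (y : V) / 2} := by
  ext r
  have h1 : ∀ s : ℝ, (y : V) + r • u - r • u + s • u = (y : V) + s • u := by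
    intro s
    abel
  have h2 : ∀ s : ℝ, (y : V) + r • u + s • u = (y : V) + (r + s) • u := by
    intro s
    rw [add_smul]
    abel
  unfold sl steiner len
  simp only [mem_setOf_eq, c2_inner hu y r, h1, h2]
  refine and_congr ⟨?_, ?_⟩ Iff.rfl
  · rintro ⟨s, hs⟩
    exact ⟨r + s, hs⟩
  · rintro ⟨s, hs⟩
    refine ⟨s - r, ?_⟩
    have h3 : r + (s - r) = s := by ring
    rw [h3]
    exact hs

/-- PROOF. `gap_slice` for the compact set `steiner u E` (`isCompact_steiner`), `sl_steiner` and
`rs_interval`. If the section at `y` is empty, then `len E u y = 0` and both integrands are `0`.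
If the section at `y` is nonempty and the one at `y - w` is empty, the left integrand is
`|[-α/2, α/2]| = α = rs α 0 |s|` (`rs_facts`). Otherwise it is `rs_interval`. -/
theorem gap_steiner {u : V} (hu : ‖u‖ = 1) {E : Set V} (hE : IsCompact E)
    (w : ↥(Submodule.span ℝ {u})ᗮ) (s : ℝ) :
    gap (steiner u E) ((w : V) + s • u)
      = ∫⁻ y : ↥(Submodule.span ℝ {u})ᗮ,
          ENNReal.ofReal (rs (len E u (y : V)) (len E u ((y : V) - (w : V))) |s|) := by
  rw [gap_slice hu (isCompact_steiner hu hE).isClosed.measurableSet]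
  refine lintegral_congr fun y => ?_
  have hy := sl_steiner hu E y
  have hyw : sl (steiner u E) u ((y : V) - (w : V))
      = {r | (sl E u ((y : V) - (w : V))).Nonempty ∧ |r| ≤ len E u ((y : V) - (w : V)) / 2} :=
    sl_steiner hu E (y - w)
  rw [hy, hyw]
  have ha : 0 ≤ len E u (y : V) := ENNReal.toReal_nonneg
  have hb : 0 ≤ len E u ((y : V) - (w : V)) := ENNReal.toReal_nonneg
  have hI : ∀ γ : ℝ, ({r : ℝ | |r| ≤ γ} : Set ℝ) = Icc (-γ) γ := by
    intro γ
    ext x
    simp [abs_le]
  by_cases hP : (sl E u (y : V)).Nonempty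
  · by_cases hQ : (sl E u ((y : V) - (w : V))).Nonempty
    · simp only [hP, hQ, true_and, hI]
      exact rs_interval ha hb s
    · have hQ0 : len E u ((y : V) - (w : V)) = 0 := by
        unfold len
        rw [Set.not_nonempty_iff_eq_empty.mp hQ, measure_empty, ENNReal.toReal_zero]
      have he : ({r : ℝ | r - s ∈ (∅ : Set ℝ)} : Set ℝ) = ∅ := by
        ext x
        simp
      simp only [hP, hQ, true_and, false_and, hI, setOf_false]
      rw [he, Set.diff_empty, hQ0, (rs_facts ha hb (abs_nonneg s)).2.2.1, Real.volume_Icc]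
      congr 1
      ring
  · have hP0 : len E u (y : V) = 0 := by
      unfold len
      rw [Set.not_nonempty_iff_eq_empty.mp hP, measure_empty, ENNReal.toReal_zero]
    simp only [hP, false_and, setOf_false, Set.empty_diff, measure_empty]
    rw [hP0, (rs_facts ha hb (abs_nonneg s)).2.2.2, ENNReal.ofReal_zero]

end Pool.Agent.H89G
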