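import Pool.Agent.Lib.H89G.C2
import Pool.Agent.Lib.H89G.A2
import Pool.Agent.Lib.H89G.B1b

/-! H89G, chunk D0 (M): almost every section begins with an interval. Uses C1, C2, A2, B1b. -/

open MeasureTheory Set Metric Filter Topology
open scoped ENNReal

namespace Pool.Agent.H89G

open Pool.Agent.H81St

variable {V : Type*} [NormedAddCommGroup V] [InnerProductSpace ℝ V] [FiniteDimensional ℝ V]
  [MeasurableSpace V] [BorelSpace V]

theorem d0_sl_diff (E : Set V) (u : V) (τ : ℝ) (y : V) :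
    sl (E \ {x | x - τ • u ∈ E}) u y = sl E u y \ {r | r - τ ∈ sl E u y} := by
  ext r
  have h1 : y + (r - τ) • u = y + r • u - τ • u := by
    rw [sub_smul]
    abel
  simp only [sl, mem_setOf_eq, Set.mem_diff, h1]

theorem d0_measurable {E : Set V} (hE : MeasurableSet E) (u : V) (τ : ℝ) :
    Measurable (fun y : ↥(Submodule.span ℝ {u})ᗮ =>
      volume (sl E u (y : V) \ {r | r - τ ∈ sl E u (y : V)})) := by
  have hm : MeasurableSet {x : V | x - τ • u ∈ E} := (measurable_sub_const (τ • u)) hE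
  have h := measurable_vol_sl (hE.diff hm) u
  simp only [d0_sl_diff] at h
  exact h

theorem d0_gap {u : V} (hu : ‖u‖ = 1) {E : Set V} (hE : MeasurableSet E) (τ : ℝ) :
    gap E (τ • u) = ∫⁻ y : ↥(Submodule.span ℝ {u})ᗮ,
      volume (sl E u (y : V) \ {r | r - τ ∈ sl E u (y : V)}) := by
  have hm : MeasurableSet {x : V | x - τ • u ∈ E} := (measurable_sub_const (τ • u)) hE
  unfold gap
  rw [vol_slice hu (hE.diff hm)]
  simp only [d0_sl_diff]

/-- PROOF. Let `τ_k = (1/2)^k` and `f_k(y) = volume (sl E u y \ {r | r - τ_k ∈ sl E u y}) / ofReal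
τ_k` (measurable in `y`). By `gap_slice` with `w = 0` and `gap_le_dper`:
`∫⁻ f_k = gap E (τ_k • u) / ofReal τ_k ≤ dper E u < ⊤`. Fatou (`lintegral_liminf_le`):
`∫⁻ liminf f_k ≤ dper E u < ⊤`, so `liminf_k f_k(y) < ⊤` for almost every `y`
(`ae_lt_top`). For such a `y` choose a real `C > liminf f_k(y)`; then `f_k(y) < C` for infinitely
many `k` (`Filter.frequently_lt_of_liminf_lt`), i.e. the hypothesis of `first_interval` for
`A = sl E u y` (measurable and bounded: it is compact by `isCompact_sl`). If `volume A ≠ 0` the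
conclusion of `first_interval` is the second alternative. -/
theorem ae_first_interval {u : V} (hu : ‖u‖ = 1) {E : Set V} (hE : IsCompact E)
    (hd : dper E u ≠ ⊤) :
    ∀ᵐ y : ↥(Submodule.span ℝ {u})ᗮ, volume (sl E u (y : V)) = 0 ∨
      ∃ δ > 0, ∀ τ ∈ Ioc (0 : ℝ) δ,
        ENNReal.ofReal τ ≤ volume (sl E u (y : V) \ {r | r - τ ∈ sl E u (y : V)}) := by
  have hEm : MeasurableSet E := hE.isClosed.measurableSet
  have hτ : ∀ k : ℕ, (0 : ℝ) < (1 / 2) ^ k := fun k => pow_pos (by norm_num) k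
  set F : ℕ → ↥(Submodule.span ℝ {u})ᗮ → ℝ≥0∞ := fun k y =>
    (ENNReal.ofReal ((1 / 2 : ℝ) ^ k))⁻¹ *
      volume (sl E u (y : V) \ {r | r - (1 / 2 : ℝ) ^ k ∈ sl E u (y : V)}) with hF
  have hFm : ∀ k, Measurable (F k) := fun k => (d0_measurable hEm u _).const_mul _
  have hFi : ∀ k, ∫⁻ y, F k y ≤ dper E u := by
    intro k
    rw [hF]
    simp only
    rw [lintegral_const_mul _ (d0_measurable hEm u _), ← d0_gap hu hEm]
    have h1 := gap_le_dper E u (hτ k).le
    have h0 : ENNReal.ofReal ((1 / 2 : ℝ) ^ k) ≠ 0 := by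
      rw [Ne, ENNReal.ofReal_eq_zero, not_le]
      exact hτ k
    calc (ENNReal.ofReal ((1 / 2 : ℝ) ^ k))⁻¹ * gap E ((1 / 2 : ℝ) ^ k • u)
        ≤ (ENNReal.ofReal ((1 / 2 : ℝ) ^ k))⁻¹ * (ENNReal.ofReal ((1 / 2 : ℝ) ^ k) * dper E u) :=
          mul_le_mul_right h1 _
      _ = dper E u := by
          rw [← mul_assoc, ENNReal.inv_mul_cancel h0 ENNReal.ofReal_ne_top, one_mul]
  have hfat : ∫⁻ y, liminf (fun k => F k y) atTop ≤ dper E u := by
    refine (lintegral_liminf_le hFm).trans ?_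
    refine (liminf_le_liminf (Eventually.of_forall hFi)).trans ?_
    exact (liminf_const _).le
  have hae := ae_lt_top (Measurable.liminf hFm) (ne_top_of_le_ne_top hd hfat)
  filter_upwards [hae] with y hy
  by_cases h0 : volume (sl E u (y : V)) = 0
  · exact Or.inl h0
  right
  obtain ⟨C, hC1, hC2⟩ := ENNReal.lt_iff_exists_nnreal_btwn.mp hy
  have hfr := frequently_lt_of_liminf_lt (by isBoundedDefault) hC1
  refine first_interval (measurableSet_sl hEm u _) (isCompact_sl hu hE _).isBounded h0 (C := (C : ℝ)) ?_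
  refine hfr.mono fun k hk => ?_
  have h1 : ENNReal.ofReal ((1 / 2 : ℝ) ^ k) ≠ 0 := by
    rw [Ne, ENNReal.ofReal_eq_zero, not_le]
    exact hτ k
  have h2 : F k y * ENNReal.ofReal ((1 / 2 : ℝ) ^ k)
      = volume (sl E u (y : V) \ {r | r - (1 / 2 : ℝ) ^ k ∈ sl E u (y : V)}) := by
    rw [hF]
    simp only
    rw [mul_comm, ← mul_assoc, ENNReal.mul_inv_cancel h1 ENNReal.ofReal_ne_top, one_mul]
  rw [← h2, ENNReal.ofReal_mul C.coe_nonneg, ENNReal.ofReal_coe_nnreal]
  exact mul_le_mul_left hk.le _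

end Pool.Agent.H89G
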