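import Pool.Agent.Lib.H89G.D0

/-! H89G, chunk D1 (M): the error term of the symmetrization inequality is `o(t)`. Uses D0, C1. -/

open MeasureTheory Set Metric Filter Topology
open scoped ENNReal

namespace Pool.Agent.H89G

open Pool.Agent.H81St

variable {V : Type*} [NormedAddCommGroup V] [InnerProductSpace ℝ V] [FiniteDimensional ℝ V]
  [MeasurableSpace V] [BorelSpace V]

/-- The error on the line through `y` at the scale `τ`. -/
noncomputable def err (E : Set V) (u y : V) (τ : ℝ) : ℝ :=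
  if len E u y = 0 then 0
  else max 0 (2 * τ - (volume (sl E u y \ {r | r - 2 * τ ∈ sl E u y})).toReal)

theorem d1_err_measurable {E : Set V} (hE : MeasurableSet E) (u : V) (τ : ℝ) :
    Measurable (fun y : ↥(Submodule.span ℝ {u})ᗮ => err E u (y : V) τ) := by
  have h1 : Measurable (fun y : ↥(Submodule.span ℝ {u})ᗮ => len E u (y : V)) :=
    (measurable_vol_sl hE u).ennreal_toReal
  have h2 : Measurable (fun y : ↥(Submodule.span ℝ {u})ᗮ =>
      (volume (sl E u (y : V) \ {r | r - 2 * τ ∈ sl E u (y : V)})).toReal) :=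
    (d0_measurable hE u (2 * τ)).ennreal_toReal
  unfold err
  refine Measurable.ite (h1 (measurableSet_singleton 0)) measurable_const ?_
  exact measurable_const.max (measurable_const.sub h2)

theorem d1_err_nonneg (E : Set V) (u y : V) (τ : ℝ) : 0 ≤ err E u y τ := by
  unfold err
  split_ifs
  · exact le_rfl
  · exact le_max_left _ _

theorem d1_err_le (E : Set V) (u y : V) {τ : ℝ} (hτ : 0 ≤ τ) : err E u y τ ≤ 2 * τ := by
  unfold err
  split_ifs
  · linarith
  · refine max_le (by linarith) ?_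
    have : 0 ≤ (volume (sl E u y \ {r | r - 2 * τ ∈ sl E u y})).toReal := ENNReal.toReal_nonneg
    linarith

theorem d1_err_out {u : V} (hu : ‖u‖ = 1) {E : Set V} {R : ℝ} (hE : E ⊆ closedBall 0 R)
    (y : ↥(Submodule.span ℝ {u})ᗮ) (hy : R < ‖y‖) (τ : ℝ) : err E u (y : V) τ = 0 := by
  have h : inner ℝ (y : V) u = 0 :=
    (Submodule.mem_orthogonal_singleton_iff_inner_left).1 y.2
  have he : sl E u (y : V) = ∅ := by
    rw [Set.eq_empty_iff_forall_notMem]
    intro r hr
    have h1 := hE hr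
    rw [mem_closedBall_zero_iff] at h1
    have h2 : ‖(y : V) + r • u‖ ^ 2 = ‖(y : V)‖ ^ 2 + r ^ 2 := by
      rw [norm_add_sq_real, inner_smul_right, h, norm_smul, hu]
      simp
    have h3 : ‖(y : V) + r • u‖ ^ 2 ≤ R ^ 2 := pow_le_pow_left₀ (norm_nonneg _) h1 2
    have h4 : 0 ≤ R := (norm_nonneg _).trans h1
    have h5 : R ^ 2 < ‖(y : V)‖ ^ 2 := pow_lt_pow_left₀ hy h4 (by norm_num)
    nlinarith [sq_nonneg r]
  unfold err len
  rw [he, measure_empty, ENNReal.toReal_zero, if_pos rfl]

/-- PROOF. For `σ = 0` the integrand is `0` for every `t` (`2 (t σ) = 0` and the subtracted term is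
`≥ 0`). Let `σ > 0`. Let `h_t(y) = err E u y (t σ) / t` for `t > 0`. Then
(a) `0 ≤ h_t(y) ≤ 2 σ`, and `h_t(y) = 0` when the section at `y` is empty or null, in particular
when `‖y‖ > R`, where `E ⊆ closedBall 0 R` (a point `y + r u ∈ E`, `y ⊥ u`, has norm `≥ ‖y‖`);
(b) for almost every `y` there is `t_y > 0` with `h_t(y) = 0` for `0 < t < t_y`: by
`ae_first_interval` either `len = 0`, or `volume (…) ≥ ofReal (2 t σ)` as soon as `2 t σ ≤ δ`
(volume finite, so `toReal ≥ 2 t σ`).
Dominated convergence along the filter `𝓝[>] 0` (`tendsto_lintegral_filter_of_dominated_convergence`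
with the bound `ofReal (2 σ)` times the indicator of the ball of radius `R`; measurability in `y` of
`volume (sl E u y)` and of `volume (sl E u y \ {r | r - 2τ ∈ sl E u y})`: the latter is the volume of
the section of the measurable set `E \ {x | x - (2τ) • u ∈ E}`, `measurable_vol_sl`) gives
`∫⁻ ofReal (h_t) → 0`, so it is `≤ ofReal ε` for small `t`; multiply by `t`. -/
theorem err_small {u : V} (hu : ‖u‖ = 1) {E : Set V} (hE : IsCompact E) (hd : dper E u ≠ ⊤)
    {σ : ℝ} (hσ : 0 ≤ σ) {ε : ℝ} (hε : 0 < ε) :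
    ∃ δ > 0, ∀ t ∈ Ioo (0 : ℝ) δ,
      ∫⁻ y : ↥(Submodule.span ℝ {u})ᗮ, ENNReal.ofReal (err E u (y : V) (t * σ))
        ≤ ENNReal.ofReal (ε * t) := by
  have hEm : MeasurableSet E := hE.isClosed.measurableSet
  rcases hσ.eq_or_lt with h0 | hσ0
  · refine ⟨1, one_pos, fun t _ => ?_⟩
    have h1 : ∀ y : V, err E u y (t * σ) = 0 := by
      intro y
      refine le_antisymm ?_ (d1_err_nonneg E u y _)
      have := d1_err_le E u y (τ := t * σ) (by rw [← h0, mul_zero])
      rw [← h0, mul_zero] at this ⊢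
      linarith
    simp only [h1, ENNReal.ofReal_zero, lintegral_zero, zero_le]
  obtain ⟨R, hR⟩ := hE.isBounded.subset_closedBall (0 : V)
  set F : ℝ → ↥(Submodule.span ℝ {u})ᗮ → ℝ≥0∞ := fun t y =>
    ENNReal.ofReal (err E u (y : V) (t * σ) / t) with hF
  set bd : ↥(Submodule.span ℝ {u})ᗮ → ℝ≥0∞ :=
    (closedBall (0 : ↥(Submodule.span ℝ {u})ᗮ) R).indicator (fun _ => ENNReal.ofReal (2 * σ)) with hbd
  have hFm : ∀ᶠ t in 𝓝[>] (0 : ℝ), Measurable (F t) :=
    Eventually.of_forall fun t => ((d1_err_measurable hEm u (t * σ)).div_const t).ennreal_ofReal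
  have hFb : ∀ᶠ t in 𝓝[>] (0 : ℝ), ∀ᵐ y : ↥(Submodule.span ℝ {u})ᗮ, F t y ≤ bd y := by
    filter_upwards [self_mem_nhdsWithin] with t ht
    have ht' : (0 : ℝ) < t := ht
    refine Eventually.of_forall fun y => ?_
    by_cases hy : y ∈ closedBall (0 : ↥(Submodule.span ℝ {u})ᗮ) R
    · rw [hbd, Set.indicator_of_mem hy]
      refine ENNReal.ofReal_le_ofReal ?_
      rw [div_le_iff₀ ht']
      have := d1_err_le E u (y : V) (τ := t * σ) (by positivity)
      linarith
    · rw [hbd, Set.indicator_of_notMem hy, hF]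
      rw [mem_closedBall_zero_iff, not_le] at hy
      simp only [d1_err_out hu hR y hy, zero_div, ENNReal.ofReal_zero, le_refl]
  have hfin : ∫⁻ y, bd y ≠ ⊤ := by
    rw [hbd, lintegral_indicator_const measurableSet_closedBall]
    exact ENNReal.mul_ne_top ENNReal.ofReal_ne_top measure_closedBall_lt_top.ne
  have hlim : ∀ᵐ y : ↥(Submodule.span ℝ {u})ᗮ, Tendsto (fun t => F t y) (𝓝[>] (0 : ℝ)) (𝓝 0) := by
    filter_upwards [ae_first_interval hu hE hd] with y hy
    rcases hy with hy | ⟨δ, hδ, hy⟩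
    · have h1 : ∀ t, F t y = 0 := by
        intro t
        rw [hF]
        simp only
        unfold err len
        rw [hy, ENNReal.toReal_zero, if_pos rfl, zero_div, ENNReal.ofReal_zero]
      simp only [h1]
      exact tendsto_const_nhds
    · refine tendsto_const_nhds.congr' ?_
      have hpos : 0 < δ / (2 * σ) := by positivity
      filter_upwards [Ioo_mem_nhdsGT hpos] with t ht
      have h2 : 2 * (t * σ) ∈ Ioc (0 : ℝ) δ := by
        have h3 := mul_lt_mul_of_pos_right ht.2 (by positivity : 0 < 2 * σ)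
        rw [div_mul_cancel₀ _ (by positivity : 2 * σ ≠ 0)] at h3
        refine ⟨?_, by linarith⟩
        have := mul_pos ht.1 hσ0
        linarith
      have h4 := hy _ h2
      have hft : volume (sl E u (y : V) \ {r | r - 2 * (t * σ) ∈ sl E u (y : V)}) ≠ ⊤ :=
        ((measure_mono Set.diff_subset).trans_lt (isCompact_sl hu hE _).measure_lt_top).ne
      have h5 := (ENNReal.ofReal_le_iff_le_toReal hft).mp h4
      rw [hF]
      simp only
      unfold err
      split_ifs
      · rw [zero_div, ENNReal.ofReal_zero]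
      · rw [max_eq_left (by linarith), zero_div, ENNReal.ofReal_zero]
  have hT := tendsto_lintegral_filter_of_dominated_convergence bd hFm hFb hfin hlim
  rw [lintegral_zero] at hT
  have hε' : (0 : ℝ≥0∞) < ENNReal.ofReal ε := ENNReal.ofReal_pos.mpr hε
  have hev := hT.eventually (gt_mem_nhds hε')
  obtain ⟨δ, hδ, hsub⟩ := mem_nhdsGT_iff_exists_Ioo_subset.mp hev
  refine ⟨δ, hδ, fun t ht => ?_⟩
  have h6 : ∫⁻ y, F t y < ENNReal.ofReal ε := hsub ht
  have h7 : ∫⁻ y : ↥(Submodule.span ℝ {u})ᗮ, ENNReal.ofReal (err E u (y : V) (t * σ))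
      = ENNReal.ofReal t * ∫⁻ y, F t y := by
    rw [← lintegral_const_mul _ (((d1_err_measurable hEm u (t * σ)).div_const t).ennreal_ofReal)]
    refine lintegral_congr fun y => ?_
    rw [← ENNReal.ofReal_mul ht.1.le, mul_div_cancel₀ _ ht.1.ne']
  rw [h7, mul_comm ε t, ENNReal.ofReal_mul ht.1.le]
  exact mul_le_mul_right h6.le _

end Pool.Agent.H89G
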