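import Pool.Agent.Lib.H89G.D1

/-! H89G, chunk D2 (M): the inequality at a fixed scale. Uses C1, C2, B2. -/

open MeasureTheory Set Metric Filter Topology
open scoped ENNReal

namespace Pool.Agent.H89G

open Pool.Agent.H81St

variable {V : Type*} [NormedAddCommGroup V] [InnerProductSpace ℝ V] [FiniteDimensional ℝ V]
  [MeasurableSpace V] [BorelSpace V]

theorem d2_measurable {E : Set V} (hE : MeasurableSet E) (u : V) (w : V) (σ : ℝ) :
    Measurable (fun y : ↥(Submodule.span ℝ {u})ᗮ =>
      volume (sl E u (y : V) \ {r | r - σ ∈ sl E u ((y : V) - w)})) := by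
  have hm : MeasurableSet {x : V | x - (w + σ • u) ∈ E} := (measurable_sub_const (w + σ • u)) hE
  have h := measurable_vol_sl (hE.diff hm) u
  have h2 : ∀ y : V, sl (E \ {x : V | x - (w + σ • u) ∈ E}) u y
      = sl E u y \ {r | r - σ ∈ sl E u (y - w)} := by
    intro y
    ext r
    have h1 : y - w + (r - σ) • u = y + r • u - (w + σ • u) := by
      rw [sub_smul]
      abel
    simp only [sl, mem_setOf_eq, Set.mem_diff, h1]
  simp only [h2] at h
  exact h

theorem d2_point {A B : Set ℝ} (hA : MeasurableSet A) (hB : MeasurableSet B)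
    (fA : volume A ≠ ⊤) (fB : volume B ≠ ⊤) (σ : ℝ) :
    2 * ENNReal.ofReal (rs (volume A).toReal (volume B).toReal |σ|)
      ≤ volume (A \ {r | r - σ ∈ B}) + volume (A \ {r | r - (-σ) ∈ B})
        + ENNReal.ofReal (if (volume A).toReal = 0 then 0
            else max 0 (2 * |σ| - (volume (A \ {r | r - 2 * |σ| ∈ A})).toReal)) := by
  have hfd : ∀ Q : Set ℝ, volume (A \ Q) ≠ ⊤ := fun Q =>
    ((measure_mono Set.diff_subset).trans_lt fA.lt_top).ne
  have h := line_ineq hA hB fA fB (abs_nonneg σ)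
  have hn : 0 ≤ (if (volume A).toReal = 0 then (0 : ℝ)
            else max 0 (2 * |σ| - (volume (A \ {r | r - 2 * |σ| ∈ A})).toReal)) := by
    split_ifs
    · exact le_rfl
    · exact le_max_left _ _
  have h2 := ENNReal.ofReal_le_ofReal h
  rw [ENNReal.ofReal_add (add_nonneg ENNReal.toReal_nonneg ENNReal.toReal_nonneg) hn,
    ENNReal.ofReal_add ENNReal.toReal_nonneg ENNReal.toReal_nonneg,
    ENNReal.ofReal_toReal (hfd _), ENNReal.ofReal_toReal (hfd _),
    ENNReal.ofReal_mul (by norm_num : (0 : ℝ) ≤ 2)] at h2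
  have h3 : ENNReal.ofReal 2 = 2 := by norm_num
  rw [h3] at h2
  refine h2.trans (add_le_add (le_of_eq ?_) le_rfl)
  rcases abs_cases σ with ⟨ha, hb⟩ | ⟨ha, hb⟩
  · rw [ha]
    simp only [sub_neg_eq_add]
  · rw [ha, add_comm]
    congr 3

/-- PROOF. Integrate the inequality `line_ineq` with `A = sl E u y`, `B = sl E u (y - w)` (compact,
so measurable of finite measure), `s = |σ|`-shift, over `y`:
by `gap_steiner` the left side is `2 ∫⁻ ofReal (rs (len y) (len (y - w)) |σ|)`; by `gap_slice`
`gap E (w + σ u) = ∫⁻ volume (A \ {r | r - σ ∈ B})`,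
`gap E (w - σ u) = ∫⁻ volume (A \ {r | r + σ ∈ B})`; for `σ < 0` the two terms change their roles.
Convert `volume … = ofReal (toReal …)` (finite measures) and use `ENNReal.ofReal_add`,
`lintegral_add_left` (measurability of `y ↦ volume (sl E u y \ {r | r - σ ∈ sl E u (y - w)})` as in
C1: it is the volume of the section of the measurable set `E \ {x | x - (w + σ u) ∈ E}`),
`lintegral_mono`. -/
theorem steiner_gap_le {u : V} (hu : ‖u‖ = 1) {E : Set V} (hE : IsCompact E)
    (w : ↥(Submodule.span ℝ {u})ᗮ) (σ : ℝ) :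
    2 * gap (steiner u E) ((w : V) + σ • u)
      ≤ gap E ((w : V) + σ • u) + gap E ((w : V) - σ • u)
        + ∫⁻ y : ↥(Submodule.span ℝ {u})ᗮ, ENNReal.ofReal (err E u (y : V) |σ|) := by
  have hEm : MeasurableSet E := hE.isClosed.measurableSet
  have e1 : (w : V) - σ • u = (w : V) + (-σ) • u := by
    rw [neg_smul, sub_eq_add_neg]
  have hPQ : Measurable (fun y : ↥(Submodule.span ℝ {u})ᗮ =>
      volume (sl E u (y : V) \ {r | r - σ ∈ sl E u ((y : V) - (w : V))}) +
      volume (sl E u (y : V) \ {r | r - -σ ∈ sl E u ((y : V) - (w : V))})) :=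
    (d2_measurable hEm u (w : V) σ).add (d2_measurable hEm u (w : V) (-σ))
  rw [gap_steiner hu hE w σ, e1, gap_slice hu hEm w σ, gap_slice hu hEm w (-σ),
    ← lintegral_const_mul' _ _ (by norm_num : (2 : ℝ≥0∞) ≠ ⊤),
    ← lintegral_add_left (d2_measurable hEm u (w : V) σ),
    ← lintegral_add_left hPQ]
  refine lintegral_mono fun y => ?_
  exact d2_point (measurableSet_sl hEm u _) (measurableSet_sl hEm u _)
    (isCompact_sl hu hE _).measure_lt_top.ne (isCompact_sl hu hE _).measure_lt_top.ne σ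

end Pool.Agent.H89G
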