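import Pool.Agent.Lib.H89G.D2

/-! H89G, chunk D3 (S/M): the symmetrization inequality for the directional perimeter. Uses D1,
D2, A2. -/

open MeasureTheory Set Metric Filter Topology
open scoped ENNReal

namespace Pool.Agent.H89G

open Pool.Agent.H81St

variable {V : Type*} [NormedAddCommGroup V] [InnerProductSpace ℝ V] [FiniteDimensional ℝ V]
  [MeasurableSpace V] [BorelSpace V]

/-- PROOF. Decompose `v = w + σ u`, `σ = ⟨v, u⟩`, `w = v - σ u ∈ (span u)ᗮ`; then
`refl u v = w - σ u`. Apply `dper_le_of_small` to the set `steiner u E`, with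
`C = (dper E v + dper E (refl u v)) / 2`. Given `ε > 0`, take `δ` from `err_small` for `|σ|` and
`ε`. For `0 < t < δ`, `t v = t w + (t σ) u`, so by `steiner_gap_le` and `gap_le_dper`
`2 gap (steiner u E) (t v) ≤ gap E (t v) + gap E (t (refl u v)) + ofReal (ε t)
 ≤ ofReal t * (dper E v + dper E (refl u v) + ofReal ε)`. Divide by `2`
(`ENNReal`: `ofReal ε / 2 ≤ ofReal ε`). -/
theorem dper_steiner_le {u : V} (hu : ‖u‖ = 1) {E : Set V} (hE : IsCompact E)
    (hd : dper E u ≠ ⊤) (v : V) :
    dper (steiner u E) v ≤ (dper E v + dper E (refl u v)) / 2 := by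
  set σ : ℝ := inner ℝ v u with hσ
  have hw0 : v - σ • u ∈ (Submodule.span ℝ {u})ᗮ := by
    rw [Submodule.mem_orthogonal_singleton_iff_inner_left, inner_sub_left, inner_smul_left,
      real_inner_self_eq_norm_sq, hu]
    simp [hσ]
  set w : ↥(Submodule.span ℝ {u})ᗮ := ⟨v - σ • u, hw0⟩ with hw
  have hv : v = (w : V) + σ • u := by
    rw [hw]
    simp
  have hr : refl u v = (w : V) - σ • u := by
    unfold refl
    rw [hw, ← hσ, two_mul, add_smul]
    simp only
    abel
  refine dper_le_of_small fun ε hε => ?_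
  obtain ⟨δ, hδ, hsm⟩ := err_small hu hE hd (abs_nonneg σ) hε
  refine ⟨δ, hδ, fun t ht => ?_⟩
  have ht0 : 0 < t := ht.1
  have h1 := steiner_gap_le hu hE (t • w) (t * σ)
  have e1 : ((t • w : ↥(Submodule.span ℝ {u})ᗮ) : V) + (t * σ) • u = t • v := by
    rw [Submodule.coe_smul, mul_smul, ← smul_add, ← hv]
  have e2 : ((t • w : ↥(Submodule.span ℝ {u})ᗮ) : V) - (t * σ) • u = t • refl u v := by
    rw [Submodule.coe_smul, mul_smul, ← smul_sub, ← hr]
  have e3 : |t * σ| = t * |σ| := by rw [abs_mul, abs_of_pos ht0]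
  rw [e1, e2, e3] at h1
  have h2 : 2 * gap (steiner u E) (t • v)
      ≤ ENNReal.ofReal t * (dper E v + dper E (refl u v) + ENNReal.ofReal ε) := by
    refine h1.trans ?_
    rw [mul_add, mul_add]
    refine add_le_add (add_le_add (gap_le_dper E v ht0.le) (gap_le_dper E (refl u v) ht0.le)) ?_
    rw [← ENNReal.ofReal_mul ht0.le, mul_comm t ε]
    exact hsm t ht
  have h3 : gap (steiner u E) (t • v) = (2 * gap (steiner u E) (t • v)) / 2 := by
    rw [ENNReal.mul_div_right_comm, ENNReal.div_self (by norm_num) (by norm_num), one_mul]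
  rw [h3]
  refine (ENNReal.div_le_div_right h2 2).trans ?_
  rw [mul_div_assoc]
  refine mul_le_mul_right ?_ _
  rw [ENNReal.add_div]
  exact add_le_add le_rfl ENNReal.half_le_self

end Pool.Agent.H89G
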