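import Pool.Agent.Lib.H81.St.Perim

/-!
H89G: the positive side of MP_37896c_gt. Definitions.

`V` is a finite dimensional real inner product space. The perimeter, the Steiner symmetral and the
iterated symmetrals are those of `Pool/Agent/Lib/H81/St/Defs.lean`.
-/

open MeasureTheory Set Metric Filter Topology
open scoped ENNReal

namespace Pool.Agent.H89G

open Pool.Agent.H81St

variable {V : Type*} [NormedAddCommGroup V] [InnerProductSpace ℝ V] [FiniteDimensional ℝ V]
  [MeasurableSpace V] [BorelSpace V]

/-- The volume of the part of `E` outside the translate `E + w`. -/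
noncomputable def gap (E : Set V) (w : V) : ℝ≥0∞ := volume (E \ {x | x - w ∈ E})

/-- The directional perimeter: half of the total variation of the indicator function of `E` in
direction `v`. -/
noncomputable def dper (E : Set V) (v : V) : ℝ≥0∞ :=
  ⨆ (t : ℝ) (_ : 0 < t), gap E (t • v) / ENNReal.ofReal t

/-- The reflection in the hyperplane orthogonal to the unit vector `u`. -/
noncomputable def refl (u v : V) : V := v - (2 * inner ℝ v u) • u

/-- The average of a function and its reflection. -/
noncomputable def avg (u : V) (f : V → ℝ) (v : V) : ℝ := (f v + f (refl u v)) / 2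

/-- `avgs u f N i` is obtained from `f` by applying the averages in `u N`, `u (N + 1)`, …,
`u (N + i - 1)`, in this order. In other words `avgs u f N i v` is the mean of
`f (σ_N^ε₀ … σ_(N+i-1)^ε_(i-1) v)` over all exponents `ε_j ∈ {0, 1}`, where `σ_j` is the reflection
in the hyperplane orthogonal to `u j`. -/
noncomputable def avgs (u : ℕ → V) (f : V → ℝ) (N : ℕ) : ℕ → V → ℝ
  | 0 => f
  | i + 1 => avg (u (N + i)) (avgs u f N i)

/-- The section of `E` by the line through `y` in direction `u`, as a set of real numbers. -/
def sl (E : Set V) (u : V) (y : V) : Set ℝ := {r | y + r • u ∈ E}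

/-- The length of the section. -/
noncomputable def len (E : Set V) (u : V) (y : V) : ℝ := (volume (sl E u y)).toReal

/-- The measure of `[-α/2, α/2]` minus the translate of `[-β/2, β/2]` by `s ≥ 0`. -/
noncomputable def rs (α β s : ℝ) : ℝ := min α (max 0 (max (α - β) ((α - β) / 2 + s)))

/-- The mean of `|⟨e, v⟩|` over the unit sphere (`e` a unit vector), written with integrals over
the unit ball: `∫ |⟨e, v⟩| / ∫ ‖v‖`. -/
noncomputable def meanAbs (e : V) : ℝ :=
  (∫ v in ball (0 : V) 1, |inner ℝ e v|) / (∫ v in ball (0 : V) 1, ‖v‖)

end Pool.Agent.H89G
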