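import Pool.Agent.Lib.H89G.A1

/-! H89G, definitions for module E (no sorry). -/

open MeasureTheory Set Metric Filter Topology
open scoped ENNReal

namespace Pool.Agent.H89G

open Pool.Agent.H81St

variable {V : Type*} [NormedAddCommGroup V] [InnerProductSpace ℝ V] [FiniteDimensional ℝ V]
  [MeasurableSpace V] [BorelSpace V]

/-- A smooth approximation of the indicator function of `E`. -/
structure Moll (E : Set V) (g : V → ℝ) (R : ℝ) : Prop where
  smooth : ContDiff ℝ 2 g
  supp : HasCompactSupport g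
  zero : ∀ x, R < ‖x‖ → g x = 0
  nonneg : ∀ x, 0 ≤ g x
  le_one : ∀ x, g x ≤ 1
  transl : ∀ v : V, ∫ x, |g (x + v) - g x| ≤ 2 * (gap E v).toReal
  field : ∀ φ : V → V, ContDiff ℝ 1 φ → HasCompactSupport φ → (∀ x, ‖φ x‖ ≤ 1) →
    ENNReal.ofReal (∫ x, g x * dvg φ x) ≤ perimeter E

/-- A smooth nonnegative kernel with integral one, supported in the ball of radius two. -/
structure Kern (ρ : V → ℝ) : Prop where
  smooth : ContDiff ℝ 2 ρ
  supp : ∀ x, 2 < ‖x‖ → ρ x = 0
  nonneg : ∀ x, 0 ≤ ρ x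
  one : ∫ x, ρ x = 1

/-- The convolution of a kernel with the indicator function of `E`. -/
noncomputable def cnv (ρ : V → ℝ) (E : Set V) (x : V) : ℝ :=
  ∫ z, ρ z * E.indicator (fun _ => (1 : ℝ)) (x - z)

end Pool.Agent.H89G
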