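import Pool.Agent.Lib.H89G.E0

/-! H89G, chunk E1b (M): translations of the convolution. -/

open MeasureTheory Set Metric Filter Topology
open scoped ENNReal

namespace Pool.Agent.H89G

open Pool.Agent.H81St

variable {V : Type*} [NormedAddCommGroup V] [InnerProductSpace ℝ V] [FiniteDimensional ℝ V]
  [MeasurableSpace V] [BorelSpace V]

theorem e1b_int {ρ : V → ℝ} (hρ : Kern ρ) : Integrable ρ volume :=
  hρ.smooth.continuous.integrable_of_hasCompactSupport
    (HasCompactSupport.intro (isCompact_closedBall (0 : V) 2) fun x hx => hρ.supp x (by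
      rw [mem_closedBall_zero_iff, not_le] at hx
      exact hx))

/-- the indicator -/
noncomputable def e1b_chi (E : Set V) : V → ℝ := E.indicator (fun _ => (1 : ℝ))

theorem e1b_chi_meas {E : Set V} (hE : MeasurableSet E) : Measurable (e1b_chi E) :=
  measurable_const.indicator hE

theorem e1b_chi_abs (E : Set V) (x : V) : ‖e1b_chi E x‖ ≤ 1 := by
  unfold e1b_chi
  rw [Real.norm_eq_abs, abs_of_nonneg (indicator_nonneg (fun _ _ => zero_le_one) x)]
  exact indicator_le_self' (fun _ _ => zero_le_one) x

theorem e1b_prod_int {ρ : V → ℝ} (hρ : Kern ρ) {E : Set V} (hE : MeasurableSet E) (x : V) :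
    Integrable (fun z => ρ z * e1b_chi E (x - z)) volume := by
  have h1 : Measurable (fun z : V => e1b_chi E (x - z)) :=
    (e1b_chi_meas hE).comp (measurable_const.sub measurable_id)
  exact (e1b_int hρ).mul_bdd h1.aestronglyMeasurable
    (Eventually.of_forall fun z => e1b_chi_abs E (x - z))

/-- PROOF. `g (x + v) - g x = ∫ z, ρ z * (1_E (x + v - z) - 1_E (x - z))`, so the absolute value is
`≤ ∫ z, ρ z * |1_E (x + v - z) - 1_E (x - z)|`. Integrate over `x` and exchange the integrals
(`integral_integral_swap`; the integrand is measurable, nonnegative, bounded by `ρ z` and, for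
`ρ z ≠ 0`, zero outside `‖x‖ ≤ R + ‖v‖ + 2`; one may also work with `∫⁻` and
`lintegral_lintegral_swap`): the inner integral is by translation invariance
`∫ x, |1_E (x + v) - 1_E x| = |E \ (E - v)| + |(E - v) \ E| = 2 |E \ (E + v)|`
(the first set is the set of `gap E (-v)`, the second is the preimage of the set of `gap E v` under
`x ↦ x + v`; `gap_neg`). Finally `∫ ρ = 1`. -/
theorem cnv_transl {ρ : V → ℝ} (hρ : Kern ρ) {E : Set V} (hE : MeasurableSet E) {R : ℝ}
    (hR : E ⊆ closedBall 0 R) (v : V) :
    ∫ x, |cnv ρ E (x + v) - cnv ρ E x| ≤ 2 * (gap E v).toReal := by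
  have hfin : volume E < ⊤ := (measure_mono hR).trans_lt measure_closedBall_lt_top
  have hchi : Integrable (e1b_chi E) volume :=
    (integrable_indicator_iff hE).mpr (integrableOn_const hfin.ne)
  -- the two pieces
  set A : Set V := E \ {x | x - (-v) ∈ E} with hA
  set T : Set V := (fun x => x + v) ⁻¹' E with hT
  have hTm : MeasurableSet T := hE.preimage (measurable_add_const _)
  have hAT : A = E \ T := by
    ext x
    simp [hA, hT]
  set B : Set V := T \ E with hB
  have hAm : MeasurableSet A := by rw [hAT]; exact hE.diff hTm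
  have hBm : MeasurableSet B := hTm.diff hE
  have hAv : volume A = gap E v := by
    rw [← gap_neg hE hfin.ne]
    rfl
  have hBv : volume B = gap E v := by
    have e : B = (fun x => x + v) ⁻¹' (E \ {x | x - v ∈ E}) := by
      ext x
      simp [hB, hT]
    rw [e, measure_preimage_add_right]
    rfl
  set D : V → ℝ := fun y => |e1b_chi E (y + v) - e1b_chi E y| with hD
  have hDeq : D = fun y => A.indicator (fun _ => (1 : ℝ)) y + B.indicator (fun _ => (1 : ℝ)) y := by
    funext y
    simp only [hD, e1b_chi]
    by_cases h1 : y + v ∈ E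
    · by_cases h2 : y ∈ E
      · have hyA : y ∉ A := by
          rw [hAT]; intro h; exact h.2 h1
        have hyB : y ∉ B := fun h => h.2 h2
        rw [indicator_of_mem h1, indicator_of_mem h2, indicator_of_notMem hyA,
          indicator_of_notMem hyB]
        norm_num
      · have hyA : y ∉ A := fun h => h2 h.1
        have hyB : y ∈ B := ⟨h1, h2⟩
        rw [indicator_of_mem h1, indicator_of_notMem h2, indicator_of_notMem hyA,
          indicator_of_mem hyB]
        norm_num
    · by_cases h2 : y ∈ E
      · have hyA : y ∈ A := by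
          rw [hAT]; exact ⟨h2, h1⟩
        have hyB : y ∉ B := fun h => h.2 h2
        rw [indicator_of_notMem h1, indicator_of_mem h2, indicator_of_mem hyA,
          indicator_of_notMem hyB]
        norm_num
      · have hyA : y ∉ A := fun h => h2 h.1
        have hyB : y ∉ B := fun h => h1 h.1
        rw [indicator_of_notMem h1, indicator_of_notMem h2, indicator_of_notMem hyA,
          indicator_of_notMem hyB]
        norm_num
  have hgfin : gap E v ≠ ⊤ := ne_top_of_le_ne_top hfin.ne (gap_le E v)
  have hAi : Integrable (A.indicator (fun _ => (1 : ℝ))) (volume : Measure V) :=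
    (integrable_indicator_iff hAm).mpr (integrableOn_const (by rw [hAv]; exact hgfin))
  have hBi : Integrable (B.indicator (fun _ => (1 : ℝ))) (volume : Measure V) :=
    (integrable_indicator_iff hBm).mpr (integrableOn_const (by rw [hBv]; exact hgfin))
  have hDint : Integrable D volume := by
    rw [hDeq]
    exact hAi.add hBi
  have hDval : ∫ y, D y = 2 * (gap E v).toReal := by
    rw [hDeq, integral_add hAi hBi, integral_indicator_const _ hAm, integral_indicator_const _ hBm,
      Measure.real, Measure.real, hAv, hBv]
    simp only [smul_eq_mul, mul_one]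
    ring
  -- the convolution
  have hconv : ∫ x, (∫ z, ρ z * D (x - z)) = 2 * (gap E v).toReal := by
    have h := integral_convolution (ContinuousLinearMap.mul ℝ ℝ) (μ := (volume : Measure V))
      (ν := (volume : Measure V)) (e1b_int hρ) hDint
    rw [hρ.one, hDval] at h
    have h2 : (∫ x, (∫ z, ρ z * D (x - z))) = (ContinuousLinearMap.mul ℝ ℝ) 1 (2 * (gap E v).toReal) := h
    rw [h2]
    simp
  have hconvint : Integrable (fun x => ∫ z, ρ z * D (x - z)) volume := by
    have h := (e1b_int hρ).integrable_convolution (ContinuousLinearMap.mul ℝ ℝ) hDint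
    exact h
  rw [← hconv]
  refine integral_mono_of_nonneg (Eventually.of_forall fun x => abs_nonneg _) hconvint
    (Eventually.of_forall fun x => ?_)
  show |cnv ρ E (x + v) - cnv ρ E x| ≤ ∫ z, ρ z * D (x - z)
  have h1 : cnv ρ E (x + v) - cnv ρ E x =
      ∫ z, (ρ z * e1b_chi E (x + v - z) - ρ z * e1b_chi E (x - z)) := by
    rw [integral_sub (e1b_prod_int hρ hE (x + v)) (e1b_prod_int hρ hE x)]
    rfl
  rw [h1]
  refine (abs_integral_le_integral_abs).trans (le_of_eq ?_)
  refine integral_congr_ae (Eventually.of_forall fun z => ?_)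
  show |ρ z * e1b_chi E (x + v - z) - ρ z * e1b_chi E (x - z)| =
    ρ z * |e1b_chi E (x - z + v) - e1b_chi E (x - z)|
  rw [← mul_sub, abs_mul, abs_of_nonneg (hρ.nonneg z)]
  have e : x + v - z = x - z + v := by abel
  rw [e]

end Pool.Agent.H89G
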