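import Pool.Agent.Lib.H89G.E0

/-! H89G, chunk E1c (M): the convolution does not increase the variation. -/

open MeasureTheory Set Metric Filter Topology
open scoped ENNReal

namespace Pool.Agent.H89G

open Pool.Agent.H81St

variable {V : Type*} [NormedAddCommGroup V] [InnerProductSpace ℝ V] [FiniteDimensional ℝ V]
  [MeasurableSpace V] [BorelSpace V]

theorem e1c_int {ρ : V → ℝ} (hρ : Kern ρ) : Integrable ρ volume :=
  hρ.smooth.continuous.integrable_of_hasCompactSupport
    (HasCompactSupport.intro (isCompact_closedBall (0 : V) 2) fun x hx => hρ.supp x (by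
      rw [mem_closedBall_zero_iff, not_le] at hx
      exact hx))

theorem e1c_abs (E : Set V) (x : V) : ‖E.indicator (fun _ => (1 : ℝ)) x‖ ≤ 1 := by
  rw [Real.norm_eq_abs, abs_of_nonneg (indicator_nonneg (fun _ _ => zero_le_one) x)]
  exact indicator_le_self' (fun _ _ => zero_le_one) x

theorem e1c_dvg {φ : V → V} (z x : V) : dvg (fun y => φ (y + z)) x = dvg φ (x + z) := by
  unfold dvg
  rw [fderiv_comp_add_right]

theorem e1c_inner {E : Set V} (hE : MeasurableSet E) (hP : perimeter E ≠ ⊤) {φ : V → V}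
    (h1 : ContDiff ℝ 1 φ) (h2 : HasCompactSupport φ) (h3 : ∀ x, ‖φ x‖ ≤ 1) (z : V) :
    ∫ x, E.indicator (fun _ => (1 : ℝ)) (x - z) * dvg φ x ≤ (perimeter E).toReal := by
  have e1 : ∫ x, E.indicator (fun _ => (1 : ℝ)) (x - z) * dvg φ x =
      ∫ x, E.indicator (fun _ => (1 : ℝ)) x * dvg φ (x + z) := by
    have h := integral_add_right_eq_self (μ := (volume : Measure V))
      (fun x => E.indicator (fun _ => (1 : ℝ)) (x - z) * dvg φ x) z
    rw [← h]
    refine integral_congr_ae (Eventually.of_forall fun x => ?_)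
    show E.indicator (fun _ => (1 : ℝ)) (x + z - z) * dvg φ (x + z) = _
    rw [add_sub_cancel_right]
  have e2 : ∫ x, E.indicator (fun _ => (1 : ℝ)) x * dvg φ (x + z) =
      ∫ x in E, dvg (fun y => φ (y + z)) x := by
    rw [← integral_indicator hE]
    refine integral_congr_ae (Eventually.of_forall fun x => ?_)
    show E.indicator (fun _ => (1 : ℝ)) x * dvg φ (x + z) =
      E.indicator (fun x => dvg (fun y => φ (y + z)) x) x
    by_cases hx : x ∈ E
    · rw [indicator_of_mem hx, indicator_of_mem hx, one_mul, e1c_dvg]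
    · rw [indicator_of_notMem hx, indicator_of_notMem hx, zero_mul]
  rw [e1, e2]
  have hc1 : ContDiff ℝ 1 (fun y => φ (y + z)) := h1.comp (contDiff_id.add contDiff_const)
  have hc2 : HasCompactSupport (fun y => φ (y + z)) :=
    h2.comp_homeomorph (Homeomorph.addRight z)
  have hc3 : ∀ x, ‖(fun y => φ (y + z)) x‖ ≤ 1 := fun x => h3 _
  have hle : ENNReal.ofReal (∫ x in E, dvg (fun y => φ (y + z)) x) ≤ perimeter E :=
    le_iSup_of_le _ (le_iSup_of_le hc1 (le_iSup_of_le hc2 (le_iSup_of_le hc3 le_rfl)))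
  exact (ENNReal.ofReal_le_iff_le_toReal hP).mp hle

/-- PROOF. If `perimeter E = ⊤` there is nothing to prove. By Fubini (the integrand
`ρ z * 1_E (x - z) * dvg φ x` is measurable, bounded and zero unless `‖z‖ ≤ 2`, `x ∈ tsupport φ`)
`∫ x, cnv ρ E x * dvg φ x = ∫ z, ρ z * (∫ x, 1_E (x - z) * dvg φ x)`. By translation invariance the
inner integral is `∫ x in E, dvg φ (x + z) = ∫ x in E, dvg (fun x => φ (x + z)) x`
(`fderiv` of a translate: `fderiv_comp_add_right`), and `x ↦ φ (x + z)` is `C¹` with compact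
support and norm at most one, so it is `≤ (perimeter E).toReal` by the definition of the
perimeter (`Pool.Agent.H81St.perimeter`, `le_iSup`). As `ρ ≥ 0` and `∫ ρ = 1` the whole is
`≤ (perimeter E).toReal`. (`dvg φ` is continuous: `Pool.Agent.H81St.dvg_cont` in
`Lib/H81/St/Perim.lean`.) -/
theorem cnv_field {ρ : V → ℝ} (hρ : Kern ρ) {E : Set V} (hE : MeasurableSet E) {R : ℝ}
    (hR : E ⊆ closedBall 0 R) {φ : V → V} (h1 : ContDiff ℝ 1 φ) (h2 : HasCompactSupport φ)
    (h3 : ∀ x, ‖φ x‖ ≤ 1) :
    ENNReal.ofReal (∫ x, cnv ρ E x * dvg φ x) ≤ perimeter E := by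
  by_cases hP : perimeter E = ⊤
  · rw [hP]; exact le_top
  have hdint : Integrable (dvg φ) volume :=
    (dvg_cont h1).integrable_of_hasCompactSupport (dvg_compact h2)
  have hprod : Integrable (fun p : V × V => dvg φ p.1 * ρ p.2)
      ((volume : Measure V).prod volume) := hdint.mul_prod (e1c_int hρ)
  have hm : Measurable (fun p : V × V => E.indicator (fun _ => (1 : ℝ)) (p.1 - p.2)) :=
    (measurable_const.indicator hE).comp (measurable_fst.sub measurable_snd)
  have hint : Integrable (fun p : V × V => E.indicator (fun _ => (1 : ℝ)) (p.1 - p.2) *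
      (dvg φ p.1 * ρ p.2)) ((volume : Measure V).prod volume) :=
    hprod.bdd_mul hm.aestronglyMeasurable (Eventually.of_forall fun p => e1c_abs E _)
  have hL : ∫ x, cnv ρ E x * dvg φ x =
      ∫ x, ∫ z, E.indicator (fun _ => (1 : ℝ)) (x - z) * (dvg φ x * ρ z) := by
    refine integral_congr_ae (Eventually.of_forall fun x => ?_)
    show cnv ρ E x * dvg φ x = ∫ z, E.indicator (fun _ => (1 : ℝ)) (x - z) * (dvg φ x * ρ z)
    unfold cnv
    rw [← integral_mul_const]
    refine integral_congr_ae (Eventually.of_forall fun z => ?_)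
    show ρ z * E.indicator (fun _ => (1 : ℝ)) (x - z) * dvg φ x =
      E.indicator (fun _ => (1 : ℝ)) (x - z) * (dvg φ x * ρ z)
    ring
  have hswap : ∫ x, ∫ z, E.indicator (fun _ => (1 : ℝ)) (x - z) * (dvg φ x * ρ z) =
      ∫ z, ∫ x, E.indicator (fun _ => (1 : ℝ)) (x - z) * (dvg φ x * ρ z) :=
    integral_integral_swap hint
  have hR2 : ∫ z, ∫ x, E.indicator (fun _ => (1 : ℝ)) (x - z) * (dvg φ x * ρ z) =
      ∫ z, ρ z * ∫ x, E.indicator (fun _ => (1 : ℝ)) (x - z) * dvg φ x := by
    refine integral_congr_ae (Eventually.of_forall fun z => ?_)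
    show ∫ x, E.indicator (fun _ => (1 : ℝ)) (x - z) * (dvg φ x * ρ z) =
      ρ z * ∫ x, E.indicator (fun _ => (1 : ℝ)) (x - z) * dvg φ x
    rw [← integral_const_mul]
    refine integral_congr_ae (Eventually.of_forall fun x => ?_)
    show E.indicator (fun _ => (1 : ℝ)) (x - z) * (dvg φ x * ρ z) =
      ρ z * (E.indicator (fun _ => (1 : ℝ)) (x - z) * dvg φ x)
    ring
  have hI : Integrable (fun z => ρ z * ∫ x, E.indicator (fun _ => (1 : ℝ)) (x - z) * dvg φ x)
      volume := by
    have h := hint.integral_prod_right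
    refine h.congr (Eventually.of_forall fun z => ?_)
    show ∫ x, E.indicator (fun _ => (1 : ℝ)) (x - z) * (dvg φ x * ρ z) =
      ρ z * ∫ x, E.indicator (fun _ => (1 : ℝ)) (x - z) * dvg φ x
    rw [← integral_const_mul]
    refine integral_congr_ae (Eventually.of_forall fun x => ?_)
    show E.indicator (fun _ => (1 : ℝ)) (x - z) * (dvg φ x * ρ z) =
      ρ z * (E.indicator (fun _ => (1 : ℝ)) (x - z) * dvg φ x)
    ring
  rw [ENNReal.ofReal_le_iff_le_toReal hP, hL, hswap, hR2]
  calc ∫ z, ρ z * ∫ x, E.indicator (fun _ => (1 : ℝ)) (x - z) * dvg φ x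
      ≤ ∫ z, ρ z * (perimeter E).toReal := by
        refine integral_mono hI ((e1c_int hρ).mul_const _) fun z => ?_
        exact mul_le_mul_of_nonneg_left (e1c_inner hE hP h1 h2 h3 z) (hρ.nonneg z)
    _ = (perimeter E).toReal := by
        rw [integral_mul_const, hρ.one, one_mul]

end Pool.Agent.H89G
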