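import Pool.Agent.Lib.H89G.E1a
import Pool.Agent.Lib.H89G.E1b
import Pool.Agent.Lib.H89G.E1c

/-! H89G, chunk E1 (S/M): smooth approximations exist. Uses E1a, E1b, E1c. -/

open MeasureTheory Set Metric Filter Topology
open scoped ENNReal

namespace Pool.Agent.H89G

open Pool.Agent.H81St

variable {V : Type*} [NormedAddCommGroup V] [InnerProductSpace ℝ V] [FiniteDimensional ℝ V]
  [MeasurableSpace V] [BorelSpace V]

/-- the bump functions -/
noncomputable def e1_bump (V : Type*) [NormedAddCommGroup V] [InnerProductSpace ℝ V] (k : ℕ) :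
    ContDiffBump (0 : V) where
  rIn := 1 / ((k : ℝ) + 1)
  rOut := 2 / ((k : ℝ) + 1)
  rIn_pos := by positivity
  rIn_lt_rOut := by
    apply div_lt_div_of_pos_right one_lt_two
    positivity

theorem e1_rOut (k : ℕ) : (e1_bump V k).rOut ≤ 2 := by
  show 2 / ((k : ℝ) + 1) ≤ 2
  have h : (0 : ℝ) ≤ k := Nat.cast_nonneg k
  rw [div_le_iff₀ (by positivity)]
  nlinarith

theorem e1_kern (k : ℕ) : Kern ((e1_bump V k).normed volume) where
  smooth := (e1_bump V k).contDiff_normed
  supp := by
    intro x hx
    have h1 : x ∉ Function.support ((e1_bump V k).normed volume) := by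
      rw [ContDiffBump.support_normed_eq, mem_ball_zero_iff, not_lt]
      exact (e1_rOut k).trans hx.le
    exact Function.notMem_support.mp h1
  nonneg := (e1_bump V k).nonneg_normed
  one := (e1_bump V k).integral_normed

/-- PROOF. Let `ρ_k = (ContDiffBump with rIn = 1/(k+1), rOut = 2/(k+1), centre 0).normed volume`
(`≥ 0`, `C^∞`, integral one, zero outside the ball of radius `2/(k+1) ≤ 2`), so `Kern ρ_k`, and
`g k = cnv ρ_k E`, `R = R₀ + 2` with `E ⊆ closedBall 0 R₀`. `Moll` is `cnv_facts`, `cnv_transl`,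
`cnv_field`. The almost everywhere convergence is
`ContDiffBump.ae_convolution_tendsto_right_of_locallyIntegrable` (`rOut ≤ 2 rIn`, `rOut → 0`,
`1_E` locally integrable; `cnv ρ E` is the Mathlib convolution by `convolution_def`, up to the order
of the factors). -/
theorem exists_moll {E : Set V} (hE : MeasurableSet E) (hb : Bornology.IsBounded E) :
    ∃ (g : ℕ → V → ℝ) (R : ℝ), (∀ k, Moll E (g k) R) ∧
      ∀ᵐ x, Tendsto (fun k => g k x) atTop (𝓝 (E.indicator (fun _ => (1 : ℝ)) x)) := by
  obtain ⟨R, hR⟩ := hb.subset_closedBall 0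
  refine ⟨fun k => cnv ((e1_bump V k).normed volume) E, R + 2, ?_, ?_⟩
  · intro k
    obtain ⟨f1, f2, f3, f4, f5⟩ := cnv_facts (e1_kern (V := V) k) hE hR
    exact
      { smooth := f1
        supp := f2
        zero := f3
        nonneg := f4
        le_one := f5
        transl := fun v => cnv_transl (e1_kern (V := V) k) hE hR v
        field := fun φ h1 h2 h3 => cnv_field (e1_kern (V := V) k) hE hR h1 h2 h3 }
  · have hlim : Tendsto (fun k : ℕ => (e1_bump V k).rOut) atTop (𝓝 0) := by
      show Tendsto (fun k : ℕ => 2 / ((k : ℝ) + 1)) atTop (𝓝 0)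
      have h := (tendsto_one_div_add_atTop_nhds_zero_nat (𝕜 := ℝ)).const_mul 2
      rw [mul_zero] at h
      refine h.congr fun k => ?_
      ring
    have hK : ∀ᶠ k : ℕ in atTop, (e1_bump V k).rOut ≤ 2 * (e1_bump V k).rIn := by
      refine Eventually.of_forall fun k => ?_
      show 2 / ((k : ℝ) + 1) ≤ 2 * (1 / ((k : ℝ) + 1))
      apply le_of_eq
      ring
    have h := ContDiffBump.ae_convolution_tendsto_right_of_locallyIntegrable
      (φ := fun k : ℕ => e1_bump V k) (μ := (volume : Measure V)) hlim hK (e1a_loc hE)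
    exact h

end Pool.Agent.H89G
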