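import Pool.Agent.Lib.H89G.E0

/-! H89G, chunk E1a (M): the convolution of a set with a smooth kernel, elementary properties. -/

open MeasureTheory Set Metric Filter Topology
open scoped ENNReal

namespace Pool.Agent.H89G

open Pool.Agent.H81St

variable {V : Type*} [NormedAddCommGroup V] [InnerProductSpace ℝ V] [FiniteDimensional ℝ V]
  [MeasurableSpace V] [BorelSpace V]

theorem e1a_compact {ρ : V → ℝ} (hρ : Kern ρ) : HasCompactSupport ρ :=
  HasCompactSupport.intro (isCompact_closedBall (0 : V) 2) fun x hx => hρ.supp x (by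
    rw [mem_closedBall_zero_iff, not_le] at hx
    exact hx)

theorem e1a_int {ρ : V → ℝ} (hρ : Kern ρ) : Integrable ρ volume :=
  hρ.smooth.continuous.integrable_of_hasCompactSupport (e1a_compact hρ)

theorem e1a_loc {E : Set V} (hE : MeasurableSet E) :
    LocallyIntegrable (E.indicator (fun _ => (1 : ℝ))) (volume : Measure V) :=
  (locallyIntegrable_const (1 : ℝ)).indicator hE

theorem e1a_ind_nonneg (E : Set V) (x : V) : 0 ≤ E.indicator (fun _ => (1 : ℝ)) x :=
  indicator_nonneg (fun _ _ => zero_le_one) x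

theorem e1a_ind_le (E : Set V) (x : V) : E.indicator (fun _ => (1 : ℝ)) x ≤ 1 :=
  indicator_le_self' (fun _ _ => zero_le_one) x

/-- PROOF. `cnv ρ E` is the Mathlib convolution `ρ ⋆[ContinuousLinearMap.mul ℝ ℝ, volume] 1_E`
(`MeasureTheory.convolution_def`). `ρ` has compact support (a finite dimensional space is proper)
and is `C²`, `1_E` is locally integrable, so `HasCompactSupport.contDiff_convolution_left` applies.
If `g x ≠ 0` there is a `z` with `‖z‖ ≤ 2` and `x - z ∈ E ⊆ closedBall 0 R`, so `‖x‖ ≤ R + 2`; hence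
compact support. `0 ≤ g` is clear and `g x ≤ ∫ ρ = 1`. -/
theorem cnv_facts {ρ : V → ℝ} (hρ : Kern ρ) {E : Set V} (hE : MeasurableSet E) {R : ℝ}
    (hR : E ⊆ closedBall 0 R) :
    ContDiff ℝ 2 (cnv ρ E) ∧ HasCompactSupport (cnv ρ E) ∧
      (∀ x, R + 2 < ‖x‖ → cnv ρ E x = 0) ∧ (∀ x, 0 ≤ cnv ρ E x) ∧ ∀ x, cnv ρ E x ≤ 1 := by
  have h1 : ContDiff ℝ 2 (cnv ρ E) := by
    have h := (e1a_compact hρ).contDiff_convolution_left (ContinuousLinearMap.mul ℝ ℝ)
      hρ.smooth (e1a_loc hE)
    exact h
  have h2 : ∀ x, R + 2 < ‖x‖ → cnv ρ E x = 0 := by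
    intro x hx
    unfold cnv
    have h3 : ∀ z, ρ z * E.indicator (fun _ => (1 : ℝ)) (x - z) = 0 := by
      intro z
      by_cases hz : 2 < ‖z‖
      · rw [hρ.supp z hz, zero_mul]
      · have h4 : x - z ∉ E := by
          intro h5
          have h6 := hR h5
          rw [mem_closedBall_zero_iff] at h6
          have h7 : ‖x‖ ≤ ‖x - z‖ + ‖z‖ := by
            have := norm_add_le (x - z) z
            rwa [sub_add_cancel] at this
          linarith
        rw [indicator_of_notMem h4, mul_zero]
    simp only [h3, integral_zero]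
  refine ⟨h1, ?_, h2, ?_, ?_⟩
  · exact HasCompactSupport.intro (isCompact_closedBall (0 : V) (R + 2)) fun x hx => h2 x (by
      rw [mem_closedBall_zero_iff, not_le] at hx
      exact hx)
  · intro x
    exact integral_nonneg fun z => mul_nonneg (hρ.nonneg z) (e1a_ind_nonneg E _)
  · intro x
    rw [← hρ.one]
    refine integral_mono_of_nonneg (Eventually.of_forall fun z =>
      mul_nonneg (hρ.nonneg z) (e1a_ind_nonneg E _)) (e1a_int hρ) (Eventually.of_forall fun z => ?_)
    have h4 := e1a_ind_le E (x - z)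
    have h5 := hρ.nonneg z
    show ρ z * E.indicator (fun _ => (1 : ℝ)) (x - z) ≤ ρ z
    nlinarith

end Pool.Agent.H89G
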