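import Pool.Agent.Lib.H89G.E1
import Pool.Agent.Lib.H89G.A2

/-! H89G, chunk E2 (M): difference quotients and directional derivatives of a `C¹` function with
compact support. -/

open MeasureTheory Set Metric Filter Topology
open scoped ENNReal

namespace Pool.Agent.H89G

open Pool.Agent.H81St

variable {V : Type*} [NormedAddCommGroup V] [InnerProductSpace ℝ V] [FiniteDimensional ℝ V]
  [MeasurableSpace V] [BorelSpace V]

theorem e2_fatou {F : ℕ → V → ℝ} {G : V → ℝ} (hF : ∀ k, Integrable (F k)) (hm : ∀ k, Continuous (F k))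
    (h0 : ∀ k x, 0 ≤ F k x) (hG : Integrable G) (hG0 : ∀ x, 0 ≤ G x)
    (hlim : ∀ x, Tendsto (fun k => F k x) atTop (𝓝 (G x))) {C : ℝ} (hC : ∀ k, ∫ x, F k x ≤ C) :
    ∫ x, G x ≤ C := by
  have hC0 : 0 ≤ C := (integral_nonneg (h0 0)).trans (hC 0)
  rw [← ENNReal.ofReal_le_ofReal_iff hC0,
    ofReal_integral_eq_lintegral_ofReal hG (Filter.Eventually.of_forall hG0)]
  calc ∫⁻ x, ENNReal.ofReal (G x) = ∫⁻ x, liminf (fun k => ENNReal.ofReal (F k x)) atTop := by
        refine lintegral_congr fun x => ?_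
        exact ((ENNReal.continuous_ofReal.tendsto _).comp (hlim x)).liminf_eq.symm
    _ ≤ liminf (fun k => ∫⁻ x, ENNReal.ofReal (F k x)) atTop :=
        lintegral_liminf_le fun k => (hm k).measurable.ennreal_ofReal
    _ ≤ liminf (fun _ : ℕ => ENNReal.ofReal C) atTop := by
        refine liminf_le_liminf (Filter.Eventually.of_forall fun k => ?_)
        rw [← ofReal_integral_eq_lintegral_ofReal (hF k) (Filter.Eventually.of_forall (h0 k))]
        exact ENNReal.ofReal_le_ofReal (hC k)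
    _ = ENNReal.ofReal C := by simp

theorem e2_diff_int {g : V → ℝ} (hg : Continuous g) (hc : HasCompactSupport g) (w : V) :
    Integrable (fun x => g (x + w) - g x) := by
  have h1 : Integrable g := hg.integrable_of_hasCompactSupport hc
  exact (h1.comp_add_right w).sub h1

theorem e2_fderiv_cont {g : V → ℝ} (hg : ContDiff ℝ 1 g) (v : V) : Continuous (fun x => fderiv ℝ g x v) :=
  (hg.continuous_fderiv one_ne_zero).clm_apply continuous_const

theorem e2_fderiv_int {g : V → ℝ} (hg : ContDiff ℝ 1 g) (hc : HasCompactSupport g) (v : V) :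
    Integrable (fun x => fderiv ℝ g x v) := by
  refine (e2_fderiv_cont hg v).integrable_of_hasCompactSupport ?_
  exact (hc.fderiv (𝕜 := ℝ)).comp_left (g := fun L : V →L[ℝ] ℝ => L v) (by simp)

/-- PROOF. `g (x + t v) - g x = ∫ s in 0..t, fderiv ℝ g (x + s v) v`; integrate the absolute value
over `x`, Fubini and translation invariance. -/
theorem int_transl_le {g : V → ℝ} (hg : ContDiff ℝ 1 g) (hc : HasCompactSupport g) (v : V)
    {t : ℝ} (ht : 0 ≤ t) :
    ∫ x, |g (x + t • v) - g x| ≤ t * ∫ x, |fderiv ℝ g x v| := by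
  have hI := e2_fderiv_int hg hc v
  have hD := e2_diff_int hg.continuous hc (t • v)
  have hT0 : 0 ≤ t * ∫ x, |fderiv ℝ g x v| := mul_nonneg ht (integral_nonneg fun x => abs_nonneg _)
  have h1 : ENNReal.ofReal (∫ x, |g (x + t • v) - g x|) = ∫⁻ x, ‖g (x + t • v) - g x‖ₑ :=
    ofReal_integral_norm_eq_lintegral_enorm hD
  have h2 : ENNReal.ofReal (∫ x, |fderiv ℝ g x v|) = ∫⁻ x, ‖fderiv ℝ g x v‖ₑ :=
    ofReal_integral_norm_eq_lintegral_enorm hI
  rw [← ENNReal.ofReal_le_ofReal_iff hT0, h1, ENNReal.ofReal_mul ht, h2]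
  have hjc : Continuous (fun p : V × ℝ => fderiv ℝ g (p.1 + p.2 • v) v) :=
    (e2_fderiv_cont hg v).comp (continuous_fst.add (continuous_snd.smul continuous_const))
  have hjm : Measurable (fun p : V × ℝ => ‖fderiv ℝ g (p.1 + p.2 • v) v‖ₑ) := hjc.measurable.enorm
  have hpt : ∀ x : V, ‖g (x + t • v) - g x‖ₑ ≤ ∫⁻ s in Ioc (0 : ℝ) t, ‖fderiv ℝ g (x + s • v) v‖ₑ := by
    intro x
    have hder : ∀ s : ℝ, HasDerivAt (fun s : ℝ => g (x + s • v)) (fderiv ℝ g (x + s • v) v) s := by
      intro s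
      have h3 : HasDerivAt (fun s : ℝ => x + s • v) v s := by
        have h4 : HasDerivAt (fun s : ℝ => s • v) ((1 : ℝ) • v) s := (hasDerivAt_id s).smul_const v
        rw [one_smul] at h4
        exact h4.const_add x
      exact ((hg.differentiable one_ne_zero).differentiableAt.hasFDerivAt (x := x + s • v)).comp_hasDerivAt s h3
    have hcs : Continuous (fun s : ℝ => fderiv ℝ g (x + s • v) v) :=
      hjc.comp (continuous_const.prodMk continuous_id)
    have h5 : ∫ s in (0 : ℝ)..t, fderiv ℝ g (x + s • v) v = g (x + t • v) - g x := by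
      rw [intervalIntegral.integral_eq_sub_of_hasDerivAt (fun s _ => hder s) (hcs.intervalIntegrable _ _)]
      simp
    rw [← h5, intervalIntegral.integral_of_le ht]
    exact enorm_integral_le_lintegral_enorm _
  calc ∫⁻ x, ‖g (x + t • v) - g x‖ₑ ≤ ∫⁻ x, ∫⁻ s in Ioc (0 : ℝ) t, ‖fderiv ℝ g (x + s • v) v‖ₑ :=
        lintegral_mono hpt
    _ = ∫⁻ s in Ioc (0 : ℝ) t, ∫⁻ x, ‖fderiv ℝ g (x + s • v) v‖ₑ :=
        lintegral_lintegral_swap hjm.aemeasurable
    _ = ∫⁻ _s in Ioc (0 : ℝ) t, ∫⁻ x, ‖fderiv ℝ g x v‖ₑ := by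
        refine lintegral_congr fun s => ?_
        exact lintegral_add_right_eq_self (fun x => ‖fderiv ℝ g x v‖ₑ) (s • v)
    _ = ENNReal.ofReal t * ∫⁻ x, ‖fderiv ℝ g x v‖ₑ := by
        rw [setLIntegral_const, Real.volume_Ioc, sub_zero, mul_comm]

/-- PROOF. `(g (x + t v) - g x) / t → fderiv ℝ g x v` as `t → 0+` for every `x`, and for
`0 < t ≤ 1` the quotients are bounded by `sup ‖fderiv g‖ * ‖v‖` and vanish outside a fixed ball,
so by dominated convergence `∫ |g (x + t v) - g x| / t → ∫ |fderiv ℝ g x v|`. By hypothesis each of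
them is `≤ C`. (Take `t = 1/(k+1)`.) -/
theorem int_fderiv_le {g : V → ℝ} (hg : ContDiff ℝ 1 g) (hc : HasCompactSupport g) (v : V)
    {C : ℝ} (h : ∀ t : ℝ, 0 < t → ∫ x, |g (x + t • v) - g x| ≤ t * C) :
    ∫ x, |fderiv ℝ g x v| ≤ C := by
  have hI := e2_fderiv_int hg hc v
  have htp : ∀ k : ℕ, (0 : ℝ) < 1 / ((k : ℝ) + 1) := fun k => by positivity
  refine e2_fatou (F := fun k x => |g (x + (1 / ((k : ℝ) + 1)) • v) - g x| * ((k : ℝ) + 1)) ?_ ?_ ?_ hI.abs
    (fun x => abs_nonneg _) ?_ ?_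
  · intro k
    exact (e2_diff_int hg.continuous hc _).abs.mul_const _
  · intro k
    exact (((hg.continuous.comp (continuous_id.add continuous_const)).sub hg.continuous).abs).mul continuous_const
  · intro k x
    positivity
  · intro x
    have h3 : HasDerivAt (fun s : ℝ => g (x + s • v)) (fderiv ℝ g x v) 0 := by
      have h4 : HasDerivAt (fun s : ℝ => x + s • v) v 0 := by
        have h5 : HasDerivAt (fun s : ℝ => s • v) ((1 : ℝ) • v) 0 := (hasDerivAt_id (0 : ℝ)).smul_const v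
        rw [one_smul] at h5
        exact h5.const_add x
      have h6 : HasFDerivAt g (fderiv ℝ g x) (x + (0 : ℝ) • v) := by
        rw [zero_smul, add_zero]
        exact (hg.differentiable one_ne_zero).differentiableAt.hasFDerivAt
      exact h6.comp_hasDerivAt 0 h4
    have h7 := h3.tendsto_slope_zero
    have h8 : Tendsto (fun k : ℕ => 1 / ((k : ℝ) + 1)) atTop (𝓝[≠] 0) := by
      rw [tendsto_nhdsWithin_iff]
      exact ⟨tendsto_one_div_add_atTop_nhds_zero_nat, Filter.Eventually.of_forall fun k => (htp k).ne'⟩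
    have h9 := (h7.comp h8).abs
    refine h9.congr fun k => ?_
    simp only [Function.comp_apply, zero_add, zero_smul, add_zero, smul_eq_mul, one_div, inv_inv]
    rw [abs_mul, abs_of_pos (by positivity : (0 : ℝ) < (k : ℝ) + 1), mul_comm]
  · intro k
    rw [integral_mul_const]
    have h10 := h (1 / ((k : ℝ) + 1)) (htp k)
    calc (∫ x, |g (x + (1 / ((k : ℝ) + 1)) • v) - g x|) * ((k : ℝ) + 1)
        ≤ (1 / ((k : ℝ) + 1) * C) * ((k : ℝ) + 1) := mul_le_mul_of_nonneg_right h10 (by positivity)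
      _ = C := by field_simp

/-- PROOF. `int_fderiv_le` with `C = 2 (dper E v).toReal`: `gap E (t v) ≤ ofReal t * dper E v`
(`gap_le_dper`), so `(gap E (t v)).toReal ≤ t (dper E v).toReal` when `dper E v ≠ ⊤`. -/
theorem moll_fderiv_le {E : Set V} {g : V → ℝ} {R : ℝ} (h : Moll E g R) {v : V}
    (hd : dper E v ≠ ⊤) : ∫ x, |fderiv ℝ g x v| ≤ 2 * (dper E v).toReal := by
  refine int_fderiv_le (h.smooth.of_le one_le_two) h.supp v fun t ht => ?_
  refine (h.transl (t • v)).trans ?_
  have h1 := gap_le_dper E v ht.le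
  have h2 : (gap E (t • v)).toReal ≤ (ENNReal.ofReal t * dper E v).toReal :=
    ENNReal.toReal_mono (ENNReal.mul_ne_top ENNReal.ofReal_ne_top hd) h1
  rw [ENNReal.toReal_mul, ENNReal.toReal_ofReal ht.le] at h2
  linarith

end Pool.Agent.H89G
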