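import Pool.Agent.Lib.H89G.E1

/-! H89G, chunk E3 (M): the total variation of a smooth function by duality. -/

open MeasureTheory Set Metric Filter Topology
open scoped ENNReal

namespace Pool.Agent.H89G

open Pool.Agent.H81St

variable {V : Type*} [NormedAddCommGroup V] [InnerProductSpace ℝ V] [FiniteDimensional ℝ V]
  [MeasurableSpace V] [BorelSpace V]

theorem e3_fatou {F : ℕ → V → ℝ} {G : V → ℝ} (hF : ∀ k, Integrable (F k)) (hm : ∀ k, Continuous (F k))
    (h0 : ∀ k x, 0 ≤ F k x) (hG : Integrable G) (hG0 : ∀ x, 0 ≤ G x)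
    (hlim : ∀ x, Tendsto (fun k => F k x) atTop (𝓝 (G x))) {C : ℝ} (hC : ∀ k, ∫ x, F k x ≤ C) :
    ∫ x, G x ≤ C := by
  have hC0 : 0 ≤ C := (integral_nonneg (h0 0)).trans (hC 0)
  rw [← ENNReal.ofReal_le_ofReal_iff hC0,
    ofReal_integral_eq_lintegral_ofReal hG (Filter.Eventually.of_forall hG0)]
  calc ∫⁻ x, ENNReal.ofReal (G x) = ∫⁻ x, liminf (fun k => ENNReal.ofReal (F k x)) atTop := by
        refine lintegral_congr fun x => ?_
        exact ((ENNReal.continuous_ofReal.tendsto _).comp (hlim x)).liminf_eq.symm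
    _ ≤ liminf (fun k => ∫⁻ x, ENNReal.ofReal (F k x)) atTop :=
        lintegral_liminf_le fun k => (hm k).measurable.ennreal_ofReal
    _ ≤ liminf (fun _ : ℕ => ENNReal.ofReal C) atTop := by
        refine liminf_le_liminf (Filter.Eventually.of_forall fun k => ?_)
        rw [← ofReal_integral_eq_lintegral_ofReal (hF k) (Filter.Eventually.of_forall (h0 k))]
        exact ENNReal.ofReal_le_ofReal (hC k)
    _ = ENNReal.ofReal C := by simp

/-- The gradient, written in the standard orthonormal basis. -/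
noncomputable def e3_grad (g : V → ℝ) (x : V) : V :=
  ∑ i, (fderiv ℝ g x (stdOrthonormalBasis ℝ V i)) • stdOrthonormalBasis ℝ V i

theorem e3_inner (g : V → ℝ) (x w : V) : inner ℝ (e3_grad g x) w = fderiv ℝ g x w := by
  unfold e3_grad
  rw [sum_inner]
  conv_rhs => rw [← (stdOrthonormalBasis ℝ V).sum_repr w]
  rw [map_sum]
  refine Finset.sum_congr rfl fun i _ => ?_
  rw [real_inner_smul_left, map_smul, smul_eq_mul, (stdOrthonormalBasis ℝ V).repr_apply_apply]
  ring

theorem e3_norm (g : V → ℝ) (x : V) : ‖e3_grad g x‖ = ‖fderiv ℝ g x‖ := by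
  refine le_antisymm ?_ ?_
  · have h1 : ‖e3_grad g x‖ * ‖e3_grad g x‖ ≤ ‖fderiv ℝ g x‖ * ‖e3_grad g x‖ := by
      have h2 : ‖e3_grad g x‖ * ‖e3_grad g x‖ = fderiv ℝ g x (e3_grad g x) := by
        rw [← e3_inner, real_inner_self_eq_norm_mul_norm]
      rw [h2]
      exact (le_abs_self _).trans ((fderiv ℝ g x).le_opNorm _)
    rcases (norm_nonneg (e3_grad g x)).eq_or_lt with h | h
    · rw [← h]
      exact norm_nonneg _
    · exact le_of_mul_le_mul_right h1 h
  · refine ContinuousLinearMap.opNorm_le_bound _ (norm_nonneg _) fun w => ?_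
    rw [← e3_inner]
    exact norm_inner_le_norm _ _

theorem e3_contDiff {g : V → ℝ} (hg : ContDiff ℝ 2 g) : ContDiff ℝ 1 (e3_grad g) := by
  unfold e3_grad
  refine ContDiff.sum fun i _ => ?_
  refine ContDiff.smul ?_ contDiff_const
  exact (hg.fderiv_right (m := 1) (by norm_num)).clm_apply contDiff_const

theorem e3_supp {g : V → ℝ} (hc : HasCompactSupport g) : HasCompactSupport (e3_grad g) :=
  (hc.fderiv (𝕜 := ℝ)).comp_left
    (g := fun L : V →L[ℝ] ℝ => ∑ i, (L (stdOrthonormalBasis ℝ V i)) • stdOrthonormalBasis ℝ V i) (by simp)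

/-- PROOF. Let `G x = gradient g x` (`(InnerProductSpace.toDual ℝ V).symm (fderiv ℝ g x)`), a `C¹`
field with compact support, `⟨G x, w⟩ = fderiv ℝ g x w`, `‖G x‖ = ‖fderiv ℝ g x‖`. For `δ > 0` put
`φ x = - (√(‖G x‖² + δ²))⁻¹ • G x`: `C¹` (the square root of a positive `C¹` function), support in
the support of `G`, `‖φ‖ ≤ 1`. By `Pool.Agent.H81St.ibp` (`g` is Lipschitz:
`ContDiff.lipschitzWith_of_hasCompactSupport`)
`C ≥ ∫ g * dvg φ = - ∫ fderiv ℝ g x (φ x) = ∫ ‖G‖² / √(‖G‖² + δ²)`, and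
`‖G‖²/√(‖G‖² + δ²) ≥ ‖G‖ - δ` (as `‖G‖ ≤ √(‖G‖² + δ²) ≤ ‖G‖ + δ`), which is only needed on the
support `K` of `G` (elsewhere both are `0` or the bound is trivial with the indicator of `K`):
`∫ ‖G‖ ≤ C + δ |K|` with `|K| < ∞`. Let `δ → 0`. -/
theorem int_norm_fderiv_le {g : V → ℝ} (hg : ContDiff ℝ 2 g) (hc : HasCompactSupport g) {C : ℝ}
    (h : ∀ φ : V → V, ContDiff ℝ 1 φ → HasCompactSupport φ → (∀ x, ‖φ x‖ ≤ 1) →
      ∫ x, g x * dvg φ x ≤ C) :
    ∫ x, ‖fderiv ℝ g x‖ ≤ C := by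
  have hG := e3_contDiff hg
  have hGs := e3_supp hc
  have hGn : Continuous (fun x => ‖e3_grad g x‖) := hG.continuous.norm
  have hlip : ∃ K, LipschitzWith K g := ContDiff.lipschitzWith_of_hasCompactSupport hc (hg.of_le one_le_two) (by norm_num)
  obtain ⟨K, hK⟩ := hlip
  have hnc : Continuous (fun x => ‖fderiv ℝ g x‖) := by
    refine hGn.congr fun x => e3_norm g x
  have hns : HasCompactSupport (fun x => ‖fderiv ℝ g x‖) := (hc.fderiv (𝕜 := ℝ)).norm
  set d : ℕ → ℝ := fun k => 1 / ((k : ℝ) + 1) with hd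
  have hdp : ∀ k, 0 < d k := fun k => by simp only [hd]; positivity
  set q : ℕ → V → ℝ := fun k x => (Real.sqrt (‖e3_grad g x‖ ^ 2 + d k ^ 2))⁻¹ with hq
  have hpos : ∀ k x, 0 < ‖e3_grad g x‖ ^ 2 + d k ^ 2 := fun k x => by
    have := hdp k
    positivity
  have hsq : ∀ k x, 0 < Real.sqrt (‖e3_grad g x‖ ^ 2 + d k ^ 2) := fun k x => Real.sqrt_pos.2 (hpos k x)
  have hqd : ∀ k, ContDiff ℝ 1 (q k) := by
    intro k
    refine ContDiff.inv ?_ fun x => (hsq k x).ne'
    refine ContDiff.sqrt ?_ fun x => (hpos k x).ne'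
    exact (hG.norm_sq ℝ).add contDiff_const
  have hs2 : HasCompactSupport (fun x => ‖fderiv ℝ g x‖ ^ 2) := by
    have h1 : HasCompactSupport ((fun t : ℝ => t ^ 2) ∘ fun x => ‖fderiv ℝ g x‖) := hns.comp_left (by norm_num)
    exact h1
  have hs3 : ∀ k, HasCompactSupport (fun x => q k x * ‖fderiv ℝ g x‖ ^ 2) := by
    intro k
    have h1 : HasCompactSupport (q k * fun x => ‖fderiv ℝ g x‖ ^ 2) := hs2.mul_left
    exact h1
  refine e3_fatou (F := fun k x => q k x * ‖fderiv ℝ g x‖ ^ 2) ?_ ?_ ?_ (hnc.integrable_of_hasCompactSupport hns)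
    (fun x => norm_nonneg _) ?_ ?_
  · intro k
    exact ((hqd k).continuous.mul (hnc.pow 2)).integrable_of_hasCompactSupport (hs3 k)
  · intro k
    exact (hqd k).continuous.mul (hnc.pow 2)
  · intro k x
    exact mul_nonneg (inv_nonneg.2 (Real.sqrt_nonneg _)) (sq_nonneg _)
  · intro x
    have h1 : Tendsto d atTop (𝓝 0) := tendsto_one_div_add_atTop_nhds_zero_nat
    by_cases hz : ‖fderiv ℝ g x‖ = 0
    · simp only [hz]
      norm_num
    · have h2 : Tendsto (fun k => ‖e3_grad g x‖ ^ 2 + d k ^ 2) atTop (𝓝 (‖fderiv ℝ g x‖ ^ 2)) := by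
        have := (tendsto_const_nhds (x := ‖e3_grad g x‖ ^ 2)).add (h1.pow 2)
        rw [e3_norm] at this
        simp only [e3_norm]
        simpa using this
      have h3 : Tendsto (fun k => q k x) atTop (𝓝 (‖fderiv ℝ g x‖)⁻¹) := by
        have h4 := (Real.continuous_sqrt.tendsto _).comp h2
        rw [Real.sqrt_sq (norm_nonneg _)] at h4
        exact h4.inv₀ hz
      have h5 := h3.mul_const (‖fderiv ℝ g x‖ ^ 2)
      have h6 : (‖fderiv ℝ g x‖)⁻¹ * ‖fderiv ℝ g x‖ ^ 2 = ‖fderiv ℝ g x‖ := by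
        field_simp
      rw [h6] at h5
      exact h5
  · intro k
    have hd1 : ContDiff ℝ 1 (fun x => -(q k x • e3_grad g x)) := ((hqd k).smul hG).neg
    have hd2 : HasCompactSupport (fun x => -(q k x • e3_grad g x)) := by
      have h1 : HasCompactSupport (q k • e3_grad g) := hGs.smul_left
      exact h1.neg
    have h1 := h (fun x => -(q k x • e3_grad g x)) hd1 hd2 ?_
    · rw [Pool.Agent.H81St.ibp hK hd1 hd2, ← integral_neg] at h1
      refine le_trans (le_of_eq ?_) h1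
      refine integral_congr_ae (Filter.Eventually.of_forall fun x => ?_)
      simp only [map_neg, map_smul, smul_eq_mul, neg_neg]
      rw [← e3_inner, real_inner_self_eq_norm_sq, e3_norm]
    · intro x
      rw [norm_neg, norm_smul, Real.norm_of_nonneg (inv_nonneg.2 (Real.sqrt_nonneg _)),
        inv_mul_le_iff₀ (hsq k x), mul_one]
      refine Real.le_sqrt_of_sq_le ?_
      have := sq_nonneg (d k)
      linarith

/-- PROOF. `int_norm_fderiv_le` with `C = (perimeter E).toReal`; the field `Moll.field` gives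
`ofReal (∫ g * dvg φ) ≤ perimeter E < ⊤`, so `∫ g * dvg φ ≤ (perimeter E).toReal`. -/
theorem moll_norm_le {E : Set V} {g : V → ℝ} {R : ℝ} (h : Moll E g R) (hP : perimeter E ≠ ⊤) :
    ∫ x, ‖fderiv ℝ g x‖ ≤ (perimeter E).toReal := by
  refine int_norm_fderiv_le h.smooth h.supp fun φ h1 h2 h3 => ?_
  have h4 := h.field φ h1 h2 h3
  rw [ENNReal.ofReal_le_iff_le_toReal hP] at h4
  exact h4

end Pool.Agent.H89G
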