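import Pool.Agent.Lib.H89G.E2
import Pool.Agent.Lib.H89G.E3

/-! H89G, chunk E4 (M): the directional perimeter is at most half of the perimeter. Uses E1, E2,
E3. -/

open MeasureTheory Set Metric Filter Topology
open scoped ENNReal

namespace Pool.Agent.H89G

open Pool.Agent.H81St

variable {V : Type*} [NormedAddCommGroup V] [InnerProductSpace ℝ V] [FiniteDimensional ℝ V]
  [MeasurableSpace V] [BorelSpace V]

theorem e4_gap {E : Set V} (hE : MeasurableSet E) (hb : Bornology.IsBounded E) (v : V) :
    ∫⁻ x, ‖E.indicator (fun _ => (1 : ℝ)) (x + v) - E.indicator (fun _ => (1 : ℝ)) x‖ₑ = 2 * gap E v := by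
  have hfin : volume E ≠ ⊤ := hb.measure_lt_top.ne
  have hE' : MeasurableSet {x | x + v ∈ E} := measurable_add_const v hE
  have h1 : ∀ x, ‖E.indicator (fun _ => (1 : ℝ)) (x + v) - E.indicator (fun _ => (1 : ℝ)) x‖ₑ
      = (E \ {x | x + v ∈ E}).indicator (fun _ => (1 : ℝ≥0∞)) x
        + ({x | x + v ∈ E} \ E).indicator (fun _ => (1 : ℝ≥0∞)) x := by
    intro x
    by_cases h2 : x + v ∈ E <;> by_cases h3 : x ∈ E <;> simp [h2, h3]
  simp_rw [h1]
  rw [lintegral_add_left (measurable_const.indicator (hE.diff hE')), lintegral_indicator (hE.diff hE'),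
    lintegral_indicator (hE'.diff hE)]
  simp only [lintegral_const, Measure.restrict_apply_univ, one_mul]
  have h4 : volume (E \ {x | x + v ∈ E}) = gap E v := by
    rw [← gap_neg hE hfin v]
    unfold gap
    simp
  have h5 : volume ({x | x + v ∈ E} \ E) = gap E v := by
    have h6 : {x | x + v ∈ E} \ E = (fun x => x + v) ⁻¹' (E \ {x | x - v ∈ E}) := by
      ext x
      simp
    rw [h6, measure_preimage_add_right]
    rfl
  rw [h4, h5, two_mul]

/-- PROOF. Let `g k` be the approximations of `exists_moll`. For every `v` and almost every `x`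
`|g k (x + v) - g k x| → |1_E (x + v) - 1_E x|` (the exceptional set and its translate are null), so
by Fatou (`lintegral_liminf_le`, with `ENNReal.ofReal`)
`∫ |1_E (x + v) - 1_E x| ≤ liminf_k ∫ |g k (x + v) - g k x|`, and the left side is `2 gap E v`
(`|E \ (E - v)| + |(E - v) \ E|`, `gap_neg`). -/
theorem gap_le_liminf {E : Set V} (hE : MeasurableSet E) (hb : Bornology.IsBounded E)
    {g : ℕ → V → ℝ} {R : ℝ} (hg : ∀ k, Moll E (g k) R)
    (hlim : ∀ᵐ x, Tendsto (fun k => g k x) atTop (𝓝 (E.indicator (fun _ => (1 : ℝ)) x)))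
    (v : V) :
    2 * gap E v ≤ liminf (fun k => ENNReal.ofReal (∫ x, |g k (x + v) - g k x|)) atTop := by
  rw [← e4_gap hE hb v]
  have hshift : ∀ᵐ x : V, Tendsto (fun k => g k (x + v)) atTop
      (𝓝 (E.indicator (fun _ => (1 : ℝ)) (x + v))) :=
    (measurePreserving_add_right volume v).quasiMeasurePreserving.ae hlim
  calc ∫⁻ x, ‖E.indicator (fun _ => (1 : ℝ)) (x + v) - E.indicator (fun _ => (1 : ℝ)) x‖ₑ
      = ∫⁻ x, liminf (fun k => ‖g k (x + v) - g k x‖ₑ) atTop := by
        refine lintegral_congr_ae ?_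
        filter_upwards [hlim, hshift] with x h1 h2
        exact ((h2.sub h1).enorm).liminf_eq.symm
    _ ≤ liminf (fun k => ∫⁻ x, ‖g k (x + v) - g k x‖ₑ) atTop := by
        refine lintegral_liminf_le fun k => ?_
        have hc : Continuous (g k) := (hg k).smooth.continuous
        exact ((hc.comp (continuous_id.add continuous_const)).sub hc).measurable.enorm
    _ = liminf (fun k => ENNReal.ofReal (∫ x, |g k (x + v) - g k x|)) atTop := by
        congr 1
        ext k
        exact (ofReal_integral_norm_eq_lintegral_enorm (e2_diff_int (hg k).smooth.continuous (hg k).supp v)).symm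

/-- PROOF. By the previous lemma, `int_transl_le` and `moll_norm_le`:
`2 gap E (t v) ≤ liminf ofReal (t ∫ |fderiv (g k) x v|) ≤ ofReal (t ‖v‖ (perimeter E).toReal)`.
Divide by `t` and take the supremum. -/
theorem dper_le {E : Set V} (hE : MeasurableSet E) (hb : Bornology.IsBounded E)
    (hP : perimeter E ≠ ⊤) (v : V) :
    dper E v ≤ ENNReal.ofReal ((perimeter E).toReal / 2 * ‖v‖) := by
  obtain ⟨g, R, hg, hlim⟩ := exists_moll hE hb
  unfold dper
  refine iSup_le fun t => iSup_le fun ht => ?_
  have h1 := gap_le_liminf hE hb hg hlim (t • v)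
  have h2 : ∀ k, ∫ x, |g k (x + t • v) - g k x| ≤ t * (‖v‖ * (perimeter E).toReal) := by
    intro k
    have hs1 : ContDiff ℝ 1 (g k) := (hg k).smooth.of_le one_le_two
    refine (int_transl_le hs1 (hg k).supp v ht.le).trans (mul_le_mul_of_nonneg_left ?_ ht.le)
    calc ∫ x, |fderiv ℝ (g k) x v| ≤ ∫ x, ‖v‖ * ‖fderiv ℝ (g k) x‖ := by
          refine integral_mono (e2_fderiv_int hs1 (hg k).supp v).abs ?_ fun x => ?_
          · refine Integrable.const_mul ?_ _
            refine (hs1.continuous_fderiv one_ne_zero).norm.integrable_of_hasCompactSupport ?_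
            exact ((hg k).supp.fderiv (𝕜 := ℝ)).norm
          · have := (fderiv ℝ (g k) x).le_opNorm v
            rw [mul_comm]
            exact this
      _ = ‖v‖ * ∫ x, ‖fderiv ℝ (g k) x‖ := integral_const_mul _ _
      _ ≤ ‖v‖ * (perimeter E).toReal := mul_le_mul_of_nonneg_left (moll_norm_le (hg k) hP) (norm_nonneg _)
  have h3 : 2 * gap E (t • v) ≤ ENNReal.ofReal (t * (‖v‖ * (perimeter E).toReal)) := by
    refine h1.trans ?_
    calc liminf (fun k => ENNReal.ofReal (∫ x, |g k (x + t • v) - g k x|)) atTop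
        ≤ liminf (fun _ : ℕ => ENNReal.ofReal (t * (‖v‖ * (perimeter E).toReal))) atTop :=
          liminf_le_liminf (Filter.Eventually.of_forall fun k => ENNReal.ofReal_le_ofReal (h2 k))
      _ = ENNReal.ofReal (t * (‖v‖ * (perimeter E).toReal)) := by simp
  rw [ENNReal.div_le_iff (by simpa using ht) ENNReal.ofReal_ne_top, ← ENNReal.ofReal_mul (by positivity)]
  have h4 : ENNReal.ofReal (t * (‖v‖ * (perimeter E).toReal))
      = 2 * ENNReal.ofReal ((perimeter E).toReal / 2 * ‖v‖ * t) := by
    have h5 : (2 : ℝ≥0∞) = ENNReal.ofReal 2 := by simp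
    rw [h5, ← ENNReal.ofReal_mul (by norm_num)]
    congr 1
    ring
  rw [h4] at h3
  exact (ENNReal.mul_le_mul_iff_right (by norm_num) (by norm_num)).1 h3

end Pool.Agent.H89G
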