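import Pool.Agent.Lib.H89G.E2

/-! H89G, chunk E5 (M): the perimeter is controlled by finitely many directional perimeters.
Uses E1, E2. -/

open MeasureTheory Set Metric Filter Topology
open scoped ENNReal

namespace Pool.Agent.H89G

open Pool.Agent.H81St

variable {V : Type*} [NormedAddCommGroup V] [InnerProductSpace ℝ V] [FiniteDimensional ℝ V]
  [MeasurableSpace V] [BorelSpace V]

/-- PROOF. Let `φ` be an admissible field (`C¹`, compact support, `‖φ‖ ≤ 1`) and `g k` as in
`exists_moll`. By dominated convergence (`0 ≤ g k ≤ 1`, `dvg φ` continuous with compact support)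
`∫ x in E, dvg φ x = lim ∫ g k x * dvg φ x`, and by `Pool.Agent.H81St.ibp`
`∫ g k * dvg φ = - ∫ fderiv ℝ (g k) x (φ x) ≤ ∫ ‖fderiv ℝ (g k) x‖`. With `w = gradient (g k) x`
the hypothesis gives `m ‖fderiv ℝ (g k) x‖ ≤ ∑ c j |fderiv ℝ (g k) x (z j)|`. Integrate and use
`moll_fderiv_le`: `m ∫ x in E, dvg φ x ≤ ∑ c j * 2 * (dper E (z j)).toReal`. Take the supremum
over `φ` (if `m = 0` the claim is trivial, otherwise divide by `m`). -/
theorem perimeter_le_sum {E : Set V} (hE : MeasurableSet E) (hb : Bornology.IsBounded E)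
    {ι : Type} [Fintype ι] (c : ι → ℝ) (hc : ∀ j, 0 ≤ c j) (z : ι → V)
    (hd : ∀ j, dper E (z j) ≠ ⊤) {m : ℝ} (hm : 0 ≤ m)
    (h : ∀ w : V, m * ‖w‖ ≤ ∑ j, c j * |inner ℝ w (z j)|) :
    ENNReal.ofReal m * perimeter E
      ≤ ENNReal.ofReal (2 * ∑ j, c j * (dper E (z j)).toReal) := by
  obtain ⟨g, R, hg, hlim⟩ := exists_moll hE hb
  set S : ℝ := 2 * ∑ j, c j * (dper E (z j)).toReal with hS
  have hS0 : 0 ≤ S := by
    rw [hS]
    exact mul_nonneg zero_le_two (Finset.sum_nonneg fun j _ => mul_nonneg (hc j) ENNReal.toReal_nonneg)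
  rcases hm.eq_or_lt with hm0 | hm0
  · rw [← hm0]
    simp
  have hkey : ∀ k, m * ∫ x, ‖fderiv ℝ (g k) x‖ ≤ S := by
    intro k
    have hs1 : ContDiff ℝ 1 (g k) := (hg k).smooth.of_le one_le_two
    have hn : Integrable (fun x => ‖fderiv ℝ (g k) x‖) :=
      (hs1.continuous_fderiv one_ne_zero).norm.integrable_of_hasCompactSupport
        ((hg k).supp.fderiv (𝕜 := ℝ)).norm
    have hj : ∀ j, Integrable (fun x => |fderiv ℝ (g k) x (z j)|) := fun j =>
      (e2_fderiv_int hs1 (hg k).supp (z j)).abs
    rw [← integral_const_mul]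
    calc ∫ x, m * ‖fderiv ℝ (g k) x‖ ≤ ∫ x, ∑ j, c j * |fderiv ℝ (g k) x (z j)| := by
          refine integral_mono (hn.const_mul m) (integrable_finsetSum _ fun j _ => (hj j).const_mul _) fun x => ?_
          have h1 := h ((InnerProductSpace.toDual ℝ V).symm (fderiv ℝ (g k) x))
          simp only [InnerProductSpace.toDual_symm_apply, LinearIsometryEquiv.norm_map] at h1
          exact h1
      _ = ∑ j, c j * ∫ x, |fderiv ℝ (g k) x (z j)| := by
          rw [integral_finsetSum _ fun j _ => (hj j).const_mul _]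
          exact Finset.sum_congr rfl fun j _ => integral_const_mul _ _
      _ ≤ ∑ j, c j * (2 * (dper E (z j)).toReal) :=
          Finset.sum_le_sum fun j _ => mul_le_mul_of_nonneg_left (moll_fderiv_le (hg k) (hd j)) (hc j)
      _ = S := by
          rw [hS, Finset.mul_sum]
          exact Finset.sum_congr rfl fun j _ => by ring
  have hper : perimeter E ≤ ENNReal.ofReal (S / m) := by
    unfold perimeter
    refine iSup_le fun φ => iSup_le fun hφ => iSup_le fun hφc => iSup_le fun hφn => ?_
    refine ENNReal.ofReal_le_ofReal ?_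
    rw [le_div_iff₀ hm0, mul_comm]
    have hdc := dvg_cont hφ
    have hdi : Integrable (dvg φ) := hdc.integrable_of_hasCompactSupport (dvg_compact hφc)
    have h1 : Tendsto (fun k => ∫ x, g k x * dvg φ x) atTop
        (𝓝 (∫ x, E.indicator (fun _ => (1 : ℝ)) x * dvg φ x)) := by
      refine tendsto_integral_of_dominated_convergence (fun x => |dvg φ x|) ?_ hdi.abs ?_ ?_
      · intro k
        exact ((hg k).smooth.continuous.mul hdc).aestronglyMeasurable
      · intro k
        refine Filter.Eventually.of_forall fun x => ?_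
        rw [norm_mul, Real.norm_of_nonneg ((hg k).nonneg x), Real.norm_eq_abs]
        exact mul_le_of_le_one_left (abs_nonneg _) ((hg k).le_one x)
      · filter_upwards [hlim] with x hx
        exact hx.mul_const _
    have h2 : ∫ x, E.indicator (fun _ => (1 : ℝ)) x * dvg φ x = ∫ x in E, dvg φ x := by
      rw [← integral_indicator hE]
      refine integral_congr_ae (Filter.Eventually.of_forall fun x => ?_)
      by_cases hx : x ∈ E <;> simp [hx]
    rw [h2] at h1
    refine le_of_tendsto' (h1.const_mul m) fun k => ?_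
    refine le_trans (mul_le_mul_of_nonneg_left ?_ hm0.le) (hkey k)
    have hs1 : ContDiff ℝ 1 (g k) := (hg k).smooth.of_le one_le_two
    obtain ⟨K, hK⟩ : ∃ K, LipschitzWith K (g k) :=
      ContDiff.lipschitzWith_of_hasCompactSupport (hg k).supp hs1 (by norm_num)
    rw [ibp hK hφ hφc, ← integral_neg]
    have hn : Integrable (fun x => ‖fderiv ℝ (g k) x‖) :=
      (hs1.continuous_fderiv one_ne_zero).norm.integrable_of_hasCompactSupport
        ((hg k).supp.fderiv (𝕜 := ℝ)).norm
    have hb1 : ∀ x, |fderiv ℝ (g k) x (φ x)| ≤ ‖fderiv ℝ (g k) x‖ := by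
      intro x
      refine ((fderiv ℝ (g k) x).le_opNorm (φ x)).trans ?_
      exact mul_le_of_le_one_right (norm_nonneg _) (hφn x)
    refine integral_mono ?_ hn fun x => (neg_le_abs _).trans (hb1 x)
    refine Integrable.neg ?_
    refine Integrable.mono' hn ?_ (Filter.Eventually.of_forall hb1)
    exact ((hs1.continuous_fderiv one_ne_zero).clm_apply hφ.continuous).aestronglyMeasurable
  calc ENNReal.ofReal m * perimeter E ≤ ENNReal.ofReal m * ENNReal.ofReal (S / m) := by gcongr
    _ = ENNReal.ofReal S := by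
        rw [← ENNReal.ofReal_mul hm]
        congr 1
        field_simp

end Pool.Agent.H89G
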