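import Pool.Agent.Lib.H89G.E4

/-! H89G, chunk E6 (M): the mean of the directional perimeters is at most the perimeter (one half
of the Cauchy formula). Uses E1 - E4. -/

open MeasureTheory Set Metric Filter Topology
open scoped ENNReal

namespace Pool.Agent.H89G

open Pool.Agent.H81St

variable {V : Type*} [NormedAddCommGroup V] [InnerProductSpace ℝ V] [FiniteDimensional ℝ V]
  [MeasurableSpace V] [BorelSpace V]

/-- The integral of `|⟨w, v⟩|` over the unit ball is `‖w‖` times its value for a unit vector `e`: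
both sides are homogeneous in `w`, and for `‖w‖ = 1` there is a linear isometry mapping `w` to `e`
(`Submodule.reflection_sub`), which preserves the ball and the volume. -/
theorem int_abs_inner {e : V} (he : ‖e‖ = 1) (w : V) :
    ∫ v in ball (0 : V) 1, |inner ℝ w v| = ‖w‖ * ∫ v in ball (0 : V) 1, |inner ℝ e v| := by
  by_cases hw : w = 0
  · simp [hw]
  · have hn : ‖w‖ ≠ 0 := norm_ne_zero_iff.2 hw
    obtain ⟨w₀, hw₀⟩ : ∃ w₀ : V, w₀ = ‖w‖⁻¹ • w := ⟨_, rfl⟩
    have hw1 : ‖w₀‖ = 1 := by rw [hw₀, norm_smul, norm_inv, norm_norm, inv_mul_cancel₀ hn]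
    have hww : w = ‖w‖ • w₀ := by rw [hw₀, smul_smul, mul_inv_cancel₀ hn, one_smul]
    have h1 : ∀ v : V, |(inner ℝ w v : ℝ)| = ‖w‖ * |(inner ℝ w₀ v : ℝ)| := by
      intro v
      conv_lhs => rw [hww]
      rw [real_inner_smul_left, abs_mul, abs_norm]
    have h2 : ∫ v in ball (0 : V) 1, |(inner ℝ w₀ v : ℝ)| = ∫ v in ball (0 : V) 1, |(inner ℝ e v : ℝ)| := by
      set T : V ≃ₗᵢ[ℝ] V := (Submodule.span ℝ {w₀ - e})ᗮ.reflection with hT
      have h3 : T w₀ = e := Submodule.reflection_sub (by rw [hw1, he])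
      have h4 := T.measurePreserving.setIntegral_preimage_emb T.toHomeomorph.measurableEmbedding
        (fun v => |(inner ℝ e v : ℝ)|) (ball (0 : V) 1)
      rw [← h4]
      have h5 : T ⁻¹' ball (0 : V) 1 = ball (0 : V) 1 := by
        rw [LinearIsometryEquiv.preimage_ball, map_zero]
      rw [h5]
      refine integral_congr_ae (Filter.Eventually.of_forall fun v => ?_)
      simp only
      rw [← h3, LinearIsometryEquiv.inner_map_map]
    simp_rw [h1]
    rw [integral_const_mul, h2]

/-- PROOF. Let `g k` be as in `exists_moll`, `a = ∫ v in ball 0 1, |⟨e, v⟩|`. For every `v`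
and `t > 0` by `gap_le_liminf` and `int_transl_le`
`2 gap E (t v) ≤ ofReal t * liminf_k ofReal (∫ |fderiv (g k) x v|)`, so
`2 dper E v ≤ liminf_k ofReal (∫ x, |fderiv (g k) x v|)`. Integrate over `v` in the unit ball
(`lintegral_mono` needs no measurability of `dper E`; Fatou `lintegral_liminf_le'` for the right
side, whose terms are continuous in `v`), then exchange the integrals (Tonelli) and use
`int_abs_inner` with `w = gradient (g k) x`: `∫ v in ball, ∫ x, |fderiv (g k) x v| =
∫ x, a ‖fderiv (g k) x‖ ≤ a (perimeter E).toReal` by `moll_norm_le`. -/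
theorem lintegral_dper_le {E : Set V} (hE : MeasurableSet E) (hb : Bornology.IsBounded E)
    (hP : perimeter E ≠ ⊤) {e : V} (he : ‖e‖ = 1) :
    ∫⁻ v in ball (0 : V) 1, 2 * dper E v
      ≤ ENNReal.ofReal ((∫ v in ball (0 : V) 1, |inner ℝ e v|) * (perimeter E).toReal) := by
  obtain ⟨g, R, hg, hlim⟩ := exists_moll hE hb
  set a : ℝ := ∫ v in ball (0 : V) 1, |(inner ℝ e v : ℝ)| with ha
  have hs1 : ∀ k, ContDiff ℝ 1 (g k) := fun k => (hg k).smooth.of_le one_le_two
  have hpt : ∀ v, 2 * dper E v ≤ liminf (fun k => ∫⁻ x, ‖fderiv ℝ (g k) x v‖ₑ) atTop := by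
    intro v
    have h0 : ∀ t : ℝ, 0 < t → 2 * (gap E (t • v) / ENNReal.ofReal t)
        ≤ liminf (fun k => ∫⁻ x, ‖fderiv ℝ (g k) x v‖ₑ) atTop := by
      intro t ht
      have ht1 : ENNReal.ofReal t ≠ 0 := by simpa using ht
      have h1 := gap_le_liminf hE hb hg hlim (t • v)
      have h2 : liminf (fun k => ENNReal.ofReal (∫ x, |g k (x + t • v) - g k x|)) atTop
          ≤ liminf (fun k => ENNReal.ofReal t * ∫⁻ x, ‖fderiv ℝ (g k) x v‖ₑ) atTop := by
        refine liminf_le_liminf (Filter.Eventually.of_forall fun k => ?_)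
        have h3 := int_transl_le (hs1 k) (hg k).supp v ht.le
        refine (ENNReal.ofReal_le_ofReal h3).trans ?_
        rw [ENNReal.ofReal_mul ht.le]
        have h4 : ENNReal.ofReal (∫ x, |fderiv ℝ (g k) x v|) = ∫⁻ x, ‖fderiv ℝ (g k) x v‖ₑ :=
          ofReal_integral_norm_eq_lintegral_enorm (e2_fderiv_int (hs1 k) (hg k).supp v)
        rw [h4]
      rw [ENNReal.liminf_const_mul_of_ne_zero_of_ne_top ht1 ENNReal.ofReal_ne_top] at h2
      rw [← mul_div_assoc, ENNReal.div_le_iff ht1 ENNReal.ofReal_ne_top, mul_comm (liminf _ _)]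
      exact h1.trans h2
    unfold dper
    rw [ENNReal.mul_iSup]
    refine iSup_le fun t => ?_
    rw [ENNReal.mul_iSup]
    exact iSup_le fun ht => h0 t ht
  have hjm : ∀ k, Measurable (fun p : V × V => ‖fderiv ℝ (g k) p.2 p.1‖ₑ) := by
    intro k
    have hc : Continuous (fun p : V × V => fderiv ℝ (g k) p.2 p.1) :=
      (((hs1 k).continuous_fderiv one_ne_zero).comp continuous_snd).clm_apply continuous_fst
    exact hc.measurable.enorm
  calc ∫⁻ v in ball (0 : V) 1, 2 * dper E v
      ≤ ∫⁻ v in ball (0 : V) 1, liminf (fun k => ∫⁻ x, ‖fderiv ℝ (g k) x v‖ₑ) atTop :=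
        lintegral_mono fun v => hpt v
    _ ≤ liminf (fun k => ∫⁻ v in ball (0 : V) 1, ∫⁻ x, ‖fderiv ℝ (g k) x v‖ₑ) atTop :=
        lintegral_liminf_le fun k => (hjm k).lintegral_prod_right'
    _ ≤ liminf (fun _ : ℕ => ENNReal.ofReal (a * (perimeter E).toReal)) atTop := by
        refine liminf_le_liminf (Filter.Eventually.of_forall fun k => ?_)
        have hn : Integrable (fun x => ‖fderiv ℝ (g k) x‖) :=
          ((hs1 k).continuous_fderiv one_ne_zero).norm.integrable_of_hasCompactSupport
            ((hg k).supp.fderiv (𝕜 := ℝ)).norm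
        have ha0 : 0 ≤ a := integral_nonneg fun v => abs_nonneg _
        calc ∫⁻ v in ball (0 : V) 1, ∫⁻ x, ‖fderiv ℝ (g k) x v‖ₑ
            = ∫⁻ x, ∫⁻ v in ball (0 : V) 1, ‖fderiv ℝ (g k) x v‖ₑ :=
              lintegral_lintegral_swap (hjm k).aemeasurable
          _ = ∫⁻ x, ENNReal.ofReal (a * ‖fderiv ℝ (g k) x‖) := by
              refine lintegral_congr fun x => ?_
              have h1 := int_abs_inner he ((InnerProductSpace.toDual ℝ V).symm (fderiv ℝ (g k) x))
              simp only [InnerProductSpace.toDual_symm_apply, LinearIsometryEquiv.norm_map] at h1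
              have h2 : Integrable (fun v => fderiv ℝ (g k) x v) (volume.restrict (ball (0 : V) 1)) :=
                ((fderiv ℝ (g k) x).continuous.continuousOn.integrableOn_compact
                  (isCompact_closedBall 0 1)).mono_set ball_subset_closedBall
              rw [← ofReal_integral_norm_eq_lintegral_enorm h2]
              congr 1
              simp only [Real.norm_eq_abs]
              rw [h1, mul_comm]
          _ = ENNReal.ofReal (∫ x, a * ‖fderiv ℝ (g k) x‖) := by
              rw [ofReal_integral_eq_lintegral_ofReal (hn.const_mul a)]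
              exact Filter.Eventually.of_forall fun x => mul_nonneg ha0 (norm_nonneg _)
          _ ≤ ENNReal.ofReal (a * (perimeter E).toReal) := by
              refine ENNReal.ofReal_le_ofReal ?_
              rw [integral_const_mul]
              exact mul_le_mul_of_nonneg_left (moll_norm_le (hg k) hP) ha0
    _ = ENNReal.ofReal (a * (perimeter E).toReal) := by simp

end Pool.Agent.H89G
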