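import Pool.Agent.Lib.H89G.C2
import Pool.Agent.Lib.H89G.A2

/-! H89G, chunk F1 (M): the directional perimeter of a ball in direction `u` is at least the
measure of its projection. Uses C1, C2, A2. -/

open MeasureTheory Set Metric Filter Topology
open scoped ENNReal

namespace Pool.Agent.H89G

open Pool.Agent.H81St

variable {V : Type*} [NormedAddCommGroup V] [InnerProductSpace ℝ V] [FiniteDimensional ℝ V]
  [MeasurableSpace V] [BorelSpace V]

theorem f1_norm {u : V} (hu : ‖u‖ = 1) (y : ↥(Submodule.span ℝ {u})ᗮ) (r : ℝ) :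
    ‖(y : V) + r • u‖ ^ 2 = ‖y‖ ^ 2 + r ^ 2 := by
  have hort : inner ℝ (y : V) u = 0 := Submodule.mem_orthogonal_singleton_iff_inner_left.mp y.2
  rw [norm_add_sq_real, real_inner_smul_right, hort, norm_smul, hu, Submodule.coe_norm]
  simp

/-- PROOF. For `y ⊥ u`, `‖y + r u‖² = ‖y‖² + r²`. -/
theorem sl_closedBall {u : V} (hu : ‖u‖ = 1) {R : ℝ} (hR : 0 ≤ R)
    (y : ↥(Submodule.span ℝ {u})ᗮ) :
    sl (closedBall (0 : V) R) u (y : V) = {r | ‖y‖ ^ 2 + r ^ 2 ≤ R ^ 2} := by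
  ext r
  show (y : V) + r • u ∈ closedBall (0 : V) R ↔ ‖y‖ ^ 2 + r ^ 2 ≤ R ^ 2
  rw [mem_closedBall_zero_iff, ← f1_norm hu, pow_le_pow_iff_left₀ (norm_nonneg _) hR two_ne_zero]

/-- PROOF. For `‖y‖ < R` put `c = √(R² - ‖y‖²) > 0`; the section is `[-c, c]` and
`|[-c, c] \ [t - c, t + c]| = t` when `0 < t ≤ 2c`. By `gap_slice` with `w = 0`,
`gap (closedBall 0 R) (t • u) / ofReal t ≥ |{y : ‖y‖ < R, t ≤ 2 √(R² - ‖y‖²)}|`, and these sets
increase to `ball 0 R` as `t = 1/(k+1) → 0` (`Monotone.measure_iUnion` /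
`tendsto_measure_iUnion_atTop`). Each term is `≤ dper (closedBall 0 R) u` by the definition. -/
theorem le_dper_closedBall {u : V} (hu : ‖u‖ = 1) {R : ℝ} (hR : 0 < R) :
    volume (ball (0 : ↥(Submodule.span ℝ {u})ᗮ) R) ≤ dper (closedBall (0 : V) R) u := by
  have key : ∀ t : ℝ, 0 < t →
      volume {y : ↥(Submodule.span ℝ {u})ᗮ | ‖y‖ ^ 2 + t ^ 2 / 4 ≤ R ^ 2} ≤
        dper (closedBall (0 : V) R) u := by
    intro t ht
    set S : Set ↥(Submodule.span ℝ {u})ᗮ := {y | ‖y‖ ^ 2 + t ^ 2 / 4 ≤ R ^ 2} with hS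
    have hSm : MeasurableSet S :=
      (isClosed_le (by fun_prop) continuous_const).measurableSet
    have h1 := gap_slice hu (E := closedBall (0 : V) R) isClosed_closedBall.measurableSet 0 t
    have e0 : ((0 : ↥(Submodule.span ℝ {u})ᗮ) : V) + t • u = t • u := by simp
    rw [e0] at h1
    have h2 : ENNReal.ofReal t * volume S ≤ gap (closedBall (0 : V) R) (t • u) := by
      rw [h1, ← setLIntegral_const, ← lintegral_indicator hSm]
      refine lintegral_mono fun y => ?_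
      by_cases hy : y ∈ S
      · rw [indicator_of_mem hy]
        have hy' : ‖y‖ ^ 2 + t ^ 2 / 4 ≤ R ^ 2 := hy
        set c : ℝ := Real.sqrt (R ^ 2 - ‖y‖ ^ 2) with hc
        have hc0 : 0 ≤ c := Real.sqrt_nonneg _
        have hc2 : c ^ 2 = R ^ 2 - ‖y‖ ^ 2 := Real.sq_sqrt (by nlinarith [sq_nonneg t])
        have htc : t ≤ 2 * c := by
          have h3 : (t / 2) ^ 2 ≤ c ^ 2 := by
            rw [hc2]
            linarith [div_pow t 2 2, show (t / 2) ^ 2 = t ^ 2 / 4 by ring]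
          have h4 := (pow_le_pow_iff_left₀ (by positivity) hc0 two_ne_zero).mp h3
          linarith
        have hsub : Ico (-c) (t - c) ⊆ sl (closedBall (0 : V) R) u (y : V) \
            {r | r - t ∈ sl (closedBall (0 : V) R) u ((y : V) -
              ((0 : ↥(Submodule.span ℝ {u})ᗮ) : V))} := by
          intro r hr
          have e1 : ((y : V) - ((0 : ↥(Submodule.span ℝ {u})ᗮ) : V)) = (y : V) := by simp
          rw [e1, sl_closedBall hu hR.le]
          refine ⟨?_, ?_⟩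
          · show ‖y‖ ^ 2 + r ^ 2 ≤ R ^ 2
            have h5 : -c ≤ r := hr.1
            have h6 : r ≤ c := by linarith [hr.2]
            nlinarith
          · intro h7
            have h8 : ‖y‖ ^ 2 + (r - t) ^ 2 ≤ R ^ 2 := h7
            have h9 : r - t < -c := by linarith [hr.2]
            nlinarith
        calc ENNReal.ofReal t = volume (Ico (-c) (t - c)) := by
              rw [Real.volume_Ico]
              congr 1
              ring
          _ ≤ _ := measure_mono hsub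
      · rw [indicator_of_notMem hy]
        exact zero_le
    have ht0 : ENNReal.ofReal t ≠ 0 := by simpa using ht
    have h3 := h2.trans (gap_le_dper (closedBall (0 : V) R) u ht.le)
    exact (ENNReal.mul_le_mul_iff_right ht0 ENNReal.ofReal_ne_top).mp h3
  have hU : ball (0 : ↥(Submodule.span ℝ {u})ᗮ) R =
      ⋃ k : ℕ, {y : ↥(Submodule.span ℝ {u})ᗮ | ‖y‖ ^ 2 + (1 / ((k : ℝ) + 1)) ^ 2 / 4 ≤ R ^ 2} := by
    ext y
    rw [mem_ball_zero_iff, mem_iUnion]
    constructor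
    · intro hy
      have h1 : 0 < R ^ 2 - ‖y‖ ^ 2 := by nlinarith [norm_nonneg y]
      obtain ⟨k, hk⟩ := exists_nat_one_div_lt h1
      refine ⟨k, ?_⟩
      show ‖y‖ ^ 2 + (1 / ((k : ℝ) + 1)) ^ 2 / 4 ≤ R ^ 2
      have h2 : 0 < 1 / ((k : ℝ) + 1) := by positivity
      have h3 : 1 / ((k : ℝ) + 1) ≤ 1 := by
        rw [div_le_one (by positivity)]
        have : (0 : ℝ) ≤ k := Nat.cast_nonneg k
        linarith
      nlinarith
    · rintro ⟨k, hk⟩
      have hk' : ‖y‖ ^ 2 + (1 / ((k : ℝ) + 1)) ^ 2 / 4 ≤ R ^ 2 := hk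
      have h2 : 0 < (1 / ((k : ℝ) + 1)) ^ 2 / 4 := by positivity
      have h3 : ‖y‖ ^ 2 < R ^ 2 := by linarith
      exact (pow_lt_pow_iff_left₀ (norm_nonneg _) hR.le two_ne_zero).mp h3
  have hmono : Monotone (fun k : ℕ =>
      {y : ↥(Submodule.span ℝ {u})ᗮ | ‖y‖ ^ 2 + (1 / ((k : ℝ) + 1)) ^ 2 / 4 ≤ R ^ 2}) := by
    intro k l hkl y hy
    have hy' : ‖y‖ ^ 2 + (1 / ((k : ℝ) + 1)) ^ 2 / 4 ≤ R ^ 2 := hy
    show ‖y‖ ^ 2 + (1 / ((l : ℝ) + 1)) ^ 2 / 4 ≤ R ^ 2
    have hkl' : (k : ℝ) ≤ l := by exact_mod_cast hkl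
    have h1 : 1 / ((l : ℝ) + 1) ≤ 1 / ((k : ℝ) + 1) :=
      one_div_le_one_div_of_le (by positivity) (by linarith)
    have h2 : 0 ≤ 1 / ((l : ℝ) + 1) := by positivity
    have h3 := pow_le_pow_left₀ h2 h1 2
    linarith
  rw [hU, hmono.measure_iUnion]
  exact iSup_le fun k => key _ (by positivity)

end Pool.Agent.H89G
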