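import Pool.Agent.Lib.H89G.F1

/-! H89G, chunk F2 (M): the directional perimeter of a symmetral in its own direction. Uses C2,
F1, G1. -/

open MeasureTheory Set Metric Filter Topology
open scoped ENNReal

namespace Pool.Agent.H89G

open Pool.Agent.H81St

variable {V : Type*} [NormedAddCommGroup V] [InnerProductSpace ℝ V] [FiniteDimensional ℝ V]
  [MeasurableSpace V] [BorelSpace V]

/-- PROOF. By `gap_steiner` with `w = 0`, `gap (steiner u E) (t • u) = ∫⁻ y, ofReal (rs (len y)
(len y) t)` and `rs α α t = min α (max 0 (max 0 t)) = min α t ≤ t`; the integrand is `0` for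
`‖y‖ > R`, since then the section of `E ⊆ closedBall 0 R` at `y` is empty. So
`gap (steiner u E) (t • u) ≤ ofReal t * volume (closedBall (0 : (span u)ᗮ) R)`, and
`volume (closedBall 0 R) = volume (ball 0 R)` (`Measure.addHaar_sphere_of_ne_zero`, `R ≠ 0`).
Divide by `t`, take the supremum, use `le_dper_closedBall`. -/
theorem dper_steiner_self_le {u : V} (hu : ‖u‖ = 1) {E : Set V} (hE : IsCompact E) {R : ℝ}
    (hR : 0 < R) (hs : E ⊆ closedBall 0 R) :
    dper (steiner u E) u ≤ dper (closedBall (0 : V) R) u := by
  have hvol : volume (closedBall (0 : ↥(Submodule.span ℝ {u})ᗮ) R) ≤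
      volume (ball (0 : ↥(Submodule.span ℝ {u})ᗮ) R) := by
    rw [← ball_union_sphere]
    refine (measure_union_le _ _).trans ?_
    rw [Measure.addHaar_sphere_of_ne_zero volume _ hR.ne', add_zero]
  refine a2_le fun t ht => ?_
  have h1 := gap_steiner hu hE 0 t
  have e0 : ((0 : ↥(Submodule.span ℝ {u})ᗮ) : V) + t • u = t • u := by simp
  rw [e0] at h1
  rw [h1]
  have h2 : ∀ y : ↥(Submodule.span ℝ {u})ᗮ, ENNReal.ofReal (rs (len E u (y : V))
      (len E u ((y : V) - ((0 : ↥(Submodule.span ℝ {u})ᗮ) : V))) |t|) ≤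
      (closedBall (0 : ↥(Submodule.span ℝ {u})ᗮ) R).indicator (fun _ => ENNReal.ofReal t) y := by
    intro y
    have e1 : ((y : V) - ((0 : ↥(Submodule.span ℝ {u})ᗮ) : V)) = (y : V) := by simp
    rw [e1, abs_of_pos ht]
    by_cases hy : y ∈ closedBall (0 : ↥(Submodule.span ℝ {u})ᗮ) R
    · rw [indicator_of_mem hy]
      refine ENNReal.ofReal_le_ofReal ?_
      unfold rs
      refine (min_le_right _ _).trans ?_
      refine max_le ht.le (max_le ?_ ?_)
      · linarith
      · linarith
    · rw [indicator_of_notMem hy]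
      have hem : sl E u (y : V) = ∅ := by
        rw [eq_empty_iff_forall_notMem]
        intro r hr
        apply hy
        have h3 : (y : V) + r • u ∈ closedBall (0 : V) R := hs hr
        rw [mem_closedBall_zero_iff] at h3
        rw [mem_closedBall_zero_iff]
        have h4 := f1_norm hu y r
        have h5 : ‖y‖ ^ 2 ≤ R ^ 2 := by
          have h6 : ‖(y : V) + r • u‖ ^ 2 ≤ R ^ 2 := pow_le_pow_left₀ (norm_nonneg _) h3 2
          nlinarith [sq_nonneg r]
        exact (pow_le_pow_iff_left₀ (norm_nonneg _) hR.le two_ne_zero).mp h5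
      have hl : len E u (y : V) = 0 := by
        unfold len
        rw [hem]
        simp
      rw [hl]
      have hr : rs 0 0 t ≤ 0 := by
        unfold rs
        exact min_le_left _ _
      rw [ENNReal.ofReal_of_nonpos hr]
  refine (lintegral_mono h2).trans ?_
  rw [lintegral_indicator isClosed_closedBall.measurableSet, setLIntegral_const]
  exact mul_le_mul_right (hvol.trans (le_dper_closedBall hu hR)) _

end Pool.Agent.H89G
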