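import Pool.Agent.Lib.H89G.Defs
import Pool.Agent.Lib.H81.St.Final4

/-! H89G, P0: the perimeter of a ball is finite. -/

open MeasureTheory Set Metric Filter Topology
open scoped ENNReal

namespace Pool.Agent.H89G

open Pool.Agent.H81St

variable {V : Type*} [NormedAddCommGroup V] [InnerProductSpace ℝ V] [FiniteDimensional ℝ V]
  [MeasurableSpace V] [BorelSpace V]

theorem p0_null {E : Set V} (h : volume E = 0) : perimeter E = 0 := by
  unfold perimeter
  simp only [ENNReal.iSup_eq_zero]
  intro φ hφ1 hφ2 hφ3
  rw [Measure.restrict_eq_zero.2 h, integral_zero_measure, ENNReal.ofReal_zero]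

theorem perimeter_closedBall_ne_top (ρ : ℝ) : perimeter (closedBall (0 : V) ρ) ≠ ⊤ := by
  rcases lt_trichotomy ρ 0 with h | h | h
  · rw [closedBall_eq_empty.2 h, p0_null measure_empty]
    exact ENNReal.zero_ne_top
  · subst h
    rcases subsingleton_or_nontrivial V with hV | hV
    · have e : closedBall (0 : V) 0 = closedBall (0 : V) 1 := by
        ext x
        rw [Subsingleton.elim x 0]
        simp
      rw [e]
      exact perimeter_ball_lt_top.ne
    · rw [closedBall_zero, p0_null (measure_singleton 0)]
      exact ENNReal.zero_ne_top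
  · refine (perimeter_lt_top_of_star (isCompact_closedBall _ _) h ?_).ne
    intro X hX P hP l hl
    exact (convex_closedBall (0 : V) ρ) hX hP (by linarith [hl.2]) hl.1 (by ring)

end Pool.Agent.H89G
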