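import Pool.Agent.Lib.H89G.F2
import Pool.Agent.Lib.H89G.A4
import Pool.Agent.Lib.H89G.E4
import Pool.Agent.Lib.H89G.P0

/-! H89G, chunk F3 (M): the contact directions. Uses A4, E4, F2, G1. -/

open MeasureTheory Set Metric Filter Topology
open scoped ENNReal

namespace Pool.Agent.H89G

open Pool.Agent.H81St

variable {V : Type*} [NormedAddCommGroup V] [InnerProductSpace ℝ V] [FiniteDimensional ℝ V]
  [MeasurableSpace V] [BorelSpace V]

/-- If the Hausdorff distance is smaller than `ε ρ` every point of `F i` is at distance less than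
`ε ρ` from a point of the ball (`Metric.hausdorffEDist`: `infEDist_le_hausdorffEDist_of_mem`,
`exists_edist_lt_of_hausdorffEDist_lt`). -/
theorem eventually_subset {F : ℕ → Set V} {ρ : ℝ} (hρ : 0 < ρ)
    (hH : Tendsto (fun i => hausdorffEDist (F i) (closedBall (0 : V) ρ)) atTop (𝓝 0))
    {ε : ℝ} (hε : 0 < ε) : ∀ᶠ i in atTop, F i ⊆ closedBall 0 ((1 + ε) * ρ) := by
  have hpos : (0 : ℝ≥0∞) < ENNReal.ofReal (ε * ρ) := by
    rw [ENNReal.ofReal_pos]
    positivity
  filter_upwards [hH.eventually (gt_mem_nhds hpos)] with i hi x hx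
  obtain ⟨y, hy, hxy⟩ := exists_edist_lt_of_hausdorffEDist_lt hx hi
  rw [edist_dist, ENNReal.ofReal_lt_ofReal_iff (by positivity), dist_eq_norm] at hxy
  rw [mem_closedBall_zero_iff] at hy ⊢
  have h1 : ‖x‖ ≤ ‖x - y‖ + ‖y‖ := by
    have := norm_add_le (x - y) y
    rwa [sub_add_cancel] at this
  linarith

/-- `dper_le` for the ball; its perimeter is finite by `perimeter_closedBall_ne_top` (P0). -/
theorem dper_closedBall_ne_top (ρ : ℝ) (v : V) : dper (closedBall (0 : V) ρ) v ≠ ⊤ :=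
  ne_top_of_le_ne_top ENNReal.ofReal_ne_top (dper_le isClosed_closedBall.measurableSet
    isBounded_closedBall (perimeter_closedBall_ne_top ρ) v)

/-- PROOF. Put `c = (dper (closedBall 0 ρ) e).toReal` and `n = finrank`. Choose `η > 0` with
`(1 + η)^n / (1 + η) * c ≤ c + ε`. For large `i`, `iter u E i ⊆ closedBall 0 ((1+η) ρ)`
(`eventually_subset`), so by `dper_steiner_self_le` (`iter u E (i+1) = steiner (u i) (iter u E i)`,
`iter_facts`), `dper_ball_scale` and `dper_ball_eq`:
`dper (iter u E (i+1)) (u i) ≤ dper (closedBall 0 ((1+η) ρ)) (u i)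
 = ofReal ((1+η)^n/(1+η)) * dper (closedBall 0 ρ) (u i)` and `dper (closedBall 0 ρ) (u i) =
dper (closedBall 0 ρ) e = ofReal c`. -/
theorem contact {u : ℕ → V} (hu : ∀ i, ‖u i‖ = 1) {E : Set V} (hE : IsCompact E) {ρ : ℝ}
    (hρ : 0 < ρ)
    (hH : Tendsto (fun i => hausdorffEDist (iter u E i) (closedBall (0 : V) ρ)) atTop (𝓝 0))
    {e : V} (he : ‖e‖ = 1) {ε : ℝ} (hε : 0 < ε) :
    ∀ᶠ i in atTop, (dper (iter u E (i + 1)) (u i)).toReal
      ≤ (dper (closedBall (0 : V) ρ) e).toReal + ε := by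
  set c : ℝ := (dper (closedBall (0 : V) ρ) e).toReal with hc
  set n : ℕ := Module.finrank ℝ V with hn
  have hcont : Tendsto (fun η : ℝ => (1 + η) ^ n / (1 + η) * c) (𝓝[>] 0)
      (𝓝 ((1 + 0) ^ n / (1 + 0) * c)) := by
    have h1 : ContinuousAt (fun η : ℝ => (1 + η) ^ n / (1 + η) * c) 0 := by
      refine ContinuousAt.mul (ContinuousAt.div (by fun_prop) (by fun_prop) (by norm_num))
        continuousAt_const
    exact h1.tendsto.mono_left nhdsWithin_le_nhds
  rw [add_zero, one_pow, div_one, one_mul] at hcont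
  obtain ⟨η, hη1, hη0⟩ := ((hcont.eventually (gt_mem_nhds (show c < c + ε by linarith))).and
    self_mem_nhdsWithin).exists
  have hη0' : 0 < η := hη0
  filter_upwards [eventually_subset hρ hH hη0'] with i hi
  have hR : 0 < (1 + η) * ρ := by positivity
  have h1 : dper (iter u E (i + 1)) (u i) ≤ dper (closedBall (0 : V) ((1 + η) * ρ)) (u i) :=
    dper_steiner_self_le (hu i) (iter_facts hu hE i).1 hR hi
  rw [dper_ball_scale (by linarith : 0 < 1 + η), dper_ball_eq ρ (show ‖u i‖ = ‖e‖ by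
    rw [hu i, he])] at h1
  have hfin : ENNReal.ofReal ((1 + η) ^ Module.finrank ℝ V / (1 + η)) *
      dper (closedBall (0 : V) ρ) e ≠ ⊤ :=
    ENNReal.mul_ne_top ENNReal.ofReal_ne_top (dper_closedBall_ne_top ρ e)
  have h2 := ENNReal.toReal_mono hfin h1
  rw [ENNReal.toReal_mul, ENNReal.toReal_ofReal (by positivity)] at h2
  exact h2.trans hη1.le

end Pool.Agent.H89G
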