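import Pool.Agent.Lib.H89G.F3

/-! H89G, chunk G3 (M): lower semicontinuity of the perimeter. Uses F3 (`eventually_subset`). -/

open MeasureTheory Set Metric Filter Topology
open scoped ENNReal

namespace Pool.Agent.H89G

open Pool.Agent.H81St

variable {V : Type*} [NormedAddCommGroup V] [InnerProductSpace ℝ V] [FiniteDimensional ℝ V]
  [MeasurableSpace V] [BorelSpace V]

theorem g3_lim {F : ℕ → Set V} (hF : ∀ i, IsCompact (F i)) {ρ : ℝ} (hρ : 0 < ρ)
    (hH : Tendsto (fun i => hausdorffEDist (F i) (closedBall (0 : V) ρ)) atTop (𝓝 0)) :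
    Tendsto (fun i => volume.real (F i \ closedBall (0 : V) ρ)) atTop (𝓝 0) := by
  set B : Set V := closedBall (0 : V) ρ with hB
  have hBm : MeasurableSet B := isClosed_closedBall.measurableSet
  have hBf : volume B ≠ ⊤ := measure_closedBall_lt_top.ne
  set n : ℕ := Module.finrank ℝ V with hn
  -- a bound for every ε
  have key : ∀ ε : ℝ, 0 < ε → ∀ᶠ i in atTop,
      volume.real (F i \ B) ≤ ((1 + ε) ^ n - 1) * volume.real B := by
    intro ε hε
    filter_upwards [eventually_subset hρ hH hε] with i hi
    have h1 : volume.real (F i \ B) ≤ volume.real (closedBall (0 : V) ((1 + ε) * ρ) \ B) :=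
      measureReal_mono (sdiff_subset_sdiff_left hi)
        (ne_top_of_le_ne_top measure_closedBall_lt_top.ne (measure_mono sdiff_subset))
    have hsub : B ⊆ closedBall (0 : V) ((1 + ε) * ρ) := closedBall_subset_closedBall (by nlinarith)
    have h2 : volume.real (closedBall (0 : V) ((1 + ε) * ρ) \ B) =
        volume.real (closedBall (0 : V) ((1 + ε) * ρ)) - volume.real B := by
      exact measureReal_sdiff hsub hBm (measure_closedBall_lt_top.ne)
    have h3 : volume.real (closedBall (0 : V) ((1 + ε) * ρ)) = (1 + ε) ^ n * volume.real B := by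
      rw [Measure.real, Measure.addHaar_closedBall_mul volume 0 (by linarith : 0 ≤ 1 + ε) hρ.le,
        ENNReal.toReal_mul, ENNReal.toReal_ofReal (by positivity)]
      rfl
    rw [h2, h3] at h1
    linarith
  have hcont : Tendsto (fun ε : ℝ => ((1 + ε) ^ n - 1) * volume.real B) (𝓝[>] 0)
      (𝓝 (((1 + 0) ^ n - 1) * volume.real B)) := by
    have h1 : ContinuousAt (fun ε : ℝ => ((1 + ε) ^ n - 1) * volume.real B) 0 := by fun_prop
    exact h1.tendsto.mono_left nhdsWithin_le_nhds
  rw [add_zero, one_pow, sub_self, zero_mul] at hcont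
  rw [Metric.tendsto_atTop']
  intro δ hδ
  obtain ⟨ε, hε1, hε0⟩ := ((hcont.eventually (gt_mem_nhds hδ)).and self_mem_nhdsWithin).exists
  obtain ⟨N, hN⟩ := (key ε hε0).exists_forall_of_atTop
  refine ⟨N, fun i hi => ?_⟩
  rw [Real.dist_eq, sub_zero, abs_of_nonneg measureReal_nonneg]
  exact (hN i hi.le).trans_lt hε1

/-- PROOF. Let `B = closedBall 0 ρ`. For `ε > 0` and large `i`, `F i \ B ⊆ closedBall 0 ((1+ε)ρ) \ B`,
whose volume tends to `0` with `ε`
(`volume (closedBall 0 ((1+ε)ρ)) = ofReal ((1+ε)^n) * volume B`,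
`Measure.addHaar_closedBall_mul`, or continuity from above). As `volume (F i) = volume B < ⊤`,
`volume (B \ F i) = volume (F i \ B)`. Let `φ` be an admissible field and
`M = sup |dvg φ|`. Then `|∫ x in F i, dvg φ - ∫ x in B, dvg φ| ≤ M (volume (F i \ B) +
volume (B \ F i)).toReal → 0`. Hence `ofReal (∫ x in B, dvg φ) = lim ofReal (∫ x in F i, dvg φ) ≤
liminf perimeter (F i)`. Take the supremum over `φ`. -/
theorem perimeter_liminf {F : ℕ → Set V} (hF : ∀ i, IsCompact (F i)) {ρ : ℝ} (hρ : 0 < ρ)
    (hv : ∀ i, volume (F i) = volume (closedBall (0 : V) ρ))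
    (hH : Tendsto (fun i => hausdorffEDist (F i) (closedBall (0 : V) ρ)) atTop (𝓝 0)) :
    perimeter (closedBall (0 : V) ρ) ≤ liminf (fun i => perimeter (F i)) atTop := by
  set B : Set V := closedBall (0 : V) ρ with hB
  have hBm : MeasurableSet B := isClosed_closedBall.measurableSet
  have hBf : volume B ≠ ⊤ := measure_closedBall_lt_top.ne
  have hlim := g3_lim hF hρ hH
  have hsym : ∀ i, volume.real (B \ F i) = volume.real (F i \ B) := by
    intro i
    have h1 := measureReal_sdiff_add_inter (μ := volume) (s := B) (t := F i)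
      (hF i).measurableSet
    have h2 := measureReal_sdiff_add_inter (μ := volume) (s := F i) (t := B) hBm
      (by exact (hF i).measure_lt_top.ne)
    have h3 : volume.real (F i) = volume.real B := by rw [Measure.real, Measure.real, hv i]
    rw [inter_comm] at h2
    linarith
  unfold perimeter
  refine iSup_le fun φ => iSup_le fun h1 => iSup_le fun h2 => iSup_le fun h3 => ?_
  have hc : Continuous (dvg φ) := dvg_cont h1
  obtain ⟨M, hM⟩ := hc.bounded_above_of_compact_support (dvg_compact h2)
  have hint : Integrable (dvg φ) volume := hc.integrable_of_hasCompactSupport (dvg_compact h2)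
  have hdiff : ∀ i, |(∫ x in F i, dvg φ x) - ∫ x in B, dvg φ x| ≤ 2 * M * volume.real (F i \ B) := by
    intro i
    have e1 : (∫ x in F i ∩ B, dvg φ x) + (∫ x in F i \ B, dvg φ x) = ∫ x in F i, dvg φ x :=
      integral_inter_add_sdiff hBm hint.integrableOn
    have e2 : (∫ x in B ∩ F i, dvg φ x) + (∫ x in B \ F i, dvg φ x) = ∫ x in B, dvg φ x :=
      integral_inter_add_sdiff (hF i).measurableSet hint.integrableOn
    have b1 : ‖∫ x in F i \ B, dvg φ x‖ ≤ M * volume.real (F i \ B) :=
      norm_setIntegral_le_of_norm_le_const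
        (lt_of_le_of_lt (measure_mono sdiff_subset) (hF i).measure_lt_top) (fun x _ => hM x)
    have b2 : ‖∫ x in B \ F i, dvg φ x‖ ≤ M * volume.real (B \ F i) :=
      norm_setIntegral_le_of_norm_le_const
        (lt_of_le_of_lt (measure_mono sdiff_subset) hBf.lt_top) (fun x _ => hM x)
    rw [hsym i] at b2
    rw [inter_comm] at e2
    rw [Real.norm_eq_abs] at b1 b2
    have c1 := abs_le.mp b1
    have c2 := abs_le.mp b2
    rw [abs_le]
    constructor
    · linarith [c1.1, c2.2]
    · linarith [c1.2, c2.1]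
  have htend : Tendsto (fun i => ∫ x in F i, dvg φ x) atTop (𝓝 (∫ x in B, dvg φ x)) := by
    rw [tendsto_iff_norm_sub_tendsto_zero]
    refine squeeze_zero (fun i => norm_nonneg _) (fun i => hdiff i) ?_
    have h4 := hlim.const_mul (2 * M)
    rwa [mul_zero] at h4
  have htend2 := ENNReal.tendsto_ofReal htend
  rw [← htend2.liminf_eq]
  refine liminf_le_liminf (Eventually.of_forall fun i => ?_)
  exact le_iSup_of_le φ (le_iSup_of_le h1 (le_iSup_of_le h2 (le_iSup_of_le h3 le_rfl)))

end Pool.Agent.H89G
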