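import Pool.Agent.Lib.H89G.Defs

/-! H89G, chunk H1 (S/M): the reflection. (`refl u` is the map `Submodule.reflection
(Submodule.span ℝ {u})ᗮ` of Mathlib, cf. `reflection_orthogonalComplement_singleton`-type lemmas,
or compute directly.) -/

open MeasureTheory Set Metric Filter Topology
open scoped ENNReal

namespace Pool.Agent.H89G

open Pool.Agent.H81St

variable {V : Type*} [NormedAddCommGroup V] [InnerProductSpace ℝ V] [FiniteDimensional ℝ V]
  [MeasurableSpace V] [BorelSpace V]

theorem h1_inner {V : Type*} [NormedAddCommGroup V] [InnerProductSpace ℝ V] {u : V}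
    (hu : ‖u‖ = 1) : inner ℝ u u = (1 : ℝ) := by
  rw [real_inner_self_eq_norm_sq, hu]
  norm_num

theorem refl_refl {u : V} (hu : ‖u‖ = 1) (v : V) : refl u (refl u v) = v := by
  unfold refl
  rw [inner_sub_left, real_inner_smul_left, h1_inner hu]
  module

theorem norm_refl {u : V} (hu : ‖u‖ = 1) (v : V) : ‖refl u v‖ = ‖v‖ := by
  have h : ‖refl u v‖ ^ 2 = ‖v‖ ^ 2 := by
    unfold refl
    rw [norm_sub_sq_real, norm_smul, hu, real_inner_smul_right, mul_one, Real.norm_eq_abs, sq_abs]
    ring
  have h1 := norm_nonneg (refl u v)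
  have h2 := norm_nonneg v
  exact (pow_left_inj₀ h1 h2 two_ne_zero).mp h

theorem refl_self {u : V} (hu : ‖u‖ = 1) : refl u u = -u := by
  unfold refl
  rw [h1_inner hu]
  module

theorem refl_sub (u v w : V) : refl u (v - w) = refl u v - refl u w := by
  unfold refl
  rw [inner_sub_left]
  module

theorem refl_smul (u v : V) (c : ℝ) : refl u (c • v) = c • refl u v := by
  unfold refl
  rw [real_inner_smul_left]
  module

theorem refl_neg (u v : V) : refl u (-v) = - refl u v := by
  unfold refl
  rw [inner_neg_left]
  module

theorem inner_refl (u v w : V) : inner ℝ (refl u v) w = inner ℝ v (refl u w) := by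
  unfold refl
  rw [inner_sub_left, inner_sub_right, real_inner_smul_left, real_inner_smul_right,
    real_inner_comm u w]
  ring

theorem h1_add (u v w : V) : refl u (v + w) = refl u v + refl u w := by
  unfold refl
  rw [inner_add_left]
  module

/-- the reflection as a linear isometry equivalence -/
noncomputable def h1_iso {u : V} (hu : ‖u‖ = 1) : V ≃ₗᵢ[ℝ] V where
  toFun := refl u
  invFun := refl u
  map_add' := h1_add u
  map_smul' := fun c v => refl_smul u v c
  left_inv := refl_refl hu
  right_inv := refl_refl hu
  norm_map' := norm_refl hu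

/-- The linear isometry `v ↦ refl u v` preserves the volume and maps the ball onto itself. -/
theorem int_ball_refl {u : V} (hu : ‖u‖ = 1) (f : V → ℝ) (r : ℝ) :
    ∫ v in ball (0 : V) r, f (refl u v) = ∫ v in ball (0 : V) r, f v := by
  have h1 : MeasurePreserving (h1_iso hu) volume volume := (h1_iso hu).measurePreserving
  have h2 : MeasurableEmbedding (h1_iso hu) := (h1_iso hu).toHomeomorph.measurableEmbedding
  have h3 := h1.setIntegral_preimage_emb h2 f (ball (0 : V) r)
  have h4 : (h1_iso hu) ⁻¹' ball (0 : V) r = ball (0 : V) r := by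
    ext v
    rw [mem_preimage, mem_ball_zero_iff, mem_ball_zero_iff, (h1_iso hu).norm_map]
  rw [h4] at h3
  exact h3

/-- `u ↦ refl u v` and `(u, v) ↦ refl u v` are continuous. -/
theorem continuous_refl : Continuous (fun p : V × V => refl p.1 p.2) := by
  unfold refl
  fun_prop

end Pool.Agent.H89G
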