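import Pool.Agent.Lib.H89G.Defs

/-! H89G, chunk H2 (S/M): a Lipschitz function with small integral is small. -/

open MeasureTheory Set Metric Filter Topology
open scoped ENNReal

namespace Pool.Agent.H89G

open Pool.Agent.H81St

variable {V : Type*} [NormedAddCommGroup V] [InnerProductSpace ℝ V] [FiniteDimensional ℝ V]
  [MeasurableSpace V] [BorelSpace V]

/-- PROOF. Let `β r` be the volume of a ball of radius `r` (positive for `r > 0`). Take
`r = min (1/2) (ε / (2 (K + 1)))` and `η = (ε/2) β r / 2 > 0`. If `g v > ε` with `‖v‖ = 1` then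
`g ≥ ε - K r ≥ ε/2` on `ball v r ⊆ ball 0 2`, so `∫ v in ball 0 2, g ≥ (ε/2) β r > η`
(`g ≥ 0` is continuous, integrable on the bounded set `ball 0 2`). -/
theorem sup_of_integral (K : ℝ) (hK : 0 ≤ K) {ε : ℝ} (hε : 0 < ε) :
    ∃ η > 0, ∀ g : V → ℝ, (∀ v, 0 ≤ g v) → (∀ v w, |g v - g w| ≤ K * ‖v - w‖) →
      ∫ v in ball (0 : V) 2, g v ≤ η → ∀ v, ‖v‖ = 1 → g v ≤ ε := by
  set r : ℝ := min (1 / 2) (ε / (2 * (K + 1))) with hr
  have hr0 : 0 < r := lt_min (by norm_num) (by positivity)
  have hr1 : r ≤ 1 / 2 := min_le_left _ _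
  have hr2 : K * r ≤ ε / 2 := by
    have h1 : r ≤ ε / (2 * (K + 1)) := min_le_right _ _
    have h2 : (K + 1) * r ≤ (K + 1) * (ε / (2 * (K + 1))) :=
      mul_le_mul_of_nonneg_left h1 (by linarith)
    have h3 : (K + 1) * (ε / (2 * (K + 1))) = ε / 2 := by field_simp
    nlinarith
  have hβ : 0 < (volume : Measure V).real (ball (0 : V) r) := by
    rw [Measure.real, ENNReal.toReal_pos_iff]
    exact ⟨measure_ball_pos _ _ hr0, measure_ball_lt_top⟩
  refine ⟨ε / 2 * volume.real (ball (0 : V) r) / 2, by positivity, ?_⟩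
  intro g hg0 hgL hint v hv
  by_contra hcon
  have hcon' : ε < g v := lt_of_not_ge hcon
  have hcont : Continuous g := by
    have hL : LipschitzWith (Real.toNNReal K) g := by
      refine LipschitzWith.of_dist_le_mul ?_
      intro x y
      rw [Real.dist_eq, dist_eq_norm, Real.coe_toNNReal K hK]
      exact hgL x y
    exact hL.continuous
  have hsub : ball v r ⊆ ball (0 : V) 2 := by
    intro x hx
    rw [mem_ball_iff_norm] at hx
    rw [mem_ball_zero_iff]
    have : ‖x‖ ≤ ‖x - v‖ + ‖v‖ := by
      have := norm_add_le (x - v) v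
      rwa [sub_add_cancel] at this
    linarith
  have hI2 : IntegrableOn g (ball (0 : V) 2) volume :=
    (hcont.continuousOn.integrableOn_compact (isCompact_closedBall (0 : V) 2)).mono_set
      ball_subset_closedBall
  have h1 : ∫ x in ball v r, g x ≤ ∫ x in ball (0 : V) 2, g x :=
    setIntegral_mono_set hI2 (Filter.Eventually.of_forall fun x => hg0 x)
      (Filter.Eventually.of_forall hsub)
  have h2 : ∫ x in ball v r, (ε / 2 : ℝ) ≤ ∫ x in ball v r, g x := by
    refine setIntegral_mono_on (integrableOn_const measure_ball_lt_top.ne) (hI2.mono_set hsub) measurableSet_ball ?_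
    intro x hx
    rw [mem_ball_iff_norm] at hx
    have h3 := hgL x v
    have h4 : |g x - g v| ≤ K * r := h3.trans (mul_le_mul_of_nonneg_left hx.le hK)
    have h5 := (abs_le.mp h4).1
    linarith
  rw [setIntegral_const, smul_eq_mul] at h2
  have h6 : volume.real (ball v r) = volume.real (ball (0 : V) r) := by
    rw [Measure.real, Measure.real, Measure.addHaar_ball_center volume v r]
  rw [h6] at h2
  have h7 : 0 < volume.real (ball (0 : V) r) * (ε / 2) := by positivity
  linarith

end Pool.Agent.H89G
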