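import Pool.Agent.Lib.H89G.H1

/-! H89G, chunk H3 (S/M): elementary facts on the iterated averages, all by induction on `i`.
Uses H1. -/

open MeasureTheory Set Metric Filter Topology
open scoped ENNReal

namespace Pool.Agent.H89G

open Pool.Agent.H81St

variable {V : Type*} [NormedAddCommGroup V] [InnerProductSpace ℝ V] [FiniteDimensional ℝ V]
  [MeasurableSpace V] [BorelSpace V]

theorem h3_succ (u : ℕ → V) (f : V → ℝ) (N i : ℕ) (v : V) :
    avgs u f N (i + 1) v = (avgs u f N i v + avgs u f N i (refl (u (N + i)) v)) / 2 := rfl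

theorem avgs_mono {u : ℕ → V} {f g : V → ℝ} (h : ∀ v, f v ≤ g v) (N i : ℕ) (v : V) :
    avgs u f N i v ≤ avgs u g N i v := by
  induction i generalizing v with
  | zero => exact h v
  | succ i ih =>
    rw [h3_succ, h3_succ]
    have h1 := ih v
    have h2 := ih (refl (u (N + i)) v)
    linarith

theorem avgs_nonneg {u : ℕ → V} {f : V → ℝ} (h : ∀ v, 0 ≤ f v) (N i : ℕ) (v : V) :
    0 ≤ avgs u f N i v := by
  induction i generalizing v with
  | zero => exact h v
  | succ i ih =>
    rw [h3_succ]
    have h1 := ih v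
    have h2 := ih (refl (u (N + i)) v)
    linarith

/-- `|avgs v - avgs w| ≤ (|f' v - f' w| + |f' (refl v) - f' (refl w)|) / 2`, `‖refl v - refl w‖ =
‖refl (v - w)‖ = ‖v - w‖`. -/
theorem avgs_lip {u : ℕ → V} (hu : ∀ i, ‖u i‖ = 1) {f : V → ℝ} {L : ℝ}
    (h : ∀ v w, |f v - f w| ≤ L * ‖v - w‖) (N i : ℕ) (v w : V) :
    |avgs u f N i v - avgs u f N i w| ≤ L * ‖v - w‖ := by
  induction i generalizing v w with
  | zero => exact h v w
  | succ i ih =>
    rw [h3_succ, h3_succ]
    have h1 := abs_le.mp (ih v w)
    have h2 := ih (refl (u (N + i)) v) (refl (u (N + i)) w)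
    rw [← refl_sub, norm_refl (hu _)] at h2
    have h2' := abs_le.mp h2
    rw [abs_le]
    constructor
    · linarith [h1.1, h2'.1]
    · linarith [h1.2, h2'.2]

theorem avgs_even {u : ℕ → V} {f : V → ℝ} (h : ∀ v, f (-v) = f v) (N i : ℕ) (v : V) :
    avgs u f N i (-v) = avgs u f N i v := by
  induction i generalizing v with
  | zero => exact h v
  | succ i ih =>
    rw [h3_succ, h3_succ, refl_neg, ih, ih]

theorem avgs_smul {u : ℕ → V} {f : V → ℝ} (h : ∀ (t : ℝ) v, 0 ≤ t → f (t • v) = t * f v)
    (N i : ℕ) (t : ℝ) (v : V) (ht : 0 ≤ t) : avgs u f N i (t • v) = t * avgs u f N i v := by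
  induction i generalizing v with
  | zero => exact h t v ht
  | succ i ih =>
    rw [h3_succ, h3_succ, refl_smul, ih, ih]
    ring

theorem avgs_continuous {u : ℕ → V} {f : V → ℝ} (hf : Continuous f) (N i : ℕ) :
    Continuous (avgs u f N i) := by
  induction i with
  | zero => exact hf
  | succ i ih =>
    have h1 : Continuous (fun v : V => refl (u (N + i)) v) :=
      continuous_refl.comp (Continuous.prodMk continuous_const continuous_id)
    have h2 : Continuous (fun v => (avgs u f N i v + avgs u f N i (refl (u (N + i)) v)) / 2) :=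
      (ih.add (ih.comp h1)).div_const 2
    exact h2

theorem h3_int {f : V → ℝ} (hf : Continuous f) (r : ℝ) : IntegrableOn f (ball (0 : V) r) volume :=
  (hf.continuousOn.integrableOn_compact (isCompact_closedBall (0 : V) r)).mono_set
    ball_subset_closedBall

/-- `int_ball_refl`; `f` is continuous, so everything is integrable on the bounded ball. -/
theorem avgs_integral {u : ℕ → V} (hu : ∀ i, ‖u i‖ = 1) {f : V → ℝ} (hf : Continuous f)
    (N i : ℕ) (r : ℝ) :
    ∫ v in ball (0 : V) r, avgs u f N i v = ∫ v in ball (0 : V) r, f v := by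
  induction i with
  | zero => rfl
  | succ i ih =>
    have h1 : Continuous (fun v : V => refl (u (N + i)) v) :=
      continuous_refl.comp (Continuous.prodMk continuous_const continuous_id)
    have hc := avgs_continuous (u := u) hf N i
    have h2 : ∫ v in ball (0 : V) r, avgs u f N (i + 1) v =
        ∫ v in ball (0 : V) r, (avgs u f N i v + avgs u f N i (refl (u (N + i)) v)) / 2 := rfl
    have h4 : IntegrableOn (fun v => avgs u f N i (refl (u (N + i)) v)) (ball (0 : V) r) volume :=
      h3_int (hc.comp h1) r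
    rw [h2, integral_div, integral_add (h3_int hc r) h4,
      int_ball_refl (hu _) (avgs u f N i) r, ih]
    ring

/-- If `p (n + 1) ≤ avg (u n) (p n)` for all `n` then `p (N + i) ≤ avgs u (p N) N i`
(`avg` is monotone). -/
theorem le_avgs {u : ℕ → V} {p : ℕ → V → ℝ} (h : ∀ n v, p (n + 1) v ≤ avg (u n) (p n) v)
    (N i : ℕ) (v : V) : p (N + i) v ≤ avgs u (p N) N i v := by
  induction i generalizing v with
  | zero => exact le_refl _
  | succ i ih =>
    have h1 : p (N + (i + 1)) v ≤ (p (N + i) v + p (N + i) (refl (u (N + i)) v)) / 2 :=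
      h (N + i) v
    rw [h3_succ]
    have h2 := ih v
    have h3 := ih (refl (u (N + i)) v)
    linarith

/-- The iterated average at a point is a fixed convex combination of values of `f`. Induction on
`i` for all `x`: for `i + 1` take the index type `ι ⊕ ι'` of the representations at `x` and at
`refl (u (N + i)) x`, with halved weights. -/
theorem avgs_repr {u : ℕ → V} (hu : ∀ i, ‖u i‖ = 1) (N i : ℕ) (x : V) :
    ∃ (ι : Type) (_ : Fintype ι) (c : ι → ℝ) (z : ι → V),
      (∀ j, 0 ≤ c j) ∧ (∑ j, c j = 1) ∧ (∀ j, ‖z j‖ = ‖x‖) ∧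
      ∀ f : V → ℝ, avgs u f N i x = ∑ j, c j * f (z j) := by
  induction i generalizing x with
  | zero =>
    refine ⟨Unit, inferInstance, fun _ => 1, fun _ => x, fun _ => zero_le_one, by simp,
      fun _ => rfl, ?_⟩
    intro f
    show f x = _
    simp
  | succ i ih =>
    obtain ⟨ι, hι, c, z, hc0, hc1, hz, hf⟩ := ih x
    obtain ⟨ι', hι', c', z', hc0', hc1', hz', hf'⟩ := ih (refl (u (N + i)) x)
    refine ⟨ι ⊕ ι', inferInstance, Sum.elim (fun j => c j / 2) (fun j => c' j / 2),
      Sum.elim z z', ?_, ?_, ?_, ?_⟩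
    · rintro (j | j)
      · exact div_nonneg (hc0 j) two_pos.le
      · exact div_nonneg (hc0' j) two_pos.le
    · rw [Fintype.sum_sum_type]
      simp only [Sum.elim_inl, Sum.elim_inr]
      rw [← Finset.sum_div, ← Finset.sum_div, hc1, hc1']
      norm_num
    · rintro (j | j)
      · exact hz j
      · show ‖z' j‖ = ‖x‖
        rw [hz' j, norm_refl (hu _)]
    · intro f
      rw [h3_succ, hf f, hf' f, Fintype.sum_sum_type]
      simp only [Sum.elim_inl, Sum.elim_inr]
      rw [add_div, Finset.sum_div, Finset.sum_div]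
      congr 1
      · exact Finset.sum_congr rfl fun j _ => by ring
      · exact Finset.sum_congr rfl fun j _ => by ring

end Pool.Agent.H89G
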