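import Pool.Agent.Lib.H89G.H2
import Pool.Agent.Lib.H89G.H3

/-! H89G, chunk H4 (M): the loss argument. Uses H1, H2, H3. -/

open MeasureTheory Set Metric Filter Topology
open scoped ENNReal

namespace Pool.Agent.H89G

open Pool.Agent.H81St

variable {V : Type*} [NormedAddCommGroup V] [InnerProductSpace ℝ V] [FiniteDimensional ℝ V]
  [MeasurableSpace V] [BorelSpace V]

theorem h4_cont {f : V → ℝ} {L : ℝ} (hL0 : 0 ≤ L) (h : ∀ v w, |f v - f w| ≤ L * ‖v - w‖) :
    Continuous f := by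
  have hL : LipschitzWith (Real.toNNReal L) f := by
    refine LipschitzWith.of_dist_le_mul ?_
    intro x y
    rw [Real.dist_eq, dist_eq_norm, Real.coe_toNNReal L hL0]
    exact h x y
  exact hL.continuous

/-- PROOF. We may take `L ≥ 0` (if `V` is trivial there is no unit vector; otherwise `hL` with two
different points gives `L ≥ 0`). Let `I n = ∫ v in ball 0 2, p n v` (all `p n` are Lipschitz, so
continuous, so integrable on the ball). By `hT` and `int_ball_refl` `I (n+1) ≤ I n`, and `I n ≥ 0`,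
so `I` converges.
Let `ε > 0` and `η` from `sup_of_integral` for `K = 2 L` and `ε / 2`. Choose `N0` such that
`I N - I n ≤ η` for `N0 ≤ N ≤ n` and `p (n+1) (u n) ≤ c + ε/2` for `n ≥ N0` (`hc`).
Let `N ≥ N0`, `i` arbitrary, `n = N + i`, `q = avgs u (p N) N (i + 1) = avg (u n) (avgs u (p N) N
i)`. By `le_avgs` `q ≥ p (n + 1)`; `g = q - p (n+1) ≥ 0` is `2L`-Lipschitz (`avgs_lip`) and
`∫ v in ball 0 2, g = I N - I (n+1) ≤ η` (`avgs_integral`). So `g (u n) ≤ ε/2`, i.e.
`q (u n) ≤ p (n+1) (u n) + ε/2 ≤ c + ε`. Finally `q (u n) = (A (u n) + A (refl (u n) (u n)))/2 =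
(A (u n) + A (-u n))/2 = A (u n)` for `A = avgs u (p N) N i` (`refl_self`, `avgs_even`). -/
theorem core {u : ℕ → V} (hu : ∀ i, ‖u i‖ = 1) {p : ℕ → V → ℝ} {L c : ℝ}
    (h0 : ∀ i v, 0 ≤ p i v) (hL : ∀ i v w, |p i v - p i w| ≤ L * ‖v - w‖)
    (hE : ∀ i v, p i (-v) = p i v) (hT : ∀ i v, p (i + 1) v ≤ avg (u i) (p i) v)
    (hc : ∀ ε > 0, ∀ᶠ i in atTop, p (i + 1) (u i) ≤ c + ε) :
    ∀ ε > 0, ∃ N0, ∀ N ≥ N0, ∀ i, avgs u (p N) N i (u (N + i)) ≤ c + ε := by
  have hL0 : 0 ≤ L := by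
    have h1 := hL 0 (u 0) 0
    rw [sub_zero, hu 0, mul_one] at h1
    exact (abs_nonneg _).trans h1
  have hpc : ∀ n, Continuous (p n) := fun n => h4_cont hL0 (hL n)
  set I : ℕ → ℝ := fun n => ∫ v in ball (0 : V) 2, p n v with hI
  have hIle : ∀ n, I (n + 1) ≤ I n := by
    intro n
    have h1 : ∫ v in ball (0 : V) 2, avgs u (p n) n 1 v = I n := avgs_integral hu (hpc n) n 1 2
    rw [← h1]
    refine setIntegral_mono_on (h3_int (hpc (n + 1)) 2)
      (h3_int (avgs_continuous (hpc n) n 1) 2) measurableSet_ball ?_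
    intro v _
    exact hT n v
  have hIanti : Antitone I := antitone_nat_of_succ_le hIle
  have hIb : BddBelow (range I) := by
    refine ⟨0, ?_⟩
    rintro _ ⟨n, rfl⟩
    exact setIntegral_nonneg measurableSet_ball fun v _ => h0 n v
  have hIlim : Tendsto I atTop (𝓝 (⨅ i, I i)) := tendsto_atTop_ciInf hIanti hIb
  intro ε hε
  obtain ⟨η, hη, hsup⟩ := sup_of_integral (V := V) (2 * L) (by linarith) (half_pos hε)
  obtain ⟨N1, hN1⟩ := (hIlim.eventually (gt_mem_nhds (show (⨅ i, I i) < (⨅ i, I i) + η by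
    linarith))).exists_forall_of_atTop
  obtain ⟨N2, hN2⟩ := (hc (ε / 2) (half_pos hε)).exists_forall_of_atTop
  refine ⟨max N1 N2, ?_⟩
  intro N hN i
  have hN1' : N1 ≤ N := (le_max_left _ _).trans hN
  have hN2' : N2 ≤ N + i := ((le_max_right _ _).trans hN).trans (Nat.le_add_right _ _)
  have hq : ∀ v, p (N + i + 1) v ≤ avgs u (p N) N (i + 1) v := fun v => le_avgs hT N (i + 1) v
  have hg0 : ∀ v, 0 ≤ avgs u (p N) N (i + 1) v - p (N + i + 1) v := fun v => by
    linarith [hq v]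
  have hgL : ∀ v w, |(avgs u (p N) N (i + 1) v - p (N + i + 1) v)
      - (avgs u (p N) N (i + 1) w - p (N + i + 1) w)| ≤ 2 * L * ‖v - w‖ := by
    intro v w
    have h1 := abs_le.mp (avgs_lip hu (hL N) N (i + 1) v w)
    have h2 := abs_le.mp (hL (N + i + 1) v w)
    rw [abs_le]
    constructor
    · linarith [h1.1, h2.2]
    · linarith [h1.2, h2.1]
  have hgint : ∫ v in ball (0 : V) 2, (avgs u (p N) N (i + 1) v - p (N + i + 1) v) ≤ η := by
    rw [integral_sub (h3_int (avgs_continuous (hpc N) N (i + 1)) 2) (h3_int (hpc _) 2),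
      avgs_integral hu (hpc N) N (i + 1) 2]
    have h1 := hN1 N hN1'
    have h2 : (⨅ i, I i) ≤ I (N + i + 1) := ciInf_le hIb _
    have h3 : I N - I (N + i + 1) ≤ η := by linarith
    exact h3
  have h1 := hsup _ hg0 hgL hgint (u (N + i)) (hu _)
  have h2 := hN2 (N + i) hN2'
  have h3 : avgs u (p N) N (i + 1) (u (N + i)) = avgs u (p N) N i (u (N + i)) := by
    rw [h3_succ, refl_self (hu _), avgs_even (hE N)]
    ring
  rw [h3] at h1
  linarith

end Pool.Agent.H89G
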