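import Pool.Agent.Lib.H89G.D3
import Pool.Agent.Lib.H89G.E4
import Pool.Agent.Lib.H89G.H3

/-! H89G, chunk I1 (S/M): the directional perimeters of the iterated symmetrals. Uses A2, D3, E4,
G1 (`iter_facts`), H1. -/

open MeasureTheory Set Metric Filter Topology
open scoped ENNReal

namespace Pool.Agent.H89G

open Pool.Agent.H81St

variable {V : Type*} [NormedAddCommGroup V] [InnerProductSpace ℝ V] [FiniteDimensional ℝ V]
  [MeasurableSpace V] [BorelSpace V]

/-- PROOF. Induction on `i`: `i = 0` is `dper_le` (a compact set is measurable and bounded). Step: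
`iter u E (i+1) = steiner (u i) (iter u E i)`, `dper_steiner_le` (the hypothesis `dper … (u i) ≠ ⊤`
holds by induction), and `(ofReal (a ‖v‖) + ofReal (a ‖refl (u i) v‖)) / 2 = ofReal (a ‖v‖)`
(`norm_refl`). -/
theorem iter_dper_le {u : ℕ → V} (hu : ∀ i, ‖u i‖ = 1) {E : Set V} (hE : IsCompact E)
    (hP : perimeter E ≠ ⊤) (i : ℕ) (v : V) :
    dper (iter u E i) v ≤ ENNReal.ofReal ((perimeter E).toReal / 2 * ‖v‖) := by
  induction i generalizing v with
  | zero => exact dper_le hE.measurableSet hE.isBounded hP v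
  | succ i ih =>
    have hne : dper (iter u E i) (u i) ≠ ⊤ := ne_top_of_le_ne_top ENNReal.ofReal_ne_top (ih (u i))
    have h1 := dper_steiner_le (hu i) (iter_facts hu hE i).1 hne v
    have h2 := ih v
    have h3 := ih (refl (u i) v)
    rw [norm_refl (hu i)] at h3
    show dper (steiner (u i) (iter u E i)) v ≤ _
    refine h1.trans ?_
    refine (ENNReal.div_le_div_right (add_le_add h2 h3) 2).trans ?_
    rw [ENNReal.add_div, ENNReal.add_halves]

/-- PROOF. All directional perimeters are finite (`iter_dper_le`), so the statements follow from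
`dper_add_le` (`v = (v - w) + w`), `dper_neg`, `dper_smul`, `dper_steiner_le` with
`ENNReal.toReal`. -/
theorem pfun_facts {u : ℕ → V} (hu : ∀ i, ‖u i‖ = 1) {E : Set V} (hE : IsCompact E)
    (hP : perimeter E ≠ ⊤) :
    (∀ i v w, |(dper (iter u E i) v).toReal - (dper (iter u E i) w).toReal|
        ≤ (perimeter E).toReal / 2 * ‖v - w‖) ∧
    (∀ i v, (dper (iter u E i) (-v)).toReal = (dper (iter u E i) v).toReal) ∧
    (∀ i v, (dper (iter u E (i + 1)) v).toReal
        ≤ avg (u i) (fun v => (dper (iter u E i) v).toReal) v) := by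
  have hfin : ∀ i v, dper (iter u E i) v ≠ ⊤ := fun i v =>
    ne_top_of_le_ne_top ENNReal.ofReal_ne_top (iter_dper_le hu hE hP i v)
  have hP0 : 0 ≤ (perimeter E).toReal := ENNReal.toReal_nonneg
  have hle : ∀ i v, (dper (iter u E i) v).toReal ≤ (perimeter E).toReal / 2 * ‖v‖ := fun i v =>
    ENNReal.toReal_le_of_le_ofReal (by positivity) (iter_dper_le hu hE hP i v)
  have hadd : ∀ i v w, (dper (iter u E i) v).toReal ≤
      (dper (iter u E i) (v - w)).toReal + (dper (iter u E i) w).toReal := by
    intro i v w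
    have h1 := dper_add_le (iter u E i) (v - w) w
    rw [sub_add_cancel] at h1
    rw [← ENNReal.toReal_add (hfin _ _) (hfin _ _)]
    exact ENNReal.toReal_mono (ENNReal.add_ne_top.mpr ⟨hfin _ _, hfin _ _⟩) h1
  refine ⟨?_, ?_, ?_⟩
  · intro i v w
    have h1 := hadd i v w
    have h2 := hadd i w v
    have h3 := hle i (v - w)
    have h4 := hle i (w - v)
    rw [norm_sub_rev w v] at h4
    rw [abs_le]
    constructor
    · linarith
    · linarith
  · intro i v
    obtain ⟨hc, hv⟩ := iter_facts hu hE i
    rw [dper_neg hc.measurableSet hc.measure_lt_top.ne]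
  · intro i v
    have h1 := dper_steiner_le (hu i) (iter_facts hu hE i).1 (hfin i (u i)) v
    have h2 : (dper (iter u E (i + 1)) v).toReal ≤
        ((dper (iter u E i) v + dper (iter u E i) (refl (u i) v)) / 2).toReal :=
      ENNReal.toReal_mono (ENNReal.div_ne_top (ENNReal.add_ne_top.mpr ⟨hfin _ _, hfin _ _⟩)
        two_ne_zero) h1
    rw [ENNReal.toReal_div, ENNReal.toReal_add (hfin _ _) (hfin _ _), ENNReal.toReal_ofNat] at h2
    exact h2

end Pool.Agent.H89G
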