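import Pool.Agent.Lib.H89G.I1
import Pool.Agent.Lib.H89G.H4
import Pool.Agent.Lib.H89G.F3
import Pool.Agent.Lib.H89G.E5

/-! H89G, chunk I2 (M): the upper bound for the perimeters. Uses I1, H3, H4, F3, E5. -/

open MeasureTheory Set Metric Filter Topology
open scoped ENNReal

namespace Pool.Agent.H89G

open Pool.Agent.H81St

variable {V : Type*} [NormedAddCommGroup V] [InnerProductSpace ℝ V] [FiniteDimensional ℝ V]
  [MeasurableSpace V] [BorelSpace V]

/-- PROOF. Let `p i v = (dper (iter u E i) v).toReal` and `c = (dper (closedBall 0 ρ) e).toReal`.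
`core` applies (`pfun_facts`, `contact`): for `ε > 0` there is `N0` with
`avgs u (p N) N i (u (N + i)) ≤ c + ε` for `N ≥ N0` and all `i`. Fix `N ≥ N0`, and by `hgood` an
`i` with `m ‖w‖ ≤ avgs u (|⟨w, ·⟩|) N i (u (N+i))` for all `w`. By `avgs_repr` at the point
`u (N+i)` there are weights `c_j ≥ 0` and points `z_j` with `avgs u f N i (u (N+i)) = ∑ c_j f(z_j)`
for all `f`. `perimeter_le_sum` for the compact set `iter u E N` gives
`ofReal m * perimeter (iter u E N) ≤ ofReal (2 ∑ c_j p N (z_j)) = ofReal (2 avgs u (p N) N i (u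
(N+i))) ≤ ofReal (2 (c + ε))`. So `perimeter (iter u E N) ≤ ofReal (2 (c + ε) / m)` for all
`N ≥ N0`; hence the bound for the `limsup`, let `ε → 0`. -/
theorem limsup_le {u : ℕ → V} (hu : ∀ i, ‖u i‖ = 1) {E : Set V} (hE : IsCompact E)
    (hP : perimeter E ≠ ⊤) {ρ : ℝ} (hρ : 0 < ρ)
    (hH : Tendsto (fun i => hausdorffEDist (iter u E i) (closedBall (0 : V) ρ)) atTop (𝓝 0))
    {e : V} (he : ‖e‖ = 1) {m : ℝ} (hm : 0 < m)
    (hgood : ∀ N, ∃ᶠ i in atTop, ∀ w : V,
      m * ‖w‖ ≤ avgs u (fun v => |inner ℝ w v|) N i (u (N + i))) :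
    limsup (fun i => perimeter (iter u E i)) atTop
      ≤ ENNReal.ofReal (2 * (dper (closedBall (0 : V) ρ) e).toReal / m) := by
  set p : ℕ → V → ℝ := fun i v => (dper (iter u E i) v).toReal with hp
  set c : ℝ := (dper (closedBall (0 : V) ρ) e).toReal with hc
  have hc0 : 0 ≤ c := ENNReal.toReal_nonneg
  obtain ⟨f1, f2, f3⟩ := pfun_facts hu hE hP
  have hfin : ∀ i v, dper (iter u E i) v ≠ ⊤ := fun i v =>
    ne_top_of_le_ne_top ENNReal.ofReal_ne_top (iter_dper_le hu hE hP i v)
  have hcore := core hu (p := p) (L := (perimeter E).toReal / 2) (c := c)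
    (fun i v => ENNReal.toReal_nonneg) f1 f2 f3 (fun ε hε => contact hu hE hρ hH he hε)
  refine ENNReal.le_of_forall_pos_le_add ?_
  intro ε hε _
  have hε' : (0 : ℝ) < ε := by exact_mod_cast hε
  obtain ⟨N0, hN0⟩ := hcore (m * ε / 2) (by positivity)
  have hev : ∀ᶠ N in atTop, perimeter (iter u E N) ≤
      ENNReal.ofReal (2 * c / m) + (ε : ℝ≥0∞) := by
    filter_upwards [eventually_ge_atTop N0] with N hN
    obtain ⟨i, hi⟩ := (hgood N).exists
    obtain ⟨ι, hι, c', z, hc'0, hc'1, hz, hrep⟩ := avgs_repr hu N i (u (N + i))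
    obtain ⟨hcomp, hvol⟩ := iter_facts hu hE N
    have h1 := perimeter_le_sum hcomp.measurableSet hcomp.isBounded c' hc'0 z
      (fun j => hfin N (z j)) hm.le (fun w => by
        have h2 := hi w
        rw [hrep] at h2
        exact h2)
    have h3 : ∑ j, c' j * (dper (iter u E N) (z j)).toReal = avgs u (p N) N i (u (N + i)) :=
      (hrep (p N)).symm
    rw [h3] at h1
    have h4 : 2 * avgs u (p N) N i (u (N + i)) ≤ 2 * (c + m * ε / 2) := by
      have := hN0 N hN i
      linarith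
    have h5 : ENNReal.ofReal m * perimeter (iter u E N) ≤
        ENNReal.ofReal (2 * (c + m * ε / 2)) := h1.trans (ENNReal.ofReal_le_ofReal h4)
    have hm0 : ENNReal.ofReal m ≠ 0 := by simpa using hm
    have h6 : perimeter (iter u E N) ≤ ENNReal.ofReal (2 * (c + m * ε / 2)) / ENNReal.ofReal m := by
      rw [ENNReal.le_div_iff_mul_le (Or.inl hm0) (Or.inl ENNReal.ofReal_ne_top), mul_comm]
      exact h5
    rw [← ENNReal.ofReal_div_of_pos hm] at h6
    refine h6.trans (le_of_eq ?_)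
    have h7 : 2 * (c + m * ε / 2) / m = 2 * c / m + ε := by
      field_simp
    rw [h7, ENNReal.ofReal_add (by positivity) hε'.le, ENNReal.ofReal_coe_nnreal]
  exact limsup_le_of_le (by isBoundedDefault) hev

end Pool.Agent.H89G
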