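import Pool.Agent.Lib.H89G.F3
import Pool.Agent.Lib.H89G.E6

/-! H89G, chunk I3 (S/M): the perimeter of the ball and its directional perimeter. Uses A2, A4,
E6, F3. -/

open MeasureTheory Set Metric Filter Topology
open scoped ENNReal

namespace Pool.Agent.H89G

open Pool.Agent.H81St

variable {V : Type*} [NormedAddCommGroup V] [InnerProductSpace ℝ V] [FiniteDimensional ℝ V]
  [MeasurableSpace V] [BorelSpace V]

theorem i3_intOn {f : V → ℝ} (hf : Continuous f) : IntegrableOn f (ball (0 : V) 1) volume :=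
  (hf.continuousOn.integrableOn_compact (isCompact_closedBall (0 : V) 1)).mono_set
    ball_subset_closedBall

/-- the integral of a continuous nonnegative function which is positive at `(1/2) e` -/
theorem i3_pos {f : V → ℝ} (hf : Continuous f) (h0 : ∀ v, 0 ≤ f v) {e : V} (he : ‖e‖ = 1)
    (hpos : 0 < f ((1 / 2 : ℝ) • e)) : 0 < ∫ v in ball (0 : V) 1, f v := by
  rw [setIntegral_pos_iff_support_of_nonneg_ae (Eventually.of_forall fun v => h0 v) (i3_intOn hf)]
  have hopen : IsOpen (Function.support f ∩ ball (0 : V) 1) := hf.isOpen_support.inter isOpen_ball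
  refine hopen.measure_pos _ ⟨(1 / 2 : ℝ) • e, ?_, ?_⟩
  · exact hpos.ne'
  · rw [mem_ball_zero_iff, norm_smul, he]
    norm_num

theorem i3_norm_pos {e : V} (he : ‖e‖ = 1) : 0 < ∫ v in ball (0 : V) 1, ‖v‖ := by
  refine i3_pos continuous_norm (fun v => norm_nonneg v) he ?_
  rw [norm_smul, he]
  norm_num

theorem i3_inner_pos {e : V} (he : ‖e‖ = 1) : 0 < ∫ v in ball (0 : V) 1, |inner ℝ e v| := by
  refine i3_pos (by fun_prop) (fun v => abs_nonneg _) he ?_
  rw [real_inner_smul_right, real_inner_self_eq_norm_sq, he]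
  norm_num

theorem i3_meanAbs_pos {e : V} (he : ‖e‖ = 1) : 0 < meanAbs e :=
  div_pos (i3_inner_pos he) (i3_norm_pos he)

/-- PROOF. Let `B = closedBall 0 ρ`, `c = (dper B e).toReal`. For every `v`,
`dper B v = ofReal (‖v‖ c)` (`v = ‖v‖ • v'` with `‖v'‖ = 1`, `dper_smul`, `dper_ball_eq`,
`dper_closedBall_ne_top`; `v = 0` separately). `lintegral_dper_le` for `B` (finite perimeter,
`perimeter_closedBall_ne_top` of P0) gives
`2 c ∫ v in ball 0 1, ‖v‖ ≤ (∫ v in ball 0 1, |⟨e, v⟩|) (perimeter B).toReal`. Divide by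
`∫ ‖v‖ > 0` (there is a unit vector, so `V` is nontrivial and the unit ball has positive
volume). -/
theorem two_dper_le {ρ : ℝ} (hρ : 0 < ρ) {e : V} (he : ‖e‖ = 1) :
    2 * (dper (closedBall (0 : V) ρ) e).toReal
      ≤ meanAbs e * (perimeter (closedBall (0 : V) ρ)).toReal := by
  set B : Set V := closedBall (0 : V) ρ with hB
  have hBm : MeasurableSet B := isClosed_closedBall.measurableSet
  have hBf : volume B ≠ ⊤ := measure_closedBall_lt_top.ne
  have hd : ∀ v : V, dper B v = ENNReal.ofReal ‖v‖ * dper B e := by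
    intro v
    have h1 : ‖v‖ = ‖(‖v‖ • e)‖ := by rw [norm_smul, norm_norm, he, mul_one]
    rw [hB, dper_ball_eq ρ h1, ← hB, dper_smul hBm hBf, abs_of_nonneg (norm_nonneg v)]
  have hne : dper B e ≠ ⊤ := dper_closedBall_ne_top ρ e
  have hI := lintegral_dper_le hBm isBounded_closedBall (perimeter_closedBall_ne_top ρ) he
  have h2 : ∫⁻ v in ball (0 : V) 1, 2 * dper B v =
      ENNReal.ofReal (2 * (dper B e).toReal * ∫ v in ball (0 : V) 1, ‖v‖) := by
    have h3 : ∀ v : V, 2 * dper B v = (2 * dper B e) * ENNReal.ofReal ‖v‖ := fun v => by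
      rw [hd v]; ring
    rw [lintegral_congr h3, lintegral_const_mul _ (by fun_prop),
      ← ofReal_integral_eq_lintegral_ofReal (i3_intOn continuous_norm)
        (Eventually.of_forall fun v => norm_nonneg v),
      ENNReal.ofReal_mul (by positivity), ENNReal.ofReal_mul (by norm_num),
      ENNReal.ofReal_toReal hne, ENNReal.ofReal_ofNat]
  rw [h2] at hI
  have hN := i3_norm_pos he
  have hR0 : 0 ≤ (∫ v in ball (0 : V) 1, |inner ℝ e v|) * (perimeter B).toReal :=
    mul_nonneg (i3_inner_pos he).le ENNReal.toReal_nonneg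
  have h4 := (ENNReal.ofReal_le_ofReal_iff hR0).mp hI
  unfold meanAbs
  rw [div_mul_eq_mul_div, le_div_iff₀ hN]
  exact h4

end Pool.Agent.H89G
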