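import Pool.Agent.Lib.H89G.I2
import Pool.Agent.Lib.H89G.I3
import Pool.Agent.Lib.H89G.G3

/-! H89G, chunk I4 (S/M): the general theorem. Uses I2, I3, G1, G3. -/

open MeasureTheory Set Metric Filter Topology
open scoped ENNReal

namespace Pool.Agent.H89G

open Pool.Agent.H81St

variable {V : Type*} [NormedAddCommGroup V] [InnerProductSpace ℝ V] [FiniteDimensional ℝ V]
  [MeasurableSpace V] [BorelSpace V]

/-- PROOF. `limsup_le` and `two_dper_le`: `2 c / m ≤ meanAbs e / m * (perimeter B).toReal`, and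
`perimeter B` is finite. -/
theorem limsup_perimeter_le {u : ℕ → V} (hu : ∀ i, ‖u i‖ = 1) {E : Set V} (hE : IsCompact E)
    (hP : perimeter E ≠ ⊤) {ρ : ℝ} (hρ : 0 < ρ)
    (hH : Tendsto (fun i => hausdorffEDist (iter u E i) (closedBall (0 : V) ρ)) atTop (𝓝 0))
    {e : V} (he : ‖e‖ = 1) {m : ℝ} (hm : 0 < m)
    (hgood : ∀ N, ∃ᶠ i in atTop, ∀ w : V,
      m * ‖w‖ ≤ avgs u (fun v => |inner ℝ w v|) N i (u (N + i))) :
    limsup (fun i => perimeter (iter u E i)) atTop
      ≤ ENNReal.ofReal (meanAbs e / m) * perimeter (closedBall (0 : V) ρ) := by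
  have hPB : perimeter (closedBall (0 : V) ρ) ≠ ⊤ := perimeter_closedBall_ne_top ρ
  have h1 := limsup_le hu hE hP hρ hH he hm hgood
  have h2 := two_dper_le hρ he
  have hM := i3_meanAbs_pos he
  refine h1.trans ?_
  have h3 : ENNReal.ofReal (meanAbs e / m) * perimeter (closedBall (0 : V) ρ) =
      ENNReal.ofReal (meanAbs e * (perimeter (closedBall (0 : V) ρ)).toReal / m) := by
    have e1 : meanAbs e * (perimeter (closedBall (0 : V) ρ)).toReal / m =
        meanAbs e / m * (perimeter (closedBall (0 : V) ρ)).toReal := by ring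
    rw [e1, ENNReal.ofReal_mul (by positivity), ENNReal.ofReal_toReal hPB]
  rw [h3]
  exact ENNReal.ofReal_le_ofReal (div_le_div_of_nonneg_right h2 hm.le)

/-- PROOF. For every `m < meanAbs e`, `m > 0`, `limsup_perimeter_le`; let `m → meanAbs e`
(`meanAbs e > 0`): `limsup ≤ perimeter B`. The lower bound `perimeter B ≤ liminf` is
`perimeter_liminf` with `iter_facts`. Conclude with `tendsto_of_le_liminf_of_limsup_le`. -/
theorem tendsto_perimeter {u : ℕ → V} (hu : ∀ i, ‖u i‖ = 1) {E : Set V} (hE : IsCompact E)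
    (hP : perimeter E ≠ ⊤) {ρ : ℝ} (hρ : 0 < ρ)
    (hv : volume (closedBall (0 : V) ρ) = volume E)
    (hH : Tendsto (fun i => hausdorffEDist (iter u E i) (closedBall (0 : V) ρ)) atTop (𝓝 0))
    {e : V} (he : ‖e‖ = 1)
    (hgood : ∀ m < meanAbs e, ∀ N, ∃ᶠ i in atTop, ∀ w : V,
      m * ‖w‖ ≤ avgs u (fun v => |inner ℝ w v|) N i (u (N + i))) :
    Tendsto (fun i => perimeter (iter u E i)) atTop
      (𝓝 (perimeter (closedBall (0 : V) ρ))) := by
  have hPB : perimeter (closedBall (0 : V) ρ) ≠ ⊤ := perimeter_closedBall_ne_top ρ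
  have hM := i3_meanAbs_pos he
  have hup : limsup (fun i => perimeter (iter u E i)) atTop ≤
      perimeter (closedBall (0 : V) ρ) := by
    have hlim : Tendsto (fun m : ℝ => ENNReal.ofReal (meanAbs e / m) *
        perimeter (closedBall (0 : V) ρ)) (𝓝[<] (meanAbs e))
        (𝓝 (1 * perimeter (closedBall (0 : V) ρ))) := by
      refine ENNReal.Tendsto.mul_const ?_ (Or.inr hPB)
      have h1 : Tendsto (fun m : ℝ => meanAbs e / m) (𝓝[<] (meanAbs e))
          (𝓝 (meanAbs e / meanAbs e)) :=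
        (tendsto_const_nhds.div tendsto_id hM.ne').mono_left nhdsWithin_le_nhds
      rw [div_self hM.ne'] at h1
      have h2 := ENNReal.tendsto_ofReal h1
      rwa [ENNReal.ofReal_one] at h2
    rw [one_mul] at hlim
    refine ge_of_tendsto hlim ?_
    have h3 : ∀ᶠ m in 𝓝[<] (meanAbs e), 0 < m :=
      nhdsWithin_le_nhds (lt_mem_nhds hM)
    filter_upwards [h3, self_mem_nhdsWithin] with m hm0 hm1
    exact limsup_perimeter_le hu hE hP hρ hH he hm0 (hgood m hm1)
  have hlow := perimeter_liminf (F := fun i => iter u E i) (fun i => (iter_facts hu hE i).1) hρ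
    (fun i => by rw [(iter_facts hu hE i).2, hv]) hH
  exact tendsto_of_le_liminf_of_limsup_le hlow hup

end Pool.Agent.H89G
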