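import Pool.Agent.Lib.H89G.Defs

/-! H89G, definitions for the plane (no sorry). -/

open MeasureTheory Set Metric Filter Topology
open scoped ENNReal

namespace Pool.Agent.H89G

open Pool.Agent.H81St

/-- The unit vector of the plane with angle `θ`. -/
noncomputable def dirv (θ : ℝ) : EuclideanSpace ℝ (Fin 2) := !₂[Real.cos θ, Real.sin θ]

/-- The iterated averages in the angular coordinate. -/
noncomputable def avgR (θ : ℕ → ℝ) (G : ℝ → ℝ) (N : ℕ) : ℕ → ℝ → ℝ
  | 0 => G
  | i + 1 => fun x => (avgR θ G N i x + avgR θ G N i (2 * θ (N + i) - x)) / 2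

end Pool.Agent.H89G
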