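import Pool.Agent.Lib.H89G.E6
import Pool.Agent.Lib.H89G.J0

/-! H89G, chunk J1 (M): the constant of the plane. -/

open MeasureTheory Set Metric Filter Topology
open scoped ENNReal

namespace Pool.Agent.H89G

open Pool.Agent.H81St

/-- integral of a homogeneous function over the unit disc -/
theorem j1_polar (f : ℂ → ℝ) (g : ℝ → ℝ)
    (h : ∀ r θ : ℝ, 0 < r → f (Complex.polarCoord.symm (r, θ)) = r * g θ) :
    ∫ z in ball (0 : ℂ) 1, f z = (1 / 3) * ∫ θ in Ioo (-Real.pi) Real.pi, g θ := by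
  rw [← integral_indicator measurableSet_ball, ← Complex.integral_comp_polarCoord_symm]
  have h1 : ∫ p in polarCoord.target, p.1 • (ball (0 : ℂ) 1).indicator f
      (Complex.polarCoord.symm p) = ∫ p in (Ioi (0 : ℝ) ×ˢ Ioo (-Real.pi) Real.pi),
        (Ioo (0 : ℝ) 1).indicator (fun r => r ^ 2) p.1 * g p.2 := by
    have h2 : polarCoord.target = Ioi (0 : ℝ) ×ˢ Ioo (-Real.pi) Real.pi := rfl
    rw [h2]
    refine setIntegral_congr_fun (measurableSet_Ioi.prod measurableSet_Ioo) ?_
    rintro ⟨r, θ⟩ ⟨hr, hθ⟩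
    have hr' : (0 : ℝ) < r := hr
    have hn : ‖Complex.polarCoord.symm (r, θ)‖ = r := by
      rw [Complex.norm_polarCoord_symm, abs_of_pos hr']
    show r • (ball (0 : ℂ) 1).indicator f (Complex.polarCoord.symm (r, θ)) =
      (Ioo (0 : ℝ) 1).indicator (fun r => r ^ 2) r * g θ
    by_cases h1 : r < 1
    · rw [indicator_of_mem (show r ∈ Ioo (0 : ℝ) 1 from ⟨hr', h1⟩),
        indicator_of_mem (by rw [mem_ball_zero_iff, hn]; exact h1), h r θ hr', smul_eq_mul]
      ring
    · have hm1 : Complex.polarCoord.symm (r, θ) ∉ ball (0 : ℂ) 1 := by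
        rw [mem_ball_zero_iff, hn]
        exact h1
      have hm2 : r ∉ Ioo (0 : ℝ) 1 := fun h2 => h1 h2.2
      rw [indicator_of_notMem hm1, indicator_of_notMem hm2, smul_zero, zero_mul]
  rw [h1]
  have h3 : (volume : Measure (ℝ × ℝ)) = (volume : Measure ℝ).prod volume := rfl
  rw [h3, setIntegral_prod_mul (fun r => (Ioo (0 : ℝ) 1).indicator (fun r => r ^ 2) r) g]
  congr 1
  rw [setIntegral_indicator measurableSet_Ioo]
  have h4 : Ioi (0 : ℝ) ∩ Ioo 0 1 = Ioo 0 1 := by
    ext x
    simp only [mem_inter_iff, mem_Ioi, mem_Ioo]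
    tauto
  rw [h4, ← integral_Ioc_eq_integral_Ioo, ← intervalIntegral.integral_of_le zero_le_one,
    integral_pow]
  norm_num

theorem j1_cos : ∫ θ in Ioo (-Real.pi) Real.pi, |Real.cos θ| = 4 := by
  have hpi := Real.pi_pos
  have hi : ∀ a b : ℝ, IntervalIntegrable (fun θ => |Real.cos θ|) volume a b := fun a b =>
    (by fun_prop : Continuous fun θ : ℝ => |Real.cos θ|).intervalIntegrable a b
  rw [← integral_Ioc_eq_integral_Ioo, ← intervalIntegral.integral_of_le (by linarith),
    ← intervalIntegral.integral_add_adjacent_intervals (hi (-Real.pi) (-(Real.pi / 2)))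
      (hi (-(Real.pi / 2)) Real.pi),
    ← intervalIntegral.integral_add_adjacent_intervals (hi (-(Real.pi / 2)) (Real.pi / 2))
      (hi (Real.pi / 2) Real.pi)]
  have h1 : ∫ θ in (-Real.pi)..(-(Real.pi / 2)), |Real.cos θ| =
      ∫ θ in (-Real.pi)..(-(Real.pi / 2)), -Real.cos θ := by
    refine intervalIntegral.integral_congr fun θ hθ => ?_
    rw [uIcc_of_le (by linarith)] at hθ
    have h : Real.cos θ ≤ 0 := by
      rw [← Real.cos_neg]
      exact Real.cos_nonpos_of_pi_div_two_le_of_le (by linarith [hθ.2]) (by linarith [hθ.1])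
    exact abs_of_nonpos h
  have h2 : ∫ θ in (-(Real.pi / 2))..(Real.pi / 2), |Real.cos θ| =
      ∫ θ in (-(Real.pi / 2))..(Real.pi / 2), Real.cos θ := by
    refine intervalIntegral.integral_congr fun θ hθ => ?_
    rw [uIcc_of_le (by linarith)] at hθ
    exact abs_of_nonneg (Real.cos_nonneg_of_mem_Icc hθ)
  have h3 : ∫ θ in (Real.pi / 2)..Real.pi, |Real.cos θ| =
      ∫ θ in (Real.pi / 2)..Real.pi, -Real.cos θ := by
    refine intervalIntegral.integral_congr fun θ hθ => ?_
    rw [uIcc_of_le (by linarith)] at hθ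
    exact abs_of_nonpos (Real.cos_nonpos_of_pi_div_two_le_of_le hθ.1 (by linarith [hθ.2]))
  rw [h1, h2, h3, intervalIntegral.integral_neg, intervalIntegral.integral_neg, integral_cos,
    integral_cos, integral_cos]
  simp only [Real.sin_neg, Real.sin_pi, Real.sin_pi_div_two]
  norm_num

/-- transfer from the Euclidean plane to the complex plane -/
theorem j1_transfer (f : EuclideanSpace ℝ (Fin 2) → ℝ) :
    ∫ v in ball (0 : EuclideanSpace ℝ (Fin 2)) 1, f v =
      ∫ z in ball (0 : ℂ) 1, f (Complex.orthonormalBasisOneI.repr z) := by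
  set e : ℂ ≃ₗᵢ[ℝ] EuclideanSpace ℝ (Fin 2) := Complex.orthonormalBasisOneI.repr with he
  have h1 : MeasurePreserving e volume volume := e.measurePreserving
  have h2 : MeasurableEmbedding e := e.toHomeomorph.measurableEmbedding
  have h3 := h1.setIntegral_preimage_emb h2 f (ball (0 : EuclideanSpace ℝ (Fin 2)) 1)
  have h4 : e ⁻¹' ball (0 : EuclideanSpace ℝ (Fin 2)) 1 = ball (0 : ℂ) 1 := by
    ext v
    rw [mem_preimage, mem_ball_zero_iff, mem_ball_zero_iff, e.norm_map]
  rw [h4] at h3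
  exact h3.symm

/-- PROOF. By `int_abs_inner` (E6, with the roles of the unit vectors) we may take
`e = dirv 0 = (1, 0)`. In polar coordinates (`integral_comp_polarCoord_symm` after the measure
preserving identification of `EuclideanSpace ℝ (Fin 2)` with `ℝ × ℝ`, or
`Complex.integral_comp_polarCoord_symm` with `Complex.orthonormalBasisOneI`)
`∫ v in ball 0 1, ‖v‖ = ∫ r in (0,1), ∫ θ in (-π, π), r * r = 2π/3` and
`∫ v in ball 0 1, |⟨e, v⟩| = ∫ r in (0,1), ∫ θ in (-π,π), r * r |cos θ| = (1/3) * 4`. The quotient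
is `2/π`. -/
theorem meanAbs_plane {e : EuclideanSpace ℝ (Fin 2)} (he : ‖e‖ = 1) :
    meanAbs e = 2 / Real.pi := by
  have hd : ‖(EuclideanSpace.single 0 1 : EuclideanSpace ℝ (Fin 2))‖ = 1 := by simp
  unfold meanAbs
  rw [int_abs_inner hd e, he, one_mul, j1_transfer, j1_transfer]
  have h1 : ∫ z in ball (0 : ℂ) 1, ‖Complex.orthonormalBasisOneI.repr z‖ =
      (1 / 3) * ∫ θ in Ioo (-Real.pi) Real.pi, (1 : ℝ) := by
    refine j1_polar _ _ fun r θ hr => ?_
    rw [LinearIsometryEquiv.norm_map, Complex.norm_polarCoord_symm, abs_of_pos hr, mul_one]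
  have h2 : ∫ z in ball (0 : ℂ) 1, |inner ℝ (EuclideanSpace.single 0 1 : EuclideanSpace ℝ (Fin 2))
      (Complex.orthonormalBasisOneI.repr z)| =
      (1 / 3) * ∫ θ in Ioo (-Real.pi) Real.pi, |Real.cos θ| := by
    refine j1_polar _ _ fun r θ hr => ?_
    rw [EuclideanSpace.inner_single_left, Complex.polarCoord_symm_apply]
    simp [abs_mul, abs_of_pos hr, -Complex.ofReal_cos, -Complex.ofReal_sin]
  rw [h1, h2, j1_cos, setIntegral_const, Measure.real, Real.volume_Ioo]
  have hpi := Real.pi_pos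
  rw [ENNReal.toReal_ofReal (by linarith), smul_eq_mul]
  field_simp
  ring

end Pool.Agent.H89G
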