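import Pool.Agent.Lib.H89G.J0

/-! H89G, chunk J2 (M): the Fourier series of `|cos|`. Pure analysis. -/

open MeasureTheory Set Metric Filter Topology
open scoped ENNReal

namespace Pool.Agent.H89G

open Pool.Agent.H81St

theorem j2_periodic : Function.Periodic (fun x : ℝ => ((|Real.cos x| : ℝ) : ℂ)) Real.pi := by
  intro x
  show ((|Real.cos (x + Real.pi)| : ℝ) : ℂ) = ((|Real.cos x| : ℝ) : ℂ)
  rw [Real.cos_add_pi, abs_neg]

/-- the continuous function `|cos|` on the circle of length `π` -/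
noncomputable def j2_f : C(AddCircle Real.pi, ℂ) where
  toFun := j2_periodic.lift
  continuous_toFun := by
    have h1 : Continuous (fun x : ℝ => ((|Real.cos x| : ℝ) : ℂ)) := by fun_prop
    exact continuous_coinduced_dom.mpr h1

theorem j2_anti (n : ℤ) (x : ℝ) :
    HasDerivAt (fun x : ℝ => Complex.exp (-2 * n * x * Complex.I) *
      ((Real.sin x : ℝ) - 2 * n * Complex.I * (Real.cos x : ℝ)) / (1 - 4 * (n : ℂ) ^ 2))
      (Complex.exp (-2 * n * x * Complex.I) * (Real.cos x : ℝ)) x := by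
  have hne : (1 - 4 * (n : ℂ) ^ 2) ≠ 0 := by
    intro h
    have h1 : ((1 - 4 * n ^ 2 : ℤ) : ℂ) = 0 := by push_cast; exact h
    have h2 : (1 - 4 * n ^ 2 : ℤ) = 0 := by exact_mod_cast h1
    omega
  have hs : HasDerivAt (fun x : ℝ => ((Real.sin x : ℝ) : ℂ)) ((Real.cos x : ℝ) : ℂ) x :=
    (Real.hasDerivAt_sin x).ofReal_comp
  have hc : HasDerivAt (fun x : ℝ => ((Real.cos x : ℝ) : ℂ)) ((-Real.sin x : ℝ) : ℂ) x :=
    (Real.hasDerivAt_cos x).ofReal_comp
  have hid : HasDerivAt (fun x : ℝ => (x : ℂ)) 1 x := (hasDerivAt_id x).ofReal_comp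
  have he : HasDerivAt (fun x : ℝ => Complex.exp (-2 * n * x * Complex.I))
      (Complex.exp (-2 * n * x * Complex.I) * (-2 * n * 1 * Complex.I)) x :=
    HasDerivAt.cexp ((hid.const_mul (-2 * (n : ℂ))).mul_const Complex.I)
  have h := (he.mul (hs.sub (hc.const_mul (2 * n * Complex.I)))).div_const (1 - 4 * (n : ℂ) ^ 2)
  refine h.congr_deriv ?_
  rw [div_eq_iff hne]
  simp only [Pi.sub_apply]
  push_cast
  have hI : Complex.I ^ 2 = -1 := Complex.I_sq
  linear_combination (4 * (n : ℂ) ^ 2 * Complex.exp (-2 * n * x * Complex.I) * Complex.cos x) * hI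

theorem j2_integral (n : ℤ) :
    ∫ x in (-(Real.pi / 2))..(Real.pi / 2), Complex.exp (-2 * n * x * Complex.I) * (Real.cos x : ℝ)
      = 2 * (-1) ^ n / (1 - 4 * (n : ℂ) ^ 2) := by
  have h1 := intervalIntegral.integral_eq_sub_of_hasDerivAt
    (f := fun x : ℝ => Complex.exp (-2 * n * x * Complex.I) *
      ((Real.sin x : ℝ) - 2 * n * Complex.I * (Real.cos x : ℝ)) / (1 - 4 * (n : ℂ) ^ 2))
    (f' := fun x : ℝ => Complex.exp (-2 * n * x * Complex.I) * (Real.cos x : ℝ))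
    (a := -(Real.pi / 2)) (b := Real.pi / 2) (fun x _ => j2_anti n x) (by
      apply Continuous.intervalIntegrable
      fun_prop)
  rw [h1]
  have he1 : Complex.exp (-2 * n * ((Real.pi / 2 : ℝ) : ℂ) * Complex.I) = (-1) ^ n := by
    have : (-2 * (n : ℂ) * ((Real.pi / 2 : ℝ) : ℂ) * Complex.I) =
        ((-n : ℤ) : ℂ) * (Real.pi * Complex.I) := by
      push_cast
      ring
    rw [this, Complex.exp_int_mul, Complex.exp_pi_mul_I, zpow_neg, ← inv_zpow]
    norm_num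
  have he2 : Complex.exp (-2 * n * ((-(Real.pi / 2) : ℝ) : ℂ) * Complex.I) = (-1) ^ n := by
    have : (-2 * (n : ℂ) * ((-(Real.pi / 2) : ℝ) : ℂ) * Complex.I) =
        (n : ℂ) * (Real.pi * Complex.I) := by
      push_cast
      ring
    rw [this, Complex.exp_int_mul, Complex.exp_pi_mul_I]
  rw [he1, he2, Real.sin_neg, Real.cos_neg, Real.sin_pi_div_two, Real.cos_pi_div_two]
  push_cast
  ring

instance j2_fact : Fact (0 < Real.pi) := ⟨Real.pi_pos⟩

theorem j2_coeff (n : ℤ) :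
    fourierCoeff (j2_f : AddCircle Real.pi → ℂ) n =
      (2 / Real.pi * ((-1) ^ n / (1 - 4 * (n : ℂ) ^ 2)) : ℂ) := by
  rw [fourierCoeff_eq_intervalIntegral _ n (-(Real.pi / 2))]
  have e : -(Real.pi / 2) + Real.pi = Real.pi / 2 := by ring
  rw [e]
  have h1 : ∫ x in (-(Real.pi / 2))..(Real.pi / 2), (fourier (-n) (x : AddCircle Real.pi) : ℂ) •
      j2_f (x : AddCircle Real.pi) = ∫ x in (-(Real.pi / 2))..(Real.pi / 2),
        Complex.exp (-2 * n * x * Complex.I) * (Real.cos x : ℝ) := by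
    refine intervalIntegral.integral_congr ?_
    intro x hx
    rw [uIcc_of_le (by linarith [Real.pi_pos])] at hx
    have hcos : 0 ≤ Real.cos x := Real.cos_nonneg_of_mem_Icc hx
    have h2 : j2_f (x : AddCircle Real.pi) = ((|Real.cos x| : ℝ) : ℂ) := rfl
    show (fourier (-n) (x : AddCircle Real.pi) : ℂ) • j2_f (x : AddCircle Real.pi) = _
    rw [h2, abs_of_nonneg hcos, fourier_coe_apply, smul_eq_mul]
    congr 2
    have hpi : (Real.pi : ℂ) ≠ 0 := by exact_mod_cast Real.pi_ne_zero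
    push_cast
    field_simp
  rw [h1, j2_integral, Complex.real_smul]
  push_cast
  ring

theorem j2_summable : Summable (fourierCoeff (j2_f : AddCircle Real.pi → ℂ)) := by
  have h1 : Summable (fun n : ℤ => (2 / Real.pi) * (1 / (n : ℝ) ^ 2)) :=
    (Real.summable_one_div_int_pow.mpr one_lt_two).mul_left _
  refine Summable.of_norm_bounded_eventually h1 ?_
  rw [eventually_cofinite]
  refine (Set.finite_singleton (0 : ℤ)).subset ?_
  intro n hn
  by_contra hn0
  apply hn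
  have hn1 : n ≠ 0 := hn0
  rw [j2_coeff, norm_mul, norm_div, norm_div, norm_zpow, norm_neg, norm_one, one_zpow]
  have h2 : ‖(2 : ℂ)‖ = 2 := by simp
  have h3 : ‖(Real.pi : ℂ)‖ = Real.pi := by
    rw [Complex.norm_real, Real.norm_eq_abs, abs_of_pos Real.pi_pos]
  rw [h2, h3]
  refine mul_le_mul_of_nonneg_left ?_ (by positivity)
  have h4 : (1 - 4 * (n : ℂ) ^ 2) = ((1 - 4 * (n : ℝ) ^ 2 : ℝ) : ℂ) := by push_cast; ring
  rw [h4, Complex.norm_real, Real.norm_eq_abs]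
  have h5 : (1 : ℝ) ≤ (n : ℝ) ^ 2 := by
    have : (1 : ℤ) ≤ n ^ 2 := by
      have := sq_nonneg n
      have h6 : n ^ 2 ≠ 0 := pow_ne_zero 2 hn1
      omega
    exact_mod_cast this
  have h6 : |1 - 4 * (n : ℝ) ^ 2| = 4 * (n : ℝ) ^ 2 - 1 := by
    rw [abs_of_nonpos (by linarith)]
    ring
  rw [h6]
  exact one_div_le_one_div_of_le (by linarith) (by linarith)

theorem j2_pow (m : ℕ) : ((-1 : ℂ) ^ ((m : ℤ) + 1)) = - (-1) ^ m := by
  have : ((m : ℤ) + 1) = ((m + 1 : ℕ) : ℤ) := by push_cast; ring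
  rw [this, zpow_natCast, pow_succ]
  ring

/-- PROOF. `|cos|` is continuous with period `π`; on `AddCircle π` its Fourier coefficients are
`c_n = (1/π) ∫_{-π/2}^{π/2} cos x * exp(-2 i n x) dx = (1/π) ∫_{-π/2}^{π/2} cos x cos (2 n x) dx
 = (1/π) (sin((2n+1)π/2)/(2n+1) + sin((2n-1)π/2)/(2n-1)) = (2/π) (-1)^(n+1) / (4 n² - 1)`
(also for `n = 0`: `2/π`), which are summable, so the Fourier series converges pointwise
(`has_pointwise_sum_fourier_series_of_summable`):
`|cos x| = ∑_{n ∈ ℤ} c_n exp(2 i n x) = 2/π + (4/π) ∑_{n ≥ 1} (-1)^(n+1) cos(2 n x)/(4n²-1)`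
(`HasSum` over `ℤ` to `ℕ`: `HasSum.int_rec`/`hasSum_int_iff…`; `c_{-n} = c_n`). Any other proof is
fine, e.g. with `hasSum_one_div_nat_pow_mul_cos`-like lemmas or by Abel summation. -/
theorem hasSum_abs_cos (x : ℝ) :
    HasSum (fun m : ℕ => (-1 : ℝ) ^ m * Real.cos (2 * ((m : ℝ) + 1) * x)
        / (4 * ((m : ℝ) + 1) ^ 2 - 1))
      ((|Real.cos x| - 2 / Real.pi) * (Real.pi / 4)) := by
  have h0 := has_pointwise_sum_fourier_series_of_summable j2_summable (x : AddCircle Real.pi)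
  have h1 := h0.nat_add_neg
  have h2 := (hasSum_nat_add_iff' 1).mpr h1
  have hf : j2_f (x : AddCircle Real.pi) = ((|Real.cos x| : ℝ) : ℂ) := rfl
  have hpi : (Real.pi : ℂ) ≠ 0 := by exact_mod_cast Real.pi_ne_zero
  have h3 : HasSum (fun m : ℕ => (((-1 : ℝ) ^ m * Real.cos (2 * ((m : ℝ) + 1) * x)
        / (4 * ((m : ℝ) + 1) ^ 2 - 1) : ℝ) : ℂ))
      ((((|Real.cos x| - 2 / Real.pi) * (Real.pi / 4) : ℝ)) : ℂ) := by
    have h4 := h2.mul_right ((Real.pi : ℂ) / 4)
    have e1 : ((fun m : ℕ => (((-1 : ℝ) ^ m * Real.cos (2 * ((m : ℝ) + 1) * x)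
        / (4 * ((m : ℝ) + 1) ^ 2 - 1) : ℝ) : ℂ))) = (fun n : ℕ =>
        (fourierCoeff (j2_f : AddCircle Real.pi → ℂ) ((n + 1 : ℕ) : ℤ) •
          (fourier ((n + 1 : ℕ) : ℤ) (x : AddCircle Real.pi) : ℂ) +
        fourierCoeff (j2_f : AddCircle Real.pi → ℂ) (-((n + 1 : ℕ) : ℤ)) •
          (fourier (-((n + 1 : ℕ) : ℤ)) (x : AddCircle Real.pi) : ℂ)) * ((Real.pi : ℂ) / 4)) := by
      funext m
      rw [j2_coeff, j2_coeff, fourier_coe_apply, fourier_coe_apply]
      have hz1 : ((-1 : ℂ) ^ (((m + 1 : ℕ) : ℤ))) = - (-1) ^ m := by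
        rw [zpow_natCast, pow_succ]; ring
      have hz2 : ((-1 : ℂ) ^ (-((m + 1 : ℕ) : ℤ))) = - (-1) ^ m := by
        rw [zpow_neg, ← inv_zpow, zpow_natCast, pow_succ]
        norm_num
      rw [hz1, hz2]
      have hc : ((Real.cos (2 * ((m : ℝ) + 1) * x) : ℝ) : ℂ) =
          (Complex.exp (2 * Real.pi * Complex.I * ((m + 1 : ℕ) : ℤ) * x / Real.pi) +
            Complex.exp (2 * Real.pi * Complex.I * ((-((m + 1 : ℕ) : ℤ) : ℤ) : ℂ) * x / Real.pi)) / 2 := by
        rw [Complex.ofReal_cos, Complex.cos]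
        congr 3
        · push_cast
          field_simp
        · push_cast
          field_simp
      push_cast [hc]
      have hne : (4 * ((m : ℂ) + 1) ^ 2 - 1) ≠ 0 := by
        intro h
        have h1 : ((4 * ((m : ℤ) + 1) ^ 2 - 1 : ℤ) : ℂ) = 0 := by push_cast; exact h
        have h2 : (4 * ((m : ℤ) + 1) ^ 2 - 1 : ℤ) = 0 := by exact_mod_cast h1
        omega
      have e3 : (1 - 4 * ((m : ℂ) + 1) ^ 2) = -(4 * ((m : ℂ) + 1) ^ 2 - 1) := by ring
      have e4 : (1 - 4 * (-((m : ℂ) + 1)) ^ 2) = -(4 * ((m : ℂ) + 1) ^ 2 - 1) := by ring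
      rw [e3, e4]
      simp only [smul_eq_mul]
      generalize Complex.exp (2 * Real.pi * Complex.I * ((m : ℂ) + 1) * x / Real.pi) = A
      generalize Complex.exp (2 * Real.pi * Complex.I * -((m : ℂ) + 1) * x / Real.pi) = B
      generalize (4 * ((m : ℂ) + 1) ^ 2 - 1) = D at hne ⊢
      generalize ((-1 : ℂ) ^ m) = E
      field_simp
      ring
    rw [e1]
    have e2 : ((((|Real.cos x| - 2 / Real.pi) * (Real.pi / 4) : ℝ)) : ℂ) =
      (j2_f (x : AddCircle Real.pi) + fourierCoeff (j2_f : AddCircle Real.pi → ℂ) 0 •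
        (fourier 0 (x : AddCircle Real.pi) : ℂ) - ∑ i ∈ Finset.range 1,
          (fourierCoeff (j2_f : AddCircle Real.pi → ℂ) (i : ℤ) •
            (fourier (i : ℤ) (x : AddCircle Real.pi) : ℂ) +
          fourierCoeff (j2_f : AddCircle Real.pi → ℂ) (-(i : ℤ)) •
            (fourier (-(i : ℤ)) (x : AddCircle Real.pi) : ℂ))) * ((Real.pi : ℂ) / 4) := by
      rw [Finset.sum_range_one, hf]
      simp only [Nat.cast_zero, neg_zero]
      rw [j2_coeff]
      simp
    rw [e2]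
    exact h4
  exact_mod_cast Complex.hasSum_ofReal.mp h3

/-- PROOF. `1/(4 M² - 1) = (1/(2M - 1) - 1/(2M + 1))/2`, telescoping: `∑_{M ≥ k} = 1/(2(2k - 1))`
(here `M = m + k`, `k ≥ 1`). -/
theorem hasSum_tail {k : ℕ} (hk : 1 ≤ k) :
    HasSum (fun m : ℕ => 1 / (4 * ((m : ℝ) + k) ^ 2 - 1)) (1 / (2 * (2 * (k : ℝ) - 1))) := by
  have hk' : (1 : ℝ) ≤ k := by exact_mod_cast hk
  rw [hasSum_iff_tendsto_nat_of_nonneg]
  · have h1 : ∀ n : ℕ, ∑ m ∈ Finset.range n, 1 / (4 * ((m : ℝ) + k) ^ 2 - 1) =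
        1 / (2 * (2 * (k : ℝ) - 1)) - 1 / (2 * (2 * ((n : ℝ) + k) - 1)) := by
      intro n
      induction n with
      | zero => simp
      | succ n ih =>
        rw [Finset.sum_range_succ, ih]
        have hn : (0 : ℝ) ≤ n := Nat.cast_nonneg n
        have ha : (2 * (k : ℝ) - 1) ≠ 0 := by linarith
        have hb : (2 * ((n : ℝ) + k) - 1) ≠ 0 := by linarith
        have hc : (2 * ((n : ℝ) + 1 + k) - 1) ≠ 0 := by linarith
        have hd : (4 * ((n : ℝ) + k) ^ 2 - 1) ≠ 0 := by nlinarith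
        push_cast
        have he : (4 * ((n : ℝ) + k) ^ 2 - 1) = (2 * ((n : ℝ) + k) - 1) * (2 * ((n : ℝ) + 1 + k) - 1) := by
          ring
        rw [he]
        field_simp
        ring
    have h2 : Tendsto (fun n : ℕ => 1 / (2 * (2 * (k : ℝ) - 1)) - 1 / (2 * (2 * ((n : ℝ) + k) - 1)))
        atTop (𝓝 (1 / (2 * (2 * (k : ℝ) - 1)) - 0)) := by
      refine tendsto_const_nhds.sub ?_
      have h3 : Tendsto (fun n : ℕ => (2 * (2 * ((n : ℝ) + k) - 1))) atTop atTop := by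
        refine tendsto_atTop_mono (fun n => ?_) tendsto_natCast_atTop_atTop
        have hn : (0 : ℝ) ≤ n := Nat.cast_nonneg n
        linarith
      refine h3.inv_tendsto_atTop.congr fun n => ?_
      rw [one_div]
      rfl
    rw [sub_zero] at h2
    refine h2.congr fun n => (h1 n).symm
  · intro m
    have hn : (0 : ℝ) ≤ m := Nat.cast_nonneg m
    apply div_nonneg zero_le_one
    nlinarith

end Pool.Agent.H89G
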