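import Pool.Agent.Lib.H89G.J0

/-! H89G, chunk J3 (M): the averages in the plane. -/

open MeasureTheory Set Metric Filter Topology
open scoped ENNReal

namespace Pool.Agent.H89G

open Pool.Agent.H81St

theorem inner_dirv (θ φ : ℝ) : inner ℝ (dirv θ) (dirv φ) = Real.cos (φ - θ) := by
  rw [PiLp.inner_apply, Fin.sum_univ_two, Real.cos_sub]
  simp [dirv]

theorem j3_inner' (θ φ : ℝ) : inner ℝ (dirv φ) (dirv θ) = Real.cos (φ - θ) := by
  rw [real_inner_comm, inner_dirv]

/-- PROOF. `⟨dirv φ, dirv θ⟩ = cos (φ - θ)`, `cos φ - 2 cos(φ-θ) cos θ = - cos(2θ - φ)`,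
`sin φ - 2 cos(φ-θ) sin θ = - sin(2θ-φ)`. -/
theorem refl_dirv (θ φ : ℝ) : refl (dirv θ) (dirv φ) = - dirv (2 * θ - φ) := by
  unfold refl
  rw [j3_inner', Real.cos_sub]
  have hs := Real.sin_sq_add_cos_sq θ
  ext i
  fin_cases i
  · simp [dirv, Real.cos_sub, Real.cos_two_mul, Real.sin_two_mul]
    ring
  · simp [dirv, Real.sin_sub, Real.cos_two_mul, Real.sin_two_mul]
    linear_combination (-2 * Real.sin φ) * hs

theorem norm_dirv (θ : ℝ) : ‖dirv θ‖ = 1 := by
  have h : ‖dirv θ‖ ^ 2 = 1 := by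
    rw [← real_inner_self_eq_norm_sq, inner_dirv, sub_self, Real.cos_zero]
  have h0 := norm_nonneg (dirv θ)
  nlinarith

/-- Every unit vector of the plane has an angle, every vector is a multiple of one. -/
theorem exists_dirv (w : EuclideanSpace ℝ (Fin 2)) : ∃ ν : ℝ, w = ‖w‖ • dirv ν := by
  refine ⟨Complex.arg ⟨w 0, w 1⟩, ?_⟩
  have hn : ‖(⟨w 0, w 1⟩ : ℂ)‖ = ‖w‖ := by
    rw [EuclideanSpace.norm_eq, Fin.sum_univ_two, Complex.norm_eq_sqrt_sq_add_sq]
    simp [sq_abs]
  have h1 := Complex.norm_mul_cos_arg (⟨w 0, w 1⟩ : ℂ)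
  have h2 := Complex.norm_mul_sin_arg (⟨w 0, w 1⟩ : ℂ)
  rw [hn] at h1 h2
  ext i
  fin_cases i
  · simp only [dirv]
    simpa using h1.symm
  · simp only [dirv]
    simpa using h2.symm

theorem j3_neg (u v : EuclideanSpace ℝ (Fin 2)) : refl u (-v) = - refl u v := by
  unfold refl
  rw [inner_neg_left]
  module

theorem j3_even (u : ℕ → EuclideanSpace ℝ (Fin 2)) {f : EuclideanSpace ℝ (Fin 2) → ℝ}
    (hf : ∀ v, f (-v) = f v) (N i : ℕ) (v : EuclideanSpace ℝ (Fin 2)) :
    avgs u f N i (-v) = avgs u f N i v := by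
  induction i generalizing v with
  | zero => exact hf v
  | succ i ih =>
    show (avgs u f N i (-v) + avgs u f N i (refl (u (N + i)) (-v))) / 2 =
      (avgs u f N i v + avgs u f N i (refl (u (N + i)) v)) / 2
    rw [j3_neg, ih, ih]

/-- Induction on `i` with `refl_dirv` and `avgs_even` (prove the evenness of `avgs u f N i` again
by induction, `refl u (-v) = - refl u v`). -/
theorem avgs_dirv (θ : ℕ → ℝ) {f : EuclideanSpace ℝ (Fin 2) → ℝ} (hf : ∀ v, f (-v) = f v)
    (N i : ℕ) (x : ℝ) :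
    avgs (fun j => dirv (θ j)) f N i (dirv x) = avgR θ (fun y => f (dirv y)) N i x := by
  induction i generalizing x with
  | zero => rfl
  | succ i ih =>
    show (avgs (fun j => dirv (θ j)) f N i (dirv x) +
      avgs (fun j => dirv (θ j)) f N i (refl (dirv (θ (N + i))) (dirv x))) / 2 =
      (avgR θ (fun y => f (dirv y)) N i x + avgR θ (fun y => f (dirv y)) N i (2 * θ (N + i) - x)) / 2
    rw [refl_dirv, j3_even _ hf, ih, ih]

theorem j3_cosgen (θ : ℕ → ℝ) (c ν : ℝ) (N i : ℕ) (x : ℝ) :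
    avgR θ (fun x => Real.cos (c * (x - ν))) N (i + 1) x
      = Real.cos (c * (θ N - ν))
        * (∏ j ∈ Finset.range i, Real.cos (c * (θ (N + j + 1) - θ (N + j))))
        * Real.cos (c * (x - θ (N + i))) := by
  induction i generalizing x with
  | zero =>
    show (Real.cos (c * (x - ν)) + Real.cos (c * ((2 * θ (N + 0) - x) - ν))) / 2 = _
    rw [Finset.range_zero, Finset.prod_empty, mul_one, add_zero, Real.cos_add_cos]
    have e1 : (c * (x - ν) + c * (2 * θ N - x - ν)) / 2 = c * (θ N - ν) := by ring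
    have e2 : (c * (x - ν) - c * (2 * θ N - x - ν)) / 2 = c * (x - θ N) := by ring
    rw [e1, e2]
    ring
  | succ i ih =>
    show (avgR θ (fun x => Real.cos (c * (x - ν))) N (i + 1) x +
      avgR θ (fun x => Real.cos (c * (x - ν))) N (i + 1) (2 * θ (N + (i + 1)) - x)) / 2 = _
    rw [ih, ih, Finset.prod_range_succ]
    have e0 : N + (i + 1) = N + i + 1 := by ring
    rw [e0]
    have h1 : Real.cos (c * (x - θ (N + i))) + Real.cos (c * (2 * θ (N + i + 1) - x - θ (N + i)))
        = 2 * Real.cos (c * (θ (N + i + 1) - θ (N + i))) * Real.cos (c * (x - θ (N + i + 1))) := by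
      rw [Real.cos_add_cos]
      have e1 : (c * (x - θ (N + i)) + c * (2 * θ (N + i + 1) - x - θ (N + i))) / 2 =
          c * (θ (N + i + 1) - θ (N + i)) := by ring
      have e2 : (c * (x - θ (N + i)) - c * (2 * θ (N + i + 1) - x - θ (N + i))) / 2 =
          c * (x - θ (N + i + 1)) := by ring
      rw [e1, e2]
    linear_combination (Real.cos (c * (θ N - ν)) *
      (∏ j ∈ Finset.range i, Real.cos (c * (θ (N + j + 1) - θ (N + j)))) / 2) * h1

/-- PROOF. `cos(c (x - ν)) + cos (c (2 θ - x - ν)) = 2 cos(c (θ - ν)) cos (c (x - θ))`. So by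
induction on `i`, `avgR θ (cos (c (· - ν))) N (i+1) x = cos (c (θ N - ν)) *
(∏ j < i, cos (c (θ (N+j+1) - θ (N+j)))) * cos (c (x - θ (N+i)))`; evaluate at `θ (N+i+1)`. For
`i = 0` the claim is `cos (c (θ N - ν))`. -/
theorem avgR_cos (θ : ℕ → ℝ) (c ν : ℝ) (N i : ℕ) :
    avgR θ (fun x => Real.cos (c * (x - ν))) N i (θ (N + i))
      = Real.cos (c * (θ N - ν))
        * ∏ j ∈ Finset.range i, Real.cos (c * (θ (N + j + 1) - θ (N + j))) := by
  cases i with
  | zero =>
    rw [Finset.range_zero, Finset.prod_empty, mul_one]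
    rfl
  | succ i =>
    rw [j3_cosgen, Finset.prod_range_succ]
    have e0 : N + (i + 1) = N + i + 1 := by ring
    rw [e0]
    ring

/-- Induction on `i` (`HasSum.add`, `HasSum.div_const`). -/
theorem avgR_hasSum (θ : ℕ → ℝ) {G : ℕ → ℝ → ℝ} {F : ℝ → ℝ}
    (h : ∀ x, HasSum (fun m => G m x) (F x)) (N i : ℕ) (x : ℝ) :
    HasSum (fun m => avgR θ (G m) N i x) (avgR θ F N i x) := by
  induction i generalizing x with
  | zero => exact h x
  | succ i ih => exact ((ih x).add (ih (2 * θ (N + i) - x))).div_const 2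

/-- `avgR` of `x ↦ a * G x + b` is `a * avgR G + b`. -/
theorem avgR_affine (θ : ℕ → ℝ) (G : ℝ → ℝ) (a b : ℝ) (N i : ℕ) (x : ℝ) :
    avgR θ (fun y => a * G y + b) N i x = a * avgR θ G N i x + b := by
  induction i generalizing x with
  | zero => rfl
  | succ i ih =>
    show (avgR θ (fun y => a * G y + b) N i x + avgR θ (fun y => a * G y + b) N i
      (2 * θ (N + i) - x)) / 2 = a * ((avgR θ G N i x + avgR θ G N i (2 * θ (N + i) - x)) / 2) + b
    rw [ih, ih]
    ring

end Pool.Agent.H89G
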