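import Pool.Agent.Lib.H89G.J0

/-! H89G, chunk J4 (S): infinite products of cosines. Pure analysis. -/

open MeasureTheory Set Metric Filter Topology
open scoped ENNReal

namespace Pool.Agent.H89G

open Pool.Agent.H81St

theorem j4_cos (d : ℝ) : |Real.cos d| ≤ Real.exp (- (Real.sin d ^ 2 / 2)) := by
  have h1 : Real.cos d ^ 2 ≤ Real.exp (- Real.sin d ^ 2) := by
    have h2 := Real.add_one_le_exp (- Real.sin d ^ 2)
    have h3 := Real.sin_sq_add_cos_sq d
    linarith
  have h4 : Real.exp (- (Real.sin d ^ 2 / 2)) ^ 2 = Real.exp (- Real.sin d ^ 2) := by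
    rw [← Real.exp_nat_mul]
    congr 1
    push_cast
    ring
  have h5 : |Real.cos d| ^ 2 ≤ Real.exp (- (Real.sin d ^ 2 / 2)) ^ 2 := by
    rw [sq_abs, h4]
    exact h1
  exact (pow_le_pow_iff_left₀ (abs_nonneg _) (Real.exp_pos _).le two_ne_zero).mp h5

/-- PROOF. `|cos d| = √(1 - sin² d) ≤ exp (- sin² d / 2)` (as `1 - t ≤ exp (-t)`), so
`|∏_{j<i} cos (Δ (N+j))| ≤ exp (- ∑_{j<i} sin² (Δ (N+j)) / 2)`, and the partial sums of the
nonnegative non-summable sequence (`not_summable_iff_tendsto_nat_atTop_of_nonneg`, shifted by `N`: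
`summable_nat_add_iff`) tend to infinity. -/
theorem prod_cos_tendsto {Δ : ℕ → ℝ} (h : ¬ Summable (fun j => Real.sin (Δ j) ^ 2)) (N : ℕ) :
    Tendsto (fun i => ∏ j ∈ Finset.range i, Real.cos (Δ (N + j))) atTop (𝓝 0) := by
  have h1 : ¬ Summable (fun j => Real.sin (Δ (N + j)) ^ 2) := by
    intro hs
    apply h
    have h2 : Summable (fun j => Real.sin (Δ (j + N)) ^ 2) := by
      have h3 : (fun j => Real.sin (Δ (j + N)) ^ 2) = fun j => Real.sin (Δ (N + j)) ^ 2 := by
        funext j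
        rw [add_comm]
      rw [h3]
      exact hs
    exact (summable_nat_add_iff (f := fun j => Real.sin (Δ j) ^ 2) N).mp h2
  have h2 : Tendsto (fun i => ∑ j ∈ Finset.range i, Real.sin (Δ (N + j)) ^ 2) atTop atTop :=
    (not_summable_iff_tendsto_nat_atTop_of_nonneg (fun j => sq_nonneg _)).mp h1
  have h3 : Tendsto (fun i => Real.exp (- ((∑ j ∈ Finset.range i, Real.sin (Δ (N + j)) ^ 2) / 2)))
      atTop (𝓝 0) := by
    refine Real.tendsto_exp_neg_atTop_nhds_zero.comp ?_
    exact h2.atTop_div_const two_pos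
  refine squeeze_zero_norm ?_ h3
  intro i
  rw [Real.norm_eq_abs, Finset.abs_prod]
  have h4 : - ((∑ j ∈ Finset.range i, Real.sin (Δ (N + j)) ^ 2) / 2) =
      ∑ j ∈ Finset.range i, (- (Real.sin (Δ (N + j)) ^ 2 / 2)) := by
    rw [Finset.sum_neg_distrib, Finset.sum_div]
  rw [h4, Real.exp_sum]
  exact Finset.prod_le_prod (fun j _ => abs_nonneg _) (fun j _ => j4_cos _)

end Pool.Agent.H89G
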