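import Pool.Agent.Lib.H89G.J2
import Pool.Agent.Lib.H89G.J3
import Pool.Agent.Lib.H89G.J4

/-! H89G, chunk J5 (M): the equidistribution estimate in the plane. Uses J2, J3, J4. -/

open MeasureTheory Set Metric Filter Topology
open scoped ENNReal

namespace Pool.Agent.H89G

open Pool.Agent.H81St

/-- the product of cosines -/
noncomputable def j5_P (θ : ℕ → ℝ) (N : ℕ) (M : ℝ) (i : ℕ) : ℝ :=
  ∏ j ∈ Finset.range i, Real.cos (2 * M * (θ (N + j + 1) - θ (N + j)))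

theorem j5_P_le (θ : ℕ → ℝ) (N : ℕ) (M : ℝ) (i : ℕ) : |j5_P θ N M i| ≤ 1 := by
  unfold j5_P
  rw [Finset.abs_prod]
  exact Finset.prod_le_one (fun j _ => abs_nonneg _) (fun j _ => Real.abs_cos_le_one _)

/-- the value for a unit vector -/
theorem j5_value (θ : ℕ → ℝ) (N i : ℕ) (ν : ℝ) :
    HasSum (fun m : ℕ => 4 / Real.pi * ((-1 : ℝ) ^ m * Real.cos (2 * ((m : ℝ) + 1) * (θ N - ν)) *
        j5_P θ N ((m : ℝ) + 1) i / (4 * ((m : ℝ) + 1) ^ 2 - 1)))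
      (avgR θ (fun y => |Real.cos (y - ν)|) N i (θ (N + i)) - 2 / Real.pi) := by
  have h1 : ∀ x : ℝ, HasSum (fun m : ℕ => (-1 : ℝ) ^ m / (4 * ((m : ℝ) + 1) ^ 2 - 1) *
      Real.cos (2 * ((m : ℝ) + 1) * (x - ν)) + 0)
      (Real.pi / 4 * |Real.cos (x - ν)| + (-(1 / 2))) := by
    intro x
    have h2 := hasSum_abs_cos (x - ν)
    have e1 : (|Real.cos (x - ν)| - 2 / Real.pi) * (Real.pi / 4) =
        Real.pi / 4 * |Real.cos (x - ν)| + (-(1 / 2)) := by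
      have := Real.pi_ne_zero
      field_simp
      ring
    rw [e1] at h2
    have e2 : (fun m : ℕ => (-1 : ℝ) ^ m * Real.cos (2 * ((m : ℝ) + 1) * (x - ν))
        / (4 * ((m : ℝ) + 1) ^ 2 - 1)) = (fun m : ℕ => (-1 : ℝ) ^ m / (4 * ((m : ℝ) + 1) ^ 2 - 1) *
      Real.cos (2 * ((m : ℝ) + 1) * (x - ν)) + 0) := by
      funext m
      ring
    rw [e2] at h2
    exact h2
  have h3 := avgR_hasSum θ (G := fun (m : ℕ) (x : ℝ) => (-1 : ℝ) ^ m / (4 * ((m : ℝ) + 1) ^ 2 - 1) *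
      Real.cos (2 * ((m : ℝ) + 1) * (x - ν)) + 0)
      (F := fun x => Real.pi / 4 * |Real.cos (x - ν)| + (-(1 / 2))) h1 N i (θ (N + i))
  rw [avgR_affine θ (fun x => |Real.cos (x - ν)|)] at h3
  have e3 : (fun m : ℕ => avgR θ (fun x => (-1 : ℝ) ^ m / (4 * ((m : ℝ) + 1) ^ 2 - 1) *
      Real.cos (2 * ((m : ℝ) + 1) * (x - ν)) + 0) N i (θ (N + i))) =
      fun m : ℕ => (-1 : ℝ) ^ m / (4 * ((m : ℝ) + 1) ^ 2 - 1) *
        (Real.cos (2 * ((m : ℝ) + 1) * (θ N - ν)) * j5_P θ N ((m : ℝ) + 1) i) := by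
    funext m
    rw [avgR_affine θ (fun x => Real.cos (2 * ((m : ℝ) + 1) * (x - ν))), avgR_cos, add_zero]
    rfl
  rw [e3] at h3
  have h4 := h3.mul_left (4 / Real.pi)
  have e4 : 4 / Real.pi * (Real.pi / 4 * avgR θ (fun x => |Real.cos (x - ν)|) N i (θ (N + i)) +
      (-(1 / 2))) = avgR θ (fun y => |Real.cos (y - ν)|) N i (θ (N + i)) - 2 / Real.pi := by
    have := Real.pi_ne_zero
    field_simp
    ring
  rw [e4] at h4
  refine h4.congr_fun ?_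
  intro m
  ring

/-- PROOF. Let `w = ‖w‖ • dirv ν` (`exists_dirv`), so `|⟨w, dirv x⟩| = ‖w‖ |cos (x - ν)|`. By
`avgs_dirv`, `hasSum_abs_cos`, `avgR_hasSum`, `avgR_affine`, `avgR_cos` with
`P_M(i) = ∏_{j<i} cos (2 M (θ (N+j+1) - θ (N+j)))`
`avgs … (|⟨w, ·⟩|) N i (dirv (θ (N+i)))
 = ‖w‖ (2/π + (4/π) ∑_{M ≥ 1} (-1)^(M+1) cos (2 M (θ N - ν)) P_M(i) / (4 M² - 1))
 ≥ ‖w‖ (2/π - (4/π) ∑_{1 ≤ M < k} |P_M(i)| / (4 M² - 1) - (4/π) / (2 (2k - 1)))`
(`|P_M| ≤ 1` and `hasSum_tail`). By `prod_cos_tendsto` with `Δ j = 2 M (θ (j+1) - θ j)` the finite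
sum tends to `0` as `i → ∞`, and `2/π - (4/π)/(2(2k-1)) = (2/π) (2k-2)/(2k-1)`. The bound does not
depend on `w` (apart from the factor `‖w‖`). -/
theorem plane_good {θ : ℕ → ℝ} {k : ℕ} (hk : 1 ≤ k)
    (h : ∀ m : ℕ, 1 ≤ m → m < k →
      ¬ Summable (fun j => Real.sin (2 * m * (θ (j + 1) - θ j)) ^ 2))
    {m' : ℝ} (hm : m' < 2 / Real.pi * ((2 * k - 2) / (2 * k - 1))) (N : ℕ) :
    ∀ᶠ i in atTop, ∀ w : EuclideanSpace ℝ (Fin 2),
      m' * ‖w‖ ≤ avgs (fun j => dirv (θ j)) (fun v => |inner ℝ w v|) N i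
        (dirv (θ (N + i))) := by
  have hk' : (1 : ℝ) ≤ k := by exact_mod_cast hk
  have hpi := Real.pi_pos
  -- the finite sum tends to zero
  have hT : Tendsto (fun i => ∑ m ∈ Finset.range (k - 1), |j5_P θ N ((m : ℝ) + 1) i| /
      (4 * ((m : ℝ) + 1) ^ 2 - 1)) atTop (𝓝 0) := by
    have h1 : Tendsto (fun i => ∑ m ∈ Finset.range (k - 1), |j5_P θ N ((m : ℝ) + 1) i| /
      (4 * ((m : ℝ) + 1) ^ 2 - 1)) atTop (𝓝 (∑ m ∈ Finset.range (k - 1), (0 : ℝ))) := by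
      refine tendsto_finsetSum _ fun m hm => ?_
      have hmk : m + 1 < k := by
        have := Finset.mem_range.mp hm
        omega
      have h2 := h (m + 1) (Nat.le_add_left 1 m) hmk
      have h3 := prod_cos_tendsto (Δ := fun j => 2 * ((m : ℝ) + 1) * (θ (j + 1) - θ j)) (by
        push_cast at h2
        exact h2) N
      have h4 : Tendsto (fun i => |j5_P θ N ((m : ℝ) + 1) i|) atTop (𝓝 |(0 : ℝ)|) := h3.abs
      rw [abs_zero] at h4
      have h5 := h4.div_const (4 * ((m : ℝ) + 1) ^ 2 - 1)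
      rw [zero_div] at h5
      exact h5
    rwa [Finset.sum_const_zero] at h1
  set δ : ℝ := 2 / Real.pi * ((2 * k - 2) / (2 * k - 1)) - m' with hδ
  have hδ0 : 0 < δ := by rw [hδ]; linarith
  have hev : ∀ᶠ i in atTop, ∑ m ∈ Finset.range (k - 1), |j5_P θ N ((m : ℝ) + 1) i| /
      (4 * ((m : ℝ) + 1) ^ 2 - 1) < δ * (Real.pi / 4) :=
    hT.eventually (gt_mem_nhds (by positivity))
  filter_upwards [hev] with i hi w
  obtain ⟨ν, hν⟩ := exists_dirv w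
  have hval := j5_value θ N i ν
  -- the tail
  have htail := hasSum_tail hk
  have hbase : ∀ m : ℕ, 0 < 4 * ((m : ℝ) + 1) ^ 2 - 1 := by
    intro m
    have : (0 : ℝ) ≤ m := Nat.cast_nonneg m
    nlinarith
  have hterm : ∀ m : ℕ, |(4 / Real.pi * ((-1 : ℝ) ^ m * Real.cos (2 * ((m : ℝ) + 1) * (θ N - ν)) *
        j5_P θ N ((m : ℝ) + 1) i / (4 * ((m : ℝ) + 1) ^ 2 - 1)))| ≤
        4 / Real.pi * (|j5_P θ N ((m : ℝ) + 1) i| / (4 * ((m : ℝ) + 1) ^ 2 - 1)) := by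
    intro m
    rw [abs_mul, abs_of_pos (by positivity : (0 : ℝ) < 4 / Real.pi), abs_div, abs_mul, abs_mul,
      abs_pow, abs_neg, abs_one, one_pow, one_mul, abs_of_pos (hbase m)]
    refine mul_le_mul_of_nonneg_left ?_ (by positivity)
    refine div_le_div_of_nonneg_right ?_ (hbase m).le
    have h1 := Real.abs_cos_le_one (2 * ((m : ℝ) + 1) * (θ N - ν))
    have h2 := abs_nonneg (j5_P θ N ((m : ℝ) + 1) i)
    nlinarith
  have hsplit := (hasSum_nat_add_iff' (k - 1)).mpr hval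
  have hkm : ((k - 1 : ℕ) : ℝ) + 1 = k := by
    have : k - 1 + 1 = k := Nat.sub_add_cancel hk
    exact_mod_cast this
  -- tail sum bound
  have htb : -(4 / Real.pi * (1 / (2 * (2 * (k : ℝ) - 1)))) ≤
      avgR θ (fun y => |Real.cos (y - ν)|) N i (θ (N + i)) - 2 / Real.pi -
      ∑ m ∈ Finset.range (k - 1), (4 / Real.pi * ((-1 : ℝ) ^ m *
        Real.cos (2 * ((m : ℝ) + 1) * (θ N - ν)) *
        j5_P θ N ((m : ℝ) + 1) i / (4 * ((m : ℝ) + 1) ^ 2 - 1))) := by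
    have h1 := (htail.mul_left (4 / Real.pi)).neg
    refine hasSum_le ?_ h1 hsplit
    intro m
    have h2 := hterm (m + (k - 1))
    have h3 := (abs_le.mp h2).1
    refine le_trans ?_ h3
    rw [neg_le_neg_iff]
    refine mul_le_mul_of_nonneg_left ?_ (by positivity)
    have e : ((m + (k - 1) : ℕ) : ℝ) + 1 = (m : ℝ) + k := by
      push_cast
      rw [add_assoc, hkm]
    rw [e]
    refine div_le_div_of_nonneg_right (j5_P_le _ _ _ _) ?_
    have : (0 : ℝ) ≤ m := Nat.cast_nonneg m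
    nlinarith
  -- finite sum bound
  have hfb : -(4 / Real.pi * ∑ m ∈ Finset.range (k - 1), |j5_P θ N ((m : ℝ) + 1) i| /
      (4 * ((m : ℝ) + 1) ^ 2 - 1)) ≤ ∑ m ∈ Finset.range (k - 1), (4 / Real.pi * ((-1 : ℝ) ^ m *
        Real.cos (2 * ((m : ℝ) + 1) * (θ N - ν)) *
        j5_P θ N ((m : ℝ) + 1) i / (4 * ((m : ℝ) + 1) ^ 2 - 1))) := by
    rw [Finset.mul_sum, ← Finset.sum_neg_distrib]
    exact Finset.sum_le_sum fun m _ => (abs_le.mp (hterm m)).1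
  have hmain : m' ≤ avgR θ (fun y => |Real.cos (y - ν)|) N i (θ (N + i)) := by
    have h1 : 4 / Real.pi * ∑ m ∈ Finset.range (k - 1), |j5_P θ N ((m : ℝ) + 1) i| /
      (4 * ((m : ℝ) + 1) ^ 2 - 1) ≤ δ := by
      have h2 := mul_le_mul_of_nonneg_left hi.le (show (0 : ℝ) ≤ 4 / Real.pi by positivity)
      have h3 : 4 / Real.pi * (δ * (Real.pi / 4)) = δ := by field_simp
      linarith
    have h4 : 2 / Real.pi - 4 / Real.pi * (1 / (2 * (2 * (k : ℝ) - 1))) =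
        2 / Real.pi * ((2 * k - 2) / (2 * k - 1)) := by
      have h5 : (2 * (k : ℝ) - 1) ≠ 0 := by linarith
      field_simp
      ring
    linarith
  have hfun : avgs (fun j => dirv (θ j)) (fun v => |inner ℝ w v|) N i (dirv (θ (N + i))) =
      ‖w‖ * avgR θ (fun y => |Real.cos (y - ν)|) N i (θ (N + i)) := by
    rw [avgs_dirv θ (f := fun v => |inner ℝ w v|) (fun v => by rw [inner_neg_right, abs_neg])]
    have e1 : (fun y => |inner ℝ w (dirv y)|) = fun y => ‖w‖ * |Real.cos (y - ν)| + 0 := by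
      funext y
      nth_rewrite 1 [hν]
      rw [real_inner_smul_left, inner_dirv, abs_mul, abs_of_nonneg (norm_nonneg w), add_zero]
    rw [e1, avgR_affine, add_zero]
  rw [hfun, mul_comm m']
  exact mul_le_mul_of_nonneg_left hmain (norm_nonneg w)

end Pool.Agent.H89G
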