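import Pool.Agent.Lib.H89G.J1
import Pool.Agent.Lib.H89G.J5
import Pool.Agent.Lib.H89G.I4

/-! H89G, chunk J6 (S/M): the theorem in the plane. Uses J1, J3, J5, I4. -/

open MeasureTheory Set Metric Filter Topology
open scoped ENNReal

namespace Pool.Agent.H89G

open Pool.Agent.H81St

/-- PROOF. Apply `limsup_perimeter_le` with `m' ↑ (2/π)(2k-2)/(2k-1)` (positive, `k ≥ 2`),
`plane_good` (`Eventually.frequently`) and `meanAbs_plane`: `meanAbs e / m' → (2k-1)/(2k-2)`.
(The perimeter of the ball is finite: `perimeter_closedBall_ne_top` in P0; use a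
`le_of_forall`-type argument or the continuity of `ENNReal.ofReal`.) -/
theorem plane_bound {E : Set (EuclideanSpace ℝ (Fin 2))} (hE : IsCompact E)
    (hP : perimeter E ≠ ⊤) {θ : ℕ → ℝ} {ρ : ℝ} (hρ : 0 < ρ)
    (hH : Tendsto (fun i => hausdorffEDist (iter (fun j => dirv (θ j)) E i)
      (closedBall (0 : EuclideanSpace ℝ (Fin 2)) ρ)) atTop (𝓝 0))
    {k : ℕ} (hk : 2 ≤ k)
    (h : ∀ m : ℕ, 1 ≤ m → m < k →
      ¬ Summable (fun j => Real.sin (2 * m * (θ (j + 1) - θ j)) ^ 2)) :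
    limsup (fun i => perimeter (iter (fun j => dirv (θ j)) E i)) atTop
      ≤ ENNReal.ofReal ((2 * k - 1) / (2 * k - 2))
        * perimeter (closedBall (0 : EuclideanSpace ℝ (Fin 2)) ρ) := by
  have hPB : perimeter (closedBall (0 : EuclideanSpace ℝ (Fin 2)) ρ) ≠ ⊤ :=
    perimeter_closedBall_ne_top ρ
  have he : ‖dirv 0‖ = 1 := norm_dirv 0
  have hk' : (2 : ℝ) ≤ k := by exact_mod_cast hk
  have hpi := Real.pi_pos
  set s : ℝ := 2 / Real.pi * ((2 * k - 2) / (2 * k - 1)) with hs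
  have hs0 : 0 < s := by
    have h1 : (0 : ℝ) < 2 * k - 2 := by linarith
    have h2 : (0 : ℝ) < 2 * k - 1 := by linarith
    positivity
  have hlim : Tendsto (fun m : ℝ => ENNReal.ofReal (meanAbs (dirv 0) / m) *
      perimeter (closedBall (0 : EuclideanSpace ℝ (Fin 2)) ρ)) (𝓝[<] s)
      (𝓝 (ENNReal.ofReal ((2 * k - 1) / (2 * k - 2)) *
        perimeter (closedBall (0 : EuclideanSpace ℝ (Fin 2)) ρ))) := by
    refine ENNReal.Tendsto.mul_const ?_ (Or.inr hPB)
    have h1 : Tendsto (fun m : ℝ => meanAbs (dirv 0) / m) (𝓝[<] s) (𝓝 (meanAbs (dirv 0) / s)) :=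
      (tendsto_const_nhds.div tendsto_id hs0.ne').mono_left nhdsWithin_le_nhds
    have h2 : meanAbs (dirv 0) / s = (2 * k - 1) / (2 * k - 2) := by
      rw [meanAbs_plane he, hs]
      have h3 : (2 * (k : ℝ) - 2) ≠ 0 := by linarith
      have h4 : (2 * (k : ℝ) - 1) ≠ 0 := by linarith
      field_simp
    rw [h2] at h1
    exact ENNReal.tendsto_ofReal h1
  refine ge_of_tendsto hlim ?_
  have h3 : ∀ᶠ m in 𝓝[<] s, 0 < m := nhdsWithin_le_nhds (lt_mem_nhds hs0)
  filter_upwards [h3, self_mem_nhdsWithin] with m hm0 hm1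
  exact limsup_perimeter_le (fun j => norm_dirv (θ j)) hE hP hρ hH he hm0 (fun N =>
    (plane_good (by omega : 1 ≤ k) h hm1 N).frequently)

/-- PROOF. `plane_bound` for all `k` (`(2k-1)/(2k-2) → 1`) or `tendsto_perimeter` with
`plane_good` for large `k`; lower bound `perimeter_liminf` (with `iter_facts`). -/
theorem plane_tendsto {E : Set (EuclideanSpace ℝ (Fin 2))} (hE : IsCompact E)
    (hP : perimeter E ≠ ⊤) {θ : ℕ → ℝ} {ρ : ℝ} (hρ : 0 < ρ)
    (hv : volume (closedBall (0 : EuclideanSpace ℝ (Fin 2)) ρ) = volume E)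
    (hH : Tendsto (fun i => hausdorffEDist (iter (fun j => dirv (θ j)) E i)
      (closedBall (0 : EuclideanSpace ℝ (Fin 2)) ρ)) atTop (𝓝 0))
    (h : ∀ m : ℕ, 1 ≤ m →
      ¬ Summable (fun j => Real.sin (2 * m * (θ (j + 1) - θ j)) ^ 2)) :
    Tendsto (fun i => perimeter (iter (fun j => dirv (θ j)) E i)) atTop
      (𝓝 (perimeter (closedBall (0 : EuclideanSpace ℝ (Fin 2)) ρ))) := by
  have he : ‖dirv 0‖ = 1 := norm_dirv 0
  have hpi := Real.pi_pos
  refine tendsto_perimeter (fun j => norm_dirv (θ j)) hE hP hρ hv hH he ?_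
  intro m hm N
  rw [meanAbs_plane he] at hm
  have hlim : Tendsto (fun k : ℕ => 2 / Real.pi * ((2 * (k : ℝ) - 2) / (2 * k - 1))) atTop
      (𝓝 (2 / Real.pi * 1)) := by
    refine Tendsto.const_mul _ ?_
    have h1 : Tendsto (fun k : ℕ => 1 - 1 / (2 * (k : ℝ) - 1)) atTop (𝓝 (1 - 0)) := by
      refine tendsto_const_nhds.sub ?_
      have h2 : Tendsto (fun k : ℕ => 2 * (k : ℝ) - 1) atTop atTop := by
        refine tendsto_atTop_add_const_right _ _ ?_
        exact tendsto_natCast_atTop_atTop.const_mul_atTop two_pos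
      refine h2.inv_tendsto_atTop.congr fun k => ?_
      rw [one_div]
      rfl
    rw [sub_zero] at h1
    refine h1.congr' ?_
    filter_upwards [eventually_ge_atTop 1] with k hk
    have hk' : (1 : ℝ) ≤ k := by exact_mod_cast hk
    have h4 : (2 * (k : ℝ) - 1) ≠ 0 := by linarith
    field_simp
    ring
  rw [mul_one] at hlim
  obtain ⟨k, hk1, hk2⟩ := ((hlim.eventually (lt_mem_nhds hm)).and (eventually_ge_atTop 1)).exists
  exact (plane_good hk2 (fun j hj _ => h j hj) hk1 N).frequently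

end Pool.Agent.H89G
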