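import Pool.Agent.Lib.H89G.Defs

/-! H89G, definitions for random directions (no sorry). -/

open MeasureTheory Set Metric Filter Topology
open scoped ENNReal

namespace Pool.Agent.H89G

open Pool.Agent.H81St

variable {V : Type*} [NormedAddCommGroup V] [InnerProductSpace ℝ V] [FiniteDimensional ℝ V]
  [MeasurableSpace V] [BorelSpace V]
/-- Positively homogeneous Lipschitz functions of mean zero. -/
structure Cls (L : ℝ) (f : V → ℝ) : Prop where
  lip : ∀ v w, |f v - f w| ≤ L * ‖v - w‖
  hom : ∀ (t : ℝ) (v : V), 0 ≤ t → f (t • v) = t * f v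
  mean : ∫ v in ball (0 : V) 1, f v = 0

/-- A probability law of unit vectors which charges every ball centred on the unit sphere. -/
structure Law (ν : Measure V) : Prop where
  prob : IsProbabilityMeasure ν
  unit : ∀ᵐ x ∂ν, ‖x‖ = 1
  full : ∀ x : V, ‖x‖ = 1 → ∀ r > 0, 0 < ν (ball x r)

/-- The squared distance of `f` from its reflection. -/
noncomputable def dfc (f : V → ℝ) (u : V) : ℝ :=
  ∫ v in ball (0 : V) 1, (f v - f (refl u v)) ^ 2

end Pool.Agent.H89G
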