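import Pool.Agent.Lib.H89G.K0

/-! H89G, chunk K1 (M): compactness of the class `Cls L`. -/

open MeasureTheory Set Metric Filter Topology
open scoped ENNReal

namespace Pool.Agent.H89G

open Pool.Agent.H81St

variable {V : Type*} [NormedAddCommGroup V] [InnerProductSpace ℝ V] [FiniteDimensional ℝ V]
  [MeasurableSpace V] [BorelSpace V]

theorem k1_cont {L : ℝ} {f : V → ℝ} (h : ∀ v w, |f v - f w| ≤ L * ‖v - w‖) : Continuous f := by
  refine (LipschitzWith.of_dist_le_mul (K := Real.toNNReal L) fun x y => ?_).continuous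
  rw [Real.dist_eq, dist_eq_norm]
  refine (h x y).trans (mul_le_mul_of_nonneg_right ?_ (norm_nonneg _))
  exact Real.le_coe_toNNReal L

theorem k1_zero {L : ℝ} {f : V → ℝ} (hf : Cls L f) : f 0 = 0 := by
  have := hf.hom 0 0 le_rfl
  simpa using this

theorem k1_bound {L : ℝ} {f : V → ℝ} (hf : Cls L f) (v : V) : |f v| ≤ |L| * ‖v‖ := by
  have h := hf.lip v 0
  rw [k1_zero hf, sub_zero, sub_zero] at h
  exact h.trans (mul_le_mul_of_nonneg_right (le_abs_self L) (norm_nonneg _))

/-- PROOF. `f 0 = 0` (homogeneity with `t = 0`), so `|f v| ≤ L ‖v‖`. The restrictions of the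
`f n` to the compact ball `closedBall 0 1` are equi-Lipschitz and bounded, so by Arzelà–Ascoli
(`BoundedContinuousFunction.arzela_ascoli` or `ContinuousMap` version; the space
`C(closedBall 0 1, ℝ)` is metric, so compact sets are sequentially compact) a subsequence
converges uniformly on `closedBall 0 1` to a function `f₀`. For `v ≠ 0` put
`f v = ‖v‖ f₀(v/‖v‖)`, `f 0 = 0`: it is the pointwise limit of `f (φ n) v` (homogeneity), so the
Lipschitz estimate and the homogeneity pass to the limit, `f = f₀` on the closed ball, and the mean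
is `0` by uniform convergence. -/
theorem cls_compact {L : ℝ} (f : ℕ → V → ℝ) (hf : ∀ n, Cls L (f n)) :
    ∃ (φ : ℕ → ℕ) (g : V → ℝ), StrictMono φ ∧ Cls L g ∧
      TendstoUniformlyOn (fun n => f (φ n)) g atTop (closedBall (0 : V) 1) := by
  have hcont : ∀ n, Continuous (f n) := fun n => k1_cont (hf n).lip
  have : CompactSpace (closedBall (0 : V) 1) := isCompact_iff_compactSpace.1 (isCompact_closedBall 0 1)
  set F : ℕ → BoundedContinuousFunction (closedBall (0 : V) 1) ℝ := fun n =>
    BoundedContinuousFunction.mkOfCompact ⟨fun x => f n x, (hcont n).comp continuous_subtype_val⟩ with hF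
  have hFa : ∀ n x, F n x = f n x := fun n x => rfl
  have hco : IsCompact (closure (range F)) := by
    refine BoundedContinuousFunction.arzela_ascoli (Icc (-|L|) |L|) isCompact_Icc _ ?_ ?_
    · rintro g x ⟨n, rfl⟩
      have h1 := k1_bound (hf n) x
      have h2 : ‖(x : V)‖ ≤ 1 := mem_closedBall_zero_iff.1 x.2
      have h3 : |f n x| ≤ |L| := h1.trans (mul_le_of_le_one_right (abs_nonneg L) h2)
      exact abs_le.1 h3
    · refine Metric.equicontinuous_of_continuity_modulus (fun t => |L| * t) ?_ _ ?_
      · have : Tendsto (fun t : ℝ => |L| * t) (𝓝 0) (𝓝 (|L| * 0)) := tendsto_const_nhds.mul tendsto_id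
        simpa using this
      · rintro x y ⟨g, n, rfl⟩
        rw [Real.dist_eq]
        refine ((hf n).lip x y).trans ?_
        rw [Subtype.dist_eq, dist_eq_norm]
        exact mul_le_mul_of_nonneg_right (le_abs_self L) (norm_nonneg _)
  obtain ⟨G, _, φ, hφ, hG⟩ := hco.tendsto_subseq (fun n => subset_closure (mem_range_self (f := F) n))
  have hun : TendstoUniformly (fun n => (F (φ n) : closedBall (0 : V) 1 → ℝ)) G atTop :=
    BoundedContinuousFunction.tendsto_iff_tendstoUniformly.1 hG
  have hmem : ∀ v : V, (‖v‖ + 1)⁻¹ • v ∈ closedBall (0 : V) 1 := by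
    intro v
    rw [mem_closedBall_zero_iff, norm_smul, norm_inv, Real.norm_of_nonneg (by positivity)]
    rw [inv_mul_le_iff₀ (by positivity)]
    linarith
  have hpt : ∀ x : closedBall (0 : V) 1, Tendsto (fun n => f (φ n) x) atTop (𝓝 (G x)) :=
    fun x => hun.tendsto_at x
  set g : V → ℝ := fun v => (‖v‖ + 1) * G ⟨(‖v‖ + 1)⁻¹ • v, hmem v⟩ with hg
  have hlim : ∀ v, Tendsto (fun n => f (φ n) v) atTop (𝓝 (g v)) := by
    intro v
    have h1 := (hpt ⟨(‖v‖ + 1)⁻¹ • v, hmem v⟩).const_mul (‖v‖ + 1)
    refine h1.congr fun n => ?_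
    have h2 := (hf (φ n)).hom (‖v‖ + 1) ((‖v‖ + 1)⁻¹ • v) (by positivity)
    rw [← h2, smul_smul, mul_inv_cancel₀ (by positivity), one_smul]
  have hgG : ∀ x : closedBall (0 : V) 1, g x = G x := fun x => tendsto_nhds_unique (hlim x) (hpt x)
  refine ⟨φ, g, hφ, ⟨?_, ?_, ?_⟩, ?_⟩
  · intro v w
    have h1 : Tendsto (fun n => |f (φ n) v - f (φ n) w|) atTop (𝓝 |g v - g w|) := ((hlim v).sub (hlim w)).abs
    exact le_of_tendsto' h1 fun n => (hf (φ n)).lip v w
  · intro t v ht
    refine tendsto_nhds_unique (hlim (t • v)) ?_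
    have h1 := (hlim v).const_mul t
    refine h1.congr fun n => ?_
    rw [(hf (φ n)).hom t v ht]
  · have h1 : Tendsto (fun n => ∫ v in ball (0 : V) 1, f (φ n) v) atTop (𝓝 (∫ v in ball (0 : V) 1, g v)) := by
      refine tendsto_integral_of_dominated_convergence (fun _ => |L|) ?_ ?_ ?_ ?_
      · intro n
        exact (hcont (φ n)).aestronglyMeasurable
      · exact integrableOn_const measure_ball_lt_top.ne
      · intro n
        filter_upwards [ae_restrict_mem measurableSet_ball] with v hv
        rw [mem_ball_zero_iff] at hv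
        rw [Real.norm_eq_abs]
        exact (k1_bound (hf (φ n)) v).trans (mul_le_of_le_one_right (abs_nonneg L) hv.le)
      · exact Filter.Eventually.of_forall fun v => hlim v
    have h2 : (fun n => ∫ v in ball (0 : V) 1, f (φ n) v) = fun _ => 0 := by
      ext n
      exact (hf (φ n)).mean
    rw [h2] at h1
    exact (tendsto_nhds_unique h1 tendsto_const_nhds)
  · rw [tendstoUniformlyOn_iff_tendstoUniformly_comp_coe]
    have h1 : (g ∘ (Subtype.val : closedBall (0 : V) 1 → V)) = G := by
      ext x
      exact hgG x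
    rw [h1]
    exact hun

end Pool.Agent.H89G
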