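import Pool.Agent.Lib.H89G.K0
import Pool.Agent.Lib.H89G.H1

/-! H89G, chunk K2 (M): a function of mean zero which is invariant under almost all reflections
is zero. Uses H1. -/

open MeasureTheory Set Metric Filter Topology
open scoped ENNReal

namespace Pool.Agent.H89G

open Pool.Agent.H81St

variable {V : Type*} [NormedAddCommGroup V] [InnerProductSpace ℝ V] [FiniteDimensional ℝ V]
  [MeasurableSpace V] [BorelSpace V]

theorem k2_cont {L : ℝ} {f : V → ℝ} (h : ∀ v w, |f v - f w| ≤ L * ‖v - w‖) : Continuous f := by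
  refine (LipschitzWith.of_dist_le_mul (K := Real.toNNReal L) fun x y => ?_).continuous
  rw [Real.dist_eq, dist_eq_norm]
  refine (h x y).trans (mul_le_mul_of_nonneg_right ?_ (norm_nonneg _))
  exact Real.le_coe_toNNReal L

theorem k2_int {g : V → ℝ} (hg : Continuous g) : IntegrableOn g (ball (0 : V) 1) volume :=
  (hg.continuousOn.integrableOn_compact (isCompact_closedBall 0 1)).mono_set ball_subset_closedBall

/-- A nonnegative continuous function with integral zero vanishes on the ball. -/
theorem k2_zero {g : V → ℝ} (hg : Continuous g) (h0 : ∀ v, 0 ≤ g v) (h : ∫ v in ball (0 : V) 1, g v = 0) (v : V)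
    (hv : v ∈ ball (0 : V) 1) : g v = 0 := by
  have h1 : g =ᵐ[volume.restrict (ball (0 : V) 1)] 0 :=
    (integral_eq_zero_iff_of_nonneg (fun v => h0 v) (k2_int hg)).1 h
  exact Measure.eqOn_open_of_ae_eq h1 isOpen_ball hg.continuousOn continuousOn_const hv

theorem k2_inv {L : ℝ} {f : V → ℝ} (hf : Cls L f) {u : V} (h : dfc f u = 0) (v : V) : f v = f (refl u v) := by
  have hc := k2_cont hf.lip
  have hr : Continuous (fun v => refl u v) :=
    continuous_refl.comp (Continuous.prodMk continuous_const continuous_id)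
  have h1 : ∀ w ∈ ball (0 : V) 1, f w = f (refl u w) := by
    intro w hw
    have h2 := k2_zero ((hc.sub (hc.comp hr)).pow 2) (fun v => sq_nonneg _) h w hw
    have h3 : f w - f (refl u w) = 0 := by
      exact pow_eq_zero_iff (two_ne_zero) |>.1 h2
    linarith
  have h2 : (‖v‖ + 1)⁻¹ • v ∈ ball (0 : V) 1 := by
    rw [mem_ball_zero_iff, norm_smul, norm_inv, Real.norm_of_nonneg (by positivity)]
    rw [inv_mul_lt_iff₀ (by positivity)]
    linarith
  have h3 := h1 _ h2
  rw [refl_smul, hf.hom _ _ (by positivity), hf.hom _ _ (by positivity)] at h3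
  exact mul_left_cancel₀ (by positivity) h3

theorem k2_swap {v w : V} (hv : ‖v‖ = 1) (hw : ‖w‖ = 1) (h : v ≠ w) :
    refl (‖v - w‖⁻¹ • (v - w)) v = w := by
  have h0 : ‖v - w‖ ≠ 0 := norm_ne_zero_iff.2 (sub_ne_zero.2 h)
  unfold refl
  rw [smul_smul, real_inner_smul_right, inner_sub_right, real_inner_self_eq_norm_sq, hv]
  have h1 : ‖v - w‖ ^ 2 = 2 - 2 * inner ℝ v w := by
    rw [norm_sub_sq_real, hv, hw]
    ring
  have h2 : 2 * (‖v - w‖⁻¹ * (1 ^ 2 - inner ℝ v w)) * ‖v - w‖⁻¹ = 1 := by
    field_simp
    linarith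
  rw [h2, one_smul]
  abel

/-- PROOF. `f` is continuous. For almost every `u` (law `ν`), `dfc f u = 0` (the integrand is
nonnegative), so `f v = f (refl u v)` for almost every, hence by continuity for every `v` in the
open unit ball, hence for every `v` (homogeneity; `refl` is linear, `refl_smul`). The set `S` of
the `u` with this property is closed (`continuous_refl`) and `ν Sᶜ = 0`. Every unit vector `u`
lies in `S`: otherwise a ball around `u` is disjoint from `S` and has measure `0`, against
`Law.full`. Let `v, w` be different unit vectors and `u = (v - w)/‖v - w‖`: `refl u v = w`, because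
`2 ⟨v, v - w⟩ = ‖v - w‖²`. So `f v = f w`: `f = κ ‖·‖` for a constant `κ` (homogeneity). The mean
is `κ ∫ ‖v‖ = 0`. If `κ ≠ 0` then `∫ v in ball 0 1, ‖v‖ = 0`, so `‖v‖ = 0` for all `v` in the ball
and `V` is trivial, `f v = f 0 = 0`. In all cases `f = 0`. -/
theorem eq_zero_of_dfc {ν : Measure V} (hν : Law ν) {L : ℝ} {f : V → ℝ} (hf : Cls L f)
    (h : ∀ᵐ u ∂ν, dfc f u = 0) : ∀ v, f v = 0 := by
  have hc := k2_cont hf.lip
  have hz : f 0 = 0 := by
    have := hf.hom 0 0 le_rfl
    simpa using this
  set S : Set V := {u | ∀ v, f v = f (refl u v)} with hS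
  have hScl : IsClosed S := by
    have h1 : S = ⋂ v, {u | f v = f (refl u v)} := by
      ext u
      simp [hS]
    rw [h1]
    refine isClosed_iInter fun v => isClosed_eq continuous_const ?_
    have hr : Continuous (fun u => refl u v) :=
      continuous_refl.comp (Continuous.prodMk continuous_id continuous_const)
    exact hc.comp hr
  have hSae : ∀ᵐ u ∂ν, u ∈ S := by
    filter_upwards [h] with u hu
    exact fun v => k2_inv hf hu v
  have hSu : ∀ u : V, ‖u‖ = 1 → u ∈ S := by
    intro u hu
    rw [← hScl.closure_eq, Metric.mem_closure_iff]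
    intro ε hε
    have h1 := hν.full u hu ε hε
    by_contra hcon
    push Not at hcon
    have h2 : ν (ball u ε) = 0 := by
      refine measure_mono_null ?_ (ae_iff.1 hSae)
      intro x hx hxS
      have := hcon x hxS
      rw [mem_ball, dist_comm] at hx
      exact absurd hx (not_lt.2 this)
    exact h1.ne' h2
  have huni : ∀ v w : V, ‖v‖ = 1 → ‖w‖ = 1 → f v = f w := by
    intro v w hv hw
    by_cases hvw : v = w
    · rw [hvw]
    · have h1 := hSu (‖v - w‖⁻¹ • (v - w)) (by
        rw [norm_smul, norm_inv, norm_norm]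
        exact inv_mul_cancel₀ (norm_ne_zero_iff.2 (sub_ne_zero.2 hvw))) v
      rwa [k2_swap hv hw hvw] at h1
  intro v
  rcases subsingleton_or_nontrivial V with hV | hV
  · rw [Subsingleton.elim v 0, hz]
  · obtain ⟨e, he⟩ := exists_norm_eq V (zero_le_one' ℝ)
    have hk : ∀ w : V, f w = f e * ‖w‖ := by
      intro w
      by_cases hw : w = 0
      · rw [hw, hz, norm_zero, mul_zero]
      · have h0 : ‖w‖ ≠ 0 := norm_ne_zero_iff.2 hw
        have h1 := hf.hom ‖w‖ (‖w‖⁻¹ • w) (norm_nonneg _)
        rw [smul_smul, mul_inv_cancel₀ h0, one_smul] at h1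
        rw [h1, huni (‖w‖⁻¹ • w) e (by rw [norm_smul, norm_inv, norm_norm, inv_mul_cancel₀ h0]) he]
        ring
    have hm := hf.mean
    have hm' : ∫ v in ball (0 : V) 1, f v = ∫ v in ball (0 : V) 1, f e * ‖v‖ :=
      integral_congr_ae (Filter.Eventually.of_forall fun w => hk w)
    rw [hm', integral_const_mul, mul_eq_zero] at hm
    rcases hm with hm | hm
    · rw [hk, hm, zero_mul]
    · exfalso
      have h2 := k2_zero continuous_norm (fun v => norm_nonneg v) hm ((1 / 2 : ℝ) • e) (by
        rw [mem_ball_zero_iff, norm_smul, he]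
        norm_num)
      rw [norm_smul, he] at h2
      norm_num at h2

end Pool.Agent.H89G
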