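import Pool.Agent.Lib.H89G.K1
import Pool.Agent.Lib.H89G.K2

/-! H89G, chunk K3 (M): the gap. Uses K1, K2. -/

open MeasureTheory Set Metric Filter Topology
open scoped ENNReal

namespace Pool.Agent.H89G

open Pool.Agent.H81St

variable {V : Type*} [NormedAddCommGroup V] [InnerProductSpace ℝ V] [FiniteDimensional ℝ V]
  [MeasurableSpace V] [BorelSpace V]

theorem k3_meas {f : V → ℝ} (hc : Continuous f) : StronglyMeasurable (fun u => dfc f u) := by
  have h2 : Continuous (fun q : V × V => refl q.1 q.2) := continuous_refl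
  have h5 : Continuous (fun q : V × V => (f q.2 - f (refl q.1 q.2)) ^ 2) :=
    ((hc.comp continuous_snd).sub (hc.comp h2)).pow 2
  exact StronglyMeasurable.integral_prod_right (f := fun (u : V) (v : V) => (f v - f (refl u v)) ^ 2)
    h5.stronglyMeasurable

theorem k3_sq {L : ℝ} {f : V → ℝ} (hf : Cls L f) {u : V} (hu : ‖u‖ = 1) {v : V} (hv : v ∈ ball (0 : V) 1) :
    (f v - f (refl u v)) ^ 2 ≤ 4 * L ^ 2 := by
  have hz : f 0 = 0 := by
    have := hf.hom 0 0 le_rfl
    simpa using this
  have hb : ∀ w : V, ‖w‖ ≤ 1 → |f w| ≤ |L| := by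
    intro w hw
    have h := hf.lip w 0
    rw [hz, sub_zero, sub_zero] at h
    refine h.trans ?_
    calc L * ‖w‖ ≤ |L| * ‖w‖ := mul_le_mul_of_nonneg_right (le_abs_self L) (norm_nonneg _)
      _ ≤ |L| := mul_le_of_le_one_right (abs_nonneg L) hw
  rw [mem_ball_zero_iff] at hv
  have h1 := hb v hv.le
  have h2 := hb (refl u v) (by rw [norm_refl hu]; exact hv.le)
  have h3 : |f v - f (refl u v)| ≤ 2 * |L| := by
    refine (abs_sub _ _).trans ?_
    linarith
  have h4 : |f v - f (refl u v)| ^ 2 ≤ (2 * |L|) ^ 2 := pow_le_pow_left₀ (abs_nonneg _) h3 2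
  rw [sq_abs, mul_pow, sq_abs] at h4
  linarith

/-- PROOF. Otherwise there are `f n ∈ Cls L` with `∫ (f n)² ≥ δ` and
`∫ u, dfc (f n) u ∂ν < 1/(n+1)`. By `cls_compact` a subsequence converges uniformly on the closed
unit ball to `g ∈ Cls L` (for `‖u‖ = 1` also `f n ∘ refl u` converges uniformly to `g ∘ refl u`,
`norm_refl`). Hence `∫ g² ≥ δ > 0`, and `dfc (f (φ n)) u → dfc g u` for every unit `u`, bounded by
`4 L² * volume`, so `∫ dfc g u ∂ν = 0` (dominated convergence, or Fatou), `dfc g u = 0` for almost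
every `u`, and `g = 0` by `eq_zero_of_dfc`: contradiction. (Measurability of `u ↦ dfc f u`:
continuous for continuous `f`, by `continuous_refl` and dominated convergence; or use
`lintegral` of `ENNReal.ofReal (dfc f u)` with `measurable` from Fubini.) -/
theorem spectral_gap {ν : Measure V} (hν : Law ν) (L : ℝ) {δ : ℝ} (hδ : 0 < δ) :
    ∃ c > 0, ∀ f : V → ℝ, Cls L f → δ ≤ ∫ v in ball (0 : V) 1, f v ^ 2 →
      c ≤ ∫ u, dfc f u ∂ν := by
  haveI := hν.prob
  by_contra hcon
  push Not at hcon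
  have hch : ∀ n : ℕ, ∃ f : V → ℝ, Cls L f ∧ δ ≤ ∫ v in ball (0 : V) 1, f v ^ 2 ∧
      ∫ u, dfc f u ∂ν < 1 / ((n : ℝ) + 1) := by
    intro n
    obtain ⟨f, h1, h2, h3⟩ := hcon (1 / ((n : ℝ) + 1)) (by positivity)
    exact ⟨f, h1, h2, h3⟩
  choose f hf hfd hfi using hch
  obtain ⟨φ, g, hφ, hg, hun⟩ := cls_compact f hf
  have hpt : ∀ v ∈ closedBall (0 : V) 1, Tendsto (fun n => f (φ n) v) atTop (𝓝 (g v)) :=
    fun v hv => hun.tendsto_at hv
  have hfc : ∀ n, Continuous (f n) := fun n => k2_cont (hf n).lip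
  have hgc : Continuous g := k2_cont hg.lip
  have hbd : ∀ n, ∀ v ∈ ball (0 : V) 1, f n v ^ 2 ≤ L ^ 2 := by
    intro n v hv
    have hz : f n 0 = 0 := by
      have := (hf n).hom 0 0 le_rfl
      simpa using this
    have h := (hf n).lip v 0
    rw [hz, sub_zero, sub_zero] at h
    rw [mem_ball_zero_iff] at hv
    have h2 : |f n v| ≤ |L| := h.trans ((mul_le_mul_of_nonneg_right (le_abs_self L) (norm_nonneg _)).trans
      (mul_le_of_le_one_right (abs_nonneg L) hv.le))
    exact sq_le_sq.2 h2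
  have h1 : Tendsto (fun n => ∫ v in ball (0 : V) 1, f (φ n) v ^ 2) atTop (𝓝 (∫ v in ball (0 : V) 1, g v ^ 2)) := by
    refine tendsto_integral_of_dominated_convergence (fun _ => L ^ 2) ?_ ?_ ?_ ?_
    · intro n
      exact ((hfc (φ n)).pow 2).aestronglyMeasurable
    · exact integrableOn_const measure_ball_lt_top.ne
    · intro n
      filter_upwards [ae_restrict_mem measurableSet_ball] with v hv
      rw [Real.norm_of_nonneg (sq_nonneg _)]
      exact hbd (φ n) v hv
    · filter_upwards [ae_restrict_mem measurableSet_ball] with v hv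
      exact (hpt v (ball_subset_closedBall hv)).pow 2
  have h2 : δ ≤ ∫ v in ball (0 : V) 1, g v ^ 2 := ge_of_tendsto' h1 fun n => hfd (φ n)
  have h3 : ∀ u : V, ‖u‖ = 1 → Tendsto (fun n => dfc (f (φ n)) u) atTop (𝓝 (dfc g u)) := by
    intro u hu
    refine tendsto_integral_of_dominated_convergence (fun _ => 4 * L ^ 2) ?_ ?_ ?_ ?_
    · intro n
      have hr : Continuous (fun v => refl u v) :=
        continuous_refl.comp (Continuous.prodMk continuous_const continuous_id)
      exact (((hfc (φ n)).sub ((hfc (φ n)).comp hr)).pow 2).aestronglyMeasurable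
    · exact integrableOn_const measure_ball_lt_top.ne
    · intro n
      filter_upwards [ae_restrict_mem measurableSet_ball] with v hv
      rw [Real.norm_of_nonneg (sq_nonneg _)]
      exact k3_sq (hf (φ n)) hu hv
    · filter_upwards [ae_restrict_mem measurableSet_ball] with v hv
      have hv2 : refl u v ∈ closedBall (0 : V) 1 := by
        rw [mem_closedBall_zero_iff, norm_refl hu]
        exact (mem_ball_zero_iff.1 hv).le
      exact ((hpt v (ball_subset_closedBall hv)).sub (hpt _ hv2)).pow 2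
  have hnn : ∀ (h : V → ℝ) (x : V), 0 ≤ dfc h x := fun h x => integral_nonneg fun v => sq_nonneg _
  have hub : ∀ (h : V → ℝ), Cls L h → ∀ u : V, ‖u‖ = 1 →
      ‖dfc h u‖ ≤ 4 * L ^ 2 * volume.real (ball (0 : V) 1) := by
    intro h hh u hu
    refine norm_setIntegral_le_of_norm_le_const measure_ball_lt_top fun v hv => ?_
    rw [Real.norm_of_nonneg (sq_nonneg _)]
    exact k3_sq hh hu hv
  have h4 : Tendsto (fun n => ∫ u, dfc (f (φ n)) u ∂ν) atTop (𝓝 (∫ u, dfc g u ∂ν)) := by
    refine tendsto_integral_of_dominated_convergence (fun _ => 4 * L ^ 2 * volume.real (ball (0 : V) 1)) ?_ ?_ ?_ ?_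
    · intro n
      exact (k3_meas (hfc (φ n))).aestronglyMeasurable
    · exact integrable_const _
    · intro n
      filter_upwards [hν.unit] with u hu
      exact hub _ (hf (φ n)) u hu
    · filter_upwards [hν.unit] with u hu
      exact h3 u hu
  have h5 : Tendsto (fun n => 1 / ((φ n : ℝ) + 1)) atTop (𝓝 0) :=
    (tendsto_one_div_add_atTop_nhds_zero_nat (𝕜 := ℝ)).comp hφ.tendsto_atTop
  have h6 : ∫ u, dfc g u ∂ν ≤ 0 := le_of_tendsto_of_tendsto' h4 h5 fun n => (hfi (φ n)).le
  have h7 : ∫ u, dfc g u ∂ν = 0 := le_antisymm h6 (integral_nonneg fun u => hnn g u)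
  have h8 : Integrable (fun u => dfc g u) ν := by
    refine Integrable.mono' (integrable_const (4 * L ^ 2 * volume.real (ball (0 : V) 1)))
      (k3_meas hgc).aestronglyMeasurable ?_
    filter_upwards [hν.unit] with u hu
    exact hub _ hg u hu
  have h9 : (fun u => dfc g u) =ᵐ[ν] 0 := (integral_eq_zero_iff_of_nonneg (fun u => hnn g u) h8).1 h7
  have h10 := eq_zero_of_dfc hν hg h9
  simp [h10] at h2
  exact absurd h2 (not_le.2 hδ)

end Pool.Agent.H89G
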