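import Pool.Agent.Lib.H89G.K0
import Pool.Agent.Lib.H89G.H3

/-! H89G, chunk K4 (S/M): energy balance. Uses H1, H3. -/

open MeasureTheory Set Metric Filter Topology
open scoped ENNReal

namespace Pool.Agent.H89G

open Pool.Agent.H81St

variable {V : Type*} [NormedAddCommGroup V] [InnerProductSpace ℝ V] [FiniteDimensional ℝ V]
  [MeasurableSpace V] [BorelSpace V]
theorem k4_int {g : V → ℝ} (hg : Continuous g) : IntegrableOn g (ball (0 : V) 1) volume :=
  (hg.continuousOn.integrableOn_compact (isCompact_closedBall 0 1)).mono_set ball_subset_closedBall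

theorem k4_refl_cont (u : V) {f : V → ℝ} (hf : Continuous f) : Continuous (fun v => f (refl u v)) :=
  hf.comp (continuous_refl.comp (Continuous.prodMk continuous_const continuous_id))

theorem k4_cls_cont {L : ℝ} {f : V → ℝ} (h : ∀ v w, |f v - f w| ≤ L * ‖v - w‖) : Continuous f := by
  refine (LipschitzWith.of_dist_le_mul (K := Real.toNNReal L) fun x y => ?_).continuous
  rw [Real.dist_eq, dist_eq_norm]
  refine (h x y).trans (mul_le_mul_of_nonneg_right ?_ (norm_nonneg _))
  exact Real.le_coe_toNNReal L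

/-- PROOF. `((a + b)/2)² = (a² + b²)/2 - (a - b)²/4` with `a = f v`, `b = f (refl u v)`, and
`∫ f (refl u v)² = ∫ f v²` (`int_ball_refl`). All functions are continuous and bounded on the
ball. -/
theorem energy {u : V} (hu : ‖u‖ = 1) {f : V → ℝ} (hf : Continuous f) :
    ∫ v in ball (0 : V) 1, avg u f v ^ 2
      = (∫ v in ball (0 : V) 1, f v ^ 2) - dfc f u / 4 := by
  have h1 := int_ball_refl hu (fun v => f v ^ 2) 1
  have hfr := k4_refl_cont u hf
  have i1 : Integrable (fun v => f v ^ 2) (volume.restrict (ball (0 : V) 1)) := k4_int (hf.pow 2)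
  have i2 : Integrable (fun v => f (refl u v) ^ 2) (volume.restrict (ball (0 : V) 1)) := k4_int (hfr.pow 2)
  have i3 : Integrable (fun v => (f v - f (refl u v)) ^ 2) (volume.restrict (ball (0 : V) 1)) :=
    k4_int ((hf.sub hfr).pow 2)
  have h2 : ∀ v, avg u f v ^ 2 = (1 / 2) * (f v ^ 2 + f (refl u v) ^ 2) - (1 / 4) * (f v - f (refl u v)) ^ 2 := by
    intro v
    unfold avg
    ring
  unfold dfc
  simp_rw [h2]
  have i4 : Integrable (fun v => f v ^ 2 + f (refl u v) ^ 2) (volume.restrict (ball (0 : V) 1)) := i1.add i2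
  rw [integral_sub (i4.const_mul _) (i3.const_mul _), integral_const_mul, integral_const_mul,
    integral_add i1 i2]
  rw [h1]
  ring

/-- The iterated averages stay in `Cls L` (`avgs_lip`, `avgs_smul`, `avgs_integral`). -/
theorem cls_avgs {u : ℕ → V} (hu : ∀ i, ‖u i‖ = 1) {L : ℝ} {f : V → ℝ} (hf : Cls L f)
    (N i : ℕ) : Cls L (avgs u f N i) := by
  have hc := k4_cls_cont hf.lip
  exact ⟨avgs_lip hu hf.lip N i, fun t v ht => avgs_smul hf.hom N i t v ht,
    (avgs_integral hu hc N i 1).trans hf.mean⟩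

/-- Sum of `energy`: `∑_{i<n} dfc (avgs u f N i) (u (N+i)) = 4 (∫ f² - ∫ (avgs u f N n)²)`. -/
theorem sum_dfc_le {u : ℕ → V} (hu : ∀ i, ‖u i‖ = 1) {L : ℝ} {f : V → ℝ} (hf : Cls L f)
    (N n : ℕ) :
    ∑ i ∈ Finset.range n, dfc (avgs u f N i) (u (N + i))
      ≤ 4 * ∫ v in ball (0 : V) 1, f v ^ 2 := by
  have hc := k4_cls_cont hf.lip
  have h1 : ∑ i ∈ Finset.range n, dfc (avgs u f N i) (u (N + i))
      = 4 * ((∫ v in ball (0 : V) 1, f v ^ 2) - ∫ v in ball (0 : V) 1, avgs u f N n v ^ 2) := by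
    induction n with
    | zero => simp [avgs]
    | succ n ih =>
      rw [Finset.sum_range_succ, ih]
      have he := energy (hu (N + n)) (avgs_continuous (u := u) hc N n)
      have h3 : ∫ v in ball (0 : V) 1, avgs u f N (n + 1) v ^ 2
          = ∫ v in ball (0 : V) 1, avg (u (N + n)) (avgs u f N n) v ^ 2 := rfl
      rw [h3, he]
      ring
  have h2 : 0 ≤ ∫ v in ball (0 : V) 1, avgs u f N n v ^ 2 := integral_nonneg fun v => sq_nonneg _
  rw [h1]
  linarith

/-- The energy is nonincreasing: `∫ (avgs u f N (i+1))² ≤ ∫ (avgs u f N i)²`. -/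
theorem energy_antitone {u : ℕ → V} (hu : ∀ i, ‖u i‖ = 1) {f : V → ℝ} (hf : Continuous f)
    (N i : ℕ) :
    ∫ v in ball (0 : V) 1, avgs u f N (i + 1) v ^ 2
      ≤ ∫ v in ball (0 : V) 1, avgs u f N i v ^ 2 := by
  have he := energy (hu (N + i)) (avgs_continuous (u := u) hf N i)
  have h3 : ∫ v in ball (0 : V) 1, avgs u f N (i + 1) v ^ 2
      = ∫ v in ball (0 : V) 1, avg (u (N + i)) (avgs u f N i) v ^ 2 := rfl
  have h4 : 0 ≤ dfc (avgs u f N i) (u (N + i)) := integral_nonneg fun v => sq_nonneg _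
  rw [h3, he]
  linarith

end Pool.Agent.H89G
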