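import Pool.Agent.Lib.H89G.K0

/-! H89G, chunk K5 (M): resampling one coordinate of an infinite product. -/

open MeasureTheory Set Metric Filter Topology
open scoped ENNReal

namespace Pool.Agent.H89G

open Pool.Agent.H81St

variable {V : Type*} [NormedAddCommGroup V] [InnerProductSpace ℝ V] [FiniteDimensional ℝ V]
  [MeasurableSpace V] [BorelSpace V]
/-- PROOF. The image measure `μ` of `(Measure.infinitePi fun _ => ν).prod ν` under
`(ω, x) ↦ Function.update ω n x` is the product measure, by the uniqueness
`Measure.eq_infinitePi`: for a finite set `s` of indices and measurable sets `t i`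
the preimage of the box `{ω : ω i ∈ t i for i ∈ s}` is
`{ω : ω i ∈ t i for i ∈ s.erase n} ×ˢ (t n or univ)`, whose measure is `∏_{i ∈ s} ν (t i)`
(`Measure.infinitePi_pi`). -/
theorem measurePreserving_update {ν : Measure V} [IsProbabilityMeasure ν] (n : ℕ) :
    MeasurePreserving (fun p : (ℕ → V) × V => Function.update p.1 n p.2)
      ((Measure.infinitePi fun _ : ℕ => ν).prod ν) (Measure.infinitePi fun _ : ℕ => ν) := by
  have hm : Measurable (fun p : (ℕ → V) × V => Function.update p.1 n p.2) := by
    rw [measurable_pi_iff]
    intro i
    by_cases h : i = n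
    · subst h
      simp only [Function.update_self]
      exact measurable_snd
    · simp only [Function.update_of_ne h]
      exact (measurable_pi_apply i).comp measurable_fst
  refine ⟨hm, ?_⟩
  refine Measure.eq_infinitePi _ fun s t ht => ?_
  rw [Measure.map_apply hm (MeasurableSet.pi s.countable_toSet fun i _ => ht i)]
  have hpre : (fun p : (ℕ → V) × V => Function.update p.1 n p.2) ⁻¹' (Set.pi (s : Set ℕ) t)
      = (Set.pi ((s.erase n : Finset ℕ) : Set ℕ) t) ×ˢ (if n ∈ s then t n else univ) := by
    ext ⟨ω, x⟩
    simp only [mem_preimage, Set.mem_pi, Finset.mem_coe, mem_prod, Finset.mem_erase]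
    constructor
    · intro h
      refine ⟨fun i hi => ?_, ?_⟩
      · have := h i hi.2
        rwa [Function.update_of_ne hi.1] at this
      · split_ifs with hn
        · have := h n hn
          rwa [Function.update_self] at this
        · exact mem_univ _
    · rintro ⟨h1, h2⟩ i hi
      by_cases h : i = n
      · subst h
        rw [Function.update_self]
        rwa [if_pos hi] at h2
      · rw [Function.update_of_ne h]
        exact h1 i ⟨h, hi⟩
  rw [hpre, Measure.prod_prod, Measure.infinitePi_pi _ (fun i _ => ht i)]
  split_ifs with hn
  · rw [mul_comm]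
    exact Finset.mul_prod_erase s (fun i => ν (t i)) hn
  · rw [Finset.erase_eq_of_notMem hn, measure_univ, mul_one]

end Pool.Agent.H89G
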