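import Pool.Agent.Lib.H89G.K4
import Pool.Agent.Lib.H89G.K5

/-! H89G, chunk K6 (M/L): the expected dissipation. Uses K4, K5, H1, H3. -/

open MeasureTheory Set Metric Filter Topology
open scoped ENNReal

namespace Pool.Agent.H89G

open Pool.Agent.H81St

variable {V : Type*} [NormedAddCommGroup V] [InnerProductSpace ℝ V] [FiniteDimensional ℝ V]
  [MeasurableSpace V] [BorelSpace V]
/-- `avgs ω f N i` only depends on `ω N, …, ω (N + i - 1)`. Induction on `i`. -/
theorem avgs_update {ω : ℕ → V} {f : V → ℝ} (N i n : ℕ) (hn : N + i ≤ n) (x : V) (v : V) :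
    avgs (Function.update ω n x) f N i v = avgs ω f N i v := by
  induction i generalizing v with
  | zero => rfl
  | succ i ih =>
    have h1 : ∀ w, avgs (Function.update ω n x) f N i w = avgs ω f N i w := fun w => ih (by omega) w
    have h2 : Function.update ω n x (N + i) = ω (N + i) := by
      rw [Function.update_of_ne]
      omega
    change avg (Function.update ω n x (N + i)) (avgs (Function.update ω n x) f N i) v
      = avg (ω (N + i)) (avgs ω f N i) v
    unfold avg
    rw [h2, h1, h1]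

/-- `(ω, v) ↦ avgs ω f N i v` is continuous, hence measurable (`continuous_refl`; induction on
`i`). -/
theorem avgs_continuous_joint {f : V → ℝ} (hf : Continuous f) (N i : ℕ) :
    Continuous (fun p : (ℕ → V) × V => avgs p.1 f N i p.2) := by
  induction i with
  | zero => exact hf.comp continuous_snd
  | succ i ih =>
    have h1 : Continuous (fun p : (ℕ → V) × V => refl (p.1 (N + i)) p.2) := by
      have h2 : Continuous (fun p : (ℕ → V) × V => (p.1 (N + i), p.2)) :=
        ((continuous_apply (N + i)).comp continuous_fst).prodMk continuous_snd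
      exact continuous_refl.comp h2
    have h3 : Continuous (fun p : (ℕ → V) × V => (p.1, refl (p.1 (N + i)) p.2)) := continuous_fst.prodMk h1
    have h4 : Continuous (fun p : (ℕ → V) × V => avgs p.1 f N i (refl (p.1 (N + i)) p.2)) := ih.comp h3
    exact (ih.add h4).div_const 2

/-- PROOF. Write `P` for the product measure, `F ω i = avgs ω f N i`. The function
`(ω, x) ↦ dfc (F ω i) x` is measurable (parametric integral of a jointly continuous function:
`StronglyMeasurable.integral_prod_right`) and nonnegative; it does not change if `ω (N+i)` is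
changed (`avgs_update`). By `measurePreserving_update` with `n = N + i`
`∫⁻ ω, ofReal (dfc (F ω i) (ω (N+i))) ∂P = ∫⁻ ω, ∫⁻ x, ofReal (dfc (F ω i) x) ∂ν ∂P`.
Sum over `i < n`; by `sum_dfc_le` (for almost every `ω` all `ω j` are unit vectors: countably
many conditions, the coordinates have law `ν`, `measurePreserving_eval_infinitePi`) the left side
is at most `ofReal (4 ∫ f²) < ⊤`. Monotone convergence:
`∫⁻ ω, ∑' i, ∫⁻ x, ofReal (dfc (F ω i) x) ∂ν ∂P < ⊤`, so for almost every `ω` the series
`∑' i, ∫⁻ x, ofReal (dfc (F ω i) x) ∂ν` is finite and its terms tend to `0`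
(`ENNReal.tendsto_atTop_zero_of_tsum_ne_top`); for `ω` with unit coordinates each term is
`ofReal (∫ x, dfc (F ω i) x ∂ν)` (bounded integrand: `‖refl x v‖ = ‖v‖ ≤ 1` for unit `x`). -/
theorem ae_dissipation {ν : Measure V} [IsProbabilityMeasure ν] (hν : Law ν) {L : ℝ}
    {f : V → ℝ} (hf : Cls L f) (N : ℕ) :
    ∀ᵐ ω ∂(Measure.infinitePi fun _ : ℕ => ν),
      (∀ i, ‖ω i‖ = 1) ∧ Tendsto (fun i => ∫ x, dfc (avgs ω f N i) x ∂ν) atTop (𝓝 0) := by
  set P : Measure (ℕ → V) := Measure.infinitePi fun _ : ℕ => ν with hP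
  have hfc : Continuous f := k4_cls_cont hf.lip
  have hunit : ∀ᵐ ω ∂P, ∀ i, ‖ω i‖ = 1 := by
    rw [ae_all_iff]
    intro i
    exact (measurePreserving_eval_infinitePi (fun _ : ℕ => ν) i).quasiMeasurePreserving.ae hν.unit
  have hmeas : ∀ i, Measurable (fun p : (ℕ → V) × V => dfc (avgs p.1 f N i) p.2) := by
    intro i
    have hj := avgs_continuous_joint hfc N i
    have h1 : Continuous (fun q : ((ℕ → V) × V) × V => (q.1.1, q.2)) :=
      (continuous_fst.comp continuous_fst).prodMk continuous_snd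
    have h2 : Continuous (fun q : ((ℕ → V) × V) × V => refl q.1.2 q.2) := by
      have h3 : Continuous (fun q : ((ℕ → V) × V) × V => (q.1.2, q.2)) :=
        (continuous_snd.comp continuous_fst).prodMk continuous_snd
      exact continuous_refl.comp h3
    have h4 : Continuous (fun q : ((ℕ → V) × V) × V => (q.1.1, refl q.1.2 q.2)) :=
      (continuous_fst.comp continuous_fst).prodMk h2
    have h5 : Continuous (fun q : ((ℕ → V) × V) × V =>
        (avgs q.1.1 f N i q.2 - avgs q.1.1 f N i (refl q.1.2 q.2)) ^ 2) :=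
      ((hj.comp h1).sub (hj.comp h4)).pow 2
    have h6 : StronglyMeasurable (fun p : (ℕ → V) × V =>
        ∫ v, (avgs p.1 f N i v - avgs p.1 f N i (refl p.2 v)) ^ 2 ∂(volume.restrict (ball (0 : V) 1))) :=
      StronglyMeasurable.integral_prod_right (f := fun (p : (ℕ → V) × V) (v : V) =>
        (avgs p.1 f N i v - avgs p.1 f N i (refl p.2 v)) ^ 2) h5.stronglyMeasurable
    exact h6.measurable
  have hnn : ∀ (ω : ℕ → V) i (x : V), 0 ≤ dfc (avgs ω f N i) x := fun ω i x =>
    integral_nonneg fun v => sq_nonneg _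
  have hmo : ∀ i, Measurable (fun p : (ℕ → V) × V => ENNReal.ofReal (dfc (avgs p.1 f N i) p.2)) :=
    fun i => (hmeas i).ennreal_ofReal
  have hkey : ∀ i, ∫⁻ ω, ∫⁻ x, ENNReal.ofReal (dfc (avgs ω f N i) x) ∂ν ∂P
      = ∫⁻ ω, ENNReal.ofReal (dfc (avgs ω f N i) (ω (N + i))) ∂P := by
    intro i
    have hme : Measurable (fun ω : ℕ → V => ENNReal.ofReal (dfc (avgs ω f N i) (ω (N + i)))) :=
      (hmo i).comp (measurable_id.prodMk (measurable_pi_apply (N + i)))
    have h1 := (measurePreserving_update (ν := ν) (N + i)).lintegral_comp hme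
    rw [← hP] at h1
    rw [← h1, ← lintegral_prod _ (hmo i).aemeasurable]
    refine lintegral_congr fun p => ?_
    rw [Function.update_self]
    congr 2
    ext v
    exact (avgs_update N i (N + i) le_rfl p.2 v).symm
  have hsum : ∀ n : ℕ, ∑ i ∈ Finset.range n, ∫⁻ ω, ∫⁻ x, ENNReal.ofReal (dfc (avgs ω f N i) x) ∂ν ∂P
      ≤ ENNReal.ofReal (4 * ∫ v in ball (0 : V) 1, f v ^ 2) := by
    intro n
    rw [Finset.sum_congr rfl fun i _ => hkey i]
    rw [← lintegral_finsetSum']
    · calc ∫⁻ ω, ∑ i ∈ Finset.range n, ENNReal.ofReal (dfc (avgs ω f N i) (ω (N + i))) ∂P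
          ≤ ∫⁻ _ω, ENNReal.ofReal (4 * ∫ v in ball (0 : V) 1, f v ^ 2) ∂P := by
            refine lintegral_mono_ae ?_
            filter_upwards [hunit] with ω hω
            rw [← ENNReal.ofReal_sum_of_nonneg fun i _ => hnn ω i _]
            exact ENNReal.ofReal_le_ofReal (sum_dfc_le hω hf N n)
        _ = ENNReal.ofReal (4 * ∫ v in ball (0 : V) 1, f v ^ 2) := by
            rw [lintegral_const, measure_univ, mul_one]
    · intro i _
      exact ((hmo i).comp (measurable_id.prodMk (measurable_pi_apply (N + i)))).aemeasurable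
  have hmx : ∀ i, Measurable (fun ω : ℕ → V => ∫⁻ x, ENNReal.ofReal (dfc (avgs ω f N i) x) ∂ν) :=
    fun i => (hmo i).lintegral_prod_right
  have htot : ∫⁻ ω, ∑' i, ∫⁻ x, ENNReal.ofReal (dfc (avgs ω f N i) x) ∂ν ∂P ≠ ⊤ := by
    rw [lintegral_tsum fun i => (hmx i).aemeasurable]
    refine ne_top_of_le_ne_top
      (ENNReal.ofReal_ne_top : ENNReal.ofReal (4 * ∫ v in ball (0 : V) 1, f v ^ 2) ≠ ⊤) ?_
    exact ENNReal.tsum_le_of_sum_range_le hsum
  have hae : ∀ᵐ ω ∂P, ∑' i, ∫⁻ x, ENNReal.ofReal (dfc (avgs ω f N i) x) ∂ν < ⊤ :=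
    ae_lt_top (Measurable.ennreal_tsum hmx) htot
  filter_upwards [hunit, hae] with ω hω h1
  refine ⟨hω, ?_⟩
  have h2 := ENNReal.tendsto_atTop_zero_of_tsum_ne_top h1.ne
  have h3 : ∀ i, ∫ x, dfc (avgs ω f N i) x ∂ν = (∫⁻ x, ENNReal.ofReal (dfc (avgs ω f N i) x) ∂ν).toReal := by
    intro i
    refine integral_eq_lintegral_of_nonneg_ae (Filter.Eventually.of_forall fun x => hnn ω i x) ?_
    exact ((hmeas i).comp (measurable_const.prodMk measurable_id)).aestronglyMeasurable
  simp_rw [h3]
  have h4 := (ENNReal.tendsto_toReal (a := 0) (by simp)).comp h2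
  rw [ENNReal.toReal_zero] at h4
  exact h4

end Pool.Agent.H89G
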