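import Pool.Agent.Lib.H89G.K3
import Pool.Agent.Lib.H89G.K6
import Pool.Agent.Lib.H89G.H2

/-! H89G, chunk K7 (M): for almost every sequence the averages converge uniformly to the mean.
Uses K3, K4, K6. -/

open MeasureTheory Set Metric Filter Topology
open scoped ENNReal

namespace Pool.Agent.H89G

open Pool.Agent.H81St

variable {V : Type*} [NormedAddCommGroup V] [InnerProductSpace ℝ V] [FiniteDimensional ℝ V]
  [MeasurableSpace V] [BorelSpace V]

/-- Small energy gives uniform smallness. -/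
theorem k7_small (L : ℝ) {ε : ℝ} (hε : 0 < ε) : ∃ δ > 0, ∀ f : V → ℝ, Cls L f →
    ∫ v in ball (0 : V) 1, f v ^ 2 < δ → ∀ v, ‖v‖ = 1 → |f v| ≤ ε := by
  set r : ℝ := min (1 / 2) (ε / (8 * (|L| + 1))) with hr
  have hr0 : 0 < r := lt_min (by norm_num) (by positivity)
  have hr1 : r ≤ 1 / 2 := min_le_left _ _
  have hr2 : |L| * r ≤ ε / 8 := by
    have h1 : r ≤ ε / (8 * (|L| + 1)) := min_le_right _ _
    have h2 : |L| * r ≤ (|L| + 1) * (ε / (8 * (|L| + 1))) := by
      refine mul_le_mul (by linarith) h1 hr0.le (by positivity)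
    have h3 : (|L| + 1) * (ε / (8 * (|L| + 1))) = ε / 8 := by
      have : |L| + 1 ≠ 0 := by positivity
      field_simp
    rw [h3] at h2
    exact h2
  have hvol : 0 < volume.real (ball (0 : V) r) := by
    rw [Measure.real]
    exact ENNReal.toReal_pos (measure_ball_pos volume 0 hr0).ne' measure_ball_lt_top.ne
  refine ⟨(ε / 8) ^ 2 * volume.real (ball (0 : V) r), by positivity, fun f hf hint v hv => ?_⟩
  by_contra hcon
  rw [not_le] at hcon
  have hfc := k2_cont hf.lip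
  have h1 : f ((1 / 2 : ℝ) • v) = 1 / 2 * f v := hf.hom _ _ (by norm_num)
  have h2 : ε / 2 < |f ((1 / 2 : ℝ) • v)| := by
    rw [h1, abs_mul, abs_of_pos (by norm_num : (0 : ℝ) < 1 / 2)]
    linarith
  have h3 : ∀ w ∈ ball ((1 / 2 : ℝ) • v) r, (ε / 8) ^ 2 ≤ f w ^ 2 := by
    intro w hw
    have h4 : |f ((1 / 2 : ℝ) • v) - f w| ≤ ε / 8 := by
      refine (hf.lip _ _).trans ?_
      rw [mem_ball, dist_comm, dist_eq_norm] at hw
      calc L * ‖(1 / 2 : ℝ) • v - w‖ ≤ |L| * ‖(1 / 2 : ℝ) • v - w‖ :=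
            mul_le_mul_of_nonneg_right (le_abs_self L) (norm_nonneg _)
        _ ≤ |L| * r := mul_le_mul_of_nonneg_left hw.le (abs_nonneg L)
        _ ≤ ε / 8 := hr2
    have h5 : |f ((1 / 2 : ℝ) • v)| - |f w| ≤ |f ((1 / 2 : ℝ) • v) - f w| := abs_sub_abs_le_abs_sub _ _
    have h6 : ε / 8 ≤ |f w| := by linarith
    calc (ε / 8) ^ 2 ≤ |f w| ^ 2 := pow_le_pow_left₀ (by positivity) h6 2
      _ = f w ^ 2 := sq_abs _
  have hsub : ball ((1 / 2 : ℝ) • v) r ⊆ ball (0 : V) 1 := by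
    refine ball_subset_ball' ?_
    rw [dist_zero_right, norm_smul, hv]
    norm_num
    linarith
  have hint2 : IntegrableOn (fun v => f v ^ 2) (ball (0 : V) 1) volume := k2_int (hfc.pow 2)
  have h7 : ∫ v in ball ((1 / 2 : ℝ) • v) r, f v ^ 2 ≤ ∫ v in ball (0 : V) 1, f v ^ 2 :=
    setIntegral_mono_set hint2 (Filter.Eventually.of_forall fun v => sq_nonneg _) hsub.eventuallyLE
  have h8 : ∫ _v in ball ((1 / 2 : ℝ) • v) r, (ε / 8) ^ 2 ≤ ∫ v in ball ((1 / 2 : ℝ) • v) r, f v ^ 2 := by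
    refine setIntegral_mono_on (integrableOn_const measure_ball_lt_top.ne) (hint2.mono_set hsub)
      measurableSet_ball h3
  rw [setIntegral_const, smul_eq_mul] at h8
  have h9 : volume.real (ball ((1 / 2 : ℝ) • v) r) = volume.real (ball (0 : V) r) := by
    rw [Measure.real, Measure.real, Measure.addHaar_ball_center]
  rw [h9] at h8
  linarith [mul_comm (volume.real (ball (0 : V) r)) ((ε / 8) ^ 2)]

/-- PROOF. For almost every `ω` as in `ae_dissipation`: let `F i = avgs ω f N i ∈ Cls L`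
(`cls_avgs`) and `e i = ∫ F i ²`, nonincreasing (`energy_antitone`). If `e` does not tend to `0`
then `e i ≥ δ > 0` for all `i`, so `∫ dfc (F i) x ∂ν ≥ c > 0` for all `i` (`spectral_gap`), against
`ae_dissipation`. So `∫ v in ball 0 1, F i v ^ 2 → 0`. Uniform smallness on the unit sphere: if
`|F i v| > ε` for a unit vector `v`, then `|F i| ≥ ε/8` on a ball of radius `r = r(ε, L)` around
`v/2` contained in `ball 0 1` (`|F i (v/2)| > ε/2`, Lipschitz), so `∫ F i ² ≥ (ε/8)² |ball 0 r|`,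
false for large `i`. -/
theorem ae_uniform {ν : Measure V} [IsProbabilityMeasure ν] (hν : Law ν) {L : ℝ}
    {f : V → ℝ} (hf : Cls L f) (N : ℕ) :
    ∀ᵐ ω ∂(Measure.infinitePi fun _ : ℕ => ν), ∀ ε > 0, ∀ᶠ i in atTop,
      ∀ v, ‖v‖ = 1 → |avgs ω f N i v| ≤ ε := by
  filter_upwards [ae_dissipation hν hf N] with ω hω
  obtain ⟨hu, hd⟩ := hω
  intro ε hε
  obtain ⟨δ, hδ, hs⟩ := k7_small (V := V) L hε
  have hanti : Antitone (fun i => ∫ v in ball (0 : V) 1, avgs ω f N i v ^ 2) :=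
    antitone_nat_of_succ_le fun i => energy_antitone hu (k2_cont hf.lip) N i
  have hex : ∃ i, ∫ v in ball (0 : V) 1, avgs ω f N i v ^ 2 < δ := by
    by_contra hcon
    push Not at hcon
    obtain ⟨c, hc, hgap⟩ := spectral_gap hν L hδ
    have h1 : ∀ i, c ≤ ∫ x, dfc (avgs ω f N i) x ∂ν := fun i => hgap _ (cls_avgs hu hf N i) (hcon i)
    have h2 : c ≤ 0 := ge_of_tendsto' hd h1
    linarith
  obtain ⟨i0, hi0⟩ := hex
  filter_upwards [eventually_ge_atTop i0] with i hi
  exact hs _ (cls_avgs hu hf N i) ((hanti hi).trans_lt hi0)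

end Pool.Agent.H89G
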