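import Pool.Agent.Lib.H89G.K7
import Pool.Agent.Lib.H89G.E6

/-! H89G, chunk K8 (M): almost every sequence of directions is good. Uses K4, K6, K7, E6, H3. -/

open MeasureTheory Set Metric Filter Topology
open scoped ENNReal

namespace Pool.Agent.H89G

open Pool.Agent.H81St

variable {V : Type*} [NormedAddCommGroup V] [InnerProductSpace ℝ V] [FiniteDimensional ℝ V]
  [MeasurableSpace V] [BorelSpace V]

theorem k8_sub {u : ℕ → V} (hu : ∀ i, ‖u i‖ = 1) (g : V → ℝ) (c : ℝ) (N i : ℕ) (v : V) :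
    avgs u (fun v => g v - c * ‖v‖) N i v = avgs u g N i v - c * ‖v‖ := by
  induction i generalizing v with
  | zero => rfl
  | succ i ih =>
    change (avgs u (fun v => g v - c * ‖v‖) N i v + avgs u (fun v => g v - c * ‖v‖) N i (refl (u (N + i)) v)) / 2
      = (avgs u g N i v + avgs u g N i (refl (u (N + i)) v)) / 2 - c * ‖v‖
    rw [ih, ih, norm_refl (hu _)]
    ring

theorem k8_smul {u : ℕ → V} (g : V → ℝ) (c : ℝ) (N i : ℕ) (v : V) :
    avgs u (fun v => c * g v) N i v = c * avgs u g N i v := by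
  induction i generalizing v with
  | zero => rfl
  | succ i ih =>
    change (avgs u (fun v => c * g v) N i v + avgs u (fun v => c * g v) N i (refl (u (N + i)) v)) / 2
      = c * ((avgs u g N i v + avgs u g N i (refl (u (N + i)) v)) / 2)
    rw [ih, ih]
    ring

theorem k8_norm_pos {e : V} (he : ‖e‖ = 1) : 0 < ∫ v in ball (0 : V) 1, ‖v‖ := by
  rcases (integral_nonneg (fun v : V => norm_nonneg v) :
    0 ≤ ∫ v in ball (0 : V) 1, ‖v‖).eq_or_lt with h | h
  · exfalso
    have h2 := k2_zero continuous_norm (fun v => norm_nonneg v) h.symm ((1 / 2 : ℝ) • e) (by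
      rw [mem_ball_zero_iff, norm_smul, he]
      norm_num)
    rw [norm_smul, he] at h2
    norm_num at h2
  · exact h

theorem k8_inner_cont (w : V) : Continuous (fun v : V => |(inner ℝ w v : ℝ)|) :=
  (continuous_const.inner continuous_id).abs

theorem k8_mean_nonneg (e : V) : 0 ≤ meanAbs e :=
  div_nonneg (integral_nonneg fun v => abs_nonneg _) (integral_nonneg fun v => norm_nonneg _)

theorem k8_mean_le {e : V} (he : ‖e‖ = 1) : meanAbs e ≤ 1 := by
  unfold meanAbs
  rw [div_le_one (k8_norm_pos he)]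
  refine integral_mono (k2_int (k8_inner_cont e)) (k2_int continuous_norm) fun v => ?_
  have := abs_real_inner_le_norm e v
  rwa [he, one_mul] at this

theorem k8_cls {e : V} (he : ‖e‖ = 1) (w : V) :
    Cls ((1 + meanAbs e) * ‖w‖) (fun v => |(inner ℝ w v : ℝ)| - (meanAbs e * ‖w‖) * ‖v‖) := by
  have hm := k8_mean_nonneg e
  refine ⟨fun v v' => ?_, fun t v ht => ?_, ?_⟩
  · have h1 : |(|(inner ℝ w v : ℝ)| - |(inner ℝ w v' : ℝ)|)| ≤ ‖w‖ * ‖v - v'‖ := by
      refine (abs_abs_sub_abs_le_abs_sub _ _).trans ?_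
      rw [← inner_sub_right]
      exact abs_real_inner_le_norm _ _
    have h2 : |(meanAbs e * ‖w‖) * (‖v‖ - ‖v'‖)| ≤ (meanAbs e * ‖w‖) * ‖v - v'‖ := by
      rw [abs_mul, abs_of_nonneg (mul_nonneg hm (norm_nonneg w))]
      exact mul_le_mul_of_nonneg_left (abs_norm_sub_norm_le _ _) (mul_nonneg hm (norm_nonneg w))
    have h3 : (|(inner ℝ w v : ℝ)| - (meanAbs e * ‖w‖) * ‖v‖) - (|(inner ℝ w v' : ℝ)| - (meanAbs e * ‖w‖) * ‖v'‖)
        = (|(inner ℝ w v : ℝ)| - |(inner ℝ w v' : ℝ)|) - (meanAbs e * ‖w‖) * (‖v‖ - ‖v'‖) := by ring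
    rw [h3]
    refine (abs_sub _ _).trans ?_
    linarith [mul_comm (1 + meanAbs e) ‖w‖]
  · simp only [real_inner_smul_right, norm_smul, abs_mul, Real.norm_eq_abs, abs_of_nonneg ht]
    ring
  · have h1 : Integrable (fun v : V => |(inner ℝ w v : ℝ)|) (volume.restrict (ball (0 : V) 1)) :=
      k2_int (k8_inner_cont w)
    have h2 : Integrable (fun v : V => (meanAbs e * ‖w‖) * ‖v‖) (volume.restrict (ball (0 : V) 1)) :=
      k2_int (continuous_const.mul continuous_norm)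
    rw [integral_sub h1 h2, integral_const_mul, int_abs_inner he w]
    have h3 := (k8_norm_pos he).ne'
    unfold meanAbs
    field_simp
    ring

/-- PROOF. For `w ∈ V` let `f_w v = |⟨w, v⟩| - meanAbs e * ‖w‖ * ‖v‖`: it is in `Cls L` with
`L = (1 + |meanAbs e|) ‖w‖` (mean zero by `int_abs_inner` and the definition of `meanAbs`; the
integral of `‖v‖` over the ball is positive because `e` is a unit vector). Let `D` be a countable
dense subset of `V`. For almost every `ω`: all `ω i` are unit vectors and `ae_uniform` holds for all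
`f_w`, `w ∈ D`, and all `N`. Let `m < meanAbs e`, `N` given and `ε = (meanAbs e - m)/4`. The unit
sphere is compact: there is a finite subset `D' ⊆ D` such that every unit vector has distance at
most `min ε (1/2)` from some `w' ∈ D'`. For large `i`, `|avgs ω f_{w'} N i v| ≤ ε` for all `w' ∈ D'`
and unit `v`. Let `w` be a unit vector and `w' ∈ D'` close to it. As `||⟨w, v⟩| - |⟨w', v⟩|| ≤
‖w - w'‖ ‖v‖`, with `v = ω (N+i)` (`avgs_mono`, and `avgs ω (‖·‖) N i v = ‖v‖`):
`avgs ω (|⟨w, ·⟩|) N i v ≥ avgs ω (|⟨w', ·⟩|) N i v - ε ≥ meanAbs e ‖w'‖ - 2 ε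
≥ meanAbs e (1 - ε) - 2ε`. Since `0 ≤ meanAbs e ≤ 1` this is `≥ meanAbs e - 3 ε ≥ m`. For
`w = 0` both sides are `0`; for general `w ≠ 0` scale by `‖w‖`. -/
theorem ae_good {ν : Measure V} [IsProbabilityMeasure ν] (hν : Law ν) {e : V} (he : ‖e‖ = 1) :
    ∀ᵐ ω ∂(Measure.infinitePi fun _ : ℕ => ν), (∀ i, ‖ω i‖ = 1) ∧
      ∀ m < meanAbs e, ∀ N, ∃ᶠ i in atTop, ∀ w : V,
        m * ‖w‖ ≤ avgs ω (fun v => |inner ℝ w v|) N i (ω (N + i)) := by
  have hseq : ∀ᵐ ω ∂(Measure.infinitePi fun _ : ℕ => ν), ∀ k N : ℕ, ∀ ε > 0, ∀ᶠ i in atTop,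
      ∀ v, ‖v‖ = 1 → |avgs ω (fun v => |(inner ℝ (TopologicalSpace.denseSeq V k) v : ℝ)|
        - (meanAbs e * ‖TopologicalSpace.denseSeq V k‖) * ‖v‖) N i v| ≤ ε := by
    rw [ae_all_iff]
    intro k
    rw [ae_all_iff]
    intro N
    exact ae_uniform hν (k8_cls he _) N
  have hunit : ∀ᵐ ω ∂(Measure.infinitePi fun _ : ℕ => ν), ∀ i, ‖ω i‖ = 1 := by
    rw [ae_all_iff]
    intro i
    exact (measurePreserving_eval_infinitePi (fun _ : ℕ => ν) i).quasiMeasurePreserving.ae hν.unit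
  have hm0 := k8_mean_nonneg e
  have hm1 := k8_mean_le he
  filter_upwards [hseq, hunit] with ω hω hu
  refine ⟨hu, fun m hm N => ?_⟩
  refine Filter.Eventually.frequently ?_
  set ε : ℝ := (meanAbs e - m) / 4 with hε
  have hε0 : 0 < ε := by
    rw [hε]
    linarith
  obtain ⟨t, ht⟩ := (isCompact_sphere (0 : V) 1).elim_finite_subcover
    (fun k : ℕ => ball (TopologicalSpace.denseSeq V k) ε) (fun k => isOpen_ball) (by
      intro w _
      obtain ⟨k, hk⟩ := (TopologicalSpace.denseRange_denseSeq V).exists_dist_lt w hε0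
      exact mem_iUnion.2 ⟨k, hk⟩)
  have hev : ∀ᶠ i in atTop, ∀ k ∈ t, ∀ v, ‖v‖ = 1 → |avgs ω (fun v => |(inner ℝ (TopologicalSpace.denseSeq V k) v : ℝ)|
        - (meanAbs e * ‖TopologicalSpace.denseSeq V k‖) * ‖v‖) N i v| ≤ ε :=
    (Finset.eventually_all t).2 fun k _ => hω k N ε hε0
  filter_upwards [hev] with i hi
  have hunitw : ∀ w : V, ‖w‖ = 1 → m ≤ avgs ω (fun v => |(inner ℝ w v : ℝ)|) N i (ω (N + i)) := by
    intro w hw
    have hws : w ∈ sphere (0 : V) 1 := by simpa using hw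
    obtain ⟨k, hk, hwk⟩ := mem_iUnion₂.1 (ht hws)
    set w' := TopologicalSpace.denseSeq V k with hw'
    rw [mem_ball, dist_eq_norm] at hwk
    have h1 := hi k hk (ω (N + i)) (hu _)
    rw [k8_sub hu, hu] at h1
    have h2 := (abs_le.1 h1).1
    have h3 : avgs ω (fun v => |(inner ℝ w' v : ℝ)|) N i (ω (N + i))
        ≤ avgs ω (fun v => |(inner ℝ w v : ℝ)| - (-‖w - w'‖) * ‖v‖) N i (ω (N + i)) := by
      refine avgs_mono (fun v => ?_) N i _
      have h4 : |(inner ℝ w' v : ℝ)| - |(inner ℝ w v : ℝ)| ≤ ‖w - w'‖ * ‖v‖ := by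
        refine (abs_sub_abs_le_abs_sub _ _).trans ?_
        rw [← inner_sub_left, norm_sub_rev]
        exact abs_real_inner_le_norm _ _
      linarith
    rw [k8_sub hu, hu] at h3
    have h5 : ‖w‖ ≤ ‖w - w'‖ + ‖w'‖ := by
      have := norm_add_le (w - w') w'
      rwa [sub_add_cancel] at this
    rw [hw] at h5
    have h6 : meanAbs e * (1 - ‖w - w'‖) ≤ meanAbs e * ‖w'‖ := mul_le_mul_of_nonneg_left (by linarith) hm0
    have h7 : meanAbs e * ‖w - w'‖ ≤ ‖w - w'‖ := mul_le_of_le_one_left (norm_nonneg _) hm1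
    have h8 : m = meanAbs e - 4 * ε := by rw [hε]; ring
    rw [h8]
    linarith
  intro w
  by_cases hw : w = 0
  · rw [hw, norm_zero, mul_zero]
    exact avgs_nonneg (fun v => abs_nonneg _) N i _
  · have hn : 0 < ‖w‖ := norm_pos_iff.2 hw
    have h1 := hunitw (‖w‖⁻¹ • w) (by rw [norm_smul, norm_inv, norm_norm, inv_mul_cancel₀ hn.ne'])
    have h2 : (fun v : V => |(inner ℝ w v : ℝ)|) = fun v => ‖w‖ * |(inner ℝ (‖w‖⁻¹ • w) v : ℝ)| := by
      ext v
      rw [real_inner_smul_left, abs_mul, abs_inv, abs_norm]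
      field_simp
    rw [h2, k8_smul]
    rw [mul_comm]
    exact mul_le_mul_of_nonneg_left h1 hn.le

end Pool.Agent.H89G
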