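import Pool.Agent.Lib.H89G.K8
import Pool.Agent.Lib.H89G.I4

/-! H89G, chunk K9 (S): the theorem for almost every sequence of directions. Uses K8, I4. -/

open MeasureTheory Set Metric Filter Topology
open scoped ENNReal

namespace Pool.Agent.H89G

open Pool.Agent.H81St

variable {V : Type*} [NormedAddCommGroup V] [InnerProductSpace ℝ V] [FiniteDimensional ℝ V]
  [MeasurableSpace V] [BorelSpace V]
/-- PROOF. `ae_good` and `tendsto_perimeter`. -/
theorem ae_tendsto {ν : Measure V} [IsProbabilityMeasure ν] (hν : Law ν) {e : V}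
    (he : ‖e‖ = 1) :
    ∀ᵐ ω ∂(Measure.infinitePi fun _ : ℕ => ν), ∀ (E : Set V) (ρ : ℝ), IsCompact E →
      perimeter E ≠ ⊤ → 0 < ρ → volume (closedBall (0 : V) ρ) = volume E →
      Tendsto (fun i => hausdorffEDist (iter ω E i) (closedBall (0 : V) ρ)) atTop (𝓝 0) →
      Tendsto (fun i => perimeter (iter ω E i)) atTop
        (𝓝 (perimeter (closedBall (0 : V) ρ))) := by
  filter_upwards [ae_good hν he] with ω hω E ρ hE hP hρ hv hH
  exact tendsto_perimeter hω.1 hE hP hρ hv hH he hω.2

end Pool.Agent.H89G
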